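import Pool.Agent.Lib.MP_7ed9c3_nt.Aw.Spec

/-!
# MP_7ed9c3_nt, Aw: almost everywhere some block has a large energy
-/

set_option autoImplicit false

namespace MP7ed9c3.Aw

open NumberField IsDedekindDomain Filter Topology MeasureTheory Metric

private noncomputable def Blocks_v (h R' : ℝ) (c : ℕ → ℂ) (I : ℕ) (M nn : ℕ → ℕ) (m : ℕ)
    (x : Σ i : Fin I, Fin (nn i)) : ℂ :=
  if m ∈ Finset.Ioc (M x.1) (M (x.1 + 1)) then
    c m * gT h x.2 m * ((R' ^ (x.2 : ℕ) /
      √(I * vS h R' c (Finset.Ioc (M x.1) (M (x.1 + 1))) (nn x.1)) : ℝ) : ℂ)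
  else 0

private def Blocks_b (I : ℕ) (M : ℕ → ℕ) (m : ℕ) : ℕ :=
  ((Finset.range I).filter (fun i => M (i + 1) < m)).card

private theorem Blocks_mono {I : ℕ} {M : ℕ → ℕ} (hM : ∀ i < I, M i < M (i + 1)) {i j : ℕ}
    (hij : i ≤ j) (hj : j ≤ I) : M i ≤ M j := by
  induction j, hij using Nat.le_induction with
  | base => exact le_rfl
  | succ n hn ih => exact (ih (by omega)).trans (hM n (by omega)).le

private theorem Blocks_blk {I : ℕ} {M : ℕ → ℕ} (hM : ∀ i < I, M i < M (i + 1)) {i m : ℕ}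
    (hi : i < I) (hm : m ∈ Finset.Ioc (M i) (M (i + 1))) : Blocks_b I M m = i := by
  rw [Finset.mem_Ioc] at hm
  have h1 : (Finset.range I).filter (fun k => M (k + 1) < m) = Finset.range i := by
    ext k
    simp only [Finset.mem_filter, Finset.mem_range]
    constructor
    · rintro ⟨hk, hkm⟩
      by_contra hki
      have h2 := Blocks_mono hM (show i + 1 ≤ k + 1 by omega) (by omega)
      omega
    · intro hk
      have h2 := Blocks_mono hM (show k + 1 ≤ i by omega) (by omega)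
      exact ⟨by omega, by omega⟩
  rw [Blocks_b, h1, Finset.card_range]

private theorem Blocks_sub {I : ℕ} {M : ℕ → ℕ} (hM : ∀ i < I, M i < M (i + 1)) {i : ℕ}
    (hi : i < I) : Finset.Ioc (M i) (M (i + 1)) ⊆ Finset.Ioc (M 0) (M I) := by
  intro m hm
  rw [Finset.mem_Ioc] at hm ⊢
  have h1 := Blocks_mono hM (Nat.zero_le i) hi.le
  have h2 := Blocks_mono hM (show i + 1 ≤ I by omega) le_rfl
  omega

/-- Sums over the prime powers of the range of terms supported on one block. -/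
private theorem Blocks_sum {α : Type} [AddCommMonoid α] {I : ℕ} {M : ℕ → ℕ}
    (hM : ∀ i < I, M i < M (i + 1)) {i : ℕ} (hi : i < I) (S : Finset ℕ)
    (hS : ∀ m, m ∈ S ↔ m ∈ Finset.Ioc (M 0) (M I) ∧ IsPrimePow m) (f : ℕ → α)
    (hf : ∀ m, ¬ IsPrimePow m → f m = 0) :
    ∑ m ∈ S, (if m ∈ Finset.Ioc (M i) (M (i + 1)) then f m else 0) =
      ∑ m ∈ Finset.Ioc (M i) (M (i + 1)), f m := by
  classical
  rw [← Finset.sum_filter]
  refine Finset.sum_subset ?_ ?_
  · intro m hm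
    exact (Finset.mem_filter.mp hm).2
  · intro m hm hm2
    by_contra hne
    apply hm2
    rw [Finset.mem_filter, hS]
    refine ⟨⟨Blocks_sub hM hi hm, ?_⟩, hm⟩
    by_contra hp
    exact hne (hf m hp)

private theorem Blocks_normsq {h R' : ℝ} (hR : 0 < R') (c : ℕ → ℂ) (n m : ℕ) {q : ℝ}
    (hq : 0 < q) :
    ‖c m * gT h n m * ((R' ^ n / √q : ℝ) : ℂ)‖ ^ 2 =
      ‖c m‖ ^ 2 * (R' ^ (2 * n) * ‖gT h n m‖ ^ 2) / q := by
  have h1 : ‖((R' ^ n / √q : ℝ) : ℂ)‖ = R' ^ n / √q := by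
    rw [Complex.norm_real, Real.norm_of_nonneg (by positivity)]
  rw [norm_mul, norm_mul, h1, mul_pow, mul_pow, div_pow, Real.sq_sqrt hq.le, ← pow_mul,
    mul_comm n 2]
  ring

private theorem Blocks_uu {h R' : ℝ} (hR : 0 < R') (c : ℕ → ℂ) {I : ℕ} {M nn : ℕ → ℕ}
    (hpos : ∀ i < I, 0 < vS h R' c (Finset.Ioc (M i) (M (i + 1))) (nn i)) (m : ℕ) :
    uu (Blocks_v h R' c I M nn) m = ∑ i ∈ Finset.range I,
      if m ∈ Finset.Ioc (M i) (M (i + 1)) then
        wS h R' c (nn i) m / (I * vS h R' c (Finset.Ioc (M i) (M (i + 1))) (nn i)) else 0 := by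
  rw [uu, Fintype.sum_sigma, Finset.sum_range]
  refine Finset.sum_congr rfl fun i _ => ?_
  have hI : (0 : ℝ) < I := by
    have := i.2
    exact_mod_cast (by omega : 0 < I)
  have hq : 0 < (I : ℝ) * vS h R' c (Finset.Ioc (M i) (M (i + 1))) (nn i) :=
    mul_pos hI (hpos i i.2)
  by_cases hm : m ∈ Finset.Ioc (M i) (M (i + 1))
  · rw [if_pos hm, wS, Finset.mul_sum, Finset.sum_div, Finset.sum_range]
    refine Finset.sum_congr rfl fun n _ => ?_
    simp only [Blocks_v]
    rw [if_pos hm]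
    exact Blocks_normsq hR c n m hq
  · rw [if_neg hm]
    refine Finset.sum_eq_zero fun n _ => ?_
    simp only [Blocks_v]
    rw [if_neg hm]
    simp

private theorem Blocks_uu_in {h R' : ℝ} (hR : 0 < R') (c : ℕ → ℂ) {I : ℕ} {M nn : ℕ → ℕ}
    (hM : ∀ i < I, M i < M (i + 1))
    (hpos : ∀ i < I, 0 < vS h R' c (Finset.Ioc (M i) (M (i + 1))) (nn i)) {i m : ℕ}
    (hi : i < I) (hm : m ∈ Finset.Ioc (M i) (M (i + 1))) :
    uu (Blocks_v h R' c I M nn) m =
      wS h R' c (nn i) m / (I * vS h R' c (Finset.Ioc (M i) (M (i + 1))) (nn i)) := by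
  rw [Blocks_uu hR c hpos m, Finset.sum_eq_single i]
  · rw [if_pos hm]
  · intro k hk hki
    rw [if_neg]
    intro hmk
    exact hki ((Blocks_blk hM (Finset.mem_range.mp hk) hmk).symm.trans (Blocks_blk hM hi hm))
  · intro hni
    exact absurd (Finset.mem_range.mpr hi) hni

private theorem Blocks_dE {h R' : ℝ} (hR : 0 < R') {c : ℕ → ℂ} {C : ℝ} (hc : Coefs c C) {I : ℕ}
    {M nn : ℕ → ℕ} (hM : ∀ i < I, M i < M (i + 1))
    (hpos : ∀ i < I, 0 < vS h R' c (Finset.Ioc (M i) (M (i + 1))) (nn i)) (S : Finset ℕ)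
    (hS : ∀ m, m ∈ S ↔ m ∈ Finset.Ioc (M 0) (M I) ∧ IsPrimePow m) (t : ℝ) :
    dE S (Blocks_v h R' c I M nn) t = ∑ i ∈ Finset.range I,
      en h R' c (Finset.Ioc (M i) (M (i + 1))) (nn i) t /
        (I * vS h R' c (Finset.Ioc (M i) (M (i + 1))) (nn i)) := by
  rw [dE, Fintype.sum_sigma, Finset.sum_range]
  refine Finset.sum_congr rfl fun i _ => ?_
  have hI : (0 : ℝ) < I := by
    have := i.2
    exact_mod_cast (by omega : 0 < I)
  have hq : 0 < (I : ℝ) * vS h R' c (Finset.Ioc (M i) (M (i + 1))) (nn i) :=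
    mul_pos hI (hpos i i.2)
  rw [en, Finset.sum_div, Finset.sum_range]
  refine Finset.sum_congr rfl fun n _ => ?_
  have h1 : ∑ m ∈ S, Blocks_v h R' c I M nn m ⟨i, n⟩ * (m : ℂ) ^ (-(t * Complex.I)) =
      aS h c (Finset.Ioc (M i) (M (i + 1))) n t * ((R' ^ (n : ℕ) /
        √(I * vS h R' c (Finset.Ioc (M i) (M (i + 1))) (nn i)) : ℝ) : ℂ) := by
    rw [aS, Finset.sum_mul, ← Blocks_sum hM i.2 S hS _ (fun m hp => by rw [hc.1 m hp]; simp)]
    refine Finset.sum_congr rfl fun m _ => ?_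
    simp only [Blocks_v]
    split_ifs
    · ring
    · simp
  rw [h1, norm_mul, mul_pow]
  have h2 : ‖((R' ^ (n : ℕ) / √(I * vS h R' c (Finset.Ioc (M i) (M (i + 1))) (nn i)) : ℝ) :
      ℂ)‖ = R' ^ (n : ℕ) / √(I * vS h R' c (Finset.Ioc (M i) (M (i + 1))) (nn i)) := by
    rw [Complex.norm_real, Real.norm_of_nonneg (by positivity)]
  rw [h2, div_pow, Real.sq_sqrt hq.le, ← pow_mul, mul_comm (n : ℕ) 2]
  ring

theorem tBlocks (h1 : S_Cheb) : S_Blocks := by
  classical
  intro h R' C τ a b c I M nn hR hc hI hτ hab hM hpos hw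
  have hI0 : (0 : ℝ) < I := by exact_mod_cast (by omega : 0 < I)
  set S : Finset ℕ := (Finset.Ioc (M 0) (M I)).filter IsPrimePow with hSdef
  have hS : ∀ m, m ∈ S ↔ m ∈ Finset.Ioc (M 0) (M I) ∧ IsPrimePow m := fun m => by
    rw [hSdef, Finset.mem_filter]
  have hwz : ∀ n₀ m : ℕ, ¬ IsPrimePow m → wS h R' c n₀ m = 0 := by
    intro n₀ m hp
    rw [wS, hc.1 m hp]
    simp
  have hwn : ∀ n₀ m : ℕ, 0 ≤ wS h R' c n₀ m := by
    intro n₀ m
    rw [wS]
    positivity
  have hblock : ∀ i < I, ∑ m ∈ Finset.Ioc (M i) (M (i + 1)), wS h R' c (nn i) m /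
      (I * vS h R' c (Finset.Ioc (M i) (M (i + 1))) (nn i)) = 1 / I := by
    intro i hi
    rw [← Finset.sum_div]
    have h2 := hpos i hi
    change vS h R' c (Finset.Ioc (M i) (M (i + 1))) (nn i) / _ = _
    field_simp
  have hsum : ∑ m ∈ S, uu (Blocks_v h R' c I M nn) m = 1 := by
    simp only [Blocks_uu hR c hpos]
    rw [Finset.sum_comm]
    have h2 : ∀ i ∈ Finset.range I, ∑ m ∈ S, (if m ∈ Finset.Ioc (M i) (M (i + 1)) then
        wS h R' c (nn i) m / (I * vS h R' c (Finset.Ioc (M i) (M (i + 1))) (nn i)) else 0) =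
        1 / (I : ℝ) := by
      intro i hi
      rw [Blocks_sum hM (Finset.mem_range.mp hi) S hS _
        (fun m hp => by rw [hwz _ m hp, zero_div]), hblock i (Finset.mem_range.mp hi)]
    rw [Finset.sum_congr rfl h2, Finset.sum_const, Finset.card_range, nsmul_eq_mul]
    field_simp
  have hout : ∀ m, (∀ i < I, m ∉ Finset.Ioc (M i) (M (i + 1))) →
      uu (Blocks_v h R' c I M nn) m = 0 := by
    intro m hm
    rw [Blocks_uu hR c hpos]
    exact Finset.sum_eq_zero fun i hi => if_neg (hm i (Finset.mem_range.mp hi))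
  have hdisj : ∀ m ∈ S, ∀ m' ∈ S, Blocks_b I M m ≠ Blocks_b I M m' →
      sp (Blocks_v h R' c I M nn) m m' = 0 := by
    intro m _ m' _ hne
    rw [sp, norm_eq_zero]
    refine Finset.sum_eq_zero fun x _ => ?_
    simp only [Blocks_v]
    by_cases hm : m ∈ Finset.Ioc (M x.1) (M (x.1 + 1))
    · by_cases hm' : m' ∈ Finset.Ioc (M x.1) (M (x.1 + 1))
      · exact absurd ((Blocks_blk hM x.1.2 hm).trans (Blocks_blk hM x.1.2 hm').symm) hne
      · rw [if_neg hm']
        simp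
    · rw [if_neg hm]
      simp
  have hδ : ∀ j : ℕ, ∑ m ∈ S with Blocks_b I M m = j, uu (Blocks_v h R' c I M nn) m ≤
      1 / (I : ℝ) := by
    intro j
    by_cases hj : j < I
    · rw [← hblock j hj]
      have h2 : ∀ m ∈ S.filter (fun m => Blocks_b I M m = j),
          uu (Blocks_v h R' c I M nn) m = if m ∈ Finset.Ioc (M j) (M (j + 1)) then
            wS h R' c (nn j) m / (I * vS h R' c (Finset.Ioc (M j) (M (j + 1))) (nn j))
          else 0 := by
        intro m hm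
        have hmj := (Finset.mem_filter.mp hm).2
        by_cases hmj2 : m ∈ Finset.Ioc (M j) (M (j + 1))
        · rw [if_pos hmj2, Blocks_uu_in hR c hM hpos hj hmj2]
        · rw [if_neg hmj2]
          refine hout m fun i hi hmi => ?_
          have h3 := Blocks_blk hM hi hmi
          rw [hmj] at h3
          rw [h3] at hmj2
          exact hmj2 hmi
      rw [Finset.sum_congr rfl h2, ← Finset.sum_filter]
      refine Finset.sum_le_sum_of_subset_of_nonneg ?_ ?_
      · intro m hm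
        exact (Finset.mem_filter.mp hm).2
      · intro m _ _
        exact div_nonneg (hwn _ _) (mul_pos hI0 (hpos j hj)).le
    · have h2 : ∑ m ∈ S with Blocks_b I M m = j, uu (Blocks_v h R' c I M nn) m = 0 := by
        refine Finset.sum_eq_zero fun m hm => ?_
        have hmj := (Finset.mem_filter.mp hm).2
        refine hout m fun i hi hmi => ?_
        have h3 := Blocks_blk hM hi hmi
        omega
      rw [h2]
      positivity
  have hτ' : ∀ m ∈ S, uu (Blocks_v h R' c I M nn) m ≤ τ := by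
    intro m _
    by_cases hex : ∃ i, i < I ∧ m ∈ Finset.Ioc (M i) (M (i + 1))
    · obtain ⟨i, hi, hmi⟩ := hex
      rw [Blocks_uu_in hR c hM hpos hi hmi, div_le_iff₀ (mul_pos hI0 (hpos i hi))]
      refine (hw i hi m hmi).trans ?_
      have h2 : (1 : ℝ) ≤ I := by exact_mod_cast hI
      have h3 := hpos i hi
      have h4 : vS h R' c (Finset.Ioc (M i) (M (i + 1))) (nn i) ≤
          I * vS h R' c (Finset.Ioc (M i) (M (i + 1))) (nn i) := le_mul_of_one_le_left h3.le h2
      exact mul_le_mul_of_nonneg_left h4 hτ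
    · rw [hout m fun i hi hmi => hex ⟨i, hi, hmi⟩]
      exact hτ
  have hmain := h1 (Σ i : Fin I, Fin (nn i)) S (Blocks_v h R' c I M nn) (Blocks_b I M) (M I)
    (1 / I) τ a b hab (fun m hm => ⟨((hS m).mp hm).2, (Finset.mem_Ioc.mp ((hS m).mp hm).1).2⟩)
    (by positivity) hτ hsum hdisj hδ hτ'
  refine (measure_mono ?_).trans hmain
  rintro t ⟨ht, hen⟩
  refine ⟨ht, ?_⟩
  rw [Blocks_dE hR hc hM hpos S hS t]
  have h2 : ∀ i ∈ Finset.range I, en h R' c (Finset.Ioc (M i) (M (i + 1))) (nn i) t /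
      (I * vS h R' c (Finset.Ioc (M i) (M (i + 1))) (nn i)) ≤ 1 / (2 * (I : ℝ)) := by
    intro i hi
    have hi' := Finset.mem_range.mp hi
    have h3 := hpos i hi'
    rw [div_le_div_iff₀ (mul_pos hI0 h3) (by positivity)]
    have h4 := hen i hi'
    have h5 := mul_le_mul_of_nonneg_right h4 (show (0 : ℝ) ≤ 2 * I by positivity)
    linarith
  refine (Finset.sum_le_sum h2).trans ?_
  rw [Finset.sum_const, Finset.card_range, nsmul_eq_mul]
  have h6 : (I : ℝ) * (1 / (2 * I)) = 1 / 2 := by field_simp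
  rw [h6]

end MP7ed9c3.Aw
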