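import Pool.Agent.Lib.MP_7ed9c3_nt.Aw.Spec

/-!
# MP_7ed9c3_nt, part Aw: the Chebyshev inequality for the energy
-/

set_option autoImplicit false

namespace MP7ed9c3.Aw

open NumberField IsDedekindDomain Filter Topology MeasureTheory Metric

private theorem Cheb_cont {ι : Type} [Fintype ι] (S : Finset ℕ) (v : ℕ → ι → ℂ)
    (hS : ∀ m ∈ S, 1 ≤ m) : Continuous (dE S v) := by
  unfold dE
  refine continuous_finsetSum _ fun i _ => (Continuous.norm ?_).pow 2
  refine continuous_finsetSum _ fun m hm => continuous_const.mul ?_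
  have hm0 : (m : ℂ) ≠ 0 := by
    have := hS m hm
    exact_mod_cast (by omega : m ≠ 0)
  exact Continuous.const_cpow (by fun_prop) (Or.inl hm0)

private theorem Cheb_int (D : ℝ → ℝ) (hD : Continuous D) (a b : ℝ) :
    ∫ t in a..b, (D t - 1) ^ 2 =
      (∫ t in a..b, D t ^ 2) - 2 * (∫ t in a..b, D t) + (b - a) := by
  have h1 : ∀ t, (D t - 1) ^ 2 = (D t ^ 2 - 2 * D t) + 1 := fun t => by ring
  simp_rw [h1]
  rw [intervalIntegral.integral_add, intervalIntegral.integral_sub,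
    intervalIntegral.integral_const_mul]
  · simp
  · exact (hD.pow 2).intervalIntegrable _ _
  · exact (hD.const_mul 2).intervalIntegrable _ _
  · exact ((hD.pow 2).sub (hD.const_mul 2)).intervalIntegrable _ _
  · exact continuous_const.intervalIntegrable _ _

private theorem Cheb_markov (D : ℝ → ℝ) (hD : Continuous D) (a b : ℝ) (hab : a ≤ b) (X : ℝ)
    (hX : ∫ t in a..b, (D t - 1) ^ 2 ≤ X) :
    volume {t : ℝ | t ∈ Set.Icc a b ∧ D t ≤ 1 / 2} ≤ ENNReal.ofReal (4 * X) := by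
  have hcont : Continuous fun t => (D t - 1) ^ 2 := (hD.sub continuous_const).pow 2
  have hint : Integrable (fun t => (D t - 1) ^ 2) (volume.restrict (Set.Icc a b)) :=
    hcont.integrableOn_Icc
  have hM := mul_meas_ge_le_integral_of_nonneg (μ := volume.restrict (Set.Icc a b))
    (Eventually.of_forall fun t => sq_nonneg (D t - 1)) hint (1 / 4)
  have hI : ∫ t, (D t - 1) ^ 2 ∂(volume.restrict (Set.Icc a b)) =
      ∫ t in a..b, (D t - 1) ^ 2 := by
    rw [intervalIntegral.integral_of_le hab, integral_Icc_eq_integral_Ioc]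
  rw [hI] at hM
  have hmeas : MeasurableSet {t : ℝ | (1 / 4 : ℝ) ≤ (D t - 1) ^ 2} :=
    measurableSet_le measurable_const hcont.measurable
  have hsub : {t : ℝ | t ∈ Set.Icc a b ∧ D t ≤ 1 / 2} ⊆
      {t : ℝ | (1 / 4 : ℝ) ≤ (D t - 1) ^ 2} ∩ Set.Icc a b := by
    rintro t ⟨h1, h2⟩
    refine ⟨?_, h1⟩
    show (1 / 4 : ℝ) ≤ (D t - 1) ^ 2
    nlinarith
  calc volume {t : ℝ | t ∈ Set.Icc a b ∧ D t ≤ 1 / 2} ≤
        volume ({t : ℝ | (1 / 4 : ℝ) ≤ (D t - 1) ^ 2} ∩ Set.Icc a b) := measure_mono hsub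
    _ = volume.restrict (Set.Icc a b) {t : ℝ | (1 / 4 : ℝ) ≤ (D t - 1) ^ 2} :=
        (Measure.restrict_apply hmeas).symm
    _ = ENNReal.ofReal ((volume.restrict (Set.Icc a b)).real
          {t : ℝ | (1 / 4 : ℝ) ≤ (D t - 1) ^ 2}) := by
        rw [Measure.real, ENNReal.ofReal_toReal (measure_ne_top _ _)]
    _ ≤ ENNReal.ofReal (4 * X) := ENNReal.ofReal_le_ofReal (by linarith)

theorem tCheb (h1 : S_MeanA) (h2 : S_MeanB) (h3 : S_Quads) : S_Cheb := by
  intro ι _ S v blk M δ τ a b hab hS hδ hτ hsum hblk hδb hτb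
  have hS1 : ∀ m ∈ S, 1 ≤ m ∧ m ≤ M := fun m hm => ⟨(hS m hm).1.pos, (hS m hm).2⟩
  have hD : Continuous (dE S v) := Cheb_cont S v fun m hm => (hS1 m hm).1
  have hA := h1 ι S v M a b hab hS1 hsum
  have hB := h2 ι S v M a b hab hS1 hsum
  have hQ := h3 ι S v blk M δ τ hS hδ hτ hsum hblk hδb hτb
  refine Cheb_markov (dE S v) hD a b hab _ ?_
  rw [Cheb_int (dE S v) hD a b]
  have hba : 0 ≤ b - a := by linarith
  have h4 : (b - a) * quad S v ≤ (b - a) * (1 + δ + τ * (Nat.log 2 M : ℝ) ^ 2) :=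
    mul_le_mul_of_nonneg_left hQ hba
  have h5 : (M : ℝ) ^ 2 ≤ (M : ℝ) ^ 4 := by
    rcases Nat.eq_zero_or_pos M with h | h
    · rw [h]
      norm_num
    · exact pow_le_pow_right₀ (by exact_mod_cast h) (by norm_num)
  nlinarith

end MP7ed9c3.Aw
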