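import Pool.Agent.Lib.MP_7ed9c3_nt.Aw.SpecR

/-!
# One zero in almost every window, with the rate of `Aw/SpecQ.lean`
-/

set_option autoImplicit false

namespace MP7ed9c3.Aw

open NumberField IsDedekindDomain Filter Topology MeasureTheory Metric

private theorem CoreQ_exp (D V T h : ℝ) (hV : 2 ≤ V) (hT : V ≤ T) (hh : 0 < h)
    (hD : D ≤ h * rate V T) :
    Real.exp (D / h) ≤ V ∧ V ^ Real.exp (D / h) ≤ T := by
  have hV0 : 0 < V := by linarith
  have hT0 : 0 < T := by linarith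
  have hlV : 0 < Real.log V := Real.log_pos (by linarith)
  have hlT : 0 < Real.log T := Real.log_pos (by linarith)
  have hr : D / h ≤ rate V T := by
    rw [div_le_iff₀ hh]
    linarith
  have h1 : D / h ≤ Real.log V := hr.trans (min_le_right _ _)
  have h2 : D / h ≤ Real.log (Real.log T / Real.log V) := hr.trans (min_le_left _ _)
  have e1 : Real.exp (D / h) ≤ V := by
    calc Real.exp (D / h) ≤ Real.exp (Real.log V) := Real.exp_le_exp.mpr h1
      _ = V := Real.exp_log hV0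
  have e2 : Real.exp (D / h) ≤ Real.log T / Real.log V := by
    calc Real.exp (D / h) ≤ Real.exp (Real.log (Real.log T / Real.log V)) :=
          Real.exp_le_exp.mpr h2
      _ = Real.log T / Real.log V := Real.exp_log (div_pos hlT hlV)
  refine ⟨e1, ?_⟩
  have e3 : Real.log V * Real.exp (D / h) ≤ Real.log T := by
    have := mul_le_mul_of_nonneg_left e2 hlV.le
    rwa [mul_div_cancel₀ _ hlV.ne'] at this
  rw [Real.rpow_def_of_pos hV0]
  calc Real.exp (Real.log V * Real.exp (D / h)) ≤ Real.exp (Real.log T) :=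
        Real.exp_le_exp.mpr e3
    _ = T := Real.exp_log hT0

theorem tCoreQ (h1 : S_CoreR) : S_CoreQ := by
  intro C b k hC hb σ₁ ε hσ hσb hε
  obtain ⟨x, hx1, hx2, H⟩ := h1 C b k hC hb σ₁ ε hσ hσb hε
  refine ⟨x, hx1, hx2, ?_⟩
  intro η B hη hB
  obtain ⟨D, V₀, hD, hV₀, H'⟩ := H η B hη hB
  refine ⟨D, 1, max V₀ 2, hD, le_refl _, ?_⟩
  intro V T t₀ h hV hT hh hh1 hA c hc hlow G hG1 hG2 hG3
  have hV0 : V₀ ≤ V := (le_max_left _ _).trans hV
  have hV2 : 2 ≤ V := (le_max_right _ _).trans hV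
  rw [Real.rpow_one] at hT
  obtain ⟨e1, e2⟩ := CoreQ_exp D V T h hV2 hT hh hA
  exact H' V T t₀ h hV0 hh hh1 e1 e2 c hc hlow G hG1 hG2 hG3

end MP7ed9c3.Aw
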