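import Pool.Agent.Lib.MP_7ed9c3_nt.Aw.SpecR

/-!
# MP_7ed9c3_nt, part Aw: one zero in almost every window, the height tends to 0 (proof of `S_CoreR`)
-/

set_option autoImplicit false

namespace MP7ed9c3.Aw

open NumberField IsDedekindDomain Filter Topology MeasureTheory Metric

/-- The numbers `M i` are at least `1`. -/
private theorem CoreR_one (I : ℕ) (M : ℕ → ℕ) (h0 : M 0 = 1) (hM : ∀ i < I, M i < M (i + 1)) :
    ∀ i : ℕ, i ≤ I → 1 ≤ M i := by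
  intro i
  induction i with
  | zero => intro _; omega
  | succ n ih =>
    intro hn
    have h1 := ih (by omega)
    have h2 := hM n (by omega)
    omega

/-- The boundary strips have measure at most `2h`. -/
private theorem CoreR_strip (T h t₀ : ℝ) (hh : 0 < h) :
    volume (Set.Icc (t₀ - T) (t₀ - T + h) ∪ Set.Icc (t₀ + T - h) (t₀ + T)) ≤
      ENNReal.ofReal (2 * h) := by
  refine (measure_union_le _ _).trans ?_
  rw [Real.volume_Icc, Real.volume_Icc, ← ENNReal.ofReal_add (by linarith) (by linarith)]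
  apply ENNReal.ofReal_le_ofReal
  linarith

/-- A window inside the box. -/
private theorem CoreR_sub (σ₁ T h t t₀ : ℝ) (ht : |t - t₀| < T - h) :
    win σ₁ h t ⊆ win σ₁ T t₀ := by
  rintro s ⟨h1, h2⟩
  refine ⟨h1, ?_⟩
  have h3 : s.im - t₀ = (s.im - t) + (t - t₀) := by ring
  rw [h3]
  exact (abs_add_le _ _).trans_lt (by linarith)

/-- The inequality for one block. -/
private theorem CoreR_half (A V m v : ℝ) (hA : 2 * A ≤ V) (hm : 0 ≤ m)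
    (hv : (V + m + 1) ^ 3 ≤ v) : A * (V + m + 1) ^ 2 ≤ v / 2 := by
  have h1 : 2 * A * (V + m + 1) ^ 2 ≤ (V + m + 1) * (V + m + 1) ^ 2 := by
    apply mul_le_mul_of_nonneg_right _ (sq_nonneg _)
    linarith
  have h2 : (V + m + 1) * (V + m + 1) ^ 2 = (V + m + 1) ^ 3 := by ring
  linarith

/-- The mean energies are at least `V³`. -/
private theorem CoreR_cube (V m v : ℝ) (hV : 0 ≤ V) (hm : 0 ≤ m) (hv : (V + m + 1) ^ 3 ≤ v) :
    V ^ 3 ≤ v := by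
  have h1 : V ^ 3 ≤ (V + m + 1) ^ 3 := pow_le_pow_left₀ hV (by linarith) 3
  linarith

/-- The points which are not in the boundary strips. -/
private theorem CoreR_mid (T h t t₀ : ℝ) (ht : |t - t₀| < T)
    (h1 : t ∉ Set.Icc (t₀ - T) (t₀ - T + h) ∪ Set.Icc (t₀ + T - h) (t₀ + T)) :
    |t - t₀| < T - h := by
  rw [abs_lt] at ht ⊢
  simp only [Set.mem_union, Set.mem_Icc, not_or, not_and, not_le] at h1
  obtain ⟨h2, h3⟩ := h1
  have h4 := h2 (by linarith [ht.1])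
  constructor
  · linarith
  · by_contra h5
    have h6 : t₀ + T - h ≤ t := by linarith
    have h7 := h3 h6
    linarith [ht.2]

/-- The numbers: the exponent `κ₁ = (D₂/δ)^I`. -/
private theorem CoreR_num (D₁ D₂ h V : ℝ) (I : ℕ) (hD₁ : 1 ≤ D₁) (hD₂ : 1 ≤ D₂) (hI : 1 ≤ I)
    (hh : 0 < h) (hh1 : h ≤ 1)
    (hV : Real.exp ((4 * (I * (Real.log D₂ + D₁)) + 6) / h) ≤ V) :
    1 ≤ (D₂ / Real.exp (-(D₁ / h))) ^ I ∧
      (D₂ / Real.exp (-(D₁ / h))) ^ I ≤ V ^ (1 / 4 : ℝ) ∧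
      1 / Real.exp (-(D₁ / h)) ≤ V ^ (1 / 4 : ℝ) ∧
      5 * (D₂ / Real.exp (-(D₁ / h))) ^ I + 1 ≤
        Real.exp ((4 * (I * (Real.log D₂ + D₁)) + 6) / h) := by
  have hD₂0 : 0 < D₂ := by linarith
  have hlog : 0 ≤ Real.log D₂ := Real.log_nonneg hD₂
  have hδ1 : Real.exp (-(D₁ / h)) ≤ 1 := by
    rw [Real.exp_le_one_iff]
    have : 0 < D₁ / h := by positivity
    linarith
  have hδ0 : 0 < Real.exp (-(D₁ / h)) := Real.exp_pos _
  have e1 : D₂ / Real.exp (-(D₁ / h)) = Real.exp (Real.log D₂ + D₁ / h) := by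
    rw [Real.exp_add, Real.exp_log hD₂0, Real.exp_neg]
    field_simp
  have hbase : 1 ≤ D₂ / Real.exp (-(D₁ / h)) := by
    rw [e1]
    exact Real.one_le_exp (by positivity)
  have hκ1 : 1 ≤ (D₂ / Real.exp (-(D₁ / h))) ^ I := one_le_pow₀ hbase
  have e2 : (D₂ / Real.exp (-(D₁ / h))) ^ I = Real.exp (I * (Real.log D₂ + D₁ / h)) := by
    rw [e1, ← Real.exp_nat_mul]
  have e3 : (I : ℝ) * (Real.log D₂ + D₁ / h) ≤ I * (Real.log D₂ + D₁) / h := by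
    rw [le_div_iff₀ hh, mul_assoc]
    apply mul_le_mul_of_nonneg_left _ (Nat.cast_nonneg I)
    have : (Real.log D₂ + D₁ / h) * h = Real.log D₂ * h + D₁ := by field_simp
    rw [this]
    nlinarith
  have hκ4 : 7 * ((D₂ / Real.exp (-(D₁ / h))) ^ I) ^ 4 ≤
      Real.exp ((4 * (I * (Real.log D₂ + D₁)) + 6) / h) := by
    have e4 : (4 * (I * (Real.log D₂ + D₁)) + 6) / h =
        6 / h + 4 * (I * (Real.log D₂ + D₁) / h) := by ring
    rw [e4, Real.exp_add, e2, ← Real.exp_nat_mul]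
    have h7 : 7 ≤ Real.exp (6 / h) := by
      have h8 := Real.add_one_le_exp (6 / h)
      have h9 : 6 ≤ 6 / h := by
        rw [le_div_iff₀ hh]
        nlinarith
      linarith
    apply mul_le_mul h7 _ (Real.exp_pos _).le (Real.exp_pos _).le
    rw [Real.exp_le_exp]
    push_cast
    linarith
  have hδκ : 1 / Real.exp (-(D₁ / h)) ≤ (D₂ / Real.exp (-(D₁ / h))) ^ I :=
    (div_le_div_of_nonneg_right hD₂ hδ0.le).trans (le_self_pow₀ hbase (by omega))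
  clear e2
  generalize (D₂ / Real.exp (-(D₁ / h))) ^ I = κ₁ at hκ1 hκ4 hδκ ⊢
  have hκ0 : 0 ≤ κ₁ := by linarith
  have hκκ : κ₁ ≤ κ₁ ^ 4 := le_self_pow₀ hκ1 (by norm_num)
  have hκV4 : κ₁ ^ 4 ≤ V := by
    have : 0 ≤ κ₁ ^ 4 := by positivity
    linarith
  have hκV : κ₁ ≤ V ^ (1 / 4 : ℝ) := by
    have e5 : κ₁ = (κ₁ ^ 4) ^ (1 / 4 : ℝ) := by
      rw [← Real.rpow_natCast κ₁ 4, ← Real.rpow_mul hκ0]
      norm_num
    rw [e5]
    exact Real.rpow_le_rpow (by positivity) hκV4 (by norm_num)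
  exact ⟨hκ1, hκV, hδκ.trans hκV, by linarith⟩

theorem tCoreR (h1 : S_RadQ) (h2 : S_WBQ) (h3 : S_WinAQ) (h4 : S_ScaleQ) (h5 : S_Blocks)
    (h6 : S_NumCQ) : S_CoreR := by
  intro C b k hC hb σ₁ ε hσ hσb hε
  obtain ⟨D₁, hD₁, hRad⟩ := h1 σ₁ b hσ hσb hb
  obtain ⟨A₁, hA₁, hWin⟩ := h3 C hC
  refine ⟨(σ₁ + 4 * b) / 5, by linarith, by linarith, ?_⟩
  intro η B hη hB
  obtain ⟨I, hI, hI1⟩ : ∃ I : ℕ, 16 / ε ≤ (I : ℝ) ∧ 1 ≤ I := by
    refine ⟨⌈16 / ε⌉₊ + 1, ?_, by omega⟩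
    push_cast
    have := Nat.le_ceil (16 / ε)
    linarith
  obtain ⟨D₂, V₁, hD₂, hV₁, hSc⟩ := h4 C η B k hC hη hB
  set A : ℝ := max A₁ (C ^ 2) with hAdef
  have hA : 0 ≤ A := hA₁.trans (le_max_left _ _)
  obtain ⟨V₂, hV₂, hNum⟩ := h6 ε A I hε hA hI
  have hlog : 0 ≤ Real.log D₂ := Real.log_nonneg hD₂
  refine ⟨4 * (I * (Real.log D₂ + D₁)) + 6, max V₁ V₂, ?_, hV₁.trans (le_max_left _ _), ?_⟩
  · have : (0 : ℝ) ≤ I * (Real.log D₂ + D₁) := by positivity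
    linarith
  intro V T t₀ h hV hh hh1 hexp hT c hc hL G hG hGb hGe
  obtain ⟨r₀, R, R', R₂, R₁, hR, hell, hGap⟩ := hRad h hh hh1
  have hVa : V₁ ≤ V := (le_max_left _ _).trans hV
  have hVb : V₂ ≤ V := (le_max_right _ _).trans hV
  have hV1 : 1 ≤ V := hV₁.trans hVa
  have hV0 : 0 ≤ V := by linarith
  have hV3 : 0 < V ^ 3 := by positivity
  have hTpos : 0 < T := (Real.rpow_pos_of_pos (by linarith) _).trans_le hT
  obtain ⟨hκ1, hκV, hδV, hκT⟩ := CoreR_num D₁ D₂ h V I hD₁ hD₂ hI1 hh hh1 hexp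
  set δ : ℝ := Real.exp (-(D₁ / h)) with hδdef
  have hδ : 0 < δ := Real.exp_pos _
  have hT' : V ^ (5 * (D₂ / δ) ^ I + 1) ≤ T :=
    (Real.rpow_le_rpow_of_exponent_le hV1 hκT).trans hT
  have h8 : 8 / δ ≤ V :=
    (hNum V T ((D₂ / δ) ^ I) δ h 1 hVb hδ hδV hκ1 hκV hT' le_rfl
      (by rw [Nat.cast_one]; exact Real.one_le_rpow hV1 (by linarith)) hh1).1
  rw [← hell] at hL
  obtain ⟨M, nn, hM0, hM, hMI, hr, hv⟩ :=
    hSc h σ₁ b r₀ R R' R₂ R₁ δ hh hb hR hGap V hVa h8 c hc hL I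
  have hone := CoreR_one I M hM0 hM
  obtain ⟨_, hVc, hfin⟩ := hNum V T ((D₂ / δ) ^ I) δ h (M I) hVb hδ hδV hκ1 hκV hT'
    (hone I le_rfl) hMI hh1
  have hτ : 0 ≤ A / δ / V ^ 3 := by positivity
  have hR' : 0 < R' := lt_trans (lt_trans hR.r₀pos hR.lt1) hR.lt2
  have hv3 : ∀ i < I, V ^ 3 ≤ vS h R' c (Finset.Ioc (M i) (M (i + 1))) (nn i) := fun i hi =>
    CoreR_cube V (M i) _ hV0 (Nat.cast_nonneg _) (hv i hi)
  have hBl := h5 h R' C (A / δ / V ^ 3) (t₀ - T) (t₀ + T) c I M nn hR' hc hI1 hτ (by linarith) hM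
    (fun i hi => hV3.trans_le (hv3 i hi)) (by
      intro i hi m hm
      have hm1 : 1 ≤ m := by
        have := (Finset.mem_Ioc.mp hm).1
        omega
      have e1 : A / δ = A / δ / V ^ 3 * V ^ 3 := by field_simp
      calc wS h R' c (nn i) m ≤ C ^ 2 / δ :=
            h2 h σ₁ b r₀ R R' R₂ R₁ C δ hh hC hR hGap c hc (nn i) m hm1
        _ ≤ A / δ := div_le_div_of_nonneg_right (le_max_right _ _) hδ.le
        _ = A / δ / V ^ 3 * V ^ 3 := e1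
        _ ≤ A / δ / V ^ 3 * vS h R' c (Finset.Ioc (M i) (M (i + 1))) (nn i) :=
          mul_le_mul_of_nonneg_left (hv3 i hi) hτ)
  have hsub : {t : ℝ | |t - t₀| < T ∧ ∀ ρ ∈ win σ₁ h t, ρ ∈ win σ₁ T t₀ → G ρ ≠ 0} ⊆
      {t : ℝ | t ∈ Set.Icc (t₀ - T) (t₀ + T) ∧
        ∀ i < I, en h R' c (Finset.Ioc (M i) (M (i + 1))) (nn i) t ≤
          vS h R' c (Finset.Ioc (M i) (M (i + 1))) (nn i) / 2} ∪
      (Set.Icc (t₀ - T) (t₀ - T + h) ∪ Set.Icc (t₀ + T - h) (t₀ + T)) := by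
    rintro t ⟨ht, hz⟩
    by_cases hst : t ∈ Set.Icc (t₀ - T) (t₀ - T + h) ∪ Set.Icc (t₀ + T - h) (t₀ + T)
    · exact Or.inr hst
    · left
      have hw := CoreR_sub σ₁ T h t t₀ (CoreR_mid T h t t₀ ht hst)
      have ht' := abs_lt.mp ht
      refine ⟨⟨by linarith [ht'.1], by linarith [ht'.2]⟩, ?_⟩
      intro i hi
      have hen := hWin h σ₁ b r₀ R R' R₂ R₁ δ hh hR hGap c G t V hc hV0 (hG.mono hw)
        (fun s hs => hz s hs (hw hs))
        (fun s hs => hGb s (hw hs)) (fun s hs hs3 => hGe s (hw hs) hs3) (M i) (M (i + 1)) (nn i)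
        (hone (i + 1) (by omega)) (hr i hi)
      have hen' : A₁ / δ ^ 3 * (V + M i + 1) ^ 2 ≤ A / δ ^ 3 * (V + M i + 1) ^ 2 :=
        mul_le_mul_of_nonneg_right
          (div_le_div_of_nonneg_right (le_max_left _ _) (by positivity)) (sq_nonneg _)
      exact (hen.trans hen').trans
        (CoreR_half (A / δ ^ 3) V (M i) _ hVc (Nat.cast_nonneg _) (hv i hi))
  have hX : 0 ≤ 4 * ((1 / (I : ℝ) + A / δ / V ^ 3 * (Nat.log 2 (M I) : ℝ) ^ 2) *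
      ((t₀ + T) - (t₀ - T)) + 6 * (M I : ℝ) ^ 4) := by
    have e1 : (t₀ + T) - (t₀ - T) = 2 * T := by ring
    rw [e1]
    positivity
  calc volume {t : ℝ | |t - t₀| < T ∧ ∀ ρ ∈ win σ₁ h t, ρ ∈ win σ₁ T t₀ → G ρ ≠ 0}
      ≤ _ := measure_mono hsub
    _ ≤ _ := measure_union_le _ _
    _ ≤ ENNReal.ofReal (4 * ((1 / (I : ℝ) + A / δ / V ^ 3 * (Nat.log 2 (M I) : ℝ) ^ 2) *
          ((t₀ + T) - (t₀ - T)) + 6 * (M I : ℝ) ^ 4)) + ENNReal.ofReal (2 * h) :=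
        add_le_add hBl (CoreR_strip T h t₀ hh)
    _ = ENNReal.ofReal (4 * ((1 / (I : ℝ) + A / δ / V ^ 3 * (Nat.log 2 (M I) : ℝ) ^ 2) *
          ((t₀ + T) - (t₀ - T)) + 6 * (M I : ℝ) ^ 4) + 2 * h) :=
        (ENNReal.ofReal_add hX (by linarith)).symm
    _ ≤ ENNReal.ofReal (ε * T) := by
        apply ENNReal.ofReal_le_ofReal
        have e1 : (t₀ + T) - (t₀ - T) = 2 * T := by ring
        rw [e1]
        exact hfin

end MP7ed9c3.Aw
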