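import Pool.Agent.Lib.MP_7ed9c3_nt.Aw.Spec

/-!
# MP_7ed9c3_nt, Aw: upper bound for the Taylor coefficients of `m^(-phi)`
-/

set_option autoImplicit false

namespace MP7ed9c3.Aw

open NumberField IsDedekindDomain Filter Topology MeasureTheory Metric

private lemma GUp_diff {h r : ℝ} {m : ℕ} (hr : r < 1) (hm : 1 ≤ m)
    (hd : DifferentiableOn ℂ (phi h) (ball 0 1)) :
    DifferentiableOn ℂ (fun w : ℂ => (m : ℂ) ^ (-phi h w)) (ball 0 r) := by
  have hm0 : (m : ℂ) ≠ 0 := by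
    have : m ≠ 0 := by omega
    exact_mod_cast this
  intro w hw
  have hw1 : w ∈ ball (0 : ℂ) 1 := ball_subset_ball hr.le hw
  have h1 : DifferentiableAt ℂ (phi h) w := (hd w hw1).differentiableAt (isOpen_ball.mem_nhds hw1)
  exact (h1.neg.const_cpow (Or.inl hm0)).differentiableWithinAt

theorem tGUp (h1 : S_Phi) (h2 : S_Tc) : S_GUp := by
  intro h r n m hh hr hr1 hm
  obtain ⟨hd, -, hre, -, -⟩ := h1 h hh
  have hb := h2.2.2.1 n r ((m : ℝ) ^ (-ell h r)) (fun w : ℂ => (m : ℂ) ^ (-phi h w)) hr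
    (GUp_diff hr1 hm hd) ?_
  · exact hb
  · intro w hw
    have hwr : ‖w‖ ≤ r := by
      rw [mem_ball, dist_zero_right] at hw
      exact hw.le
    have hmpos : (0 : ℝ) < m := by exact_mod_cast hm
    have hm1 : (1 : ℝ) ≤ m := by exact_mod_cast hm
    have hn : ‖(m : ℂ) ^ (-phi h w)‖ = (m : ℝ) ^ (-phi h w).re := by
      rw [← Complex.ofReal_natCast m, Complex.norm_cpow_eq_rpow_re_of_pos hmpos]
    simp only [hn]
    apply Real.rpow_le_rpow_of_exponent_le hm1
    rw [Complex.neg_re]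
    exact neg_le_neg (hre r w hr.le hr1 hwr)

end MP7ed9c3.Aw
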