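import Pool.Agent.Lib.MP_7ed9c3_nt.Aw.SpecQ

/-!
MP_7ed9c3_nt, part Aw, module Mark (helper92): from small windows to large ones, by Markov's inequality.
-/

set_option autoImplicit false

namespace MP7ed9c3.Aw

open NumberField IsDedekindDomain Filter Topology MeasureTheory Metric

private lemma Mark_edge (T h t₀ : ℝ) :
    volume {t : ℝ | T - h ≤ |t - t₀| ∧ |t - t₀| < T} ≤ ENNReal.ofReal h + ENNReal.ofReal h := by
  have hs : {t : ℝ | T - h ≤ |t - t₀| ∧ |t - t₀| < T} ⊆
      Set.Icc (t₀ + T - h) (t₀ + T) ∪ Set.Icc (t₀ - T) (t₀ - T + h) := by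
    rintro t ⟨h1, h2⟩
    rw [abs_lt] at h2
    rcases le_abs.1 h1 with h3 | h3
    · left
      constructor <;> linarith [h2.1, h2.2]
    · right
      constructor <;> linarith [h2.1, h2.2]
  refine (measure_mono hs).trans ((measure_union_le _ _).trans ?_)
  rw [Real.volume_Icc, Real.volume_Icc]
  apply add_le_add <;> apply ENNReal.ofReal_le_ofReal <;> linarith

private lemma Mark_s (h h₁ : ℝ) (n j : ℕ) (hh : 0 < h₁) (hn : n * h₁ ≤ h) (hj : j < n) :
    |(2 * (j : ℝ) + 1 - n) * h₁| < h ∧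
      -h ≤ (2 * (j : ℝ) - n) * h₁ ∧ (2 * (j : ℝ) + 2 - n) * h₁ ≤ h := by
  have hj1 : (j : ℝ) + 1 ≤ n := by exact_mod_cast hj
  have hj0 : (0 : ℝ) ≤ j := Nat.cast_nonneg j
  refine ⟨?_, ?_, ?_⟩
  · rw [abs_lt]
    constructor
    · have h1 : -(n : ℝ) * h₁ < (2 * (j : ℝ) + 1 - n) * h₁ :=
        mul_lt_mul_of_pos_right (by linarith) hh
      linarith
    · have h1 : (2 * (j : ℝ) + 1 - n) * h₁ < (n : ℝ) * h₁ :=
        mul_lt_mul_of_pos_right (by linarith) hh
      linarith
  · have h1 : -(n : ℝ) * h₁ ≤ (2 * (j : ℝ) - n) * h₁ :=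
      mul_le_mul_of_nonneg_right (by linarith) hh.le
    linarith
  · have h1 : (2 * (j : ℝ) + 2 - n) * h₁ ≤ (n : ℝ) * h₁ :=
      mul_le_mul_of_nonneg_right (by linarith) hh.le
    linarith

/-- Markov's inequality for the number of shifts which lie in a set. -/
private lemma Mark_markov (B : Set ℝ) (hB : MeasurableSet B) (s : ℕ → ℝ) (n : ℕ) (hn : 1 ≤ n) :
    volume {t : ℝ | (n : ENNReal) ≤
      ∑ j ∈ Finset.range n, ((fun t => t + s j) ⁻¹' B).indicator (fun _ => (2 : ENNReal)) t} ≤
      2 * volume B := by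
  have hm : ∀ j, MeasurableSet ((fun t => t + s j) ⁻¹' B) := fun j =>
    (measurable_add_const (s j)) hB
  have hmf : ∀ j, Measurable (((fun t => t + s j) ⁻¹' B).indicator (fun _ => (2 : ENNReal))) :=
    fun j => measurable_const.indicator (hm j)
  have h1 := mul_meas_ge_le_lintegral (μ := (volume : Measure ℝ))
    (f := fun t => ∑ j ∈ Finset.range n,
      ((fun t => t + s j) ⁻¹' B).indicator (fun _ => (2 : ENNReal)) t)
    (Finset.measurable_sum _ fun j _ => hmf j) (n : ENNReal)
  rw [lintegral_finsetSum _ fun j _ => hmf j] at h1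
  have h2 : ∑ j ∈ Finset.range n,
      ∫⁻ t, ((fun t => t + s j) ⁻¹' B).indicator (fun _ => (2 : ENNReal)) t ∂volume =
      n * (2 * volume B) := by
    rw [Finset.sum_congr rfl (g := fun _ => 2 * volume B), Finset.sum_const, Finset.card_range,
      nsmul_eq_mul]
    intro j _
    rw [lintegral_indicator (hm j), lintegral_const, Measure.restrict_apply MeasurableSet.univ,
      Set.univ_inter, measure_preimage_add_right]
  rw [h2] at h1
  have hn0 : (n : ENNReal) ≠ 0 := by
    rw [Nat.cast_ne_zero]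
    omega
  exact (ENNReal.mul_le_mul_iff_right hn0 (ENNReal.natCast_ne_top n)).1 h1

theorem tMark : S_Mark := by
  classical
  intro Z σ₁ h h₁ ε₁ T t₀ n N hp hn h1n hN hε hhT hE
  have hh : 0 < h := by
    have h1 : (1 : ℝ) ≤ n := by exact_mod_cast h1n
    nlinarith
  have hT : 0 < T := by linarith
  set E : Set ℝ := {t : ℝ | |t - t₀| < T ∧ ∀ ρ ∈ win σ₁ h₁ t, ρ ∈ win σ₁ T t₀ → ρ ∉ Z} with hEdef
  set B : Set ℝ := toMeasurable volume E with hBdef
  have hBm : MeasurableSet B := measurableSet_toMeasurable _ _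
  have hBv : volume B ≤ ENNReal.ofReal (ε₁ * T) := by
    rw [hBdef, measure_toMeasurable]
    exact hE
  have hEB : E ⊆ B := subset_toMeasurable _ _
  let s : ℕ → ℝ := fun j => (2 * (j : ℝ) + 1 - n) * h₁
  have hsub : {t : ℝ | |t - t₀| < T ∧ ¬ ManyZ Z σ₁ h T t₀ N t} ⊆
      {t : ℝ | (n : ENNReal) ≤
        ∑ j ∈ Finset.range n, ((fun t => t + s j) ⁻¹' B).indicator (fun _ => (2 : ENNReal)) t} ∪
        {t : ℝ | T - h ≤ |t - t₀| ∧ |t - t₀| < T} := by
    rintro t ⟨ht, hY⟩
    by_cases hb : T - h ≤ |t - t₀|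
    · exact Or.inr ⟨hb, ht⟩
    · left
      by_contra hc
      rw [Set.mem_setOf_eq] at hc
      have hsum : ∑ j ∈ Finset.range n,
          ((fun t => t + s j) ⁻¹' B).indicator (fun _ => (2 : ENNReal)) t =
          ((2 * ((Finset.range n).filter fun j => t + s j ∈ B).card : ℕ) : ENNReal) := by
        simp only [Set.indicator_apply, Set.mem_preimage]
        rw [← Finset.sum_filter, Finset.sum_const, nsmul_eq_mul]
        push_cast
        ring
      rw [hsum] at hc
      have hc1 : 2 * ((Finset.range n).filter fun j => t + s j ∈ B).card < n := by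
        by_contra h5
        exact hc (by exact_mod_cast not_lt.1 h5)
      have hc2 := Finset.card_filter_add_card_filter_not (s := Finset.range n)
        (fun j => t + s j ∈ B)
      rw [Finset.card_range] at hc2
      obtain ⟨J, hJs, hJc⟩ := Finset.exists_subset_card_eq
        (s := (Finset.range n).filter fun j => ¬ t + s j ∈ B) (n := N) (by omega)
      have hJ : ∀ j ∈ J, j < n ∧ t + s j ∉ B := by
        intro j hj
        have h5 := hJs hj
        rw [Finset.mem_filter, Finset.mem_range] at h5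
        exact h5
      have hz : ∀ j ∈ J, ∃ ρ, ρ ∈ win σ₁ h₁ (t + s j) ∧ ρ ∈ win σ₁ T t₀ ∧ ρ ∈ Z := by
        intro j hj
        by_contra hn'
        apply (hJ j hj).2
        apply hEB
        refine ⟨?_, fun ρ h1 h2 h3 => hn' ⟨ρ, h1, h2, h3⟩⟩
        have h1 := (Mark_s h h₁ n j hp hn (hJ j hj).1).1
        have h2 : t + s j - t₀ = (t - t₀) + s j := by ring
        rw [h2]
        have h3 : |s j| < h := h1
        have h4 := abs_add_le (t - t₀) (s j)
        linarith
      choose! ρ h1 h2 h3 using hz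
      apply hY
      refine ⟨J.image ρ, ?_, ?_⟩
      · rw [Finset.card_image_of_injOn, hJc]
        intro i hi j hj hij
        have a1 := (h1 i hi).2
        have a2 := (h1 j hj).2
        rw [hij] at a1
        rw [abs_lt] at a1 a2
        simp only [s] at a1 a2
        have e1 : (2 * (i : ℝ) - 2 * j) * h₁ < 2 * h₁ := by nlinarith [a1.1, a2.2, a1.2, a2.1]
        have e2 : (2 * (j : ℝ) - 2 * i) * h₁ < 2 * h₁ := by nlinarith [a1.1, a2.2, a1.2, a2.1]
        have e3 : 2 * (i : ℝ) - 2 * j < 2 := lt_of_mul_lt_mul_right e1 hp.le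
        have e4 : 2 * (j : ℝ) - 2 * i < 2 := lt_of_mul_lt_mul_right e2 hp.le
        have e5 : (i : ℝ) < j + 1 := by linarith
        have e6 : (j : ℝ) < i + 1 := by linarith
        have e7 : i < j + 1 := by exact_mod_cast e5
        have e8 : j < i + 1 := by exact_mod_cast e6
        omega
      · intro z hz'
        rw [Finset.mem_image] at hz'
        obtain ⟨j, hj, rfl⟩ := hz'
        refine ⟨⟨(h1 j hj).1, ?_⟩, h2 j hj, h3 j hj⟩
        have a1 := (h1 j hj).2
        obtain ⟨_, b1, b2⟩ := Mark_s h h₁ n j hp hn (hJ j hj).1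
        rw [abs_lt] at a1 ⊢
        simp only [s] at a1
        constructor <;> nlinarith [a1.1, a1.2]
  refine (measure_mono hsub).trans ((measure_union_le _ _).trans ?_)
  have hu := (Mark_markov B hBm s n h1n).trans (mul_le_mul_right hBv 2)
  calc _ ≤ 2 * ENNReal.ofReal (ε₁ * T) + (ENNReal.ofReal h + ENNReal.ofReal h) :=
        add_le_add hu (Mark_edge T h t₀)
    _ = ENNReal.ofReal (2 * ε₁ * T + 2 * h) := by
        have h5 : (2 : ENNReal) = ENNReal.ofReal 2 := by simp
        have h6 : 0 ≤ ε₁ * T := mul_nonneg hε hT.le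
        rw [h5, ← ENNReal.ofReal_mul (by norm_num : (0 : ℝ) ≤ 2), ← ENNReal.ofReal_add hh.le hh.le,
          ← ENNReal.ofReal_add (by linarith) (by linarith)]
        congr 1
        ring

end MP7ed9c3.Aw
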