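import Pool.Agent.Lib.MP_7ed9c3_nt.Aw.Spec

/-!
# MP_7ed9c3_nt, part Aw, module MeanA

The mean value over an interval of the energy of a family of vectors: the diagonal terms give the length of the
interval, the other terms are bounded by the oscillation of `(m'/m)^(it)`.
-/

set_option autoImplicit false

namespace MP7ed9c3.Aw

open NumberField IsDedekindDomain Filter Topology MeasureTheory Metric

private lemma MeanA_cpow (m : ℕ) (hm : 1 ≤ m) (z : ℂ) :
    (m : ℂ) ^ z = Complex.exp ((Real.log m : ℂ) * z) := by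
  have h0 : (m : ℂ) ≠ 0 := by
    exact_mod_cast (Nat.one_le_iff_ne_zero.mp hm)
  rw [Complex.cpow_def_of_ne_zero h0, Complex.natCast_log]

private lemma MeanA_conj (m : ℕ) (hm : 1 ≤ m) (t : ℝ) :
    (starRingEnd ℂ) ((m : ℂ) ^ (-((t : ℂ) * Complex.I))) = (m : ℂ) ^ ((t : ℂ) * Complex.I) := by
  rw [MeanA_cpow m hm, MeanA_cpow m hm, ← Complex.exp_conj, map_mul, map_neg, map_mul,
    Complex.conj_ofReal, Complex.conj_ofReal, Complex.conj_I]
  congr 1
  ring

private lemma MeanA_one (m : ℕ) (hm : 1 ≤ m) (t : ℝ) :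
    (m : ℂ) ^ (-((t : ℂ) * Complex.I)) * (m : ℂ) ^ ((t : ℂ) * Complex.I) = 1 := by
  rw [MeanA_cpow m hm, MeanA_cpow m hm, ← Complex.exp_add]
  simp

private lemma MeanA_cont (m : ℕ) (hm : 1 ≤ m) (m' : ℕ) (hm' : 1 ≤ m') :
    Continuous (fun t : ℝ => (m : ℂ) ^ (-((t : ℂ) * Complex.I)) * (m' : ℂ) ^ ((t : ℂ) * Complex.I)) := by
  have h1 : (fun t : ℝ => (m : ℂ) ^ (-((t : ℂ) * Complex.I)) * (m' : ℂ) ^ ((t : ℂ) * Complex.I)) =
      fun t : ℝ => Complex.exp ((Real.log m : ℂ) * (-((t : ℂ) * Complex.I))) *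
        Complex.exp ((Real.log m' : ℂ) * ((t : ℂ) * Complex.I)) := by
    funext t
    rw [MeanA_cpow m hm, MeanA_cpow m' hm']
  rw [h1]
  fun_prop

private lemma MeanA_expand {ι : Type} [Fintype ι] (S : Finset ℕ) (v : ℕ → ι → ℂ)
    (hS : ∀ m ∈ S, 1 ≤ m) (t : ℝ) :
    ((dE S v t : ℝ) : ℂ) = ∑ m ∈ S, ∑ m' ∈ S, (∑ i, v m i * (starRingEnd ℂ) (v m' i)) *
      ((m : ℂ) ^ (-((t : ℂ) * Complex.I)) * (m' : ℂ) ^ ((t : ℂ) * Complex.I)) := by
  have h1 : ((dE S v t : ℝ) : ℂ) = ∑ i, ∑ m ∈ S, ∑ m' ∈ S, (v m i * (starRingEnd ℂ) (v m' i)) *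
      ((m : ℂ) ^ (-((t : ℂ) * Complex.I)) * (m' : ℂ) ^ ((t : ℂ) * Complex.I)) := by
    unfold dE
    rw [Complex.ofReal_sum]
    refine Finset.sum_congr rfl fun i _ => ?_
    rw [Complex.ofReal_pow, ← Complex.mul_conj', map_sum, Finset.sum_mul_sum]
    refine Finset.sum_congr rfl fun m hm => Finset.sum_congr rfl fun m' hm' => ?_
    rw [map_mul, MeanA_conj m' (hS m' hm') t]
    ring
  rw [h1, Finset.sum_comm]
  refine Finset.sum_congr rfl fun m hm => ?_
  rw [Finset.sum_comm]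
  refine Finset.sum_congr rfl fun m' hm' => ?_
  rw [Finset.sum_mul]

private lemma MeanA_int {ι : Type} [Fintype ι] (S : Finset ℕ) (v : ℕ → ι → ℂ)
    (hS : ∀ m ∈ S, 1 ≤ m) (a b : ℝ) :
    (((∫ t in a..b, dE S v t : ℝ)) : ℂ) =
      ∑ m ∈ S, ∑ m' ∈ S, (∑ i, v m i * (starRingEnd ℂ) (v m' i)) *
      ∫ t in a..b, ((m : ℂ) ^ (-((t : ℂ) * Complex.I)) * (m' : ℂ) ^ ((t : ℂ) * Complex.I)) := by
  rw [← intervalIntegral.integral_ofReal]
  have h1 : (fun t : ℝ => ((dE S v t : ℝ) : ℂ)) = fun t : ℝ =>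
      ∑ m ∈ S, ∑ m' ∈ S, (∑ i, v m i * (starRingEnd ℂ) (v m' i)) *
      ((m : ℂ) ^ (-((t : ℂ) * Complex.I)) * (m' : ℂ) ^ ((t : ℂ) * Complex.I)) := by
    funext t
    exact MeanA_expand S v hS t
  rw [h1, intervalIntegral.integral_finsetSum]
  · refine Finset.sum_congr rfl fun m hm => ?_
    rw [intervalIntegral.integral_finsetSum]
    · refine Finset.sum_congr rfl fun m' hm' => ?_
      rw [intervalIntegral.integral_const_mul]
    · intro m' hm'
      exact (continuous_const.mul (MeanA_cont m (hS m hm) m' (hS m' hm'))).intervalIntegrable _ _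
  · intro m hm
    exact (continuous_finsetSum S fun m' hm' =>
      continuous_const.mul (MeanA_cont m (hS m hm) m' (hS m' hm'))).intervalIntegrable _ _

private lemma MeanA_amgm {ι : Type} [Fintype ι] (v : ℕ → ι → ℂ) (m m' : ℕ) :
    ‖∑ i, v m i * (starRingEnd ℂ) (v m' i)‖ ≤ (uu v m + uu v m') / 2 := by
  refine (norm_sum_le _ _).trans ?_
  unfold uu
  rw [← Finset.sum_add_distrib, Finset.sum_div]
  refine Finset.sum_le_sum fun i _ => ?_
  rw [norm_mul, RCLike.norm_conj]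
  nlinarith [sq_nonneg (‖v m i‖ - ‖v m' i‖)]

private lemma MeanA_diag {ι : Type} [Fintype ι] (v : ℕ → ι → ℂ) (m : ℕ) :
    ∑ i, v m i * (starRingEnd ℂ) (v m i) = ((uu v m : ℝ) : ℂ) := by
  unfold uu
  rw [Complex.ofReal_sum]
  refine Finset.sum_congr rfl fun i _ => ?_
  rw [Complex.ofReal_pow, Complex.mul_conj']

private lemma MeanA_uu_nonneg {ι : Type} [Fintype ι] (v : ℕ → ι → ℂ) (m : ℕ) : 0 ≤ uu v m := by
  unfold uu
  positivity

/-- **MeanA**. -/
theorem tMeanA (h1 : S_Osc) : S_MeanA := by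
  classical
  intro ι _ S v M a b hab hS hsum
  have hS1 : ∀ m ∈ S, 1 ≤ m := fun m hm => (hS m hm).1
  have hcard : (S.card : ℝ) ≤ M := by
    have h2 : S ⊆ Finset.Icc 1 M := fun m hm => Finset.mem_Icc.mpr (hS m hm)
    have h3 := Finset.card_le_card h2
    rw [Nat.card_Icc, Nat.add_sub_cancel] at h3
    exact_mod_cast h3
  have hre : (∫ t in a..b, dE S v t) = ∑ m ∈ S, ∑ m' ∈ S,
      ((∑ i, v m i * (starRingEnd ℂ) (v m' i)) *
      ∫ t in a..b, ((m : ℂ) ^ (-((t : ℂ) * Complex.I)) * (m' : ℂ) ^ ((t : ℂ) * Complex.I))).re := by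
    have h2 := congrArg Complex.re (MeanA_int S v hS1 a b)
    rw [Complex.ofReal_re, Complex.re_sum] at h2
    rw [h2]
    refine Finset.sum_congr rfl fun m _ => ?_
    rw [Complex.re_sum]
  have hterm : ∀ m ∈ S, ∀ m' ∈ S,
      (if m = m' then (b - a) * uu v m else 0) - (uu v m + uu v m') / 2 * (2 * M) ≤
      ((∑ i, v m i * (starRingEnd ℂ) (v m' i)) *
      ∫ t in a..b, ((m : ℂ) ^ (-((t : ℂ) * Complex.I)) * (m' : ℂ) ^ ((t : ℂ) * Complex.I))).re := by
    intro m hm m' hm'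
    have hnn : 0 ≤ (uu v m + uu v m') / 2 * (2 * (M : ℝ)) := by
      have := MeanA_uu_nonneg v m
      have := MeanA_uu_nonneg v m'
      positivity
    by_cases hmm : m = m'
    · subst hmm
      rw [if_pos rfl, MeanA_diag]
      have h2 : ∫ t in a..b, ((m : ℂ) ^ (-((t : ℂ) * Complex.I)) * (m : ℂ) ^ ((t : ℂ) * Complex.I)) =
          ((b - a : ℝ) : ℂ) := by
        have h3 : (fun t : ℝ => (m : ℂ) ^ (-((t : ℂ) * Complex.I)) * (m : ℂ) ^ ((t : ℂ) * Complex.I)) =
            fun _ => (1 : ℂ) := by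
          funext t
          exact MeanA_one m (hS1 m hm) t
        rw [h3, intervalIntegral.integral_const]
        simp
      rw [h2, ← Complex.ofReal_mul, Complex.ofReal_re]
      linarith [mul_comm (uu v m) (b - a)]
    · rw [if_neg hmm]
      have h2 := h1 m m' M a b (hS1 m hm) (hS1 m' hm') (hS m hm).2 (hS m' hm').2 hmm
      have h3 := MeanA_amgm v m m'
      have h4 : ‖(∑ i, v m i * (starRingEnd ℂ) (v m' i)) *
          ∫ t in a..b, ((m : ℂ) ^ (-((t : ℂ) * Complex.I)) * (m' : ℂ) ^ ((t : ℂ) * Complex.I))‖ ≤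
          (uu v m + uu v m') / 2 * (2 * M) := by
        rw [norm_mul]
        exact mul_le_mul h3 h2 (norm_nonneg _) ((norm_nonneg _).trans h3)
      have h5 := (abs_le.mp ((Complex.abs_re_le_norm _).trans h4)).1
      linarith
  have hle := Finset.sum_le_sum fun m hm => Finset.sum_le_sum fun m' hm' => hterm m hm m' hm'
  rw [← hre] at hle
  refine le_trans ?_ hle
  have e1 : ∑ m ∈ S, ∑ m' ∈ S,
      ((if m = m' then (b - a) * uu v m else 0) - (uu v m + uu v m') / 2 * (2 * (M : ℝ))) =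
      (b - a) - 2 * M * S.card := by
    have e2 : ∀ m ∈ S, ∑ m' ∈ S,
        ((if m = m' then (b - a) * uu v m else 0) - (uu v m + uu v m') / 2 * (2 * (M : ℝ))) =
        (b - a) * uu v m - M * (S.card * uu v m + 1) := by
      intro m hm
      rw [Finset.sum_sub_distrib, Finset.sum_ite_eq, if_pos hm, ← Finset.sum_mul, ← Finset.sum_div,
        Finset.sum_add_distrib, hsum, Finset.sum_const, nsmul_eq_mul]
      ring
    rw [Finset.sum_congr rfl e2, Finset.sum_sub_distrib, ← Finset.mul_sum, hsum, ← Finset.mul_sum,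
      Finset.sum_add_distrib, ← Finset.mul_sum, hsum, Finset.sum_const, nsmul_eq_mul]
    ring
  rw [e1]
  have hM : (0 : ℝ) ≤ M := Nat.cast_nonneg M
  nlinarith [mul_le_mul_of_nonneg_left hcard hM]

end MP7ed9c3.Aw
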