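import Pool.Agent.Lib.MP_7ed9c3_nt.Aw.Spec

/-!
# MP_7ed9c3_nt, part Aw: the second moment of the energy
-/

set_option autoImplicit false

namespace MP7ed9c3.Aw

open NumberField IsDedekindDomain Filter Topology MeasureTheory Metric

/-- the scalar product of the vectors -/
private noncomputable def MeanB_ip {ι : Type} [Fintype ι] (v : ℕ → ι → ℂ) (m n : ℕ) : ℂ :=
  ∑ i, v m i * (starRingEnd ℂ) (v n i)

private theorem MeanB_conj (n : ℕ) (t : ℝ) :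
    (starRingEnd ℂ) ((n : ℂ) ^ (-(t * Complex.I))) = (n : ℂ) ^ (t * Complex.I) := by
  have harg : (n : ℂ).arg ≠ Real.pi := by
    rw [Complex.natCast_arg]
    exact Real.pi_ne_zero.symm
  have h := Complex.cpow_conj (n : ℂ) (-(t * Complex.I)) harg
  rw [Complex.conj_natCast] at h
  rw [← h]
  congr 1
  simp

private theorem MeanB_dE {ι : Type} [Fintype ι] (S : Finset ℕ) (v : ℕ → ι → ℂ) (t : ℝ) :
    ((dE S v t : ℝ) : ℂ) = ∑ m ∈ S, ∑ n ∈ S, MeanB_ip v m n *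
      ((m : ℂ) ^ (-(t * Complex.I)) * (n : ℂ) ^ (t * Complex.I)) := by
  have h1 : ∀ i : ι, (((‖∑ m ∈ S, v m i * (m : ℂ) ^ (-(t * Complex.I))‖ ^ 2 : ℝ)) : ℂ) =
      ∑ m ∈ S, ∑ n ∈ S, v m i * (starRingEnd ℂ) (v n i) *
        ((m : ℂ) ^ (-(t * Complex.I)) * (n : ℂ) ^ (t * Complex.I)) := by
    intro i
    rw [Complex.ofReal_pow, ← Complex.mul_conj', map_sum, Finset.sum_mul_sum]
    refine Finset.sum_congr rfl fun m _ => Finset.sum_congr rfl fun n _ => ?_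
    rw [map_mul, MeanB_conj]
    ring
  unfold dE
  rw [Complex.ofReal_sum, Finset.sum_congr rfl fun i _ => h1 i, Finset.sum_comm]
  refine Finset.sum_congr rfl fun m _ => ?_
  rw [Finset.sum_comm]
  refine Finset.sum_congr rfl fun n _ => ?_
  rw [MeanB_ip, Finset.sum_mul]

/-- one term of the square -/
private noncomputable def MeanB_F {ι : Type} [Fintype ι] (v : ℕ → ι → ℂ) (m₁ m₂ n₁ n₂ : ℕ)
    (t : ℝ) : ℂ :=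
  MeanB_ip v m₁ n₁ * MeanB_ip v m₂ n₂ *
    (((m₁ * m₂ : ℕ) : ℂ) ^ (-(t * Complex.I)) * ((n₁ * n₂ : ℕ) : ℂ) ^ (t * Complex.I))

private theorem MeanB_sq {ι : Type} [Fintype ι] (S : Finset ℕ) (v : ℕ → ι → ℂ) (t : ℝ) :
    ((dE S v t ^ 2 : ℝ) : ℂ) = ∑ m₁ ∈ S, ∑ m₂ ∈ S, ∑ n₁ ∈ S, ∑ n₂ ∈ S,
      MeanB_F v m₁ m₂ n₁ n₂ t := by
  rw [Complex.ofReal_pow, MeanB_dE, sq, Finset.sum_mul_sum]
  refine Finset.sum_congr rfl fun m₁ _ => Finset.sum_congr rfl fun m₂ _ => ?_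
  rw [Finset.sum_mul_sum]
  refine Finset.sum_congr rfl fun n₁ _ => Finset.sum_congr rfl fun n₂ _ => ?_
  rw [MeanB_F, Nat.cast_mul, Nat.cast_mul, Complex.natCast_mul_natCast_cpow,
    Complex.natCast_mul_natCast_cpow]
  ring

private theorem MeanB_cont {ι : Type} [Fintype ι] (v : ℕ → ι → ℂ) (m₁ m₂ n₁ n₂ : ℕ)
    (h1 : 1 ≤ m₁) (h2 : 1 ≤ m₂) (h3 : 1 ≤ n₁) (h4 : 1 ≤ n₂) :
    Continuous (MeanB_F v m₁ m₂ n₁ n₂) := by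
  unfold MeanB_F
  have hm : ((m₁ * m₂ : ℕ) : ℂ) ≠ 0 := by
    exact_mod_cast (Nat.mul_pos h1 h2).ne'
  have hn : ((n₁ * n₂ : ℕ) : ℂ) ≠ 0 := by
    exact_mod_cast (Nat.mul_pos h3 h4).ne'
  have c1 : Continuous fun t : ℝ => -((t : ℂ) * Complex.I) := by fun_prop
  have c2 : Continuous fun t : ℝ => (t : ℂ) * Complex.I := by fun_prop
  exact continuous_const.mul ((c1.const_cpow (Or.inl hm)).mul (c2.const_cpow (Or.inl hn)))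

private theorem MeanB_int {ι : Type} [Fintype ι] (S : Finset ℕ) (v : ℕ → ι → ℂ) (a b : ℝ)
    (hS : ∀ m ∈ S, 1 ≤ m) :
    ((∫ t in a..b, dE S v t ^ 2 : ℝ) : ℂ) = ∑ m₁ ∈ S, ∑ m₂ ∈ S, ∑ n₁ ∈ S, ∑ n₂ ∈ S,
      ∫ t in a..b, MeanB_F v m₁ m₂ n₁ n₂ t := by
  rw [← intervalIntegral.integral_ofReal]
  have h0 : (fun t : ℝ => ((dE S v t ^ 2 : ℝ) : ℂ)) = fun t => ∑ m₁ ∈ S, ∑ m₂ ∈ S,
      ∑ n₁ ∈ S, ∑ n₂ ∈ S, MeanB_F v m₁ m₂ n₁ n₂ t := funext fun t => MeanB_sq S v t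
  rw [h0]
  have c4 : ∀ m₁ ∈ S, ∀ m₂ ∈ S, ∀ n₁ ∈ S, ∀ n₂ ∈ S, Continuous (MeanB_F v m₁ m₂ n₁ n₂) :=
    fun m₁ h1 m₂ h2 n₁ h3 n₂ h4 => MeanB_cont v m₁ m₂ n₁ n₂ (hS _ h1) (hS _ h2) (hS _ h3)
      (hS _ h4)
  have c3 : ∀ m₁ ∈ S, ∀ m₂ ∈ S, ∀ n₁ ∈ S, Continuous fun t => ∑ n₂ ∈ S,
      MeanB_F v m₁ m₂ n₁ n₂ t := fun m₁ h1 m₂ h2 n₁ h3 =>
    continuous_finsetSum _ fun n₂ h4 => c4 m₁ h1 m₂ h2 n₁ h3 n₂ h4
  have c2 : ∀ m₁ ∈ S, ∀ m₂ ∈ S, Continuous fun t => ∑ n₁ ∈ S, ∑ n₂ ∈ S,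
      MeanB_F v m₁ m₂ n₁ n₂ t := fun m₁ h1 m₂ h2 =>
    continuous_finsetSum _ fun n₁ h3 => c3 m₁ h1 m₂ h2 n₁ h3
  have c1 : ∀ m₁ ∈ S, Continuous fun t => ∑ m₂ ∈ S, ∑ n₁ ∈ S, ∑ n₂ ∈ S,
      MeanB_F v m₁ m₂ n₁ n₂ t := fun m₁ h1 =>
    continuous_finsetSum _ fun m₂ h2 => c2 m₁ h1 m₂ h2
  rw [intervalIntegral.integral_finsetSum fun m₁ h1 => (c1 m₁ h1).intervalIntegrable a b]
  refine Finset.sum_congr rfl fun m₁ h1 => ?_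
  rw [intervalIntegral.integral_finsetSum fun m₂ h2 => (c2 m₁ h1 m₂ h2).intervalIntegrable a b]
  refine Finset.sum_congr rfl fun m₂ h2 => ?_
  rw [intervalIntegral.integral_finsetSum
    fun n₁ h3 => (c3 m₁ h1 m₂ h2 n₁ h3).intervalIntegrable a b]
  refine Finset.sum_congr rfl fun n₁ h3 => ?_
  rw [intervalIntegral.integral_finsetSum
    fun n₂ h4 => (c4 m₁ h1 m₂ h2 n₁ h3 n₂ h4).intervalIntegrable a b]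

private theorem MeanB_norm4 (S : Finset ℕ) (F : ℕ → ℕ → ℕ → ℕ → ℂ) (G : ℕ → ℕ → ℕ → ℕ → ℝ)
    (h : ∀ m₁ ∈ S, ∀ m₂ ∈ S, ∀ n₁ ∈ S, ∀ n₂ ∈ S, ‖F m₁ m₂ n₁ n₂‖ ≤ G m₁ m₂ n₁ n₂) :
    ‖∑ m₁ ∈ S, ∑ m₂ ∈ S, ∑ n₁ ∈ S, ∑ n₂ ∈ S, F m₁ m₂ n₁ n₂‖ ≤
      ∑ m₁ ∈ S, ∑ m₂ ∈ S, ∑ n₁ ∈ S, ∑ n₂ ∈ S, G m₁ m₂ n₁ n₂ :=
  (norm_sum_le _ _).trans <| Finset.sum_le_sum fun m₁ h1 =>
    (norm_sum_le _ _).trans <| Finset.sum_le_sum fun m₂ h2 =>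
      (norm_sum_le _ _).trans <| Finset.sum_le_sum fun n₁ h3 =>
        (norm_sum_le _ _).trans <| Finset.sum_le_sum fun n₂ h4 => h m₁ h1 m₂ h2 n₁ h3 n₂ h4

private theorem MeanB_cs {ι : Type} [Fintype ι] (v : ℕ → ι → ℂ) (m n : ℕ) :
    sp v m n ≤ √(uu v m) * √(uu v n) := by
  unfold sp uu
  calc ‖∑ i, v m i * (starRingEnd ℂ) (v n i)‖ ≤ ∑ i, ‖v m i * (starRingEnd ℂ) (v n i)‖ :=
        norm_sum_le _ _
    _ = ∑ i, ‖v m i‖ * ‖v n i‖ := Finset.sum_congr rfl fun i _ => by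
        rw [norm_mul, Complex.norm_conj]
    _ ≤ √(∑ i, ‖v m i‖ ^ 2) * √(∑ i, ‖v n i‖ ^ 2) :=
        Real.sum_mul_le_sqrt_mul_sqrt _ _ _

private theorem MeanB_sp {ι : Type} [Fintype ι] (S : Finset ℕ) (v : ℕ → ι → ℂ) (M : ℕ)
    (hS : ∀ m ∈ S, 1 ≤ m ∧ m ≤ M) (h1 : ∑ m ∈ S, uu v m = 1) :
    ∑ m ∈ S, ∑ n ∈ S, sp v m n ≤ M := by
  have hu : ∀ m, 0 ≤ uu v m := fun m => Finset.sum_nonneg fun i _ => sq_nonneg _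
  have hc : (S.card : ℝ) ≤ M := by
    have : S ⊆ Finset.Icc 1 M := fun m hm => Finset.mem_Icc.2 (hS m hm)
    have h2 := Finset.card_le_card this
    rw [Nat.card_Icc] at h2
    exact_mod_cast (by omega : S.card ≤ M)
  have h2 : (∑ m ∈ S, √(uu v m)) ^ 2 ≤ M := by
    have h3 : (∑ m ∈ S, √(uu v m)) ^ 2 ≤ S.card * ∑ m ∈ S, √(uu v m) ^ 2 :=
      sq_sum_le_card_mul_sum_sq
    rw [Finset.sum_congr rfl fun m _ => Real.sq_sqrt (hu m), h1, mul_one] at h3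
    exact h3.trans hc
  calc ∑ m ∈ S, ∑ n ∈ S, sp v m n ≤ ∑ m ∈ S, ∑ n ∈ S, √(uu v m) * √(uu v n) :=
        Finset.sum_le_sum fun m _ => Finset.sum_le_sum fun n _ => MeanB_cs v m n
    _ = (∑ m ∈ S, √(uu v m)) ^ 2 := by rw [sq, Finset.sum_mul_sum]
    _ ≤ M := h2

/-- **MeanB**: the second moment. -/
theorem tMeanB (h1 : S_Osc) : S_MeanB := by
  classical
  intro ι _ S v M a b hab hS hu
  have hn0 : ∀ m n, 0 ≤ sp v m n := fun m n => norm_nonneg _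
  have hterm : ∀ m₁ ∈ S, ∀ m₂ ∈ S, ∀ n₁ ∈ S, ∀ n₂ ∈ S,
      ‖∫ t in a..b, MeanB_F v m₁ m₂ n₁ n₂ t‖ ≤
        (b - a) * (if m₁ * m₂ = n₁ * n₂ then sp v m₁ n₁ * sp v m₂ n₂ else 0) +
          2 * (M : ℝ) ^ 2 * (sp v m₁ n₁ * sp v m₂ n₂) := by
    intro m₁ hm₁ m₂ hm₂ n₁ hn₁ n₂ hn₂
    have e0 : 0 ≤ sp v m₁ n₁ * sp v m₂ n₂ := mul_nonneg (hn0 _ _) (hn0 _ _)
    have e1 : 0 ≤ 2 * (M : ℝ) ^ 2 * (sp v m₁ n₁ * sp v m₂ n₂) := by positivity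
    have e2 : ∫ t in a..b, MeanB_F v m₁ m₂ n₁ n₂ t = MeanB_ip v m₁ n₁ * MeanB_ip v m₂ n₂ *
        ∫ t in a..b, ((m₁ * m₂ : ℕ) : ℂ) ^ (-(t * Complex.I)) *
          ((n₁ * n₂ : ℕ) : ℂ) ^ (t * Complex.I) := by
      unfold MeanB_F
      rw [intervalIntegral.integral_const_mul]
    have e3 : ‖MeanB_ip v m₁ n₁ * MeanB_ip v m₂ n₂‖ = sp v m₁ n₁ * sp v m₂ n₂ := by
      rw [norm_mul]
      rfl
    rw [e2, norm_mul, e3]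
    by_cases he : m₁ * m₂ = n₁ * n₂
    · rw [if_pos he, ← he]
      have hne : ((m₁ * m₂ : ℕ) : ℂ) ≠ 0 := by
        exact_mod_cast (Nat.mul_pos (hS _ hm₁).1 (hS _ hm₂).1).ne'
      have e4 : ∀ t : ℝ, ((m₁ * m₂ : ℕ) : ℂ) ^ (-(t * Complex.I)) *
          ((m₁ * m₂ : ℕ) : ℂ) ^ (t * Complex.I) = 1 := by
        intro t
        rw [← Complex.cpow_add _ _ hne, neg_add_cancel, Complex.cpow_zero]
      simp only [e4]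
      rw [intervalIntegral.integral_const]
      have e5 : ‖(b - a) • (1 : ℂ)‖ = b - a := by
        rw [norm_smul, norm_one, mul_one, Real.norm_of_nonneg (sub_nonneg.2 hab)]
      rw [e5]
      linarith [mul_comm (sp v m₁ n₁ * sp v m₂ n₂) (b - a)]
    · rw [if_neg he, mul_zero, zero_add]
      have e6 := h1 (m₁ * m₂) (n₁ * n₂) (M ^ 2) a b
        (Nat.mul_pos (hS _ hm₁).1 (hS _ hm₂).1) (Nat.mul_pos (hS _ hn₁).1 (hS _ hn₂).1)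
        (by rw [sq]; exact Nat.mul_le_mul (hS _ hm₁).2 (hS _ hm₂).2)
        (by rw [sq]; exact Nat.mul_le_mul (hS _ hn₁).2 (hS _ hn₂).2) he
      rw [Nat.cast_pow] at e6
      calc _ ≤ sp v m₁ n₁ * sp v m₂ n₂ * (2 * (M : ℝ) ^ 2) := mul_le_mul_of_nonneg_left e6 e0
        _ = _ := by ring
  have hsum := MeanB_norm4 S _ _ hterm
  rw [← MeanB_int S v a b fun m hm => (hS m hm).1] at hsum
  have hle : ∫ t in a..b, dE S v t ^ 2 ≤ ‖((∫ t in a..b, dE S v t ^ 2 : ℝ) : ℂ)‖ := by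
    rw [Complex.norm_real]
    exact Real.le_norm_self _
  refine hle.trans (hsum.trans ?_)
  simp only [Finset.sum_add_distrib, ← Finset.mul_sum]
  have hq : ∑ m₁ ∈ S, ∑ m₂ ∈ S, ∑ n₁ ∈ S, ∑ n₂ ∈ S,
      (if m₁ * m₂ = n₁ * n₂ then sp v m₁ n₁ * sp v m₂ n₂ else 0) = quad S v := rfl
  rw [hq]
  have hs : ∑ m₁ ∈ S, ∑ m₂ ∈ S, ∑ n₁ ∈ S, sp v m₁ n₁ * ∑ n₂ ∈ S, sp v m₂ n₂ =
      (∑ m ∈ S, ∑ n ∈ S, sp v m n) ^ 2 := by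
    rw [sq, Finset.sum_mul_sum]
    refine Finset.sum_congr rfl fun m₁ _ => Finset.sum_congr rfl fun m₂ _ => ?_
    rw [Finset.sum_mul]
  rw [hs]
  have hM := MeanB_sp S v M hS hu
  have h0 : 0 ≤ ∑ m ∈ S, ∑ n ∈ S, sp v m n :=
    Finset.sum_nonneg fun m _ => Finset.sum_nonneg fun n _ => hn0 m n
  have h2 : (∑ m ∈ S, ∑ n ∈ S, sp v m n) ^ 2 ≤ (M : ℝ) ^ 2 := pow_le_pow_left₀ h0 hM 2
  have h3 : 2 * (M : ℝ) ^ 2 * (∑ m ∈ S, ∑ n ∈ S, sp v m n) ^ 2 ≤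
      2 * (M : ℝ) ^ 2 * (M : ℝ) ^ 2 := mul_le_mul_of_nonneg_left h2 (by positivity)
  have h4 : 2 * (M : ℝ) ^ 2 * (M : ℝ) ^ 2 = 2 * (M : ℝ) ^ 4 := by ring
  linarith

end MP7ed9c3.Aw
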