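import Pool.Agent.Lib.MP_7ed9c3_nt.Aw.SpecQ

/-!
# MP_7ed9c3_nt, part Aw: the numbers in RedQ
-/

set_option autoImplicit false

namespace MP7ed9c3.Aw

open NumberField IsDedekindDomain Filter Topology MeasureTheory Metric

/-- The number of small windows. -/
private lemma NumQ_count (A h h' r R : ℝ) (N₀ : ℕ) (hA : 1 ≤ A) (hh' : 0 < h') (h1 : h' ≤ 1)
    (hle : h' ≤ h) (hr : 8 * A * (N₀ + 1) / h' ≤ r) (hR : R ≤ 2 * r) :
    ∃ (h₁ : ℝ) (n N : ℕ), 0 < h₁ ∧ h₁ ≤ 1 ∧ A ≤ h₁ * r ∧ n * h₁ ≤ h ∧ 1 ≤ n ∧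
      2 * N ≤ n ∧ N₀ ≤ N ∧ h' / (8 * A) * R ≤ (N : ℝ) - N₀ := by
  have hA0 : 0 < A := by linarith
  have hN0 : (0 : ℝ) ≤ N₀ := Nat.cast_nonneg _
  have hr1 : 8 * A * (N₀ + 1) ≤ r * h' := (div_le_iff₀ hh').mp hr
  have hr0 : 0 < r := by
    have : 0 < 8 * A * (N₀ + 1) := by positivity
    by_contra hcon
    have : r * h' ≤ 0 := mul_nonpos_of_nonpos_of_nonneg (not_lt.mp hcon) hh'.le
    linarith
  have hrA : A ≤ r := by
    have e1 : r * h' ≤ r := by nlinarith
    have e2 : A ≤ 8 * A * (N₀ + 1) := by nlinarith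
    linarith
  have hX : 8 * ((N₀ : ℝ) + 1) ≤ h' * r / A := by
    rw [le_div_iff₀ hA0]
    linarith
  have hX0 : 0 ≤ h' * r / A := by positivity
  have hfl : ((⌊h' * r / A⌋₊ : ℕ) : ℝ) ≤ h' * r / A := Nat.floor_le hX0
  have hfu : h' * r / A < (⌊h' * r / A⌋₊ : ℕ) + 1 := Nat.lt_floor_add_one _
  obtain ⟨n, hn⟩ : ∃ n : ℕ, n = ⌊h' * r / A⌋₊ := ⟨_, rfl⟩
  rw [← hn] at hfl hfu
  have hn8 : 8 * (N₀ + 1) ≤ n := by
    have : ((8 * (N₀ + 1) : ℕ) : ℝ) < ((n + 1 : ℕ) : ℝ) := by
      push_cast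
      linarith
    have := Nat.cast_lt.mp this
    omega
  have hN2 : n ≤ 2 * (n / 2) + 1 := by omega
  have hN2' : (n : ℝ) ≤ 2 * ((n / 2 : ℕ) : ℝ) + 1 := by exact_mod_cast hN2
  refine ⟨A / r, n, n / 2, by positivity, (div_le_one hr0).mpr hrA, ?_, ?_, by omega, by omega,
    by omega, ?_⟩
  · rw [div_mul_cancel₀ A hr0.ne']
  · have : (n : ℝ) * (A / r) ≤ h' * r / A * (A / r) :=
      mul_le_mul_of_nonneg_right hfl (by positivity)
    have e : h' * r / A * (A / r) = h' := by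
      field_simp
    linarith
  · have e1 : h' / (8 * A) * R ≤ h' / (8 * A) * (2 * r) :=
      mul_le_mul_of_nonneg_left hR (by positivity)
    have e2 : h' / (8 * A) * (2 * r) = h' * r / A / 4 := by
      field_simp
      ring
    linarith

/-- The rates for `V` and `2V`. -/
private lemma NumQ_rate (V H : ℝ) (hV : 2 ≤ V) (hH : Real.log V ≤ Real.log H) :
    min (Real.log (Real.log H / Real.log V)) (Real.log V) - 1 ≤ rate (2 * V) H := by
  have hl2 : Real.log 2 ≤ 1 := by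
    have := Real.log_two_lt_d9
    linarith
  have hl20 : 0 ≤ Real.log 2 := Real.log_nonneg (by norm_num)
  have hlV : 0 < Real.log V := Real.log_pos (by linarith)
  have hlH : 0 < Real.log H := lt_of_lt_of_le hlV hH
  have hl : Real.log (2 * V) = Real.log 2 + Real.log V :=
    Real.log_mul (by norm_num) (by linarith)
  have hle : Real.log 2 ≤ Real.log V := Real.log_le_log (by norm_num) hV
  unfold rate
  refine le_min ?_ ?_
  · have h1 : Real.log (Real.log H / Real.log V) - Real.log 2 ≤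
        Real.log (Real.log H / Real.log (2 * V)) := by
      rw [← Real.log_div (by positivity) (by norm_num)]
      refine Real.log_le_log (by positivity) ?_
      rw [div_div]
      refine div_le_div_of_nonneg_left hlH.le (by rw [hl]; positivity) ?_
      rw [hl]
      linarith
    have h2 := min_le_left (Real.log (Real.log H / Real.log V)) (Real.log V)
    linarith
  · have h2 := min_le_right (Real.log (Real.log H / Real.log V)) (Real.log V)
    rw [hl]
    linarith

/-- **NumQ**: the numbers in `S_RedQ`. -/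
theorem tNumQ : S_NumQ := by
  intro A κ₀ h N₀ hA hκ₀ hh
  have hh' : 0 < min h 1 := lt_min hh one_pos
  have hh1 : min h 1 ≤ 1 := min_le_right _ _
  have hhh : min h 1 ≤ h := min_le_left _ _
  have hA0 : 0 < A := by linarith
  obtain ⟨h', hh'e⟩ : ∃ h' : ℝ, h' = min h 1 := ⟨_, rfl⟩
  rw [← hh'e] at hh' hh1 hhh
  have hQ : 0 ≤ 8 * A * ((N₀ : ℝ) + 1) / h' := by positivity
  obtain ⟨L, hL⟩ : ∃ L : ℝ, L = 2 + 8 * A * ((N₀ : ℝ) + 1) / h' + 2 * κ₀ := ⟨_, rfl⟩
  have hexp : L + 1 ≤ Real.exp L := Real.add_one_le_exp L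
  have hκ2 : 2 * κ₀ ≤ Real.exp L := by linarith
  refine ⟨h' / (8 * A), Real.exp L, Real.exp L, by positivity, by linarith, by linarith, ?_⟩
  intro V H hV hH
  have hV2 : 2 ≤ V := by linarith
  have hV0 : 0 < V := by linarith
  have hV1 : 1 ≤ V := by linarith
  have hlV : L ≤ Real.log V := by
    rw [Real.le_log_iff_exp_le hV0]
    exact hV
  have hlV0 : 0 < Real.log V := by linarith
  have hH0 : 0 < H := lt_of_lt_of_le (Real.rpow_pos_of_pos hV0 _) hH
  have hlH : Real.exp L * Real.log V ≤ Real.log H := by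
    rw [← Real.log_rpow hV0]
    exact Real.log_le_log (Real.rpow_pos_of_pos hV0 _) hH
  have hlH' : Real.log V ≤ Real.log H := by
    have : 1 * Real.log V ≤ Real.exp L * Real.log V :=
      mul_le_mul_of_nonneg_right (by linarith) hlV0.le
    linarith
  have hq : L ≤ Real.log (Real.log H / Real.log V) := by
    rw [Real.le_log_iff_exp_le (by
      have : 0 < Real.log H := lt_of_lt_of_le hlV0 hlH'
      positivity), le_div_iff₀ hlV0]
    exact hlH
  have hR : L ≤ min (Real.log (Real.log H / Real.log V)) (Real.log V) := le_min hq hlV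
  have hrate := NumQ_rate V H hV2 hlH'
  refine ⟨?_, ?_, ?_⟩
  · calc (2 * V) ^ κ₀ ≤ (V ^ (2 : ℝ)) ^ κ₀ := by
          refine Real.rpow_le_rpow (by linarith) ?_ (by linarith)
          rw [Real.rpow_two]
          nlinarith
      _ = V ^ (2 * κ₀) := (Real.rpow_mul hV0.le 2 κ₀).symm
      _ ≤ V ^ Real.exp L := Real.rpow_le_rpow_of_exponent_le hV1 hκ2
      _ ≤ H := hH
  · calc V = V ^ (1 : ℝ) := (Real.rpow_one V).symm
      _ ≤ V ^ Real.exp L := Real.rpow_le_rpow_of_exponent_le hV1 (by linarith)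
      _ ≤ H := hH
  · exact NumQ_count A h h' (rate (2 * V) H) _ N₀ hA hh' hh1 hhh (by linarith) (by linarith)

end MP7ed9c3.Aw
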