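import Pool.Agent.Lib.MP_7ed9c3_nt.Aw.Spec

/-!
# Aw/Osc: the oscillating integral
-/

set_option autoImplicit false

namespace MP7ed9c3.Aw

open NumberField IsDedekindDomain Filter Topology MeasureTheory Metric

private lemma Osc_log (N N' X : ℕ) (hN : 1 ≤ N) (hX : N' ≤ X) (h : N < N') :
    1 / (X : ℝ) ≤ Real.log N' - Real.log N := by
  have h1 : (0 : ℝ) < N := by exact_mod_cast hN
  have h2 : (N : ℝ) + 1 ≤ N' := by exact_mod_cast h
  have h3 : (0 : ℝ) < N' := by linarith
  have h4 : (N' : ℝ) ≤ X := by exact_mod_cast hX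
  rw [← Real.log_div h3.ne' h1.ne']
  have h5 := Real.one_sub_inv_le_log_of_pos (div_pos h3 h1)
  refine le_trans ?_ h5
  rw [inv_div]
  have h6 : 1 / (X : ℝ) ≤ 1 / N' := one_div_le_one_div_of_le h3 h4
  refine h6.trans ?_
  rw [div_le_iff₀ h3, sub_mul, div_mul_cancel₀ _ h3.ne']
  linarith

theorem tOsc : S_Osc := by
  intro N N' X a b hN hN' hX hX' hne
  set y : ℝ := Real.log N' - Real.log N with hy
  have hXp : (0 : ℝ) < X := by
    have : (1 : ℝ) ≤ X := by exact_mod_cast hN.trans hX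
    linarith
  have hyl : 1 / (X : ℝ) ≤ |y| := by
    rcases lt_or_gt_of_ne hne with h | h
    · exact (Osc_log N N' X hN hX' h).trans (le_abs_self _)
    · have := Osc_log N' N X hN' hX h
      rw [hy, abs_sub_comm]
      exact this.trans (le_abs_self _)
  have hy0 : 0 < |y| := lt_of_lt_of_le (by positivity) hyl
  have hyne : y ≠ 0 := abs_pos.1 hy0
  have hc : (Complex.I * (y : ℂ)) ≠ 0 := mul_ne_zero Complex.I_ne_zero (by exact_mod_cast hyne)
  have hN0 : (N : ℂ) ≠ 0 := by exact_mod_cast (by omega : N ≠ 0)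
  have hN0' : (N' : ℂ) ≠ 0 := by exact_mod_cast (by omega : N' ≠ 0)
  have heq : ∀ t : ℝ, (N : ℂ) ^ (-(t * Complex.I)) * (N' : ℂ) ^ (t * Complex.I) =
      Complex.exp ((Complex.I * (y : ℂ)) * t) := by
    intro t
    rw [Complex.cpow_def_of_ne_zero hN0, Complex.cpow_def_of_ne_zero hN0', ← Complex.exp_add]
    congr 1
    rw [← Complex.natCast_log, ← Complex.natCast_log, hy]
    push_cast
    ring
  have hint : ∫ t in a..b, (N : ℂ) ^ (-(t * Complex.I)) * (N' : ℂ) ^ (t * Complex.I) =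
      (Complex.exp ((Complex.I * (y : ℂ)) * b) - Complex.exp ((Complex.I * (y : ℂ)) * a)) /
        (Complex.I * (y : ℂ)) := by
    rw [← integral_exp_mul_complex hc]
    exact intervalIntegral.integral_congr fun t _ => heq t
  have hn : ∀ t : ℝ, ‖Complex.exp ((Complex.I * (y : ℂ)) * t)‖ = 1 := by
    intro t
    have : (Complex.I * (y : ℂ)) * t = ((y * t : ℝ) : ℂ) * Complex.I := by push_cast; ring
    rw [this, Complex.norm_exp_ofReal_mul_I]
  rw [hint, norm_div]
  have h1 : ‖Complex.exp ((Complex.I * (y : ℂ)) * b) - Complex.exp ((Complex.I * (y : ℂ)) * a)‖ ≤ 2 := by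
    refine (norm_sub_le _ _).trans ?_
    rw [hn, hn]; norm_num
  have h2 : ‖Complex.I * (y : ℂ)‖ = |y| := by
    rw [norm_mul, Complex.norm_I, one_mul, Complex.norm_real, Real.norm_eq_abs]
  rw [h2, div_le_iff₀ hy0]
  refine h1.trans ?_
  have h3 : 2 * (X : ℝ) * (1 / X) ≤ 2 * X * |y| := by
    apply mul_le_mul_of_nonneg_left hyl; positivity
  have h4 : 2 * (X : ℝ) * (1 / X) = 2 := by field_simp
  linarith

end MP7ed9c3.Aw
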