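import Pool.Agent.Lib.MP_7ed9c3_nt.Aw.Spec

/-!
# MP_7ed9c3_nt, part Aw: products of two prime powers
-/

set_option autoImplicit false

namespace MP7ed9c3.Aw

open NumberField IsDedekindDomain Filter Topology MeasureTheory Metric

/-- Cancellation in coprime products. -/
private lemma PP_aux (x y z w : ℕ) (hx : 0 < x) (h : x * y = z * w) (h1 : Nat.Coprime x w)
    (h2 : Nat.Coprime z y) : z = x ∧ w = y := by
  have a1 : x ∣ z := h1.dvd_of_dvd_mul_right (h ▸ Dvd.intro y rfl)
  have a2 : z ∣ x := h2.dvd_of_dvd_mul_right (h ▸ Dvd.intro w rfl)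
  have e : z = x := Nat.dvd_antisymm a2 a1
  subst e
  exact ⟨rfl, (Nat.eq_of_mul_eq_mul_left hx h).symm⟩

/-- A prime divisor of a product of two prime powers. -/
private lemma PP_dvd (p r s c d : ℕ) (hp : p.Prime) (hr : r.Prime) (hs : s.Prime)
    (h : p ∣ r ^ c * s ^ d) : p = r ∨ p = s := by
  rcases (hp.dvd_mul).mp h with h | h
  · exact Or.inl ((Nat.prime_dvd_prime_iff_eq hp hr).mp (hp.dvd_of_dvd_pow h))
  · exact Or.inr ((Nat.prime_dvd_prime_iff_eq hp hs).mp (hp.dvd_of_dvd_pow h))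

/-- **PP**: products of two prime powers. -/
theorem tPP : S_PP := by
  intro m₁ m₂ n₁ n₂ h1 h2 h3 h4 h
  obtain ⟨p, a, hp, ha, rfl⟩ := (isPrimePow_nat_iff _).mp h1
  obtain ⟨q, b, hq, hb, rfl⟩ := (isPrimePow_nat_iff _).mp h2
  obtain ⟨r, c, hr, hc, rfl⟩ := (isPrimePow_nat_iff _).mp h3
  obtain ⟨s, d, hs, hd, rfl⟩ := (isPrimePow_nat_iff _).mp h4
  rw [hp.pow_minFac ha.ne', hq.pow_minFac hb.ne', hr.pow_minFac hc.ne', hs.pow_minFac hd.ne']
  have dp : p = r ∨ p = s :=
    PP_dvd p r s c d hp hr hs (h ▸ (dvd_mul_of_dvd_left (dvd_pow_self p ha.ne') _))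
  have dq : q = r ∨ q = s :=
    PP_dvd q r s c d hq hr hs (h ▸ (dvd_mul_of_dvd_right (dvd_pow_self q hb.ne') _))
  have dr : r = p ∨ r = q :=
    PP_dvd r p q a b hr hp hq (h.symm ▸ (dvd_mul_of_dvd_left (dvd_pow_self r hc.ne') _))
  have ds : s = p ∨ s = q :=
    PP_dvd s p q a b hs hp hq (h.symm ▸ (dvd_mul_of_dvd_right (dvd_pow_self s hd.ne') _))
  by_cases hpq : q = p
  · right; right
    subst hpq
    refine ⟨rfl, ?_, ?_⟩
    · rcases dr with e | e <;> exact e
    · rcases ds with e | e <;> exact e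
  · have hco : ∀ i j : ℕ, Nat.Coprime (p ^ i) (q ^ j) := fun i j =>
      Nat.Coprime.pow i j ((Nat.coprime_primes hp hq).mpr fun e => hpq e.symm)
    rcases dp with e | e
    · subst e
      rcases dq with e' | e'
      · exact absurd e' hpq
      · subst e'
        left
        exact PP_aux _ _ _ _ (pow_pos hp.pos a) h (hco a d) (hco c b)
    · subst e
      rcases dq with e' | e'
      · subst e'
        right; left
        have h' : p ^ a * q ^ b = p ^ d * q ^ c := by rw [h, Nat.mul_comm]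
        exact (PP_aux _ _ _ _ (pow_pos hp.pos a) h' (hco a c) (hco d b)).symm
      · exact absurd e' hpq

end MP7ed9c3.Aw
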