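import Pool.Agent.Lib.MP_7ed9c3_nt.Aw.Spec

/-!
# MP_7ed9c3_nt, part Aw: the map of the disc to the strip (proof of `S_Phi`)
-/

set_option autoImplicit false

namespace MP7ed9c3.Aw

open NumberField IsDedekindDomain Filter Topology MeasureTheory Metric

private theorem Phi_ne1 {w : ℂ} (hw : ‖w‖ < 1) : 1 - w ≠ 0 := by
  intro h0
  have h1 : w = 1 := (sub_eq_zero.1 h0).symm
  rw [h1, norm_one] at hw
  exact lt_irrefl _ hw

private theorem Phi_re {w : ℂ} (hw : ‖w‖ < 1) : 0 < ((1 + w) / (1 - w)).re := by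
  have hn : 0 < Complex.normSq (1 - w) := Complex.normSq_pos.2 (Phi_ne1 hw)
  rw [Complex.div_re, ← add_div]
  refine div_pos ?_ hn
  have h1 : w.re * w.re + w.im * w.im < 1 := by
    rw [← Complex.normSq_apply, Complex.normSq_eq_norm_sq]
    nlinarith [norm_nonneg w]
  simp only [Complex.add_re, Complex.one_re, Complex.sub_re, Complex.add_im, Complex.one_im,
    Complex.sub_im]
  nlinarith

private theorem Phi_low {r : ℝ} {w : ℂ} (h0 : 0 ≤ r) (h1 : r < 1) (hw : ‖w‖ ≤ r) :
    -Real.log ((1 + r) / (1 - r)) ≤ Real.log ‖(1 + w) / (1 - w)‖ := by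
  have hr1 : 0 < 1 - r := by linarith
  have hr2 : 0 < 1 + r := by linarith
  rw [← Real.log_inv, inv_div]
  refine Real.log_le_log (div_pos hr1 hr2) ?_
  rw [norm_div]
  have e1 : 1 - r ≤ ‖1 + w‖ := by
    have h2 : ‖(1 : ℂ)‖ - ‖-w‖ ≤ ‖(1 : ℂ) - -w‖ := norm_sub_norm_le _ _
    rw [norm_one, norm_neg, sub_neg_eq_add] at h2
    linarith
  have e2 : ‖1 - w‖ ≤ 1 + r := by
    have h2 := norm_sub_le (1 : ℂ) w
    rw [norm_one] at h2
    linarith
  have e3 : 0 < ‖1 - w‖ := norm_pos_iff.2 (Phi_ne1 (lt_of_le_of_lt hw h1))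
  exact div_le_div₀ (norm_nonneg _) e1 e3 e2

theorem tPhi : S_Phi := by
  intro h hh
  have hc : 0 < 2 * h / Real.pi := div_pos (by linarith) Real.pi_pos
  refine ⟨?_, ?_, ?_, ?_, ?_⟩
  · intro w hw
    have hw' : ‖w‖ < 1 := by simpa using hw
    have hq : DifferentiableAt ℂ (fun w : ℂ => (1 + w) / (1 - w)) w :=
      ((differentiableAt_const _).add differentiableAt_id).div
        ((differentiableAt_const _).sub differentiableAt_id) (Phi_ne1 hw')
    have hl : DifferentiableAt ℂ (fun w : ℂ => Complex.log ((1 + w) / (1 - w))) w :=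
      hq.clog (Complex.mem_slitPlane_iff.2 (Or.inl (Phi_re hw')))
    have hp : DifferentiableAt ℂ (phi h) w := (hl.const_mul _).const_add _
    exact hp.differentiableWithinAt
  · intro w hw
    have hw' : ‖w‖ < 1 := by simpa using hw
    have e1 : (phi h w).im = 2 * h / Real.pi * ((1 + w) / (1 - w)).arg := by
      simp only [phi, Complex.add_im, Complex.im_ofNat, zero_add,
        Complex.im_ofReal_mul, Complex.log_im]
    have e2 : |((1 + w) / (1 - w)).arg| < Real.pi / 2 :=
      Complex.abs_arg_lt_pi_div_two_iff.2 (Or.inl (Phi_re hw'))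
    rw [e1, abs_mul, abs_of_pos hc]
    calc 2 * h / Real.pi * |((1 + w) / (1 - w)).arg| < 2 * h / Real.pi * (Real.pi / 2) :=
          mul_lt_mul_of_pos_left e2 hc
      _ = h := by field_simp
  · intro r w h0 h1 hw
    have e1 : (phi h w).re = 4 + 2 * h / Real.pi * Real.log ‖(1 + w) / (1 - w)‖ := by
      simp only [phi, Complex.add_re, Complex.re_ofNat, Complex.re_ofReal_mul, Complex.log_re]
    rw [e1, ell]
    have := mul_le_mul_of_nonneg_left (Phi_low h0 h1 hw) hc.le
    linarith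
  · intro r h0 h1
    have hr1 : 0 < 1 - r := by linarith
    have hr2 : 0 < 1 + r := by linarith
    have e1 : (1 + -(r : ℂ)) / (1 - -(r : ℂ)) = (((1 - r) / (1 + r) : ℝ) : ℂ) := by
      push_cast
      rw [sub_neg_eq_add, ← sub_eq_add_neg]
    have e2 : Real.log ((1 - r) / (1 + r)) = -Real.log ((1 + r) / (1 - r)) := by
      rw [← Real.log_inv, inv_div]
    rw [phi, e1, ← Complex.ofReal_log (div_pos hr1 hr2).le, e2, ell]
    push_cast
    ring
  · simp [phi]

end MP7ed9c3.Aw
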