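import Pool.Agent.Lib.MP_7ed9c3_nt.Aw.Spec

/-!
# Quadruples of powers of one prime
-/

set_option autoImplicit false

namespace MP7ed9c3.Aw

open NumberField IsDedekindDomain Filter Topology MeasureTheory Metric

private theorem Q3_sp {ι : Type} [Fintype ι] (v : ℕ → ι → ℂ) (m n : ℕ) :
    sp v m n ≤ √(uu v m) * √(uu v n) := by
  unfold sp uu
  calc ‖∑ i, v m i * (starRingEnd ℂ) (v n i)‖
      ≤ ∑ i, ‖v m i * (starRingEnd ℂ) (v n i)‖ := norm_sum_le _ _
    _ = ∑ i, ‖v m i‖ * ‖v n i‖ :=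
        Finset.sum_congr rfl fun i _ => by rw [norm_mul, RCLike.norm_conj]
    _ ≤ _ := Real.sum_mul_le_sqrt_mul_sqrt _ _ _

private theorem Q3_uu {ι : Type} [Fintype ι] (v : ℕ → ι → ℂ) (m : ℕ) : 0 ≤ uu v m :=
  Finset.sum_nonneg fun _ _ => by positivity

private theorem Q3_sp0 {ι : Type} [Fintype ι] (v : ℕ → ι → ℂ) (m n : ℕ) : 0 ≤ sp v m n :=
  norm_nonneg _

private theorem Q3_term {ι : Type} [Fintype ι] (v : ℕ → ι → ℂ) (τ : ℝ) (hτ : 0 ≤ τ)
    (m₁ m₂ n₁ n₂ : ℕ) (h₁ : uu v n₁ ≤ τ) (h₂ : uu v n₂ ≤ τ) :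
    sp v m₁ n₁ * sp v m₂ n₂ ≤ τ * ((uu v m₁ + uu v m₂) / 2) := by
  have a1 : √(uu v n₁) ≤ √τ := Real.sqrt_le_sqrt h₁
  have a2 : √(uu v n₂) ≤ √τ := Real.sqrt_le_sqrt h₂
  have b1 : sp v m₁ n₁ ≤ √(uu v m₁) * √τ :=
    (Q3_sp v m₁ n₁).trans (mul_le_mul_of_nonneg_left a1 (Real.sqrt_nonneg _))
  have b2 : sp v m₂ n₂ ≤ √(uu v m₂) * √τ :=
    (Q3_sp v m₂ n₂).trans (mul_le_mul_of_nonneg_left a2 (Real.sqrt_nonneg _))
  have c1 : sp v m₁ n₁ * sp v m₂ n₂ ≤ (√(uu v m₁) * √τ) * (√(uu v m₂) * √τ) :=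
    mul_le_mul b1 b2 (Q3_sp0 v _ _) (by positivity)
  have c2 : √τ * √τ = τ := Real.mul_self_sqrt hτ
  have c3 : √(uu v m₁) ^ 2 = uu v m₁ := Real.sq_sqrt (Q3_uu v _)
  have c4 : √(uu v m₂) ^ 2 = uu v m₂ := Real.sq_sqrt (Q3_uu v _)
  have c5 : √(uu v m₁) * √(uu v m₂) ≤ (uu v m₁ + uu v m₂) / 2 := by
    nlinarith [sq_nonneg (√(uu v m₁) - √(uu v m₂))]
  calc sp v m₁ n₁ * sp v m₂ n₂ ≤ (√(uu v m₁) * √τ) * (√(uu v m₂) * √τ) := c1
    _ = (√τ * √τ) * (√(uu v m₁) * √(uu v m₂)) := by ring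
    _ = τ * (√(uu v m₁) * √(uu v m₂)) := by rw [c2]
    _ ≤ τ * ((uu v m₁ + uu v m₂) / 2) := mul_le_mul_of_nonneg_left c5 hτ

private theorem Q3_card (S : Finset ℕ) (M p : ℕ) (hS : ∀ m ∈ S, IsPrimePow m ∧ m ≤ M) :
    (S.filter fun n => n.minFac = p).card ≤ Nat.log 2 M := by
  have key : ∀ n ∈ S.filter (fun n => n.minFac = p), p ^ n.factorization p = n := by
    intro n hn
    rw [Finset.mem_filter] at hn
    have h := (hS n hn.1).1.minFac_pow_factorization_eq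
    rw [hn.2] at h
    exact h
  have h : (S.filter fun n => n.minFac = p).card ≤ (Finset.Icc 1 (Nat.log 2 M)).card := by
    refine Finset.card_le_card_of_injOn (fun n => n.factorization p) ?_ ?_
    · intro n hn
      have hn' : n ∈ S.filter (fun n => n.minFac = p) := hn
      have h1 := key n hn'
      rw [Finset.mem_filter] at hn'
      have h2 := hS n hn'.1
      have h3 : n ≠ 1 := h2.1.ne_one
      have h4 : p.Prime := hn'.2 ▸ Nat.minFac_prime h3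
      have h5 : 1 ≤ n.factorization p := by
        by_contra hc
        have h6 : n.factorization p = 0 := by omega
        rw [h6, pow_zero] at h1
        exact h3 h1.symm
      have h6 : 2 ^ n.factorization p ≤ M := by
        calc 2 ^ n.factorization p ≤ p ^ n.factorization p := Nat.pow_le_pow_left h4.two_le _
          _ = n := h1
          _ ≤ M := h2.2
      have h7 : n.factorization p ≤ Nat.log 2 M := Nat.le_log_of_pow_le (by norm_num) h6
      exact Finset.mem_coe.2 (Finset.mem_Icc.2 ⟨h5, h7⟩)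
    · intro a ha b hb hab
      have h1 := key a ha
      have h2 := key b hb
      have h3 : a.factorization p = b.factorization p := hab
      rw [← h1, ← h2, h3]
  simpa using h

/-- The quadruples of powers of one prime. -/
theorem tQ3 : S_Q3 := by
  classical
  intro ι _ S v M τ hS hτ hsum hle
  have hcard : ∀ p : ℕ, (((S.filter fun n => n.minFac = p).card : ℕ) : ℝ) ≤ (Nat.log 2 M : ℝ) :=
    fun p => by exact_mod_cast Q3_card S M p hS
  have hcnt : ∀ (p : ℕ) (B : ℝ), 0 ≤ B →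
      ∑ n ∈ S, (if n.minFac = p then B else 0) ≤ (Nat.log 2 M : ℝ) * B := by
    intro p B hB
    rw [← Finset.sum_filter, Finset.sum_const, nsmul_eq_mul]
    exact mul_le_mul_of_nonneg_right (hcard p) hB
  have step : ∀ m₁ ∈ S, ∀ m₂ ∈ S, (∑ n₁ ∈ S, ∑ n₂ ∈ S,
      if m₁ * m₂ = n₁ * n₂ ∧ m₂.minFac = m₁.minFac ∧ n₁.minFac = m₁.minFac ∧
        n₂.minFac = m₁.minFac then sp v m₁ n₁ * sp v m₂ n₂ else 0) ≤
      if m₂.minFac = m₁.minFac then (Nat.log 2 M : ℝ) * (τ * ((uu v m₁ + uu v m₂) / 2))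
        else 0 := by
    intro m₁ h₁ m₂ h₂
    have hB : 0 ≤ τ * ((uu v m₁ + uu v m₂) / 2) :=
      mul_nonneg hτ (by have := Q3_uu v m₁; have := Q3_uu v m₂; linarith)
    by_cases hm : m₂.minFac = m₁.minFac
    · rw [if_pos hm]
      refine le_trans (Finset.sum_le_sum fun n₁ hn₁ => ?_)
        (hcnt m₁.minFac (τ * ((uu v m₁ + uu v m₂) / 2)) hB)
      by_cases hn : n₁.minFac = m₁.minFac
      · rw [if_pos hn]
        have hpos : 0 < n₁ := (hS n₁ hn₁).1.pos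
        calc (∑ n₂ ∈ S, if m₁ * m₂ = n₁ * n₂ ∧ m₂.minFac = m₁.minFac ∧
              n₁.minFac = m₁.minFac ∧ n₂.minFac = m₁.minFac then
                sp v m₁ n₁ * sp v m₂ n₂ else 0)
            ≤ ∑ n₂ ∈ S, if n₂ = m₁ * m₂ / n₁ then τ * ((uu v m₁ + uu v m₂) / 2) else 0 := by
              refine Finset.sum_le_sum fun n₂ hn₂ => ?_
              by_cases hc : m₁ * m₂ = n₁ * n₂ ∧ m₂.minFac = m₁.minFac ∧
                n₁.minFac = m₁.minFac ∧ n₂.minFac = m₁.minFac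
              · have he : n₂ = m₁ * m₂ / n₁ := by
                  rw [hc.1, Nat.mul_div_cancel_left _ hpos]
                rw [if_pos hc, if_pos he]
                exact Q3_term v τ hτ m₁ m₂ n₁ n₂ (hle n₁ hn₁) (hle n₂ hn₂)
              · rw [if_neg hc]
                split_ifs
                · exact hB
                · exact le_rfl
          _ ≤ τ * ((uu v m₁ + uu v m₂) / 2) := by
              rw [Finset.sum_ite_eq']
              split_ifs
              · exact le_rfl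
              · exact hB
      · rw [if_neg hn]
        refine le_of_eq (Finset.sum_eq_zero fun n₂ _ => ?_)
        rw [if_neg]
        exact fun hc => hn hc.2.2.1
    · rw [if_neg hm]
      refine le_of_eq (Finset.sum_eq_zero fun n₁ _ => Finset.sum_eq_zero fun n₂ _ => ?_)
      rw [if_neg]
      exact fun hc => hm hc.2.1
  have hL0 : (0 : ℝ) ≤ (Nat.log 2 M : ℝ) := Nat.cast_nonneg _
  have e1 : ∑ m₁ ∈ S, ∑ m₂ ∈ S, (if m₂.minFac = m₁.minFac then uu v m₁ else 0) ≤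
      (Nat.log 2 M : ℝ) := by
    calc ∑ m₁ ∈ S, ∑ m₂ ∈ S, (if m₂.minFac = m₁.minFac then uu v m₁ else 0)
        ≤ ∑ m₁ ∈ S, (Nat.log 2 M : ℝ) * uu v m₁ :=
          Finset.sum_le_sum fun m₁ _ => hcnt m₁.minFac _ (Q3_uu v m₁)
      _ = (Nat.log 2 M : ℝ) := by rw [← Finset.mul_sum, hsum, mul_one]
  have e2 : ∑ m₁ ∈ S, ∑ m₂ ∈ S, (if m₂.minFac = m₁.minFac then uu v m₂ else 0) ≤
      (Nat.log 2 M : ℝ) := by
    rw [Finset.sum_comm]
    refine le_trans (Finset.sum_le_sum fun m₁ _ => Finset.sum_le_sum fun m₂ _ => ?_) e1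
    by_cases hc : m₁.minFac = m₂.minFac
    · rw [if_pos hc, if_pos hc.symm]
    · rw [if_neg hc, if_neg fun h => hc h.symm]
  calc (∑ m₁ ∈ S, ∑ m₂ ∈ S, ∑ n₁ ∈ S, ∑ n₂ ∈ S,
        if m₁ * m₂ = n₁ * n₂ ∧ m₂.minFac = m₁.minFac ∧ n₁.minFac = m₁.minFac ∧
          n₂.minFac = m₁.minFac then sp v m₁ n₁ * sp v m₂ n₂ else 0)
      ≤ ∑ m₁ ∈ S, ∑ m₂ ∈ S, (if m₂.minFac = m₁.minFac then
          (Nat.log 2 M : ℝ) * (τ * ((uu v m₁ + uu v m₂) / 2)) else 0) :=
        Finset.sum_le_sum fun m₁ h₁ => Finset.sum_le_sum fun m₂ h₂ => step m₁ h₁ m₂ h₂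
    _ = (Nat.log 2 M : ℝ) * τ / 2 *
          (∑ m₁ ∈ S, ∑ m₂ ∈ S, (if m₂.minFac = m₁.minFac then uu v m₁ else 0) +
            ∑ m₁ ∈ S, ∑ m₂ ∈ S, (if m₂.minFac = m₁.minFac then uu v m₂ else 0)) := by
        rw [← Finset.sum_add_distrib, Finset.mul_sum]
        refine Finset.sum_congr rfl fun m₁ _ => ?_
        rw [← Finset.sum_add_distrib, Finset.mul_sum]
        refine Finset.sum_congr rfl fun m₂ _ => ?_
        by_cases hc : m₂.minFac = m₁.minFac
        · rw [if_pos hc, if_pos hc, if_pos hc]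
          ring
        · rw [if_neg hc, if_neg hc, if_neg hc]
          ring
    _ ≤ (Nat.log 2 M : ℝ) * τ / 2 * ((Nat.log 2 M : ℝ) + (Nat.log 2 M : ℝ)) :=
        mul_le_mul_of_nonneg_left (add_le_add e1 e2)
          (div_nonneg (mul_nonneg hL0 hτ) (by norm_num))
    _ = τ * (Nat.log 2 M : ℝ) ^ 2 := by ring

end MP7ed9c3.Aw
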