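import Pool.Agent.Lib.MP_7ed9c3_nt.Aw.SpecR

/-!
# MP_7ed9c3_nt, part Aw: module RadQ

The choice of the radii with a quantitative gap.
-/

set_option autoImplicit false

namespace MP7ed9c3.Aw

open NumberField IsDedekindDomain Filter Topology MeasureTheory Metric

/-- The radius with `ell h r = y`. -/
private noncomputable def RadQ_T (h y : ℝ) : ℝ :=
  1 - 2 / (Real.exp (Real.pi * (4 - y) / (2 * h)) + 1)

private lemma RadQ_T_lt_one (h y : ℝ) : RadQ_T h y < 1 := by
  have h1 := Real.exp_pos (Real.pi * (4 - y) / (2 * h))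
  have h2 : 0 < 2 / (Real.exp (Real.pi * (4 - y) / (2 * h)) + 1) := by positivity
  simp only [RadQ_T]
  linarith

private lemma RadQ_T_lt (h y z : ℝ) (hh : 0 < h) (hyz : y < z) : RadQ_T h z < RadQ_T h y := by
  have h1 := Real.exp_pos (Real.pi * (4 - z) / (2 * h))
  have h3 : Real.pi * (4 - z) / (2 * h) < Real.pi * (4 - y) / (2 * h) := by
    apply div_lt_div_of_pos_right _ (by positivity)
    have := Real.pi_pos
    nlinarith
  have h4 := Real.exp_lt_exp.mpr h3
  have h5 : 2 / (Real.exp (Real.pi * (4 - y) / (2 * h)) + 1) <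
      2 / (Real.exp (Real.pi * (4 - z) / (2 * h)) + 1) := by
    apply div_lt_div_of_pos_left (by norm_num) (by positivity)
    linarith
  simp only [RadQ_T]
  linarith

private lemma RadQ_T_pos (h y : ℝ) (hh : 0 < h) (hy : y < 4) : 0 < RadQ_T h y := by
  have h1 := RadQ_T_lt h y 4 hh hy
  have h2 : RadQ_T h 4 = 0 := by
    simp only [RadQ_T, sub_self, mul_zero, zero_div, Real.exp_zero]
    norm_num
  linarith

private lemma RadQ_T_ell (h y : ℝ) (hh : 0 < h) : ell h (RadQ_T h y) = y := by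
  have h1 := Real.exp_pos (Real.pi * (4 - y) / (2 * h))
  have h2 : (1 + RadQ_T h y) / (1 - RadQ_T h y) = Real.exp (Real.pi * (4 - y) / (2 * h)) := by
    simp only [RadQ_T]
    have h3 : Real.exp (Real.pi * (4 - y) / (2 * h)) + 1 ≠ 0 := by positivity
    field_simp
    ring
  have hpi := Real.pi_pos
  rw [ell, h2, Real.log_exp]
  field_simp
  ring

private lemma RadQ_num (a b q X : ℝ) (ha : 1 ≤ a) (hq : q ≤ 1) (hq0 : 0 ≤ q) (hab : a ≤ q * b)
    (hb : 0 < b) (hX : X * a ≤ 1) : (1 - q) / 2 * X ≤ 2 / (a + 1) - 2 / (b + 1) := by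
  have hb1 : a ≤ b := by nlinarith
  have e1 : 2 / (a + 1) - 2 / (b + 1) = 2 * (b - a) / ((a + 1) * (b + 1)) := by
    have : a + 1 ≠ 0 := by positivity
    have : b + 1 ≠ 0 := by positivity
    field_simp
    ring
  have e2 : (b - a) / (2 * a * b) ≤ 2 * (b - a) / ((a + 1) * (b + 1)) := by
    rw [div_le_div_iff₀ (by positivity) (by positivity)]
    have h1 : (a + 1) * (b + 1) ≤ 4 * a * b := by nlinarith
    have h2 := mul_le_mul_of_nonneg_left h1 (by linarith : (0 : ℝ) ≤ b - a)
    nlinarith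
  have e3 : (1 - q) / (2 * a) ≤ (b - a) / (2 * a * b) := by
    rw [div_le_div_iff₀ (by positivity) (by positivity)]
    have h1 : (1 - q) * b ≤ b - a := by linarith
    have h2 := mul_le_mul_of_nonneg_left h1 (by positivity : (0 : ℝ) ≤ 2 * a)
    nlinarith
  have e4 : (1 - q) / 2 * X ≤ (1 - q) / (2 * a) := by
    rw [le_div_iff₀ (by positivity)]
    have h2 := mul_le_mul_of_nonneg_left hX (by linarith : (0 : ℝ) ≤ 1 - q)
    nlinarith
  rw [e1]
  exact e4.trans (e3.trans e2)

private lemma RadQ_gap (h y d : ℝ) (hh : 0 < h) (hh1 : h ≤ 1) (hy : 0 ≤ y) (hd : 0 < d)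
    (hz : y + d ≤ 4) : (1 - Real.exp (-(Real.pi * d / 2))) / 2 * Real.exp (-(2 * Real.pi / h)) ≤
      RadQ_T h y - RadQ_T h (y + d) := by
  have hpi := Real.pi_pos
  have h0 := RadQ_num (Real.exp (Real.pi * (4 - (y + d)) / (2 * h)))
    (Real.exp (Real.pi * (4 - y) / (2 * h))) (Real.exp (-(Real.pi * d / 2)))
    (Real.exp (-(2 * Real.pi / h))) ?_ ?_ (Real.exp_pos _).le ?_ (Real.exp_pos _) ?_
  · simp only [RadQ_T]
    linarith
  · apply Real.one_le_exp
    apply div_nonneg (mul_nonneg hpi.le (by linarith)) (by positivity)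
  · apply Real.exp_le_one_iff.mpr
    have : 0 < Real.pi * d / 2 := by positivity
    linarith
  · rw [← Real.exp_add]
    apply Real.exp_le_exp.mpr
    have e1 : Real.pi * (4 - (y + d)) / (2 * h) =
        Real.pi * (4 - y) / (2 * h) - Real.pi * d / 2 / h := by
      field_simp
      ring
    have e2 : Real.pi * d / 2 ≤ Real.pi * d / 2 / h := by
      rw [le_div_iff₀ hh]
      have : 0 < Real.pi * d / 2 := by positivity
      nlinarith
    linarith
  · rw [← Real.exp_add]
    apply Real.exp_le_one_iff.mpr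
    have e1 : Real.pi * (4 - (y + d)) / (2 * h) ≤ 2 * Real.pi / h := by
      rw [div_le_div_iff₀ (by positivity) hh]
      have e2 : Real.pi * (4 - (y + d)) ≤ Real.pi * 4 :=
        mul_le_mul_of_nonneg_left (by linarith) hpi.le
      have e3 := mul_le_mul_of_nonneg_right e2 hh.le
      nlinarith
    linarith

theorem tRadQ : S_RadQ := by
  intro σ₁ b h1 h2 h3
  have hpi := Real.pi_pos
  have hpi3 := Real.pi_gt_three
  obtain ⟨d, hd⟩ : ∃ d : ℝ, d = (b - σ₁) / 5 := ⟨_, rfl⟩
  have hd0 : 0 < d := by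
    rw [hd]
    linarith
  obtain ⟨c₁, hc₁⟩ : ∃ c : ℝ, c = (1 - Real.exp (-(Real.pi * d / 2))) / 2 := ⟨_, rfl⟩
  have hpd : 0 < Real.pi * d / 2 := by positivity
  have hq1 : Real.exp (-(Real.pi * d / 2)) < 1 := by
    rw [← Real.exp_zero]
    exact Real.exp_lt_exp.mpr (by linarith)
  have hq0 := Real.exp_pos (-(Real.pi * d / 2))
  have hc0 : 0 < c₁ := by
    rw [hc₁]
    linarith
  have hc1 : c₁ ≤ 1 := by
    rw [hc₁]
    linarith
  have hlog : Real.log c₁ ≤ 0 := Real.log_nonpos hc0.le hc1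
  refine ⟨2 * Real.pi - Real.log c₁, by linarith, fun h hh hh1 => ?_⟩
  have hδ : Real.exp (-((2 * Real.pi - Real.log c₁) / h)) ≤ c₁ * Real.exp (-(2 * Real.pi / h)) := by
    have e1 : -((2 * Real.pi - Real.log c₁) / h) = Real.log c₁ / h + -(2 * Real.pi / h) := by
      field_simp
      ring
    rw [e1, Real.exp_add]
    apply mul_le_mul_of_nonneg_right _ (Real.exp_pos _).le
    have e2 : Real.log c₁ / h ≤ Real.log c₁ := by
      rw [div_le_iff₀ hh]
      nlinarith
    exact (Real.exp_le_exp.mpr e2).trans (Real.exp_log hc0).le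
  have hgap : ∀ y : ℝ, 0 ≤ y → y + d ≤ 4 →
      RadQ_T h (y + d) ≤ (1 - Real.exp (-((2 * Real.pi - Real.log c₁) / h))) * RadQ_T h y := by
    intro y hy hyd
    have e1 := RadQ_gap h y d hh hh1 hy hd0 hyd
    rw [← hc₁] at e1
    have e2 := RadQ_T_lt_one h y
    have e3 := Real.exp_pos (-((2 * Real.pi - Real.log c₁) / h))
    have e4 : Real.exp (-((2 * Real.pi - Real.log c₁) / h)) * RadQ_T h y ≤
        Real.exp (-((2 * Real.pi - Real.log c₁) / h)) * 1 :=
      mul_le_mul_of_nonneg_left e2.le e3.le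
    linarith
  have hE3 : Real.exp (Real.pi * (4 - 3) / (2 * h)) = Real.exp (Real.pi / (2 * h)) := by
    congr 1
    ring
  have hE4 : 3 ≤ Real.exp (Real.pi / (2 * h)) := by
    have e1 : Real.pi / 2 ≤ Real.pi / (2 * h) := by
      apply div_le_div_of_nonneg_left hpi.le (by positivity)
      linarith
    have e2 := Real.exp_le_exp.mpr e1
    have e3 : Real.exp (3 / 2) ≤ Real.exp (Real.pi / 2) := Real.exp_le_exp.mpr (by linarith)
    have e4 : (3 : ℝ) ≤ Real.exp (3 / 2) := by
      have e5 := Real.quadratic_le_exp_of_nonneg (show (0 : ℝ) ≤ 3 / 2 by norm_num)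
      norm_num at e5
      linarith
    linarith
  refine ⟨RadQ_T h 3, RadQ_T h (σ₁ + 4 * d), RadQ_T h (σ₁ + 3 * d),
    RadQ_T h (σ₁ + 2 * d), RadQ_T h (σ₁ + d), ?_, ?_, ?_⟩
  · exact
      { r₀pos := RadQ_T_pos h 3 hh (by norm_num)
        lt1 := RadQ_T_lt h _ _ hh (by linarith)
        lt2 := RadQ_T_lt h _ _ hh (by linarith)
        lt3 := RadQ_T_lt h _ _ hh (by linarith)
        lt4 := RadQ_T_lt h _ _ hh (by linarith)
        lt5 := RadQ_T_lt_one h _
        e0 := by rw [RadQ_T_ell h _ hh]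
        e1 := by rw [RadQ_T_ell h _ hh]; linarith
        e2 := by rw [RadQ_T_ell h _ hh]; linarith
        e3 := by rw [RadQ_T_ell h _ hh]; linarith
        e4 := by rw [RadQ_T_ell h _ hh]; linarith }
  · rw [RadQ_T_ell h _ hh, hd]
    ring
  · refine ⟨Real.exp_pos _, ?_, ?_, ?_, ?_, ?_, ?_⟩
    · have e1 : Real.exp (-(2 * Real.pi / h)) ≤ 1 := by
        apply Real.exp_le_one_iff.mpr
        have : 0 < 2 * Real.pi / h := by positivity
        linarith
      have e2 : c₁ ≤ 1 / 2 := by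
        rw [hc₁]
        linarith
      have e3 := mul_le_mul e2 e1 (Real.exp_pos _).le (by norm_num)
      linarith
    · show 1 / 2 ≤ 1 - 2 / (Real.exp (Real.pi * (4 - 3) / (2 * h)) + 1)
      rw [hE3]
      have e1 : 2 / (Real.exp (Real.pi / (2 * h)) + 1) ≤ 1 / 2 := by
        rw [div_le_div_iff₀ (by positivity) (by norm_num)]
        linarith
      linarith
    · show 1 - 2 / (Real.exp (Real.pi * (4 - 3) / (2 * h)) + 1) ≤ _
      rw [hE3]
      have e1 : Real.exp (-(Real.pi / (2 * h))) ≤ 2 / (Real.exp (Real.pi / (2 * h)) + 1) := by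
        rw [le_div_iff₀ (by positivity), mul_add, ← Real.exp_add, neg_add_cancel, Real.exp_zero,
          mul_one]
        have : Real.exp (-(Real.pi / (2 * h))) ≤ 1 := by
          apply Real.exp_le_one_iff.mpr
          have : 0 < Real.pi / (2 * h) := by positivity
          linarith
        linarith
      have e2 : Real.exp (-((2 * Real.pi - Real.log c₁) / h)) ≤
          Real.exp (-(Real.pi / (2 * h))) := by
        apply Real.exp_le_exp.mpr
        apply neg_le_neg
        rw [div_le_div_iff₀ (by positivity) hh]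
        nlinarith
      linarith
    · have e1 := hgap (σ₁ + 3 * d) (by linarith) (by linarith)
      rw [show σ₁ + 3 * d + d = σ₁ + 4 * d by ring] at e1
      exact e1
    · have e1 := hgap (σ₁ + 2 * d) (by linarith) (by linarith)
      rw [show σ₁ + 2 * d + d = σ₁ + 3 * d by ring] at e1
      exact e1
    · have e1 := hgap (σ₁ + d) (by linarith) (by linarith)
      rw [show σ₁ + d + d = σ₁ + 2 * d by ring] at e1
      exact e1

end MP7ed9c3.Aw
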