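import Pool.Agent.Lib.MP_7ed9c3_nt.Aw.SpecQ

/-!
# MP_7ed9c3_nt, part Aw, module RedQ: reduction to `S_CoreQ`, with an explicit rate
-/

set_option autoImplicit false

namespace MP7ed9c3.Aw

open NumberField IsDedekindDomain Filter Topology MeasureTheory Metric

/-- removing few elements of a finite set of zeros -/
private theorem RedQ_card (Y : Finset ℂ) (P : ℂ → Prop) [DecidablePred P] (N N₀ : ℕ)
    (hY : Y.card = N) (hP : (Y.filter P).card ≤ N₀) :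
    (N : ℝ) - N₀ ≤ ((Y.filter fun a => ¬ P a).card : ℝ) := by
  have h1 := Finset.card_filter_add_card_filter_not (s := Y) P
  have h2 : N ≤ (Y.filter fun a => ¬ P a).card + N₀ := by omega
  have h3 := (Nat.cast_le (α := ℝ)).mpr h2
  push_cast at h3
  linarith

/-- the numbers -/
private theorem RedQ_num (h ε V H : ℝ) (hh : 0 < h) (hε : 0 < ε) (hV : 8 * h / ε + h + 1 ≤ V)
    (hVH : V ≤ H) : h ≤ H ∧ 2 * (ε / 8) * H + 2 * h ≤ ε * H ∧ V ^ 2 ≤ (2 * V) ^ 2 ∧ V ≤ 2 * V := by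
  have p1 : 0 < 8 * h / ε := by positivity
  have hV1 : 1 ≤ V := by linarith
  have e1 : 8 * h / ε ≤ H := by linarith
  rw [div_le_iff₀ hε] at e1
  refine ⟨by linarith, by nlinarith, by nlinarith, by linarith⟩

theorem tRedQ (h1 : S_CoreQ) (h2 : S_Mark) (h3 : S_NumQ) : S_RedQ := by
  classical
  intro K _ _ 𝓔 b hb hb1 hD σ₁ h ε hσ hh hε
  obtain ⟨C, k, N₀, hC, hD⟩ := hD
  set σ : ℝ := max σ₁ (1 / 2) with hσdef
  have hσ1 : σ₁ ≤ σ := le_max_left _ _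
  have hσ2 : 1 / 2 ≤ σ := le_max_right _ _
  have hσb : σ < b := max_lt hσ hb
  have hε1 : 0 < ε / 8 := by positivity
  obtain ⟨x, hx1, hx2, hcore⟩ := h1 C b k hC hb1 σ (ε / 8) hσ2 hσb hε1
  obtain ⟨η, B, V₁, hη, hB, hDV⟩ := hD x hx1 hx2
  obtain ⟨A, κ₀, V₀, hA, hκ₀, hcore⟩ := hcore η B hη hB
  obtain ⟨c, κ, V₂, hc, hV₂, hκ, hnum⟩ := h3 A κ₀ h (N₀ h) hA hκ₀ hh
  refine ⟨c, κ, max (max V₀ V₁) (max V₂ (8 * h / ε + h + 1)), hc, ?_⟩
  intro V H t₀ hV hH M hM F hFd hFb hFe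
  have v0 : V₀ ≤ V := (le_max_left _ _).trans ((le_max_left _ _).trans hV)
  have v1 : V₁ ≤ V := (le_max_right _ _).trans ((le_max_left _ _).trans hV)
  have v2 : V₂ ≤ V := (le_max_left _ _).trans ((le_max_right _ _).trans hV)
  have v3 : 8 * h / ε + h + 1 ≤ V := (le_max_right _ _).trans ((le_max_right _ _).trans hV)
  obtain ⟨hUH, hVH, h₁, n, N, hh₁, hh₁1, hrate, hn, hn1, hNn, hNN₀, hcN⟩ := hnum V H v2 hH
  obtain ⟨a1, a2, a3, a4⟩ := RedQ_num h ε V H hh hε v3 hVH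
  obtain ⟨P, c', hc', hLow, hPd, hPB, hPZ, hexp⟩ := hDV V v1 M hM
  have hwin : ∀ s ∈ win σ H t₀, σ₁ < s.re ∧ |s.im - t₀| < H := by
    intro s hs
    exact ⟨lt_of_le_of_lt hσ1 hs.1, hs.2⟩
  have hre : ∀ s ∈ win σ H t₀, 1 / 2 ≤ s.re := by
    intro s hs
    have h0 : σ < s.re := hs.1
    linarith
  -- the function without the finitely many Euler factors
  set G : ℂ → ℂ := fun s => P s * F s with hG
  have hGd : DifferentiableOn ℂ G (win σ H t₀) :=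
    hPd.differentiableOn.mul (hFd.mono fun s hs => hwin s hs)
  have hGb : ∀ s ∈ win σ H t₀, ‖G s‖ ≤ Real.exp (2 * V) := by
    intro s hs
    have b1 := hPB s (hre s hs)
    have b2 := hFb s (hwin s hs).1 (hwin s hs).2
    calc ‖G s‖ = ‖P s‖ * ‖F s‖ := norm_mul _ _
      _ ≤ Real.exp V * Real.exp V := mul_le_mul b1 b2 (norm_nonneg _) (Real.exp_pos _).le
      _ = Real.exp (2 * V) := by rw [← Real.exp_add]; ring_nf
  have hGe : ∀ s ∈ win σ H t₀, 3 ≤ s.re → G s = Complex.exp (dir c' s) := by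
    intro s hs h3
    rw [← hexp s h3, hG]
    simp only
    rw [hFe s (by linarith) (hwin s hs).2]
  have hLU : LowU c' k x η B ((2 * V) ^ 2) := fun Y hY => hLow Y (a3.trans hY)
  have k1 := hcore (2 * V) H t₀ h₁ (v0.trans a4) hUH hh₁ hh₁1 hrate c' hc' hLU G hGd hGb hGe
  have k2 := h2 {s : ℂ | G s = 0} σ h h₁ (ε / 8) H t₀ n N hh₁ hn hn1 hNn hε1.le a1 k1
  refine le_trans (measure_mono ?_) (k2.trans (ENNReal.ofReal_le_ofReal a2))
  rintro t ⟨ht1, ht2⟩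
  refine ⟨ht1, fun hY => ht2 ?_⟩
  obtain ⟨Y, hYc, hYp⟩ := hY
  have hfew : (Y.filter fun ρ => P ρ = 0).card ≤ N₀ h := by
    refine hPZ h t _ hh fun ρ hρ => ?_
    rw [Finset.mem_filter] at hρ
    exact ⟨hre ρ (hYp ρ hρ.1).2.1, (hYp ρ hρ.1).1.2, hρ.2⟩
  refine ⟨Y.filter (fun ρ => ¬ P ρ = 0), ?_, fun ρ hρ => ?_⟩
  · exact hcN.trans (RedQ_card Y (fun ρ => P ρ = 0) N (N₀ h) hYc hfew)
  · rw [Finset.mem_filter] at hρ
    obtain ⟨m1, m2⟩ := hρ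
    obtain ⟨n1, n2, n3⟩ := hYp ρ m1
    refine ⟨lt_of_le_of_lt hσ1 n1.1, n1.2, n2.2, ?_⟩
    have n4 : P ρ * F ρ = 0 := n3
    exact (mul_eq_zero.mp n4).resolve_left m2

end MP7ed9c3.Aw
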