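import Pool.Agent.Lib.MP_7ed9c3_nt.Aw.SpecR

/-!
# MP_7ed9c3_nt, part Aw, module StepQ: the next block of coefficients, explicit exponent
-/

set_option autoImplicit false

namespace MP7ed9c3.Aw

open NumberField IsDedekindDomain Filter Topology MeasureTheory Metric

/-- the bounds for `(1/r₀)^(n₀)` -/
private theorem StepQ_pow (r₀ δ Q : ℝ) (hδ : 0 < δ) (hδ2 : δ ≤ 1 / 2) (h0 : 1 / 2 ≤ r₀)
    (h1 : r₀ ≤ 1 - δ) (hQ : 1 ≤ Q) :
    (1 / r₀) ^ ⌈Real.log (2 * Q / δ) / δ⌉₊ ≤ 2 * (2 * Q / δ) ^ (1 / δ) ∧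
    Q ≤ (1 / r₀) ^ ⌈Real.log (2 * Q / δ) / δ⌉₊ := by
  have hr0 : 0 < r₀ := by linarith
  obtain ⟨U, hU⟩ : ∃ U, U = 2 * Q / δ := ⟨_, rfl⟩
  have hUQ : Q ≤ U := by
    rw [hU, le_div_iff₀ hδ]
    nlinarith
  have hU1 : 1 ≤ U := hQ.trans hUQ
  have hlU : 0 ≤ Real.log U := Real.log_nonneg hU1
  rw [← hU]
  obtain ⟨n, hn⟩ : ∃ n, n = ⌈Real.log U / δ⌉₊ := ⟨_, rfl⟩
  have hn1 : (n : ℝ) < Real.log U / δ + 1 := by
    rw [hn]
    exact Nat.ceil_lt_add_one (by positivity)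
  have hn2 : Real.log U / δ ≤ n := by
    rw [hn]
    exact Nat.le_ceil _
  rw [← hn]
  constructor
  · have e1 : 1 / r₀ ≤ 2 := by
      rw [div_le_iff₀ hr0]
      linarith
    have e2 : (2 : ℝ) ≤ Real.exp 1 := by
      have := Real.add_one_le_exp (1 : ℝ)
      linarith
    calc (1 / r₀) ^ n ≤ 2 ^ n := pow_le_pow_left₀ (by positivity) e1 n
      _ = (2 : ℝ) ^ (n : ℝ) := (Real.rpow_natCast 2 n).symm
      _ ≤ (2 : ℝ) ^ (Real.log U / δ + 1) :=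
          Real.rpow_le_rpow_of_exponent_le (by norm_num) hn1.le
      _ = (2 : ℝ) ^ (Real.log U / δ) * 2 := by
          rw [Real.rpow_add (by norm_num), Real.rpow_one]
      _ ≤ (Real.exp 1) ^ (Real.log U / δ) * 2 :=
          mul_le_mul_of_nonneg_right
            (Real.rpow_le_rpow (by norm_num) e2 (by positivity)) (by norm_num)
      _ = 2 * U ^ (1 / δ) := by

          rw [Real.exp_one_rpow, Real.rpow_def_of_pos (by linarith : 0 < U), mul_comm]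
          congr 2
          ring
  · have e1 : Real.exp δ ≤ 1 / r₀ := by
      rw [le_div_iff₀ hr0]
      have h2 : r₀ ≤ Real.exp (-δ) := by
        have := Real.add_one_le_exp (-δ)
        linarith
      calc Real.exp δ * r₀ ≤ Real.exp δ * Real.exp (-δ) :=
            mul_le_mul_of_nonneg_left h2 (Real.exp_pos _).le
        _ = 1 := by rw [← Real.exp_add, add_neg_cancel, Real.exp_zero]
    calc Q ≤ U := hUQ
      _ = Real.exp (Real.log U) := (Real.exp_log (by linarith)).symm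
      _ ≤ Real.exp (n * δ) := by
          rw [Real.exp_le_exp]
          rwa [div_le_iff₀ hδ] at hn2
      _ = Real.exp δ ^ n := Real.exp_nat_mul δ n
      _ ≤ (1 / r₀) ^ n := pow_le_pow_left₀ (Real.exp_pos _).le e1 n

/-- the last inequality -/
private theorem StepQ_num (c₀ C W : ℝ) (hc₀ : 0 < c₀) (hW1 : 1 ≤ W) (h1 : 2 / c₀ ≤ W)
    (h2 : 2 * C ^ 2 ≤ W) : W ^ 3 ≤ c₀ * (W ^ 4 - C ^ 2 * W) := by
  have h3 : 2 ≤ c₀ * W := by
    rw [div_le_iff₀ hc₀] at h1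
    linarith
  have h4 : W ≤ W ^ 3 := by
    calc W = W ^ 1 := (pow_one W).symm
      _ ≤ W ^ 3 := pow_le_pow_right₀ hW1 (by norm_num)
  have h5 : 2 * W ^ 3 ≤ c₀ * W ^ 4 := by
    calc 2 * W ^ 3 ≤ c₀ * W * W ^ 3 := mul_le_mul_of_nonneg_right h3 (by positivity)
      _ = c₀ * W ^ 4 := by ring
  have h6 : 2 * (c₀ * (C ^ 2 * W)) ≤ c₀ * W ^ 4 := by
    calc 2 * (c₀ * (C ^ 2 * W)) = c₀ * (2 * C ^ 2 * W) := by ring
      _ ≤ c₀ * (W ^ 3 * W) := by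
          refine mul_le_mul_of_nonneg_left ?_ hc₀.le
          exact mul_le_mul_of_nonneg_right (h2.trans h4) (by linarith)
      _ = c₀ * W ^ 4 := by ring
  have h7 : c₀ * (W ^ 4 - C ^ 2 * W) = c₀ * W ^ 4 - c₀ * (C ^ 2 * W) := by ring
  rw [h7]
  linarith

/-- the lower bound for the mean energy -/
private theorem StepQ_low (h R' C x c₀ : ℝ) (c : ℕ → ℂ) (S : Finset ℕ) (m₀ m₁ n₀ : ℕ) (A : ℝ)
    (hc : Coefs c C) (hC : 0 ≤ C) (hx : 1 / 2 < x) (hc₀ : 0 ≤ c₀)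
    (hS : ∀ m ∈ S, 1 ≤ m ∧ m ≤ m₁)
    (hG : ∀ m ∈ S, c₀ * (m : ℝ) ^ (-(2 * x)) ≤
      ∑ n ∈ Finset.range n₀, R' ^ (2 * n) * ‖gT h n m‖ ^ 2)
    (hA : A ≤ ∑ m ∈ S, ‖c m‖ ^ 2 * (m : ℝ) ^ (-(2 * x))) :
    c₀ * (A - C ^ 2 * m₀) ≤ vS h R' c (Finset.Ioc m₀ m₁) n₀ := by
  have hw : ∀ m, 0 ≤ wS h R' c n₀ m := by
    intro m
    unfold wS
    refine mul_nonneg (by positivity) (Finset.sum_nonneg fun n _ => ?_)
    have : 0 ≤ R' ^ (2 * n) := by
      rw [pow_mul]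
      positivity
    positivity
  -- the small elements
  have hsmall : ∑ m ∈ S.filter (fun m => ¬ m₀ < m), ‖c m‖ ^ 2 * (m : ℝ) ^ (-(2 * x)) ≤
      C ^ 2 * m₀ := by
    calc ∑ m ∈ S.filter (fun m => ¬ m₀ < m), ‖c m‖ ^ 2 * (m : ℝ) ^ (-(2 * x))
        ≤ ∑ _m ∈ S.filter (fun m => ¬ m₀ < m), C ^ 2 := by
          refine Finset.sum_le_sum fun m hm => ?_
          have hm1 : 1 ≤ m := (hS m (Finset.mem_filter.1 hm).1).1
          have hm1' : (1 : ℝ) ≤ m := by exact_mod_cast hm1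
          have h1 : ‖c m‖ ^ 2 ≤ C ^ 2 * m := by
            calc ‖c m‖ ^ 2 ≤ (C * √m) ^ 2 := pow_le_pow_left₀ (norm_nonneg _) (hc.2 m) 2
              _ = C ^ 2 * m := by rw [mul_pow, Real.sq_sqrt (by linarith)]
          have h2 : (m : ℝ) * (m : ℝ) ^ (-(2 * x)) ≤ 1 := by
            have h3 : (m : ℝ) * (m : ℝ) ^ (-(2 * x)) = (m : ℝ) ^ (1 + -(2 * x)) := by
              rw [Real.rpow_add (by linarith), Real.rpow_one]
            rw [h3]
            exact Real.rpow_le_one_of_one_le_of_nonpos hm1' (by linarith)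
          calc ‖c m‖ ^ 2 * (m : ℝ) ^ (-(2 * x)) ≤ C ^ 2 * m * (m : ℝ) ^ (-(2 * x)) :=
                mul_le_mul_of_nonneg_right h1 (Real.rpow_nonneg (by linarith) _)
            _ = C ^ 2 * (m * (m : ℝ) ^ (-(2 * x))) := by ring
            _ ≤ C ^ 2 * 1 := mul_le_mul_of_nonneg_left h2 (by positivity)
            _ = C ^ 2 := mul_one _
      _ = ((S.filter (fun m => ¬ m₀ < m)).card : ℝ) * C ^ 2 := by
          rw [Finset.sum_const, nsmul_eq_mul]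
      _ ≤ (m₀ : ℝ) * C ^ 2 := by
          refine mul_le_mul_of_nonneg_right ?_ (by positivity)
          have h1 : (S.filter (fun m => ¬ m₀ < m)) ⊆ Finset.Icc 1 m₀ := by
            intro m hm
            rw [Finset.mem_filter] at hm
            exact Finset.mem_Icc.2 ⟨(hS m hm.1).1, not_lt.1 hm.2⟩
          have h2 := Finset.card_le_card h1
          rw [Nat.card_Icc, Nat.add_sub_cancel] at h2
          exact_mod_cast h2
      _ = C ^ 2 * m₀ := mul_comm _ _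
  have hsplit := Finset.sum_filter_add_sum_filter_not S (fun m => m₀ < m)
    (fun m => ‖c m‖ ^ 2 * (m : ℝ) ^ (-(2 * x)))
  have hbig : c₀ * ∑ m ∈ S.filter (fun m => m₀ < m), ‖c m‖ ^ 2 * (m : ℝ) ^ (-(2 * x)) ≤
      vS h R' c (Finset.Ioc m₀ m₁) n₀ := by
    rw [Finset.mul_sum]
    calc ∑ m ∈ S.filter (fun m => m₀ < m), c₀ * (‖c m‖ ^ 2 * (m : ℝ) ^ (-(2 * x)))
        ≤ ∑ m ∈ S.filter (fun m => m₀ < m), wS h R' c n₀ m := by
          refine Finset.sum_le_sum fun m hm => ?_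
          unfold wS
          calc c₀ * (‖c m‖ ^ 2 * (m : ℝ) ^ (-(2 * x))) =
                ‖c m‖ ^ 2 * (c₀ * (m : ℝ) ^ (-(2 * x))) := by ring
            _ ≤ _ := mul_le_mul_of_nonneg_left (hG m (Finset.mem_filter.1 hm).1) (by positivity)
      _ ≤ vS h R' c (Finset.Ioc m₀ m₁) n₀ := by
          unfold vS
          refine Finset.sum_le_sum_of_subset_of_nonneg ?_ fun m _ _ => hw m
          intro m hm
          rw [Finset.mem_filter] at hm
          exact Finset.mem_Ioc.2 ⟨hm.2, (hS m hm.1).2⟩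
  refine le_trans (mul_le_mul_of_nonneg_left ?_ hc₀) hbig
  linarith

theorem tStepQ (h1 : S_GLowQ) : S_StepQ := by
  intro C η B k hC hη hB
  obtain ⟨al, hal⟩ : ∃ al, al = 4 / η + 2 := ⟨_, rfl⟩
  have hη4 : 0 < 4 / η := by positivity
  have hal2 : 2 ≤ al := by rw [hal]; linarith
  have halη : 4 ≤ al * η := by
    rw [hal, add_mul, div_mul_cancel₀ _ hη.ne']
    linarith
  have hk0 : (0 : ℝ) ≤ k := Nat.cast_nonneg k
  have halB : 2 ≤ al * B := by nlinarith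
  have hC2 : 0 ≤ 2 * C ^ 2 := by positivity
  refine ⟨3 * (al * B) * (k + 2), 2 * C ^ 2 + 1, ?_, by linarith, ?_⟩
  · nlinarith
  intro h σ₁ b r₀ R R' R₂ R₁ δ hh hb hR hgap V hV hV8 c hc hlow κ₁ m₀ hκ₁ hm₀
  have hδ : 0 < δ := hgap.pos
  have hδ2 : δ ≤ 1 / 2 := hgap.le
  have hx : 1 / 2 < ell h R := hR.e4
  have h8 : 16 ≤ 8 / δ := by
    rw [le_div_iff₀ hδ]
    linarith
  have hV16 : 16 ≤ V := h8.trans hV8
  have hV1 : 1 ≤ V := by linarith
  have hV0 : 0 < V := by linarith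
  have hVC : 2 * C ^ 2 ≤ V := by linarith
  have hm₀0 : (0 : ℝ) ≤ m₀ := Nat.cast_nonneg m₀
  obtain ⟨W, hW⟩ : ∃ W : ℝ, W = V + m₀ + 1 := ⟨_, rfl⟩
  have hW1 : 1 ≤ W := by linarith
  have hVW : V ≤ W := by linarith
  have hVκ : V ≤ V ^ κ₁ := by
    calc V = V ^ (1 : ℝ) := (Real.rpow_one V).symm
      _ ≤ V ^ κ₁ := Real.rpow_le_rpow_of_exponent_le hV1 hκ₁
  have hW3 : W ≤ V ^ (3 * κ₁) := by
    have e1 : 0 ≤ V ^ κ₁ := by positivity
    calc W ≤ 3 * V ^ κ₁ := by linarith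
      _ ≤ V ^ κ₁ * V ^ κ₁ := mul_le_mul_of_nonneg_right (by linarith) e1
      _ = V ^ (κ₁ + κ₁) := (Real.rpow_add hV0 _ _).symm
      _ ≤ V ^ (3 * κ₁) := Real.rpow_le_rpow_of_exponent_le hV1 (by linarith)
  -- the number Y
  have hWY : W ≤ W ^ al := by
    calc W = W ^ (1 : ℝ) := (Real.rpow_one W).symm
      _ ≤ W ^ al := Real.rpow_le_rpow_of_exponent_le hW1 (by linarith)
  have hVY : V ^ 2 ≤ W ^ al := by
    calc V ^ 2 ≤ W ^ 2 := pow_le_pow_left₀ (by linarith) hVW 2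
      _ = W ^ (2 : ℝ) := (Real.rpow_two W).symm
      _ ≤ W ^ al := Real.rpow_le_rpow_of_exponent_le hW1 hal2
  obtain ⟨P, S, hYP, hPY, hSP, hsum⟩ := hlow (W ^ al) hVY
  have hPV : V ≤ P := by linarith
  have hP1 : (1 : ℝ) ≤ P := by linarith
  have hP1' : 1 ≤ P := by exact_mod_cast hP1
  have hPη : W ^ 4 ≤ (P : ℝ) ^ η := by
    calc W ^ 4 = W ^ (4 : ℝ) := by
          rw [← Real.rpow_natCast]
          norm_num
      _ ≤ W ^ (al * η) := Real.rpow_le_rpow_of_exponent_le hW1 halη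
      _ = (W ^ al) ^ η := Real.rpow_mul (by linarith) _ _
      _ ≤ (P : ℝ) ^ η := Real.rpow_le_rpow (by linarith) hYP hη.le
  -- k is positive
  have hk : 1 ≤ k := by
    by_contra hk
    have hk' : k = 0 := by omega
    have h2 : ∑ m ∈ S, ‖c m‖ ^ 2 * (m : ℝ) ^ (-(2 * ell h R)) = 0 := by
      refine Finset.sum_eq_zero fun m hm => ?_
      obtain ⟨h3, h4⟩ := hSP m hm
      rw [hk', pow_zero] at h4
      have h5 : m = 1 := by omega
      rw [h5, hc.1 1 not_isPrimePow_one]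
      simp
    rw [h2] at hsum
    have h3 : 1 ≤ W ^ 4 := one_le_pow₀ hW1
    linarith
  have hPQ : P ≤ P ^ k := by
    calc P = P ^ 1 := (pow_one P).symm
      _ ≤ P ^ k := Nat.pow_le_pow_right hP1' hk
  have hPQ' : (P : ℝ) ≤ (P : ℝ) ^ k := by exact_mod_cast hPQ
  have hQ1 : (1 : ℝ) ≤ (P : ℝ) ^ k := hP1.trans hPQ'
  obtain ⟨hup, hlo⟩ := StepQ_pow r₀ δ ((P : ℝ) ^ k) hδ hδ2 hgap.g0 hgap.g1 hQ1
  obtain ⟨n₀, hn₀⟩ : ∃ n₀ : ℕ, n₀ = ⌈Real.log (2 * (P : ℝ) ^ k / δ) / δ⌉₊ := ⟨_, rfl⟩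
  rw [← hn₀] at hup hlo
  have hceil : (1 / r₀) ^ n₀ ≤ (⌈(1 / r₀) ^ n₀⌉₊ : ℝ) := Nat.le_ceil _
  have hQm : P ^ k ≤ ⌈(1 / r₀) ^ n₀⌉₊ := by
    have := hlo.trans hceil
    exact_mod_cast this
  refine ⟨⌈(1 / r₀) ^ n₀⌉₊, n₀, ?_, ?_, hceil, ?_⟩
  · have h2 : (m₀ : ℝ) < (⌈(1 / r₀) ^ n₀⌉₊ : ℝ) := by linarith
    exact_mod_cast h2
  · -- the upper bound
    have h2 : (⌈(1 / r₀) ^ n₀⌉₊ : ℝ) < (1 / r₀) ^ n₀ + 1 :=
      Nat.ceil_lt_add_one (by linarith)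
    have hd1 : 1 ≤ 1 / δ := by
      rw [le_div_iff₀ hδ]
      linarith
    have h2δ : 2 / δ ≤ P := by
      have e1 : 2 / δ ≤ 8 / δ := by
        rw [div_le_div_iff_of_pos_right hδ]
        norm_num
      linarith
    have hU : 2 * (P : ℝ) ^ k / δ ≤ (P : ℝ) ^ ((k : ℝ) + 1) := by
      calc 2 * (P : ℝ) ^ k / δ = 2 / δ * (P : ℝ) ^ k := by ring
        _ ≤ P * (P : ℝ) ^ k := mul_le_mul_of_nonneg_right h2δ (by positivity)
        _ = (P : ℝ) ^ ((k : ℝ) + 1) := by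
            rw [Real.rpow_add (by linarith), Real.rpow_one, Real.rpow_natCast, mul_comm]
    have hU0 : 0 ≤ 2 * (P : ℝ) ^ k / δ := by positivity
    have h3 : (2 * (P : ℝ) ^ k / δ) ^ (1 / δ) ≤ (P : ℝ) ^ (((k : ℝ) + 1) * (1 / δ)) := by
      calc (2 * (P : ℝ) ^ k / δ) ^ (1 / δ) ≤ ((P : ℝ) ^ ((k : ℝ) + 1)) ^ (1 / δ) :=
            Real.rpow_le_rpow hU0 hU (by linarith)
        _ = (P : ℝ) ^ (((k : ℝ) + 1) * (1 / δ)) := (Real.rpow_mul (by linarith) _ _).symm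
    have hPW : (P : ℝ) ≤ V ^ (3 * κ₁ * (al * B)) := by
      calc (P : ℝ) ≤ (W ^ al) ^ B := hPY
        _ = W ^ (al * B) := (Real.rpow_mul (by linarith) _ _).symm
        _ ≤ (V ^ (3 * κ₁)) ^ (al * B) := Real.rpow_le_rpow (by linarith) hW3 (by linarith)
        _ = V ^ (3 * κ₁ * (al * B)) := (Real.rpow_mul (by linarith) _ _).symm
    have hkd : 0 ≤ ((k : ℝ) + 2) * (1 / δ) := by positivity
    calc (⌈(1 / r₀) ^ n₀⌉₊ : ℝ) ≤ 2 * (1 / r₀) ^ n₀ := by linarith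
      _ ≤ 2 * (2 * (2 * (P : ℝ) ^ k / δ) ^ (1 / δ)) := by linarith
      _ ≤ 4 * (P : ℝ) ^ (((k : ℝ) + 1) * (1 / δ)) := by linarith
      _ ≤ P * (P : ℝ) ^ (((k : ℝ) + 1) * (1 / δ)) :=
          mul_le_mul_of_nonneg_right (by linarith) (by positivity)
      _ = (P : ℝ) ^ (1 + ((k : ℝ) + 1) * (1 / δ)) := by
          rw [Real.rpow_add (by linarith), Real.rpow_one]
      _ ≤ (P : ℝ) ^ (((k : ℝ) + 2) * (1 / δ)) := by
          refine Real.rpow_le_rpow_of_exponent_le hP1 ?_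
          have e1 : ((k : ℝ) + 2) * (1 / δ) = ((k : ℝ) + 1) * (1 / δ) + 1 / δ := by ring
          rw [e1]
          linarith
      _ ≤ (V ^ (3 * κ₁ * (al * B))) ^ (((k : ℝ) + 2) * (1 / δ)) :=
          Real.rpow_le_rpow (by linarith) hPW hkd
      _ = V ^ (3 * κ₁ * (al * B) * (((k : ℝ) + 2) * (1 / δ))) :=
          (Real.rpow_mul (by linarith) _ _).symm
      _ = V ^ (3 * (al * B) * (k + 2) / δ * κ₁) := by
          congr 1
          ring
  · -- the lower bound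
    have hlow' := StepQ_low h R' C (ell h R) (δ / 4) c S m₀ ⌈(1 / r₀) ^ n₀⌉₊ n₀ (W ^ 4) hc hC hx
      (by linarith)
      (fun m hm => ⟨(hSP m hm).1, (hSP m hm).2.trans hQm⟩)
      (fun m hm => by
        obtain ⟨hm1, hm2⟩ := hSP m hm
        refine h1 h σ₁ b r₀ R R' R₂ R₁ δ hh hb hR hgap n₀ m hm1 ?_
        have hm1' : (1 : ℝ) ≤ m := by exact_mod_cast hm1
        have hm2' : (m : ℝ) ≤ (P : ℝ) ^ k := by exact_mod_cast hm2
        have h2 : Real.log (2 * m / δ) ≤ Real.log (2 * (P : ℝ) ^ k / δ) := by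
          refine Real.log_le_log (by positivity) ?_
          rw [div_le_div_iff_of_pos_right hδ]
          linarith
        calc Real.log (2 * m / δ) / δ ≤ Real.log (2 * (P : ℝ) ^ k / δ) / δ := by
              rwa [div_le_div_iff_of_pos_right hδ]
          _ ≤ n₀ := by
              rw [hn₀]
              exact Nat.le_ceil _)
      (hPη.trans hsum)
    have h84 : 2 / (δ / 4) ≤ W := by
      have e1 : 2 / (δ / 4) = 8 / δ := by
        field_simp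
        norm_num
      rw [e1]
      linarith
    have hnum := StepQ_num (δ / 4) C W (by linarith) hW1 h84 (hVC.trans hVW)
    have h5 : δ / 4 * (W ^ 4 - C ^ 2 * W) ≤ δ / 4 * (W ^ 4 - C ^ 2 * m₀) := by
      refine mul_le_mul_of_nonneg_left ?_ (by linarith)
      have h6 : C ^ 2 * (m₀ : ℝ) ≤ C ^ 2 * W :=
        mul_le_mul_of_nonneg_left (by linarith) (by positivity)
      linarith
    rw [← hW]
    exact hnum.trans (h5.trans hlow')

end MP7ed9c3.Aw
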