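import Pool.Agent.Lib.MP_7ed9c3_nt.Aw.Spec

/-!
# MP_7ed9c3_nt, part Aw.  Tc: Taylor coefficients
-/

set_option autoImplicit false

namespace MP7ed9c3.Aw

open NumberField IsDedekindDomain Filter Topology MeasureTheory Metric

private theorem Tc_smooth (n : ℕ) (r : ℝ) (f : ℂ → ℂ) (hr : 0 < r)
    (hf : DifferentiableOn ℂ f (ball 0 r)) : ContDiffAt ℂ (n : ℕ∞) f 0 :=
  (hf.analyticAt (ball_mem_nhds 0 hr)).contDiffAt

private theorem Tc_cauchy (n : ℕ) (r A : ℝ) (f : ℂ → ℂ) (hr : 0 < r)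
    (hf : DifferentiableOn ℂ f (ball 0 r)) (hA : ∀ w ∈ ball (0 : ℂ) r, ‖f w‖ ≤ A) :
    ‖tc n f‖ ≤ A / r ^ n := by
  have key : ∀ s : ℝ, 0 < s → s < r → ‖tc n f‖ ≤ A / s ^ n := by
    intro s hs hsr
    have h1 : closedBall (0 : ℂ) s ⊆ ball 0 r := closedBall_subset_ball hsr
    have h2 := Complex.norm_iteratedDeriv_le_of_forall_mem_sphere_norm_le (C := A) n hs
      (hf.diffContOnCl_ball h1) (fun z hz => hA z (h1 (sphere_subset_closedBall hz)))
    have hn : (0 : ℝ) < n.factorial := by exact_mod_cast n.factorial_pos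
    unfold tc
    rw [norm_div, Complex.norm_natCast, div_le_iff₀ hn]
    calc ‖iteratedDeriv n f 0‖ ≤ n.factorial * A / s ^ n := h2
      _ = A / s ^ n * n.factorial := by ring
  have hcont : Tendsto (fun s : ℝ => A / s ^ n) (𝓝[<] r) (𝓝 (A / r ^ n)) := by
    have : ContinuousAt (fun s : ℝ => A / s ^ n) r :=
      continuousAt_const.div (continuousAt_id.pow n) (pow_ne_zero n hr.ne')
    exact this.tendsto.mono_left nhdsWithin_le_nhds
  refine ge_of_tendsto hcont ?_
  filter_upwards [Ioo_mem_nhdsLT hr] with s hs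
  exact key s hs.1 hs.2

theorem tTc : S_Tc := by
  refine ⟨?_, ?_, Tc_cauchy, ?_, ?_⟩
  · intro n r f g hr hf hg
    unfold tc
    rw [iteratedDeriv_fun_add (Tc_smooth n r f hr hf) (Tc_smooth n r g hr hg), add_div]
  · intro n r a f _ _
    unfold tc
    rw [iteratedDeriv_const_mul_field, mul_div_assoc]
  · intro r f w _ hf hw
    have h := Complex.hasSum_taylorSeries_on_ball hf hw
    have he : (fun n : ℕ => tc n f * w ^ n) =
        fun n : ℕ => ((n.factorial : ℂ))⁻¹ • (w - 0) ^ n • iteratedDeriv n f 0 := by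
      funext n
      unfold tc
      rw [sub_zero, smul_eq_mul, smul_eq_mul]
      ring
    rw [he]
    exact h
  · intro n r f g hr hfg
    unfold tc
    have h : f =ᶠ[𝓝 (0 : ℂ)] g := by
      filter_upwards [ball_mem_nhds (0 : ℂ) hr] with w hw
      exact hfg w hw
    rw [h.iteratedDeriv_eq n]

end MP7ed9c3.Aw
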