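import Pool.Agent.Lib.MP_7ed9c3_nt.Aw.AllU
import Pool.Agent.Lib.MP_7ed9c3_nt.Aw.Phi
import Pool.Agent.Lib.MP_7ed9c3_nt.Aw.Tc
import Pool.Agent.Lib.MP_7ed9c3_nt.Aw.GUp
import Pool.Agent.Lib.MP_7ed9c3_nt.Aw.Osc
import Pool.Agent.Lib.MP_7ed9c3_nt.Aw.MeanA
import Pool.Agent.Lib.MP_7ed9c3_nt.Aw.MeanB
import Pool.Agent.Lib.MP_7ed9c3_nt.Aw.PP
import Pool.Agent.Lib.MP_7ed9c3_nt.Aw.Q3
import Pool.Agent.Lib.MP_7ed9c3_nt.Aw.Quads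
import Pool.Agent.Lib.MP_7ed9c3_nt.Aw.Cheb
import Pool.Agent.Lib.MP_7ed9c3_nt.Aw.Blocks
import Pool.Agent.Lib.MP_7ed9c3_nt.Aw.RadQ
import Pool.Agent.Lib.MP_7ed9c3_nt.Aw.GLowQ
import Pool.Agent.Lib.MP_7ed9c3_nt.Aw.LogWQ
import Pool.Agent.Lib.MP_7ed9c3_nt.Aw.WinAQ
import Pool.Agent.Lib.MP_7ed9c3_nt.Aw.StepQ
import Pool.Agent.Lib.MP_7ed9c3_nt.Aw.ScaleQ
import Pool.Agent.Lib.MP_7ed9c3_nt.Aw.WBQ
import Pool.Agent.Lib.MP_7ed9c3_nt.Aw.NumCQ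
import Pool.Agent.Lib.MP_7ed9c3_nt.Aw.CoreR
import Pool.Agent.Lib.MP_7ed9c3_nt.Aw.CoreQ
import Pool.Agent.Lib.MP_7ed9c3_nt.Aw.Mark
import Pool.Agent.Lib.MP_7ed9c3_nt.Aw.NumQ
import Pool.Agent.Lib.MP_7ed9c3_nt.Aw.RedQ

/-!
# MP_7ed9c3_nt: assembly of part Aw (explicit rate, uniform in the curve)
-/

set_option autoImplicit false

namespace MP7ed9c3.Aw

open NumberField IsDedekindDomain Filter Topology MeasureTheory Metric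

theorem gUpAll : S_GUp := tGUp tPhi tTc

theorem blocksAll : S_Blocks :=
  tBlocks (tCheb (tMeanA tOsc) (tMeanB tOsc) (tQuads tPP tQ3))

theorem coreRAll : S_CoreR :=
  tCoreR tRadQ (tWBQ gUpAll) (tWinAQ tPhi tTc gUpAll (tLogWQ tPhi))
    (tScaleQ (tStepQ (tGLowQ tPhi tTc gUpAll))) blocksAll tNumCQ

theorem redQAll : S_RedQ := tRedQ (tCoreQ coreRAll) tMark tNumQ

theorem uBadAll : S_UBad := uBad

/-- The theorem for both kinds of abscissas. -/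
theorem finUQ (K : Type) [Field K] [NumberField K] :
    WindowsQ K (FewBad K) (1 / 2 + 1 / (4 * (Module.finrank ℚ K : ℝ))) ∧
    ∀ (N : Type) [Field N] [NumberField N] [IsGalois ℚ N] (g : N ≃ₐ[ℚ] N) (k : ℕ),
      Nonempty (K →ₐ[ℚ] N) → Zg.Adm (Zg.perm (K := K) g) k →
      WindowsQ K (FewBad K) (1 / 2 + 1 / (2 * (k : ℝ))) :=
  uFinQAll redQAll K

end MP7ed9c3.Aw
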