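import Pool.Agent.Lib.MP_7ed9c3_nt.Aw.Spec

/-!
# MP_7ed9c3_nt, part Aw: size of the coefficients (module CoefB)
-/

set_option autoImplicit false

namespace MP7ed9c3.Aw

open NumberField IsDedekindDomain Filter Topology MeasureTheory Metric

private theorem CoefB_pp {K : Type} [Field K] [NumberField K] (v : HeightOneSpectrum (𝓞 K)) :
    IsPrimePow (nm v) := by
  classical
  haveI : v.asIdeal.IsMaximal := v.isMaximal
  letI : Field (𝓞 K ⧸ v.asIdeal) := Ideal.Quotient.field v.asIdeal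
  haveI : Finite (𝓞 K ⧸ v.asIdeal) := Ideal.finiteQuotientOfFreeOfNeBot v.asIdeal v.ne_bot
  letI : Fintype (𝓞 K ⧸ v.asIdeal) := Fintype.ofFinite _
  rw [nm, Ideal.absNorm_apply, Submodule.cardQuot_apply, Nat.card_eq_fintype_card]
  exact Fintype.isPrimePow_card_of_field

private theorem CoefB_zero {K : Type} [Field K] [NumberField K]
    (α β : HeightOneSpectrum (𝓞 K) → ℂ) (m : ℕ) (hm : ¬ IsPrimePow m) :
    Zs.coef (Zs.lamE K) (Zs.tauE α β) m = 0 := by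
  unfold Zs.coef
  have h : ∀ i : HeightOneSpectrum (𝓞 K) × ℕ,
      (if Zs.lamE K i = m then Zs.tauE α β i else 0) = 0 := by
    intro i
    refine if_neg fun h => hm ?_
    rw [← h]
    exact (CoefB_pp i.1).pow (Nat.succ_ne_zero i.2)
  simp only [h, tsum_zero]

private theorem CoefB_pow (a x : ℝ) (j : ℕ) (ha : 0 ≤ a) (hx : 0 ≤ x) (h : a ≤ √x) :
    a ^ j ≤ √(x ^ j) := by
  apply Real.le_sqrt_of_sq_le
  have h1 : a ^ 2 ≤ x := by
    calc a ^ 2 ≤ (√x) ^ 2 := pow_le_pow_left₀ ha h 2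
      _ = x := Real.sq_sqrt hx
  calc (a ^ j) ^ 2 = (a ^ 2) ^ j := by rw [← pow_mul, ← pow_mul, mul_comm]
    _ ≤ x ^ j := pow_le_pow_left₀ (sq_nonneg a) h1 j

/-- **CoefB.** -/
theorem tCoefB (h1 : Zs.S_Over) (h2 : Zs.S_Coef) : S_CoefB := by
  classical
  intro K _ _ α β hab
  refine ⟨fun m hm => CoefB_zero α β m hm, fun m => ?_⟩
  by_cases hm : IsPrimePow m
  swap
  · rw [CoefB_zero α β m hm, norm_zero]
    positivity
  obtain ⟨p, k, hp, hk, rfl⟩ := (isPrimePow_nat_iff _).mp hm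
  obtain ⟨s, f, hov, -, hsum⟩ := h1 K p hp
  rw [h2 K α β p hp s f hov k hk, norm_div]
  have hk1 : (1 : ℝ) ≤ ‖(k : ℂ)‖ := by
    rw [Complex.norm_natCast]
    exact_mod_cast hk
  refine le_trans (div_le_self (norm_nonneg _) hk1) ?_
  have hterm : ∀ v ∈ s, ‖(if f v ∣ k then (f v : ℂ) * (α v ^ (k / f v) + β v ^ (k / f v)) else 0)‖ ≤
      (f v : ℝ) * (2 * √((p ^ k : ℕ) : ℝ)) := by
    intro v hv
    split_ifs with hd
    · obtain ⟨hf1, hf2⟩ := hov.1 v hv
      have hx : ((nm v : ℕ) : ℝ) ^ (k / f v) = ((p ^ k : ℕ) : ℝ) := by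
        rw [hf2]
        rw [← Nat.cast_pow, ← pow_mul, Nat.mul_div_cancel' hd]
      have hα : ‖α v‖ ^ (k / f v) ≤ √((p ^ k : ℕ) : ℝ) := by
        rw [← hx]
        exact CoefB_pow _ _ _ (norm_nonneg _) (Nat.cast_nonneg _) (hab v).1
      have hβ : ‖β v‖ ^ (k / f v) ≤ √((p ^ k : ℕ) : ℝ) := by
        rw [← hx]
        exact CoefB_pow _ _ _ (norm_nonneg _) (Nat.cast_nonneg _) (hab v).2
      rw [norm_mul, Complex.norm_natCast]
      refine mul_le_mul_of_nonneg_left ?_ (Nat.cast_nonneg _)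
      refine le_trans (norm_add_le _ _) ?_
      rw [norm_pow, norm_pow]
      linarith
    · rw [norm_zero]
      positivity
  calc ‖Zs.psum s f α β k‖ ≤ ∑ v ∈ s, (f v : ℝ) * (2 * √((p ^ k : ℕ) : ℝ)) := by
        rw [Zs.psum]
        exact le_trans (norm_sum_le _ _) (Finset.sum_le_sum hterm)
    _ = ((∑ v ∈ s, f v : ℕ) : ℝ) * (2 * √((p ^ k : ℕ) : ℝ)) := by
        rw [← Finset.sum_mul]
        push_cast
        rfl
    _ ≤ (Module.finrank ℚ K : ℝ) * (2 * √((p ^ k : ℕ) : ℝ)) := by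
        refine mul_le_mul_of_nonneg_right ?_ (by positivity)
        exact_mod_cast hsum
    _ = 2 * (Module.finrank ℚ K : ℝ) * √((p ^ k : ℕ) : ℝ) := by ring

end MP7ed9c3.Aw
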