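import Pool.Agent.Lib.MP_7ed9c3_nt.Aw.Spec

/-!
# MP_7ed9c3_nt, part Aw.  Module Grp: grouping the terms of the series
-/

set_option autoImplicit false

namespace MP7ed9c3.Aw

open NumberField IsDedekindDomain Filter Topology MeasureTheory Metric

private theorem Grp_summable {ι : Type} (lam : ι → ℕ) (τ : ι → ℂ) (hlam : ∀ i, 1 ≤ lam i)
    (hsum : Summable (fun i => ‖τ i‖ / (lam i : ℝ) ^ 3)) (s : ℂ) (hs : 3 ≤ s.re) :
    Summable (fun i => τ i * (lam i : ℂ) ^ (-s)) := by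
  refine Summable.of_norm_bounded hsum fun i => ?_
  have h1 : (1 : ℝ) ≤ lam i := by exact_mod_cast hlam i
  have h0 : (0 : ℝ) < lam i := by linarith
  rw [norm_mul, Complex.norm_natCast_cpow_of_pos (hlam i), Complex.neg_re, div_eq_mul_inv]
  refine mul_le_mul_of_nonneg_left ?_ (norm_nonneg _)
  rw [Real.rpow_neg h0.le]
  refine inv_anti₀ (by positivity) ?_
  calc (lam i : ℝ) ^ 3 = (lam i : ℝ) ^ ((3 : ℕ) : ℝ) := (Real.rpow_natCast _ 3).symm
    _ ≤ (lam i : ℝ) ^ s.re := Real.rpow_le_rpow_of_exponent_le h1 (by push_cast; exact hs)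

theorem tGrp : S_Grp := by
  intro ι lam τ hlam hsum s hs
  have hf := Grp_summable lam τ hlam hsum s hs
  have h1 : Zs.ser lam τ s =
      ∑' m : ℕ, ∑' i : {i : ι // lam i = m}, τ i.1 * (lam i.1 : ℂ) ^ (-s) := by
    have h2 : Summable (fun x : (Σ m : ℕ, {i : ι // lam i = m}) =>
        τ (Equiv.sigmaFiberEquiv lam x) * (lam (Equiv.sigmaFiberEquiv lam x) : ℂ) ^ (-s)) :=
      (Equiv.sigmaFiberEquiv lam).summable_iff.2 hf
    unfold Zs.ser
    rw [← (Equiv.sigmaFiberEquiv lam).tsum_eq (fun i => τ i * (lam i : ℂ) ^ (-s)), h2.tsum_sigma]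
    rfl
  rw [h1]
  unfold dir Zs.coef
  refine tsum_congr fun m => ?_
  have h3 : (fun i : {i : ι // lam i = m} => τ i.1 * (lam i.1 : ℂ) ^ (-s)) =
      fun i : {i : ι // lam i = m} => τ i.1 * (m : ℂ) ^ (-s) := by
    funext i
    rw [i.2]
  rw [h3, tsum_mul_right]
  congr 1
  have h4 := tsum_subtype {i : ι | lam i = m} τ
  refine (h4.trans ?_)
  refine tsum_congr fun i => ?_
  rw [Set.indicator_apply]
  rfl

end MP7ed9c3.Aw
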