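import Pool.Agent.Lib.MP_7ed9c3_nt.Aw.Spec
import Pool.Agent.Lib.MP_7ed9c3_nt.Zs.Series

/-!
# MP_7ed9c3_nt, part Aw, module Mod (helper40): removing the Euler factors of a finite set
-/

set_option autoImplicit false

namespace MP7ed9c3.Aw

open NumberField IsDedekindDomain Filter Topology MeasureTheory Metric

private theorem Mod_cpow {q : ℕ} (hq : 1 ≤ q) {s : ℂ} (hs : 3 ≤ s.re) :
    ‖(q : ℂ) ^ (-s)‖ ≤ ((q : ℝ) ^ 3)⁻¹ := by
  have hq1 : (1 : ℝ) ≤ q := by exact_mod_cast hq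
  rw [Complex.norm_natCast_cpow_of_pos (by omega), Complex.neg_re]
  calc (q : ℝ) ^ (-s.re) ≤ (q : ℝ) ^ (-(3 : ℝ)) :=
        Real.rpow_le_rpow_of_exponent_le hq1 (by linarith)
    _ = ((q : ℝ) ^ 3)⁻¹ := by
        rw [show (-(3 : ℝ)) = -((3 : ℕ) : ℝ) by norm_num, Real.rpow_neg (Nat.cast_nonneg _),
          Real.rpow_natCast]

private theorem Mod_lt {q : ℕ} (hq : 2 ≤ q) {s : ℂ} (hs : 3 ≤ s.re) {a : ℂ} (ha : ‖a‖ ≤ q + 1) :
    ‖a * (q : ℂ) ^ (-s)‖ < 1 := by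
  have h0 := Mod_cpow (by omega : 1 ≤ q) hs
  have h1 := Zs.seriesz_ratio hq
  rw [norm_mul]
  have h2 : ‖a‖ * ‖(q : ℂ) ^ (-s)‖ ≤ ((q : ℝ) + 1) / (q : ℝ) ^ 3 := by
    rw [div_eq_mul_inv]
    exact mul_le_mul ha h0 (norm_nonneg _) (by positivity)
  linarith [h1.1, h1.2]

theorem tMod : S_Mod := by
  classical
  intro K _ _ α β M X hloc hb hsum s hs
  obtain ⟨C, hC⟩ := countPrimes K
  have hq2 : ∀ v : HeightOneSpectrum (𝓞 K), 2 ≤ nm v := hC.1
  have hcut : ∀ i : HeightOneSpectrum (𝓞 K) × ℕ, Zs.tauE (cut X α) (cut X β) i =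
      if i.1 ∈ X then 0 else Zs.tauE α β i := by
    intro i
    by_cases hi : i.1 ∈ X
    · rw [if_pos hi]
      simp only [Zs.tauE, cut, if_pos hi]
      rw [zero_pow (Nat.succ_ne_zero _), add_zero, zero_div]
    · rw [if_neg hi]
      simp only [Zs.tauE, cut, if_neg hi]
  have hlam : ∀ i : HeightOneSpectrum (𝓞 K) × ℕ, 1 ≤ Zs.lamE K i := by
    intro i
    have := hq2 i.1
    exact Nat.one_le_iff_ne_zero.2 (pow_ne_zero _ (by omega))
  have hnorm : ∀ (τ : HeightOneSpectrum (𝓞 K) × ℕ → ℂ) (i : HeightOneSpectrum (𝓞 K) × ℕ),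
      ‖τ i‖ ≤ ‖Zs.tauE α β i‖ →
      ‖τ i * (Zs.lamE K i : ℂ) ^ (-s)‖ ≤ ‖Zs.tauE α β i‖ / (Zs.lamE K i : ℝ) ^ 3 := by
    intro τ i h
    rw [norm_mul, div_eq_mul_inv]
    exact mul_le_mul h (Mod_cpow (hlam i) hs) (norm_nonneg _) (norm_nonneg _)
  have hS1 : Summable fun i => Zs.tauE α β i * (Zs.lamE K i : ℂ) ^ (-s) :=
    Summable.of_norm_bounded hsum fun i => hnorm _ i le_rfl
  have hle2 : ∀ i, ‖Zs.tauE (cut X α) (cut X β) i‖ ≤ ‖Zs.tauE α β i‖ := by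
    intro i
    rw [hcut]
    by_cases hi : i.1 ∈ X
    · rw [if_pos hi, norm_zero]
      exact norm_nonneg _
    · rw [if_neg hi]
  have hS2 : Summable fun i => Zs.tauE (cut X α) (cut X β) i * (Zs.lamE K i : ℂ) ^ (-s) :=
    Summable.of_norm_bounded hsum fun i => hnorm _ i (hle2 i)
  -- the difference
  obtain ⟨L, hL⟩ : ∃ L : HeightOneSpectrum (𝓞 K) → ℂ, ∀ v, L v =
      -Complex.log (1 - α v * (nm v : ℂ) ^ (-s)) + -Complex.log (1 - β v * (nm v : ℂ) ^ (-s)) :=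
    ⟨_, fun _ => rfl⟩
  have hfib : ∀ v : HeightOneSpectrum (𝓞 K),
      HasSum (fun j : ℕ => Zs.tauE α β (v, j) * (Zs.lamE K (v, j) : ℂ) ^ (-s) -
        Zs.tauE (cut X α) (cut X β) (v, j) * (Zs.lamE K (v, j) : ℂ) ^ (-s))
        (if v ∈ X then L v else 0) := by
    intro v
    by_cases hv : v ∈ X
    · rw [if_pos hv, hL]
      have h1 := (Zs.seriesz_log (Mod_lt (hq2 v) hs (hb v).1)).add
        (Zs.seriesz_log (Mod_lt (hq2 v) hs (hb v).2))
      refine h1.congr_fun ?_ |> id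
      intro j
      rw [hcut, if_pos hv, zero_mul, sub_zero]
      simp only [Zs.tauE, Zs.lamE]
      rw [Zs.seriesz_pow, mul_pow, mul_pow]
      ring
    · rw [if_neg hv]
      have h1 : (fun j : ℕ => Zs.tauE α β (v, j) * (Zs.lamE K (v, j) : ℂ) ^ (-s) -
          Zs.tauE (cut X α) (cut X β) (v, j) * (Zs.lamE K (v, j) : ℂ) ^ (-s)) = fun _ => 0 := by
        funext j
        rw [hcut, if_neg hv, sub_self]
      rw [h1]
      exact hasSum_zero
  have h1 := (hS1.sub hS2).hasSum.prod_fiberwise hfib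
  have h2 : HasSum (fun v => if v ∈ X then L v else 0) (∑ v ∈ X, L v) := by
    have h3 : HasSum (fun v => if v ∈ X then L v else 0) (∑ v ∈ X, if v ∈ X then L v else 0) :=
      hasSum_sum_of_ne_finset_zero fun v hv => if_neg hv
    have h5 : (∑ v ∈ X, if v ∈ X then L v else 0) = ∑ v ∈ X, L v :=
      Finset.sum_congr rfl fun v hv => if_pos hv
    rwa [h5] at h3
  have h4 := h1.unique h2
  rw [hS1.tsum_sub hS2] at h4
  have hser : Zs.ser (Zs.lamE K) (Zs.tauE (cut X α) (cut X β)) s =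
      Zs.ser (Zs.lamE K) (Zs.tauE α β) s + -∑ v ∈ X, L v := by
    unfold Zs.ser
    rw [← h4]
    ring
  rw [hser, Complex.exp_add, mul_comm, ← Finset.sum_neg_distrib, Complex.exp_sum]
  congr 1
  refine Finset.prod_congr rfl fun v _ => ?_
  have hne : ∀ a : ℂ, ‖a‖ ≤ nm v + 1 → 1 - a * (nm v : ℂ) ^ (-s) ≠ 0 := by
    intro a ha h0
    have h5 := Mod_lt (hq2 v) hs ha
    rw [sub_eq_zero] at h0
    rw [← h0, norm_one] at h5
    exact lt_irrefl _ h5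
  rw [hL, neg_add, neg_neg, neg_neg, Complex.exp_add, Complex.exp_log (hne _ (hb v).1),
    Complex.exp_log (hne _ (hb v).2), hloc v s]

end MP7ed9c3.Aw
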