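import Pool.Agent.Lib.MP_7ed9c3_nt.Aw.Spec
import Pool.Agent.Lib.MP_7ed9c3_nt.Zs.Series

/-!
# MP_7ed9c3_nt, Aw: the logarithm of the Euler product for `Re s ≥ 3`
-/

set_option autoImplicit false

namespace MP7ed9c3.Aw

open NumberField IsDedekindDomain Filter Topology MeasureTheory Metric

private theorem SerGe_norm {q : ℕ} (hq : 2 ≤ q) {s : ℂ} (hs : 3 ≤ s.re) :
    ‖(q : ℂ) ^ (-s)‖ ≤ ((q : ℝ) ^ 3)⁻¹ := by
  have h1 : (1 : ℝ) ≤ q := by exact_mod_cast (by omega : 1 ≤ q)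
  rw [Complex.norm_natCast_cpow_of_pos (by omega), Complex.neg_re]
  calc (q : ℝ) ^ (-s.re) ≤ (q : ℝ) ^ (-((3 : ℕ) : ℝ)) :=
        Real.rpow_le_rpow_of_exponent_le h1 (by push_cast; linarith)
    _ = ((q : ℝ) ^ 3)⁻¹ := by rw [Real.rpow_neg (Nat.cast_nonneg _), Real.rpow_natCast]

/-- **SerGe.** -/
theorem tSerGe : S_SerGe := by
  intro K _ _ α β M hloc hb
  obtain ⟨C, hC⟩ := countPrimes K
  have hq2 : ∀ v : HeightOneSpectrum (𝓞 K), 2 ≤ nm v := hC.1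
  have hsum : Summable (fun i => ‖Zs.tauE α β i‖ / (Zs.lamE K i : ℝ) ^ 3) :=
    (Zs.seriesz K α β M hloc hb).1
  refine ⟨hsum, fun s hs => ?_⟩
  have hnorm : ∀ i : HeightOneSpectrum (𝓞 K) × ℕ,
      ‖Zs.tauE α β i * (Zs.lamE K i : ℂ) ^ (-s)‖ ≤ ‖Zs.tauE α β i‖ / (Zs.lamE K i : ℝ) ^ 3 := by
    intro i
    have hpos : 2 ≤ Zs.lamE K i := by
      have := hq2 i.1
      calc 2 ≤ nm i.1 := this
        _ = nm i.1 ^ 1 := (pow_one _).symm
        _ ≤ nm i.1 ^ (i.2 + 1) := Nat.pow_le_pow_right (by omega) (by omega)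
    rw [norm_mul, div_eq_mul_inv]
    exact mul_le_mul_of_nonneg_left (SerGe_norm hpos hs) (norm_nonneg _)
  have hS : Summable fun i => Zs.tauE α β i * (Zs.lamE K i : ℂ) ^ (-s) :=
    Summable.of_norm_bounded hsum hnorm
  have hzn : ∀ (v : HeightOneSpectrum (𝓞 K)) (a : ℂ), ‖a‖ ≤ nm v + 1 →
      ‖a * (nm v : ℂ) ^ (-s)‖ < 1 := by
    intro v a ha
    have hq := hq2 v
    rw [norm_mul]
    have h1 := Zs.seriesz_ratio hq
    have h2 : ‖a‖ * ‖(nm v : ℂ) ^ (-s)‖ ≤ ((nm v : ℝ) + 1) / (nm v : ℝ) ^ 3 := by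
      rw [div_eq_mul_inv]
      exact mul_le_mul ha (SerGe_norm hq hs) (norm_nonneg _) (by positivity)
    linarith [h1.1, h1.2]
  have hfib : ∀ v : HeightOneSpectrum (𝓞 K),
      HasSum (fun j : ℕ => Zs.tauE α β (v, j) * (Zs.lamE K (v, j) : ℂ) ^ (-s))
        (-Complex.log (1 - α v * (nm v : ℂ) ^ (-s)) + -Complex.log (1 - β v * (nm v : ℂ) ^ (-s))) := by
    intro v
    have h1 := (Zs.seriesz_log (hzn v (α v) (hb v).1)).add (Zs.seriesz_log (hzn v (β v) (hb v).2))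
    refine h1.congr_fun ?_ |> id
    intro j
    simp only [Zs.tauE, Zs.lamE]
    rw [Zs.seriesz_pow, mul_pow, mul_pow]
    ring
  have h1 := hS.hasSum.prod_fiberwise hfib
  have h2 := h1.cexp
  have h3 : (Complex.exp ∘ fun v : HeightOneSpectrum (𝓞 K) =>
      -Complex.log (1 - α v * (nm v : ℂ) ^ (-s)) + -Complex.log (1 - β v * (nm v : ℂ) ^ (-s))) =
      fun v => (locDen (M v) v s)⁻¹ := by
    funext v
    simp only [Function.comp_apply]
    have hne : ∀ a : ℂ, ‖a‖ ≤ nm v + 1 → 1 - a * (nm v : ℂ) ^ (-s) ≠ 0 := by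
      intro a ha h0
      have h4 := hzn v a ha
      rw [sub_eq_zero] at h0
      rw [← h0, norm_one] at h4
      exact lt_irrefl _ h4
    rw [Complex.exp_add, Complex.exp_neg, Complex.exp_neg, Complex.exp_log (hne _ (hb v).1),
      Complex.exp_log (hne _ (hb v).2), hloc v s, mul_inv]
  rw [h3] at h2
  rw [h2.tprod_eq]
  rfl

end MP7ed9c3.Aw
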