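import Pool.Agent.Lib.MP_7ed9c3_nt.Aw.SpecU
import Pool.Agent.Lib.MP_7ed9c3_nt.AllN

/-!
# MP_7ed9c3_nt, part Aw: finitely many primes of bad reduction
-/

set_option autoImplicit false

namespace MP7ed9c3.Aw

open NumberField IsDedekindDomain Filter Topology MeasureTheory Metric

theorem uBad : S_UBad := by
  intro K _ _
  have h6 : (6 : 𝓞 K) ≠ 0 := by norm_num
  refine ⟨N5.finite_mem h6, fun E hE M hM => ?_⟩
  obtain ⟨W₀, hΔ, hW₀⟩ := existsModel K E hE
  refine ((N5.finite_mem hΔ).union (N5.finite_mem h6)).subset fun v hv => ?_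
  by_contra hcon
  have hv1 : W₀.Δ ∉ v.asIdeal := fun h => hcon (Or.inl h)
  have hv2 : (6 : 𝓞 K) ∉ v.asIdeal := fun h => hcon (Or.inr h)
  obtain ⟨e1, _⟩ := goodDataAll K E W₀ hW₀ v (M v) hv1 hv2 (hM v)
  exact e1 hv

end MP7ed9c3.Aw
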