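import Pool.Agent.Lib.MP_7ed9c3_nt.Aw.Spec
import Pool.Agent.Lib.MP_7ed9c3_nt.Tz.SpecL

/-!
# MP_7ed9c3_nt, part Aw, uniform branch (statements)

The window theorem with `κ`, `V₀` which do not depend on the curve `E` over `K`: for every elliptic curve `E` over `K` with
at most `V` primes of bad reduction.  The core (`S_Core`) is already uniform in the coefficients; here are the
number theoretic inputs with the quantifiers exchanged, and the final assembly.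

Every statement `S_Name` is a separate module `Aw/Name.lean` with `theorem name : S_Name` (first letter
small, the statements after the word from are hypotheses, in this order); the complete proof is in the
docstring.  All modules import only this file (and Mathlib); code may be copied from other files.  Namespace
`MP7ed9c3.Aw`.
-/

set_option autoImplicit false

namespace MP7ed9c3.Aw

open NumberField IsDedekindDomain Filter Topology MeasureTheory Metric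

/-- The roots `α v`, `β v` have absolute value `√(nm v)` and product `nm v`. -/
def OKat {K : Type} [Field K] [NumberField K] (α β : HeightOneSpectrum (𝓞 K) → ℂ)
    (v : HeightOneSpectrum (𝓞 K)) : Prop :=
  ‖α v‖ = √(nm v) ∧ α v * β v = (nm v : ℂ)

/-! ## U1. Coefficients -/

/-- **ULoc** (from `Zg.S_Per`, `Zg.S_Num`, `Ext.S_Bij`, `Zg.S_RatP`, `Zg.S_PsumE`, `Zg.S_AdmC`, `Zg.S_AdmConj`,
`Zs.S_Over`, `Zs.S_Coef`): `Zg.S_Loc` with constants independent of `α`, `β`. -/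
def S_ULoc : Prop :=
  ∀ (K N : Type) [Field K] [NumberField K] [Field N] [NumberField N] [IsGalois ℚ N]
    (g₀ : N ≃ₐ[ℚ] N) (k : ℕ), Nonempty (K →ₐ[ℚ] N) →
    Zg.Adm (Zg.perm (K := K) g₀) k →
    ∃ (c : ℝ) (S : Set (HeightOneSpectrum (𝓞 ℚ))), 0 < c ∧ S.Finite ∧
      ∀ (α β : HeightOneSpectrum (𝓞 K) → ℂ), ∀ v ∉ S,
      (∀ w : HeightOneSpectrum (𝓞 K),
        w.asIdeal.comap (algebraMap (𝓞 ℚ) (𝓞 K)) = v.asIdeal → OKat α β w) →
      ∀ (P : Ideal (𝓞 N)) (g : N ≃ₐ[ℚ] N), Ext.IsFrob ℚ N v P g → Zg.ConjZ g₀ g →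
        ∃ j : ℕ, 1 ≤ j ∧ j ≤ k ∧
          c * √((nm v : ℝ) ^ j) ≤ ‖Zs.coef (Zs.lamE K) (Zs.tauE α β) (nm v ^ j)‖

/-- Many primes with a large coefficient, uniformly: for every `ε`, every `Y ≥ Y₁` and all roots which satisfy
`OKat` outside a finite set `X` with at most `2 √Y` elements. -/
def UMany (K : Type) [Field K] [NumberField K] (k : ℕ) (c : ℝ) : Prop :=
  ∀ ε : ℝ, 0 < ε → ∃ B Y₁ : ℝ, 1 ≤ B ∧ ∀ Y : ℝ, Y₁ ≤ Y →
    ∀ (α β : HeightOneSpectrum (𝓞 K) → ℂ) (X : Finset (HeightOneSpectrum (𝓞 K))),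
    (∀ v ∉ X, OKat α β v) → (X.card : ℝ) ≤ 2 * √Y →
      ∃ (P : ℕ) (T : Finset ℕ), Y ≤ P ∧ (P : ℝ) ≤ Y ^ B ∧ (P : ℝ) ^ (1 - ε) ≤ T.card ∧
        ∀ p ∈ T, p.Prime ∧ p ≤ P ∧ ∃ j : ℕ, 1 ≤ j ∧ j ≤ k ∧
          c * √((p : ℝ) ^ j) ≤ ‖Zs.coef (Zs.lamE K) (Zs.tauE α β) (p ^ j)‖

/-- **UPow**: comparison of powers.

Proof.  `ε' = min (ε/2) (1/4)`; `P^(1-ε') = P^(1-ε) P^(ε-ε')`, `ε - ε' ≥ ε/2`, and `P^(1-ε') ≥ P^(1/2) P^(1/4)`; for large `P`:
`P^(ε/2) ≥ 2`, `P^(1/4) ≥ 4`. -/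
def S_UPow : Prop :=
  ∀ ε : ℝ, 0 < ε → ∃ ε' P₀ : ℝ, 0 < ε' ∧ 1 ≤ P₀ ∧ ∀ P : ℝ, P₀ ≤ P →
    P ^ (1 - ε) + 2 * √P ≤ P ^ (1 - ε')

/-- **UMany1** (from `S_UPow`, `S_ULoc`, `Zg.S_Frob`, `Zg.S_TransB`, `Zg.S_ClassB`, `Zg.S_Mid`, `Zg.S_Dyad`, `Zg.S_RatP`;
the names `S_Frob` etc. as in the statement of `Zg.many`): the uniform form of `Zg.S_Many`.

Proof.  As `many` in `Zg/Many.lean` (copy it).  `c`, `S` from `S_ULoc`; `f v = 1` if `ConjZ g₀ (σ v)` and `v ∉ S`, else `0`, as there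
(`f` does not depend on `α`, `β`).  Given `ε` take `ε'`, `P₀` from `S_UPow`, and `B`, `Y₁` from `S_Dyad` for `ε'`; the new `Y₁` is the
maximum of this `Y₁`, `P₀` and `1`.  For `Y ≥ Y₁`: `P`, `T` with `P^(1-ε') ≤ T.card`.  Given `α`, `β`, `X` remove from `T` all `v` such that
`w.asIdeal.comap (algebraMap (𝓞 ℚ) (𝓞 K)) = v.asIdeal` for some `w ∈ X`: for each `w` at most one `v` (`HeightOneSpectrum.ext`), so at
most `X.card ≤ 2 √Y ≤ 2 √P` elements (the removed set is contained in the image of `X` under a choice function).  At least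
`P^(1-ε') - 2 √P ≥ P^(1-ε)` remain.  For these all `w` over `v` are outside `X`, so `OKat α β w`: `S_ULoc`. -/
def S_UMany1 : Prop :=
  ∀ (K N : Type) [Field K] [NumberField K] [Field N] [NumberField N] [IsGalois ℚ N]
    (g₀ : N ≃ₐ[ℚ] N) (k : ℕ), Nonempty (K →ₐ[ℚ] N) →
    Zg.Adm (Zg.perm (K := K) g₀) k → ∃ c : ℝ, 0 < c ∧ UMany K k c

/-- **UMany2** (from `S_UPow`, `Zs.S_Newton`, `Zs.S_Over`, `Zs.S_Coef`, `Zs.S_Count`): all primes, `k = 2 n`.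

Proof.  `c = 1/(2n)`, `B = 2`.  For `ε` take `ε'`, `P₀` from `S_UPow`; `Zs.S_Count` for `ε'`, `C = 0`: `π(P) ≥ P^(1-ε')` for large `P`.
`P = ⌈Y⌉₊ ≤ Y + 1 ≤ Y²` (`Y ≥ 2`).  `T` = the primes `p ≤ P` which are not `(nm v).minFac` for a `v ∈ X`: at least
`P^(1-ε') - 2 √Y ≥ P^(1-ε)` of them.  For `p ∈ T` no `nm v`, `v ∈ X`, is a power of `p` (see `hYp` in `Zs/Lower.lean`), so
`lowerz_one` in `Zs/Lower.lean` (copy it, or import the file `Zs/Lower.lean`) gives `j ≤ 2n` with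
`√(p^j)/(2n) ≤ ‖coef (p^j)‖`.  (`‖β v‖ = √(nm v)` for `v ∉ X`: from `OKat`, `‖α v‖ ‖β v‖ = nm v`, `nm v ≥ 2`.) -/
def S_UMany2 : Prop :=
  ∀ (K : Type) [Field K] [NumberField K], ∃ c : ℝ, 0 < c ∧ UMany K (2 * Module.finrank ℚ K) c

/-- The lower bound for the sums of squares, uniform in the roots which satisfy `OKat` outside a set of at most
`2 V` elements; with its constants. -/
def LowVc (K : Type) [Field K] [NumberField K] (k : ℕ) (x η B V₁ : ℝ) : Prop :=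
  ∀ V : ℝ, V₁ ≤ V →
    ∀ (α β : HeightOneSpectrum (𝓞 K) → ℂ) (X : Finset (HeightOneSpectrum (𝓞 K))),
    (∀ v ∉ X, OKat α β v) → (X.card : ℝ) ≤ 2 * V →
      LowU (Zs.coef (Zs.lamE K) (Zs.tauE α β)) k x η B (V ^ 2)

/-- The same with existential constants. -/
def LowV (K : Type) [Field K] [NumberField K] (k : ℕ) (x : ℝ) : Prop :=
  ∃ η B V₁ : ℝ, 0 < η ∧ 1 ≤ B ∧ LowVc K k x η B V₁

/-- **ULow**: from many large coefficients to a large sum.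

Proof.  As `lower` in `Zg/Lower.lean` (copy it): `δ = 1 - k(2x - 1) > 0`, `η = ε = δ/3`, `B`, `Y₁` from `UMany` for `ε`;
`V₁` such that `V₁ ≥ 1`, `V₁² ≥ Y₁` and `V₁^(2η) ≥ 1/c²`.  For `V ≥ V₁`, `α`, `β`, `X` and `Y ≥ V²`: `X.card ≤ 2 V ≤ 2 √Y`, so `UMany`
gives `P`, `T`, and the rest is the same. -/
def S_ULow : Prop :=
  ∀ (K : Type) [Field K] [NumberField K] (k : ℕ) (c x : ℝ), 0 < c → 1 / 2 < x →
    x < 1 / 2 + 1 / (2 * (k : ℝ)) → UMany K k c → LowV K k x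

/-! ## U2. The Euler factors -/

/-- **URoots** (from `Tz.S_Sing`): the roots of the Euler factors.  Outside the primes over `6` they are in order
wherever `M v` has good reduction, and `locDen` has no zeros in `Re s > 0` and is at most `2` there if `M v` has bad
reduction. -/
def S_URoots : Prop :=
  ∀ (K : Type) [Field K] [NumberField K] (M : HeightOneSpectrum (𝓞 K) → WeierstrassCurve (𝓞 K)),
    ∃ (α β : HeightOneSpectrum (𝓞 K) → ℂ),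
      (∀ (v : HeightOneSpectrum (𝓞 K)) (s : ℂ), locDen (M v) v s =
        (1 - α v * (nm v : ℂ) ^ (-s)) * (1 - β v * (nm v : ℂ) ^ (-s))) ∧
      (∀ v, ‖α v‖ ≤ nm v ∧ ‖β v‖ ≤ nm v) ∧
      (∀ v, (6 : 𝓞 K) ∉ v.asIdeal → (M v).Δ ∉ v.asIdeal → OKat α β v ∧ ‖β v‖ = √(nm v)) ∧
      ∀ v, (6 : 𝓞 K) ∉ v.asIdeal → (M v).Δ ∈ v.asIdeal → ∀ s : ℂ, 0 < s.re →
        locDen (M v) v s ≠ 0 ∧ ‖locDen (M v) v s‖ ≤ 2

/-- The set of the primes of bad reduction. -/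
def badS {K : Type} [Field K] [NumberField K]
    (M : HeightOneSpectrum (𝓞 K) → WeierstrassCurve (𝓞 K)) : Set (HeightOneSpectrum (𝓞 K)) :=
  {v | (M v).Δ ∈ v.asIdeal}

/-- **UBad**: finitely many primes of bad reduction; finitely many primes over `6`.

Proof.  `W₀` from `existsModel`; if `W₀.Δ ∉ v` and `6 ∉ v` then `(M v).Δ ∉ v` by `goodDataAll` (see `Zs/Roots.lean`, `rootsz`);
`N5.finite_mem` for `W₀.Δ` and `6`.  (Import `AllN.lean`.) -/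
def S_UBad : Prop :=
  ∀ (K : Type) [Field K] [NumberField K], {v : HeightOneSpectrum (𝓞 K) | (6 : 𝓞 K) ∈ v.asIdeal}.Finite ∧
    ∀ E : WeierstrassCurve K, E.IsElliptic →
    ∀ M : HeightOneSpectrum (𝓞 K) → WeierstrassCurve (𝓞 K), (∀ v, IsMinAt E v (M v)) → (badS M).Finite

/-- **ULocZ**: the zeros of the Euler factors in a finite set `Q`, uniformly in the roots.

Proof.  As `S_LocZ`: a zero of `∏ locDen` is a zero of `1 - a q^(-s)`, `a = α v` or `β v`, `q = nm v ≥ 2`, `v ∈ Q` (`a ≠ 0`).  If `s`, `s'` are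
two zeros of the same factor then `q^(-s) = q^(-s')`, so `s - s' = 2πi k/log q` with an integer `k`, so they have the same real
part, and `|Im s - Im s'| < 2h` gives `|k| < h log q/π`.  So there are at most `2 (h log q/π) + 1` zeros of this factor in a window,
a number which does not depend on `a`; sum over the `2 |Q|` factors. -/
def S_ULocZ : Prop :=
  ∀ (K : Type) [Field K] [NumberField K] (Q : Finset (HeightOneSpectrum (𝓞 K))) (h : ℝ), 0 < h →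
    ∃ N₀ : ℕ, ∀ (α β : HeightOneSpectrum (𝓞 K) → ℂ)
    (M : HeightOneSpectrum (𝓞 K) → WeierstrassCurve (𝓞 K)),
    (∀ (v : HeightOneSpectrum (𝓞 K)) (s : ℂ), locDen (M v) v s =
        (1 - α v * (nm v : ℂ) ^ (-s)) * (1 - β v * (nm v : ℂ) ^ (-s))) →
    ∀ (t : ℝ) (Z : Finset ℂ),
      (∀ ρ ∈ Z, |ρ.im - t| < h ∧ ∏ v ∈ Q, locDen (M v) v ρ = 0) → Z.card ≤ N₀

/-- **ULocB**: the Euler factors in a finite set are entire, and bounded for `Re s ≥ 0` uniformly in the roots.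

Proof.  `|1 - α q^(-s)| ≤ 1 + |α| ≤ 1 + nm v` for `Re s ≥ 0`; `B = ∏_(v ∈ Q) (1 + nm v)²`. -/
def S_ULocB : Prop :=
  ∀ (K : Type) [Field K] [NumberField K] (Q : Finset (HeightOneSpectrum (𝓞 K))),
    ∃ B : ℝ, 1 ≤ B ∧ ∀ (α β : HeightOneSpectrum (𝓞 K) → ℂ)
    (M : HeightOneSpectrum (𝓞 K) → WeierstrassCurve (𝓞 K)),
    (∀ (v : HeightOneSpectrum (𝓞 K)) (s : ℂ), locDen (M v) v s =
        (1 - α v * (nm v : ℂ) ^ (-s)) * (1 - β v * (nm v : ℂ) ^ (-s))) →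
    (∀ v, ‖α v‖ ≤ nm v ∧ ‖β v‖ ≤ nm v) →
    (∀ X : Finset (HeightOneSpectrum (𝓞 K)),
      Differentiable ℂ fun s : ℂ => ∏ v ∈ X, locDen (M v) v s) ∧
    ∀ s : ℂ, 0 ≤ s.re → ‖∏ v ∈ Q, locDen (M v) v s‖ ≤ B

/-! ## U3. Assembly -/

/-- Everything we need about the Euler products of the curves over `K`, uniformly in `E`: a finite product `P` of
Euler polynomials (bad primes and primes over `6`) and the coefficients `c`. -/
def DataU (K : Type) [Field K] [NumberField K] (k : ℕ) : Prop :=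
  ∃ (C V₂ : ℝ) (Nz : ℝ → ℕ), 0 ≤ C ∧
    ∀ (E : WeierstrassCurve K), E.IsElliptic →
    ∀ M : HeightOneSpectrum (𝓞 K) → WeierstrassCurve (𝓞 K), (∀ v, IsMinAt E v (M v)) →
    ∀ V : ℝ, V₂ ≤ V → ((badS M).ncard : ℝ) ≤ V →
    ∃ (P : ℂ → ℂ) (c : ℕ → ℂ), Coefs c C ∧
      (∀ x η B V₁ : ℝ, LowVc K k x η B V₁ → V₁ ≤ V → LowU c k x η B (V ^ 2)) ∧
      Differentiable ℂ P ∧ (∀ s : ℂ, 0 < s.re → ‖P s‖ ≤ Real.exp V) ∧
      (∀ (h t : ℝ) (Z : Finset ℂ), 0 < h → (∀ ρ ∈ Z, 0 < ρ.re ∧ |ρ.im - t| < h ∧ P ρ = 0) →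
        Z.card ≤ Nz h) ∧
      ∀ s : ℂ, 3 ≤ s.re →
        P s * ∏' v : HeightOneSpectrum (𝓞 K), (locDen (M v) v s)⁻¹ = Complex.exp (dir c s)

/-- **UData** (from `S_Grp`, `S_SerGe`, `S_Mod`, `S_CoefB`, `S_URoots`, `S_UBad`, `S_ULocZ`, `S_ULocB`).

Proof.  `C = 2n`.  `Q` = the finite set of the primes over `6` (`S_UBad`, `Set.Finite.toFinset`), `Nz h` from `S_ULocZ` (`Q`, `h`; `0` if
`h ≤ 0`), `B₆` from `S_ULocB` (`Q`); `V₂ ≥ 1`, `V₂ ≥ Q.card` and `B₆ ≤ exp (V₂/4)` (then `B₆ 2^V ≤ exp V`, as `log 2 < 0.7`).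
Given `E`, `M`, `V`: `α`, `β` from `S_URoots`; `X = Q ∪ (badS M)` (finite by `S_UBad`), at most `Q.card + V ≤ 2 V` elements;
`P s = ∏_(v ∈ X) locDen (M v) v s = (∏_(v ∈ Q) locDen) (∏_(v ∈ X \ Q) locDen)`, where every `v ∈ X \ Q` is bad and not over `6`: each of
these factors is not zero and at most `2` in `Re s > 0`, their number is at most `V`: `‖P‖ ≤ B₆ 2^V ≤ exp V`, and a zero of `P` in `Re s > 0` is
a zero of `∏_(v ∈ Q) locDen`.  `α' = cut X α`, `β' = cut X β`: for `v ∉ X` `OKat α' β' v` and `‖β' v‖ = √(nm v)`; for `v ∈ X` they are `0`.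
`c = Zs.coef (Zs.lamE K) (Zs.tauE α' β')`: `Coefs` by `S_CoefB`; `LowU` by `LowVc` for `V` (`X.card ≤ 2 V`).
For `Re s ≥ 3`: `S_SerGe` for `α`, `β` (`nm v ≤ nm v + 1`), `S_Mod`, and `S_Grp` for `tauE α' β'` (`lamE ≥ 1`; its summability:
`‖tauE α' β' i‖ ≤ ‖tauE α β i‖`). -/
def S_UData : Prop := ∀ (K : Type) [Field K] [NumberField K] (k : ℕ), DataU K k

/-- The conclusion: `κ`, `V₀` do not depend on `E`. -/
def WindowsU (K : Type) [Field K] [NumberField K] (b : ℝ) : Prop :=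
  ∀ σ₁ h ε : ℝ, σ₁ < b → 0 < h → 0 < ε → ∀ N : ℕ, ∃ κ V₀ : ℝ,
    ∀ E : WeierstrassCurve K, E.IsElliptic →
    ∀ M : HeightOneSpectrum (𝓞 K) → WeierstrassCurve (𝓞 K), (∀ v, IsMinAt E v (M v)) →
    ∀ V t₀ : ℝ, V₀ ≤ V → ((badS M).ncard : ℝ) ≤ V →
      ∀ F : ℂ → ℂ, DifferentiableOn ℂ F {s : ℂ | σ₁ < s.re ∧ |s.im - t₀| < V ^ κ} →
        (∀ s : ℂ, σ₁ < s.re → |s.im - t₀| < V ^ κ → ‖F s‖ ≤ Real.exp V) →
        (∀ s : ℂ, 3 / 2 < s.re → |s.im - t₀| < V ^ κ →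
          F s = ∏' v : HeightOneSpectrum (𝓞 K), (locDen (M v) v s)⁻¹) →
        volume {t : ℝ | |t - t₀| < V ^ κ ∧ ¬ ∃ Y : Finset ℂ, Y.card = N ∧ ∀ ρ ∈ Y,
            σ₁ < ρ.re ∧ |ρ.im - t| < h ∧ |ρ.im - t₀| < V ^ κ ∧ F ρ = 0} ≤
          ENNReal.ofReal (ε * V ^ κ)

/-- **URed** (from `S_Core`, `S_NWin`).

Proof.  As `S_Red`.  `σ = max σ₁ (1/2) < b` (the windows with `σ` are smaller, so it suffices to find the zeros there).
`C`, `V₂`, `Nz` from `DataU`, `N₀ = Nz h`, `N' = N + N₀ + 1`, `ε' = ε/(2N')`.  `S_Core` for `C`, `b`, `k`, `σ`, `h/N'`, `ε'` gives `x`; `η`, `B`, `V₁` from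
`LowV K k x`, then `κ`, `V₀'` from `S_Core`; the new exponent is `κ + 1`, `T = V^(κ+1)`.  For `V ≥ 1` large: `2V ≥ V₀'`, `2V ≥ V₁`, `V ≥ V₂`,
`(2V)^κ ≤ T`, `h ≤ T`, `2h ≤ ε T/2`.  `P`, `c` from `DataU` (`LowU … (V^2)` implies `LowU … ((2V)^2)`), `G = F P`: differentiable on the box, `‖G‖ ≤ e^V e^V = e^(2V)`,
`G = exp(dir c)` for `Re s ≥ 3`.  `S_Core` with `2V`, `T`, then `S_NWin` with `Z` = the zeros of
`G`, `N'`, `ε'`: outside a set of measure at most `N' ε' T + 2h ≤ ε T` there is a set `Y` of `N'` zeros of `G` in the window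
(in the box).  At most `N₀` of them are zeros of `P`; the others (at least `N`; choose a subset with `N` elements) are zeros of `F`. -/
def S_URed : Prop :=
  ∀ (K : Type) [Field K] [NumberField K] (k : ℕ) (b : ℝ), 1 / 2 < b → b ≤ 1 →
    (∀ x : ℝ, 1 / 2 < x → x < b → LowV K k x) → DataU K k → WindowsU K b

/-- **UFin** (from `S_UMany1`, `S_UMany2`, `S_ULow`, `S_UData`, `S_URed`).

Proof.  First part: `k = 2n`, `b = 1/2 + 1/(4n) = 1/2 + 1/(2k) ≤ 1` (`n ≥ 1`).  Second part: `k ≥ 1` (`Adm` with `ψ = 0`), `b ≤ 1`. -/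
def S_UFin : Prop :=
  ∀ (K : Type) [Field K] [NumberField K],
    WindowsU K (1 / 2 + 1 / (4 * (Module.finrank ℚ K : ℝ))) ∧
    ∀ (N : Type) [Field N] [NumberField N] [IsGalois ℚ N] (g : N ≃ₐ[ℚ] N) (k : ℕ),
      Nonempty (K →ₐ[ℚ] N) → Zg.Adm (Zg.perm (K := K) g) k → WindowsU K (1 / 2 + 1 / (2 * (k : ℝ)))

end MP7ed9c3.Aw
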