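import Pool.Agent.Lib.MP_7ed9c3_nt.Aw.SpecQ
import Pool.Agent.Lib.MP_7ed9c3_nt.Aw.SpecU

/-!
# MP_7ed9c3_nt, part Aw: the uniform data for the curves with few bad primes
-/

set_option autoImplicit false

namespace MP7ed9c3.Aw

open NumberField IsDedekindDomain Filter Topology MeasureTheory Metric

/-- The bridge from `DataU` and `LowV` to `DataG`. -/
theorem uBr (K : Type) [Field K] [NumberField K] (k : ℕ) (b : ℝ)
    (hL : ∀ x : ℝ, 1 / 2 < x → x < b → LowV K k x) (hD : DataU K k) : DataG K (FewBad K) b := by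
  obtain ⟨C, V₂, Nz, hC, H⟩ := hD
  refine ⟨C, k, Nz, hC, fun x hx1 hx2 => ?_⟩
  obtain ⟨η, B, V₁, hη, hB, hlow⟩ := hL x hx1 hx2
  refine ⟨η, B, max V₁ V₂, hη, hB, fun V hV M hM => ?_⟩
  obtain ⟨⟨E, hE, hmin⟩, -, hcard⟩ := hM
  obtain ⟨P, c, h1, h2, h3, h4, h5, h6⟩ := H E hE M hmin V ((le_max_right _ _).trans hV) hcard
  exact ⟨P, c, h1, h2 x η B V₁ hlow ((le_max_left _ _).trans hV), h3,
    fun s hs => h4 s (by linarith), fun h t Z hh hZ => h5 h t Z hh fun ρ hρ =>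
      ⟨by linarith [(hZ ρ hρ).1], (hZ ρ hρ).2⟩, h6⟩

/-- The data for `k = 2 n`. -/
theorem uData2 (h1 : S_UMany2) (h2 : S_ULow) (h3 : S_UData) (K : Type) [Field K] [NumberField K] :
    DataG K (FewBad K) (1 / 2 + 1 / (4 * (Module.finrank ℚ K : ℝ))) := by
  refine uBr K (2 * Module.finrank ℚ K) _ (fun x hx1 hx2 => ?_) (h3 K _)
  obtain ⟨c, hc, hm⟩ := h1 K
  refine h2 K _ c x hc hx1 ?_ hm
  push_cast
  rw [show (2 : ℝ) * (2 * (Module.finrank ℚ K : ℝ)) = 4 * (Module.finrank ℚ K : ℝ) by ring]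
  exact hx2

/-- The data for an admissible number. -/
theorem uData1 (h1 : S_UMany1) (h2 : S_ULow) (h3 : S_UData) (K N : Type) [Field K] [NumberField K]
    [Field N] [NumberField N] [IsGalois ℚ N] (g : N ≃ₐ[ℚ] N) (k : ℕ)
    (hne : Nonempty (K →ₐ[ℚ] N)) (hA : Zg.Adm (Zg.perm (K := K) g) k) :
    DataG K (FewBad K) (1 / 2 + 1 / (2 * (k : ℝ))) := by
  refine uBr K k _ (fun x hx1 hx2 => ?_) (h3 K _)
  obtain ⟨c, hc, hm⟩ := h1 K N g k hne hA
  exact h2 K _ c x hc hx1 hx2 hm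

/-- **The uniform theorem with an explicit rate.** -/
theorem uFinQ (h1 : S_UMany1) (h2 : S_UMany2) (h3 : S_ULow) (h4 : S_UData) (h5 : S_RedQ) (K : Type)
    [Field K] [NumberField K] :
    WindowsQ K (FewBad K) (1 / 2 + 1 / (4 * (Module.finrank ℚ K : ℝ))) ∧
    ∀ (N : Type) [Field N] [NumberField N] [IsGalois ℚ N] (g : N ≃ₐ[ℚ] N) (k : ℕ),
      Nonempty (K →ₐ[ℚ] N) → Zg.Adm (Zg.perm (K := K) g) k →
      WindowsQ K (FewBad K) (1 / 2 + 1 / (2 * (k : ℝ))) := by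
  have hn : (1 : ℝ) ≤ Module.finrank ℚ K := by
    exact_mod_cast (Module.finrank_pos : 0 < Module.finrank ℚ K)
  refine ⟨h5 K _ _ ?_ ?_ (uData2 h2 h3 h4 K), fun N _ _ _ g k hne hA => ?_⟩
  · have : 0 < 1 / (4 * (Module.finrank ℚ K : ℝ)) := by positivity
    linarith
  · have : 1 / (4 * (Module.finrank ℚ K : ℝ)) ≤ 1 / 2 :=
      one_div_le_one_div_of_le (by norm_num) (by linarith)
    linarith
  · have hk : 1 ≤ k := by
      obtain ⟨j, hj1, hj2, -⟩ := hA (fun _ => 0) (fun _ => rfl)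
      omega
    have hkR : (1 : ℝ) ≤ k := by exact_mod_cast hk
    refine h5 K _ _ ?_ ?_ (uData1 h1 h3 h4 K N g k hne hA)
    · have : 0 < 1 / (2 * (k : ℝ)) := by positivity
      linarith
    · have : 1 / (2 * (k : ℝ)) ≤ 1 / 2 :=
        one_div_le_one_div_of_le (by norm_num) (by linarith)
      linarith

/-- **The uniform theorem with fixed `h` and `N`.** -/
theorem uFinG (h1 : S_UMany1) (h2 : S_UMany2) (h3 : S_ULow) (h4 : S_UData) (h5 : S_RedG) (K : Type)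
    [Field K] [NumberField K] :
    WindowsG K (FewBad K) (1 / 2 + 1 / (4 * (Module.finrank ℚ K : ℝ))) ∧
    ∀ (N : Type) [Field N] [NumberField N] [IsGalois ℚ N] (g : N ≃ₐ[ℚ] N) (k : ℕ),
      Nonempty (K →ₐ[ℚ] N) → Zg.Adm (Zg.perm (K := K) g) k →
      WindowsG K (FewBad K) (1 / 2 + 1 / (2 * (k : ℝ))) := by
  have hn : (1 : ℝ) ≤ Module.finrank ℚ K := by
    exact_mod_cast (Module.finrank_pos : 0 < Module.finrank ℚ K)
  refine ⟨h5 K _ _ ?_ ?_ (uData2 h2 h3 h4 K), fun N _ _ _ g k hne hA => ?_⟩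
  · have : 0 < 1 / (4 * (Module.finrank ℚ K : ℝ)) := by positivity
    linarith
  · have : 1 / (4 * (Module.finrank ℚ K : ℝ)) ≤ 1 / 2 :=
      one_div_le_one_div_of_le (by norm_num) (by linarith)
    linarith
  · have hk : 1 ≤ k := by
      obtain ⟨j, hj1, hj2, -⟩ := hA (fun _ => 0) (fun _ => rfl)
      omega
    have hkR : (1 : ℝ) ≤ k := by exact_mod_cast hk
    refine h5 K _ _ ?_ ?_ (uData1 h1 h3 h4 K N g k hne hA)
    · have : 0 < 1 / (2 * (k : ℝ)) := by positivity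
      linarith
    · have : 1 / (2 * (k : ℝ)) ≤ 1 / 2 :=
        one_div_le_one_div_of_le (by norm_num) (by linarith)
      linarith

end MP7ed9c3.Aw
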