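import Pool.Agent.Lib.MP_7ed9c3_nt.Aw.SpecU

/-!
# MP_7ed9c3_nt, part Aw, uniform branch: the data of the Euler product, uniform in `E` (helper35)
-/

set_option autoImplicit false

namespace MP7ed9c3.Aw

open NumberField IsDedekindDomain Filter Topology MeasureTheory Metric

section
variable {K : Type} [Field K] [NumberField K]

private theorem UData_cut_mem (X : Finset (HeightOneSpectrum (𝓞 K)))
    (α : HeightOneSpectrum (𝓞 K) → ℂ) (v : HeightOneSpectrum (𝓞 K)) (hv : v ∈ X) :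
    cut X α v = 0 := by
  unfold cut
  rw [if_pos hv]

private theorem UData_cut_not (X : Finset (HeightOneSpectrum (𝓞 K)))
    (α : HeightOneSpectrum (𝓞 K) → ℂ) (v : HeightOneSpectrum (𝓞 K)) (hv : v ∉ X) :
    cut X α v = α v := by
  unfold cut
  rw [if_neg hv]

private theorem UData_tau (X : Finset (HeightOneSpectrum (𝓞 K)))
    (α β : HeightOneSpectrum (𝓞 K) → ℂ) (i : HeightOneSpectrum (𝓞 K) × ℕ) :
    ‖Zs.tauE (cut X α) (cut X β) i‖ ≤ ‖Zs.tauE α β i‖ := by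
  by_cases h : i.1 ∈ X
  · have h0 : Zs.tauE (cut X α) (cut X β) i = 0 := by
      unfold Zs.tauE
      rw [UData_cut_mem X α i.1 h, UData_cut_mem X β i.1 h, zero_pow (Nat.succ_ne_zero _)]
      simp
    rw [h0, norm_zero]
    exact norm_nonneg _
  · have h0 : Zs.tauE (cut X α) (cut X β) i = Zs.tauE α β i := by
      unfold Zs.tauE
      rw [UData_cut_not X α i.1 h, UData_cut_not X β i.1 h]
    rw [h0]

private theorem UData_lam (i : HeightOneSpectrum (𝓞 K) × ℕ) : 1 ≤ Zs.lamE K i := by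
  unfold Zs.lamE
  have h : 0 < nm i.1 := by
    unfold nm
    have h0 : Ideal.absNorm i.1.asIdeal ≠ 0 := by
      rw [Ne, Ideal.absNorm_eq_zero_iff]
      exact i.1.ne_bot
    omega
  exact Nat.one_le_pow _ _ h

/-- A product of at most `V` factors of size at most `2`. -/
private theorem UData_prod {ι : Type} (S : Finset ι) (g : ι → ℂ) (V : ℝ)
    (hg : ∀ v ∈ S, ‖g v‖ ≤ 2) (hc : (S.card : ℝ) ≤ V) :
    ‖∏ v ∈ S, g v‖ ≤ Real.exp (7 / 10 * V) := by
  rw [norm_prod]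
  calc ∏ v ∈ S, ‖g v‖ ≤ ∏ _v ∈ S, (2 : ℝ) :=
        Finset.prod_le_prod (fun v _ => norm_nonneg _) hg
    _ = (2 : ℝ) ^ S.card := by rw [Finset.prod_const]
    _ = Real.exp (Real.log 2 * S.card) := by
        rw [mul_comm, Real.exp_nat_mul, Real.exp_log (by norm_num)]
    _ ≤ Real.exp (7 / 10 * V) := by
        apply Real.exp_le_exp.2
        have h2 : Real.log 2 < 0.6931471808 := Real.log_two_lt_d9
        have h0 : (0 : ℝ) ≤ S.card := by positivity
        nlinarith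

end

/-- **UData.** -/
theorem uData (h1 : S_Grp) (h2 : S_SerGe) (h3 : S_Mod) (h4 : S_CoefB) (h5 : S_URoots)
    (h6 : S_UBad) (h7 : S_ULocZ) (h8 : S_ULocB) : S_UData := by
  classical
  intro K _ _ k
  obtain ⟨hQfin, hbadfin⟩ := h6 K
  obtain ⟨Q, hQ⟩ : ∃ Q : Finset (HeightOneSpectrum (𝓞 K)),
      ∀ v : HeightOneSpectrum (𝓞 K), v ∈ Q ↔ (6 : 𝓞 K) ∈ v.asIdeal :=
    ⟨hQfin.toFinset, fun v => Set.Finite.mem_toFinset hQfin⟩
  obtain ⟨B₆, hB1, hB6⟩ := h8 K Q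
  have hNz : ∀ h : ℝ, ∃ N₀ : ℕ, 0 < h → ∀ (α β : HeightOneSpectrum (𝓞 K) → ℂ)
      (M : HeightOneSpectrum (𝓞 K) → WeierstrassCurve (𝓞 K)),
      (∀ (v : HeightOneSpectrum (𝓞 K)) (s : ℂ), locDen (M v) v s =
          (1 - α v * (nm v : ℂ) ^ (-s)) * (1 - β v * (nm v : ℂ) ^ (-s))) →
      ∀ (t : ℝ) (Z : Finset ℂ),
        (∀ ρ ∈ Z, |ρ.im - t| < h ∧ ∏ v ∈ Q, locDen (M v) v ρ = 0) → Z.card ≤ N₀ := by
    intro h
    by_cases hh : 0 < h
    · obtain ⟨N₀, hN₀⟩ := h7 K Q h hh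
      exact ⟨N₀, fun _ => hN₀⟩
    · exact ⟨0, fun h0 => absurd h0 hh⟩
  choose Nz hNz using hNz
  refine ⟨2 * (Module.finrank ℚ K : ℝ), max (Q.card : ℝ) (4 * Real.log B₆), Nz,
    by positivity, ?_⟩
  intro E hE M hM V hV hbad
  have hVQ : (Q.card : ℝ) ≤ V := le_trans (le_max_left _ _) hV
  have hVB : 4 * Real.log B₆ ≤ V := le_trans (le_max_right _ _) hV
  obtain ⟨α, β, hloc, hbd, hgood, hbadv⟩ := h5 K M
  have hfin : (badS M).Finite := hbadfin E hE M hM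
  obtain ⟨D, hD, hDc⟩ : ∃ D : Finset (HeightOneSpectrum (𝓞 K)),
      (∀ v : HeightOneSpectrum (𝓞 K), v ∈ D ↔ (M v).Δ ∈ v.asIdeal) ∧ (D.card : ℝ) ≤ V := by
    refine ⟨hfin.toFinset, fun v => Set.Finite.mem_toFinset hfin, ?_⟩
    rw [← Set.ncard_eq_toFinset_card (badS M) hfin]
    exact hbad
  obtain ⟨X, hX⟩ : ∃ X : Finset (HeightOneSpectrum (𝓞 K)), X = Q ∪ D := ⟨_, rfl⟩
  have hQX : Q ⊆ X := by rw [hX]; exact Finset.subset_union_left
  have hXc : (X.card : ℝ) ≤ 2 * V := by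
    have : X.card ≤ Q.card + D.card := by rw [hX]; exact Finset.card_union_le Q D
    have h' : (X.card : ℝ) ≤ (Q.card : ℝ) + (D.card : ℝ) := by exact_mod_cast this
    linarith
  have hnX : ∀ v, v ∉ X → OKat α β v ∧ ‖β v‖ = √(nm v) := by
    intro v hv
    rw [hX, Finset.mem_union, not_or] at hv
    exact hgood v (fun h => hv.1 ((hQ v).2 h)) (fun h => hv.2 ((hD v).2 h))
  have hbd1 : ∀ v, ‖α v‖ ≤ nm v + 1 ∧ ‖β v‖ ≤ nm v + 1 := by
    intro v
    have := hbd v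
    exact ⟨by linarith [this.1], by linarith [this.2]⟩
  obtain ⟨hsum, hexp⟩ := h2 K α β M hloc hbd1
  obtain ⟨hdiff, hB⟩ := hB6 α β M hloc hbd
  have hsq : ∀ v, ‖cut X α v‖ ≤ √(nm v) ∧ ‖cut X β v‖ ≤ √(nm v) := by
    intro v
    by_cases hv : v ∈ X
    · rw [UData_cut_mem X α v hv, UData_cut_mem X β v hv, norm_zero]
      exact ⟨Real.sqrt_nonneg _, Real.sqrt_nonneg _⟩
    · rw [UData_cut_not X α v hv, UData_cut_not X β v hv]
      have := hnX v hv
      exact ⟨this.1.1.le, this.2.le⟩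
  have hOK : ∀ v, v ∉ X → OKat (cut X α) (cut X β) v := by
    intro v hv
    have := (hnX v hv).1
    unfold OKat at this ⊢
    rw [UData_cut_not X α v hv, UData_cut_not X β v hv]
    exact this
  have hsum' : Summable (fun i => ‖Zs.tauE (cut X α) (cut X β) i‖ / (Zs.lamE K i : ℝ) ^ 3) := by
    refine Summable.of_nonneg_of_le (fun i => by positivity) (fun i => ?_) hsum
    exact div_le_div_of_nonneg_right (UData_tau X α β i) (by positivity)
  have hsplit : ∀ s : ℂ, ∏ v ∈ X, locDen (M v) v s =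
      (∏ v ∈ X \ Q, locDen (M v) v s) * ∏ v ∈ Q, locDen (M v) v s := fun s =>
    (Finset.prod_sdiff hQX).symm
  have hXQ : ∀ v ∈ X \ Q, (6 : 𝓞 K) ∉ v.asIdeal ∧ (M v).Δ ∈ v.asIdeal := by
    intro v hv
    rw [Finset.mem_sdiff, hX, Finset.mem_union] at hv
    refine ⟨fun h => hv.2 ((hQ v).2 h), ?_⟩
    rcases hv.1 with h | h
    · exact absurd h hv.2
    · exact (hD v).1 h
  have hXQc : ((X \ Q).card : ℝ) ≤ V := by
    have hsub : X \ Q ⊆ D := by
      intro v hv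
      rw [Finset.mem_sdiff, hX, Finset.mem_union] at hv
      rcases hv.1 with h | h
      · exact absurd h hv.2
      · exact h
    have : ((X \ Q).card : ℝ) ≤ (D.card : ℝ) := by exact_mod_cast Finset.card_le_card hsub
    linarith
  refine ⟨fun s => ∏ v ∈ X, locDen (M v) v s,
    Zs.coef (Zs.lamE K) (Zs.tauE (cut X α) (cut X β)), h4 K (cut X α) (cut X β) hsq,
    ?_, hdiff X, ?_, ?_, ?_⟩
  · intro x η B V₁ hx hV₁
    exact hx V hV₁ (cut X α) (cut X β) X hOK hXc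
  · intro s hs
    show ‖∏ v ∈ X, locDen (M v) v s‖ ≤ Real.exp V
    rw [hsplit s, norm_mul]
    have e1 : ‖∏ v ∈ X \ Q, locDen (M v) v s‖ ≤ Real.exp (7 / 10 * V) :=
      UData_prod (X \ Q) (fun v => locDen (M v) v s) V
        (fun v hv => (hbadv v (hXQ v hv).1 (hXQ v hv).2 s hs).2) hXQc
    have e2 : ‖∏ v ∈ Q, locDen (M v) v s‖ ≤ Real.exp (V / 4) := by
      refine le_trans (hB s hs.le) ?_
      have hpos : 0 < B₆ := by linarith
      rw [← Real.exp_log hpos]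
      apply Real.exp_le_exp.2
      linarith
    have hV0 : 0 ≤ V := le_trans (by positivity) hVQ
    calc ‖∏ v ∈ X \ Q, locDen (M v) v s‖ * ‖∏ v ∈ Q, locDen (M v) v s‖
        ≤ Real.exp (7 / 10 * V) * Real.exp (V / 4) :=
          mul_le_mul e1 e2 (norm_nonneg _) (Real.exp_pos _).le
      _ = Real.exp (7 / 10 * V + V / 4) := (Real.exp_add _ _).symm
      _ ≤ Real.exp V := by
          apply Real.exp_le_exp.2
          linarith
  · intro h t Z hh hZ
    refine hNz h hh α β M hloc t Z fun ρ hρ => ?_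
    obtain ⟨hre, him, hP⟩ := hZ ρ hρ
    refine ⟨him, ?_⟩
    have hP' : (∏ v ∈ X \ Q, locDen (M v) v ρ) * ∏ v ∈ Q, locDen (M v) v ρ = 0 := by
      rw [← hsplit ρ]
      exact hP
    rcases mul_eq_zero.1 hP' with h0 | h0
    · exfalso
      obtain ⟨v, hv, hv0⟩ := Finset.prod_eq_zero_iff.1 h0
      exact (hbadv v (hXQ v hv).1 (hXQ v hv).2 ρ hre).1 hv0
    · exact h0
  · intro s hs
    have e1 := h3 K α β M X hloc hbd1 hsum s hs
    have e2 := h1 _ (Zs.lamE K) (Zs.tauE (cut X α) (cut X β)) UData_lam hsum' s hs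
    show (∏ v ∈ X, locDen (M v) v s) * _ = _
    rw [← e2, e1, hexp s hs]

end MP7ed9c3.Aw
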