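import Pool.Agent.Lib.MP_7ed9c3_nt.Aw.SpecU

/-!
MP_7ed9c3_nt, part Aw, module ULocB: bound for Euler factors, uniform in the roots (helper77).
-/

set_option autoImplicit false

namespace MP7ed9c3.Aw

open NumberField IsDedekindDomain Filter Topology MeasureTheory Metric

private theorem ULocB_nm {K : Type} [Field K] [NumberField K] (v : HeightOneSpectrum (𝓞 K)) :
    nm v ≠ 0 := by
  unfold nm
  exact Ideal.absNorm_eq_zero_iff.not.mpr v.ne_bot

private theorem ULocB_one (q : ℕ) (hq : q ≠ 0) (a s : ℂ) (ha : ‖a‖ ≤ q) (hs : 0 ≤ s.re) :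
    ‖1 - a * (q : ℂ) ^ (-s)‖ ≤ 1 + q := by
  have hq0 : 0 < q := Nat.pos_of_ne_zero hq
  have h1 : ‖(q : ℂ) ^ (-s)‖ ≤ 1 := by
    rw [Complex.norm_natCast_cpow_of_pos hq0, Complex.neg_re]
    exact Real.rpow_le_one_of_one_le_of_nonpos (by exact_mod_cast hq0) (by linarith)
  calc ‖1 - a * (q : ℂ) ^ (-s)‖ ≤ ‖(1 : ℂ)‖ + ‖a * (q : ℂ) ^ (-s)‖ := norm_sub_le _ _
    _ = 1 + ‖a‖ * ‖(q : ℂ) ^ (-s)‖ := by rw [norm_one, norm_mul]
    _ ≤ 1 + q * 1 := by
      have := mul_le_mul ha h1 (norm_nonneg _) (Nat.cast_nonneg q)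
      linarith
    _ = 1 + q := by ring

private theorem ULocB_diff (q : ℕ) (hq : q ≠ 0) (a : ℂ) :
    Differentiable ℂ fun s : ℂ => 1 - a * (q : ℂ) ^ (-s) := by
  have hq' : (q : ℂ) ≠ 0 := by exact_mod_cast hq
  intro s
  exact (differentiableAt_const _).sub
    ((differentiableAt_const _).mul ((differentiableAt_id.neg).const_cpow (Or.inl hq')))

theorem uLocB : S_ULocB := by
  intro K _ _ Q
  refine ⟨∏ v ∈ Q, (1 + (nm v : ℝ)) ^ 2, ?_, ?_⟩
  · have h := Finset.prod_le_prod (s := Q) (f := fun _ => (1 : ℝ))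
      (g := fun v => (1 + (nm v : ℝ)) ^ 2) (fun _ _ => zero_le_one) (fun v _ => by
        have : (0 : ℝ) ≤ nm v := Nat.cast_nonneg _
        nlinarith)
    simpa using h
  · intro α β M hM hab
    refine ⟨fun X => ?_, fun s hs => ?_⟩
    · have h : (fun s : ℂ => ∏ v ∈ X, locDen (M v) v s) =
          fun s : ℂ => ∏ v ∈ X,
            ((1 - α v * (nm v : ℂ) ^ (-s)) * (1 - β v * (nm v : ℂ) ^ (-s))) := by
        funext s
        exact Finset.prod_congr rfl fun v _ => hM v s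
      rw [h]
      refine Differentiable.fun_finsetProd fun v _ => ?_
      exact (ULocB_diff _ (ULocB_nm v) _).mul (ULocB_diff _ (ULocB_nm v) _)
    · rw [norm_prod]
      refine Finset.prod_le_prod (fun v _ => norm_nonneg _) fun v _ => ?_
      rw [hM v s, norm_mul, sq]
      exact mul_le_mul (ULocB_one _ (ULocB_nm v) _ _ (hab v).1 hs)
        (ULocB_one _ (ULocB_nm v) _ _ (hab v).2 hs) (norm_nonneg _)
        (by have : (0 : ℝ) ≤ nm v := Nat.cast_nonneg _
            linarith)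

end MP7ed9c3.Aw
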