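import Pool.Agent.Lib.MP_7ed9c3_nt.Aw.SpecU

/-!
# MP_7ed9c3_nt, Aw: from many large coefficients to a large sum, uniformly
-/

set_option autoImplicit false

namespace MP7ed9c3.Aw

open NumberField IsDedekindDomain Filter Topology MeasureTheory Metric

/-- one term of the sum -/
private theorem ULow_term (a : ℕ → ℂ) (k : ℕ) (c x : ℝ) (hc : 0 < c) (hx : 1 / 2 < x)
    (P p j : ℕ) (hp : 0 < p) (hpP : p ≤ P) (hjk : j ≤ k)
    (h : c * √((p : ℝ) ^ j) ≤ ‖a (p ^ j)‖) :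
    c ^ 2 * (P : ℝ) ^ (-(k * (2 * x - 1))) ≤
      ‖a (p ^ j)‖ ^ 2 * ((p ^ j : ℕ) : ℝ) ^ (-(2 * x)) := by
  have hP1 : 1 ≤ P := hp.trans_le hpP
  have hP0 : (0 : ℝ) < P := by exact_mod_cast hP1
  have hpp : (0 : ℝ) < p := by exact_mod_cast hp
  have hm0 : (0 : ℝ) < (p : ℝ) ^ j := by positivity
  have h1 : c ^ 2 * (p : ℝ) ^ j ≤ ‖a (p ^ j)‖ ^ 2 := by
    have h2 := pow_le_pow_left₀ (by positivity) h 2
    rwa [mul_pow, Real.sq_sqrt hm0.le] at h2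
  have h3 : ((p ^ j : ℕ) : ℝ) = (p : ℝ) ^ j := by push_cast; rfl
  rw [h3]
  have h4 : (P : ℝ) ^ (-(k * (2 * x - 1))) ≤ ((p : ℝ) ^ j) ^ (-(2 * x - 1)) := by
    have h5 : (p : ℝ) ^ j ≤ (P : ℝ) ^ k := by
      have h6 : p ^ j ≤ P ^ k :=
        (Nat.pow_le_pow_left hpP _).trans (Nat.pow_le_pow_right hP1 hjk)
      exact_mod_cast h6
    have h7 := Real.rpow_le_rpow_of_nonpos hm0 h5 (show -(2 * x - 1) ≤ 0 by linarith)
    refine le_trans (le_of_eq ?_) h7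
    rw [← Real.rpow_natCast (P : ℝ) k, ← Real.rpow_mul hP0.le]
    congr 1
    ring
  have h8 : ((p : ℝ) ^ j) ^ (-(2 * x - 1)) =
      (p : ℝ) ^ j * ((p : ℝ) ^ j) ^ (-(2 * x)) := by
    rw [← Real.rpow_one_add' hm0.le (by linarith)]
    congr 1
    ring
  calc c ^ 2 * (P : ℝ) ^ (-(k * (2 * x - 1))) ≤
      c ^ 2 * ((p : ℝ) ^ j) ^ (-(2 * x - 1)) := mul_le_mul_of_nonneg_left h4 (by positivity)
    _ = c ^ 2 * (p : ℝ) ^ j * ((p : ℝ) ^ j) ^ (-(2 * x)) := by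
        rw [h8]
        ring
    _ ≤ _ := mul_le_mul_of_nonneg_right h1 (by positivity)

theorem uLow : S_ULow := by
  classical
  intro K _ _ k c x hc hx1 hx2 hyp
  have hk0 : 0 < k := by
    rcases Nat.eq_zero_or_pos k with rfl | h
    · exfalso
      norm_num at hx2
      linarith
    · exact h
  have hkR : (0 : ℝ) < k := by exact_mod_cast hk0
  set δ : ℝ := 1 - k * (2 * x - 1) with hδ
  have hδ0 : 0 < δ := by
    have h1 : x - 1 / 2 < 1 / (2 * (k : ℝ)) := by linarith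
    rw [lt_div_iff₀ (by positivity)] at h1
    rw [hδ]
    nlinarith
  set η : ℝ := δ / 3 with hη
  have hη0 : 0 < η := by positivity
  obtain ⟨B, Y₁, hB, hY⟩ := hyp η hη0
  obtain ⟨Y₂, hY₂⟩ := eventually_atTop.1
    ((tendsto_rpow_atTop hη0).eventually_ge_atTop (1 / c ^ 2))
  refine ⟨η, B, max (max Y₁ Y₂) 1, hη0, hB, ?_⟩
  intro V hV α β X hX hcardX Y hVY
  have hV1 : 1 ≤ V := (le_max_right _ _).trans hV
  have hVV : V ≤ V ^ 2 := by nlinarith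
  have hYY : max (max Y₁ Y₂) 1 ≤ Y := hV.trans (hVV.trans hVY)
  have hYY₁ : Y₁ ≤ Y := (le_max_left _ _).trans ((le_max_left _ _).trans hYY)
  have hYY₂ : Y₂ ≤ Y := (le_max_right _ _).trans ((le_max_left _ _).trans hYY)
  have hY1 : 1 ≤ Y := (le_max_right _ _).trans hYY
  have hVs : V ≤ √Y := Real.le_sqrt_of_sq_le hVY
  have hcardX' : (X.card : ℝ) ≤ 2 * √Y := by linarith
  obtain ⟨P, T, hP1, hP2, hcard, hT⟩ := hY Y hYY₁ α β X hX hcardX'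
  generalize Zs.coef (Zs.lamE K) (Zs.tauE α β) = a at hT ⊢
  have hP1R : (1 : ℝ) ≤ P := hY1.trans hP1
  have hP0 : (0 : ℝ) < P := by linarith
  have hex : ∀ p : ℕ, ∃ j : ℕ, p ∈ T → 1 ≤ j ∧ j ≤ k ∧ c * √((p : ℝ) ^ j) ≤ ‖a (p ^ j)‖ := by
    intro p
    by_cases h : p ∈ T
    · obtain ⟨_, _, j, h1, h2, h3⟩ := hT p h
      exact ⟨j, fun _ => ⟨h1, h2, h3⟩⟩
    · exact ⟨0, fun h1 => absurd h1 h⟩
  choose kk hkk using hex
  have hinj : Set.InjOn (fun p => p ^ kk p) (T : Set ℕ) := by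
    intro p hp q hq hpq
    have hp1 := (hT p hp).1
    have hq1 := (hT q hq).1
    have h1 := (hkk p hp).1
    have hpq' : p ^ kk p = q ^ kk q := hpq
    have h2 : p ∣ q ^ kk q := by
      rw [← hpq']
      exact dvd_pow_self _ (by omega)
    exact (Nat.prime_dvd_prime_iff_eq hp1 hq1).1 (hp1.dvd_of_dvd_pow h2)
  refine ⟨P, T.image fun p => p ^ kk p, hP1, hP2, ?_, ?_⟩
  · intro m hm
    obtain ⟨p, hp, rfl⟩ := Finset.mem_image.1 hm
    obtain ⟨hp1, hp3, _⟩ := hT p hp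
    obtain ⟨hk1, hk2, _⟩ := hkk p hp
    refine ⟨Nat.one_le_pow _ _ hp1.pos, ?_⟩
    calc p ^ kk p ≤ P ^ kk p := Nat.pow_le_pow_left hp3 _
      _ ≤ P ^ k := Nat.pow_le_pow_right (hp1.pos.trans_le hp3) hk2
  · rw [Finset.sum_image hinj]
    have hterm : ∀ p ∈ T, c ^ 2 * (P : ℝ) ^ (-(k * (2 * x - 1))) ≤
        ‖a (p ^ kk p)‖ ^ 2 * ((p ^ kk p : ℕ) : ℝ) ^ (-(2 * x)) := by
      intro p hp
      obtain ⟨hp1, hp3, _⟩ := hT p hp
      obtain ⟨_, hk2, hk3⟩ := hkk p hp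
      exact ULow_term a k c x hc hx1 P p (kk p) hp1.pos hp3 hk2 hk3
    have hPη : 1 / c ^ 2 ≤ (P : ℝ) ^ η :=
      (hY₂ Y hYY₂).trans (Real.rpow_le_rpow (by linarith) hP1 hη0.le)
    have hPη' : 1 ≤ c ^ 2 * (P : ℝ) ^ η := by
      rw [div_le_iff₀ (by positivity)] at hPη
      linarith
    have hPη0 : 0 ≤ (P : ℝ) ^ η := Real.rpow_nonneg hP0.le _
    calc (P : ℝ) ^ η ≤ (P : ℝ) ^ η * (c ^ 2 * (P : ℝ) ^ η) := le_mul_of_one_le_right hPη0 hPη'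
      _ = c ^ 2 * ((P : ℝ) ^ η * (P : ℝ) ^ η) := by ring
      _ = c ^ 2 * ((P : ℝ) ^ (1 - η) * (P : ℝ) ^ (-(k * (2 * x - 1)))) := by
          rw [← Real.rpow_add hP0, ← Real.rpow_add hP0]
          congr 2
          rw [hη, hδ]
          ring
      _ = (P : ℝ) ^ (1 - η) * (c ^ 2 * (P : ℝ) ^ (-(k * (2 * x - 1)))) := by ring
      _ ≤ T.card * (c ^ 2 * (P : ℝ) ^ (-(k * (2 * x - 1)))) :=
          mul_le_mul_of_nonneg_right hcard (by positivity)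
      _ = ∑ p ∈ T, c ^ 2 * (P : ℝ) ^ (-(k * (2 * x - 1))) := by
          rw [Finset.sum_const, nsmul_eq_mul]
      _ ≤ _ := Finset.sum_le_sum hterm

end MP7ed9c3.Aw
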