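import Pool.Agent.Lib.MP_7ed9c3_nt.Aw.SpecU
import Pool.Agent.Lib.MP_7ed9c3_nt.Zs.Lower

/-!
# MP_7ed9c3_nt, part Aw, module UMany2 (helper14): many primes with a large coefficient, `k = 2 n`, uniform in the roots
-/

set_option autoImplicit false

namespace MP7ed9c3.Aw

open NumberField IsDedekindDomain Filter Topology MeasureTheory Metric

private theorem UMany2_nm_pos {K : Type} [Field K] [NumberField K] (v : HeightOneSpectrum (𝓞 K)) :
    (0 : ℝ) < nm v := by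
  have h : nm v ≠ 0 := by
    unfold nm
    rw [Ne, Ideal.absNorm_eq_zero_iff]
    exact v.ne_bot
  exact_mod_cast Nat.pos_of_ne_zero h

private theorem UMany2_norm {a b : ℂ} {q : ℝ} (hq : 0 < q) (ha : ‖a‖ = √q) (hab : a * b = (q : ℂ)) :
    ‖b‖ = √q := by
  have h1 : ‖a‖ * ‖b‖ = q := by
    rw [← norm_mul, hab, Complex.norm_real, Real.norm_of_nonneg hq.le]
  have h2 : 0 < √q := Real.sqrt_pos.2 hq
  have h3 : √q * √q = q := Real.mul_self_sqrt hq.le
  rw [ha] at h1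
  exact mul_left_cancel₀ h2.ne' (h1.trans h3.symm)

private theorem UMany2_ok {K : Type} [Field K] [NumberField K] (α β : HeightOneSpectrum (𝓞 K) → ℂ)
    (v : HeightOneSpectrum (𝓞 K)) (h : OKat α β v) : ‖α v‖ = √(nm v) ∧ ‖β v‖ = √(nm v) := by
  obtain ⟨h1, h2⟩ := h
  refine ⟨h1, UMany2_norm (UMany2_nm_pos v) h1 ?_⟩
  rw [h2]
  norm_num

theorem uMany2 (h0 : S_UPow) (h1 : Zs.S_Newton) (h2 : Zs.S_Over) (h3 : Zs.S_Coef)
    (h4 : Zs.S_Count) : S_UMany2 := by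
  classical
  intro K _ _
  have hn1 : 1 ≤ Module.finrank ℚ K := Module.finrank_pos
  have hn0 : (0 : ℝ) < Module.finrank ℚ K := by exact_mod_cast hn1
  refine ⟨1 / (2 * (Module.finrank ℚ K : ℝ)), by positivity, fun ε hε => ?_⟩
  obtain ⟨ε', P₀, hε', hP₀, hpow⟩ := h0 ε hε
  obtain ⟨P₁, hP₁⟩ := h4 ε' 0 hε'
  refine ⟨2, max (max P₀ (P₁ : ℝ)) 2, by norm_num, fun Y hY α β X hX hXc => ?_⟩
  have hY0 : P₀ ≤ Y := (le_max_left _ _).trans ((le_max_left _ _).trans hY)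
  have hY1 : (P₁ : ℝ) ≤ Y := (le_max_right _ _).trans ((le_max_left _ _).trans hY)
  have hY2 : (2 : ℝ) ≤ Y := (le_max_right _ _).trans hY
  have hc : Y ≤ (⌈Y⌉₊ : ℝ) := Nat.le_ceil Y
  have hc2 : (⌈Y⌉₊ : ℝ) < Y + 1 := Nat.ceil_lt_add_one (by linarith)
  set P : ℕ := ⌈Y⌉₊ with hPd
  set Z : Finset ℕ := X.image fun v => (nm v).minFac with hZ
  have hZp : ∀ p : ℕ, p.Prime → p ∉ Z → ∀ v ∈ (X : Set (HeightOneSpectrum (𝓞 K))), ∀ k : ℕ,
      nm v ≠ p ^ k := by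
    intro p hp hpZ v hv k hk
    refine hpZ (Finset.mem_image.2 ⟨v, hv, ?_⟩)
    have h5 := (N1.exists_prime v).1
    have hk0 : k ≠ 0 := by
      rintro rfl
      rw [hk, pow_zero] at h5
      omega
    rw [hk, hp.pow_minFac hk0]
  set T : Finset ℕ := ((Finset.range (P + 1)).filter Nat.Prime) \ Z with hT
  have hTm : ∀ p ∈ T, p.Prime ∧ p ∉ Z ∧ p ≤ P := by
    intro p hp
    rw [hT, Finset.mem_sdiff, Finset.mem_filter, Finset.mem_range] at hp
    exact ⟨hp.1.2, hp.2, by omega⟩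
  refine ⟨P, T, hc, ?_, ?_, ?_⟩
  · have h5 : Y ^ (2 : ℝ) = Y * Y := by
      rw [Real.rpow_two, sq]
    rw [h5]
    nlinarith
  · have h5 := hpow (P : ℝ) (hY0.trans hc)
    have h6 := hP₁ P (by exact_mod_cast hY1.trans hc)
    have h7 : Nat.primeCounting P ≤ T.card + Z.card := by
      have h8 : Nat.primeCounting P = ((Finset.range (P + 1)).filter Nat.Prime).card := by
        rw [Nat.primeCounting, Nat.primeCounting', Nat.count_eq_card_filter_range]
      rw [h8, hT]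
      exact Finset.card_le_card_sdiff_add_card (t := Z)
        (s := (Finset.range (P + 1)).filter Nat.Prime)
    have h9 : (Nat.primeCounting P : ℝ) ≤ T.card + Z.card := by exact_mod_cast h7
    have h10 : (Z.card : ℝ) ≤ X.card := by exact_mod_cast Finset.card_image_le
    have h11 : √Y ≤ √(P : ℝ) := Real.sqrt_le_sqrt hc
    linarith
  · intro p hp
    obtain ⟨hp1, hp2, hp3⟩ := hTm p hp
    obtain ⟨k, hk1, hk2, hk3⟩ := Zs.lowerz_one h1 h2 h3 α β (X : Set (HeightOneSpectrum (𝓞 K)))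
      (fun v hv => UMany2_ok α β v (hX v hv)) p hp1 (hZp p hp1 hp2)
    refine ⟨hp1, hp3, k, hk1, hk2, ?_⟩
    rw [one_div, inv_mul_eq_div]
    exact hk3

end MP7ed9c3.Aw
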