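import Pool.Agent.Lib.MP_7ed9c3_nt.Aw.SpecU

/-!
# MP_7ed9c3_nt, part Aw, uniform branch: comparison of powers
-/

set_option autoImplicit false

namespace MP7ed9c3.Aw

theorem uPow : S_UPow := by
  intro ε hε
  have hd1 : min (ε / 2) (1 / 4 : ℝ) ≤ ε / 2 := min_le_left _ _
  have hd2 : min (ε / 2) (1 / 4 : ℝ) ≤ 1 / 4 := min_le_right _ _
  have hd0 : 0 < min (ε / 2) (1 / 4 : ℝ) := lt_min (by linarith) (by norm_num)
  refine ⟨min (ε / 2) (1 / 4), max 256 ((2 : ℝ) ^ (2 / ε)), hd0,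
    le_max_of_le_left (by norm_num), ?_⟩
  intro P hP
  have h1 : (256 : ℝ) ≤ P := (le_max_left _ _).trans hP
  have h2 : (2 : ℝ) ^ (2 / ε) ≤ P := (le_max_right _ _).trans hP
  have hP0 : 0 < P := by linarith
  have hP1 : 1 ≤ P := by linarith
  have h3 : (2 : ℝ) ≤ P ^ (ε / 2) := by
    have h := Real.rpow_le_rpow (by positivity) h2 (by linarith : 0 ≤ ε / 2)
    have he : 2 / ε * (ε / 2) = 1 := by
      field_simp
    rwa [← Real.rpow_mul (by norm_num), he, Real.rpow_one] at h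
  have h4 : (4 : ℝ) ≤ P ^ (1 / 4 : ℝ) := by
    have h := Real.rpow_le_rpow (by norm_num) h1 (by norm_num : (0 : ℝ) ≤ 1 / 4)
    have h256 : (256 : ℝ) = (4 : ℝ) ^ (4 : ℝ) := by
      rw [show (4 : ℝ) ^ (4 : ℝ) = (4 : ℝ) ^ ((4 : ℕ) : ℝ) by norm_num, Real.rpow_natCast]
      norm_num
    have he : (4 : ℝ) * (1 / 4) = 1 := by norm_num
    rwa [h256, ← Real.rpow_mul (by norm_num), he, Real.rpow_one] at h
  have h5 : 2 * P ^ (1 - ε) ≤ P ^ (1 - min (ε / 2) (1 / 4)) := by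
    calc 2 * P ^ (1 - ε) ≤ P ^ (ε / 2) * P ^ (1 - ε) :=
          mul_le_mul_of_nonneg_right h3 (by positivity)
      _ = P ^ (ε / 2 + (1 - ε)) := (Real.rpow_add hP0 _ _).symm
      _ ≤ P ^ (1 - min (ε / 2) (1 / 4)) :=
          Real.rpow_le_rpow_of_exponent_le hP1 (by linarith)
  have h6 : 4 * √P ≤ P ^ (1 - min (ε / 2) (1 / 4)) := by
    rw [Real.sqrt_eq_rpow]
    calc 4 * P ^ (1 / 2 : ℝ) ≤ P ^ (1 / 4 : ℝ) * P ^ (1 / 2 : ℝ) :=
          mul_le_mul_of_nonneg_right h4 (by positivity)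
      _ = P ^ (1 / 4 + 1 / 2 : ℝ) := (Real.rpow_add hP0 _ _).symm
      _ ≤ P ^ (1 - min (ε / 2) (1 / 4)) :=
          Real.rpow_le_rpow_of_exponent_le hP1 (by linarith)
  linarith

end MP7ed9c3.Aw
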