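import Pool.Agent.Lib.MP_7ed9c3_nt.Aw.SpecU
import Pool.Agent.Lib.MP_7ed9c3_nt.Tz.Loc
import Pool.Agent.Lib.MP_7ed9c3_nt.Tz.Sing

/-!
# MP_7ed9c3_nt, part Aw: the roots of the Euler factors, uniform version
-/

set_option autoImplicit false

namespace MP7ed9c3.Aw

open NumberField IsDedekindDomain Filter Topology MP7ed9c3.Tw MP7ed9c3.Ext MP7ed9c3.Zg

/-- The trace is at most `1` at a prime of bad reduction not over `6`. -/
theorem tr_bad (h : Tz.S_Sing) (K : Type) [Field K] [NumberField K] (W : WeierstrassCurve (𝓞 K))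
    (v : HeightOneSpectrum (𝓞 K)) (hΔ : W.Δ ∈ v.asIdeal) (h6 : (6 : 𝓞 K) ∉ v.asIdeal) :
    |(tr W v : ℝ)| ≤ 1 := by
  let _ : Field (𝓞 K ⧸ v.asIdeal) := Ideal.Quotient.field v.asIdeal
  have : Finite (𝓞 K ⧸ v.asIdeal) := Ideal.finiteQuotientOfFreeOfNeBot v.asIdeal v.ne_bot
  have hcard : nm v = Nat.card (𝓞 K ⧸ v.asIdeal) := by
    unfold nm
    rw [Ideal.absNorm_apply, Submodule.cardQuot_apply]
  have hΔ' : (red W v).Δ = 0 := by
    unfold red
    rw [WeierstrassCurve.map_Δ]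
    exact Ideal.Quotient.eq_zero_iff_mem.2 hΔ
  obtain ⟨s1, s2⟩ := h (𝓞 K ⧸ v.asIdeal) (red W v) hΔ'
  have h6' : (6 : 𝓞 K ⧸ v.asIdeal) ≠ 0 := by
    intro h0
    apply h6
    apply Ideal.Quotient.eq_zero_iff_mem.1
    rw [map_ofNat]
    exact h0
  have h2 : (2 : 𝓞 K ⧸ v.asIdeal) ≠ 0 := by
    intro h0
    apply h6'
    have : (6 : 𝓞 K ⧸ v.asIdeal) = 2 * 3 := by norm_num
    rw [this, h0, zero_mul]
  have h3 : (3 : 𝓞 K ⧸ v.asIdeal) ≠ 0 := by
    intro h0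
    apply h6'
    have : (6 : 𝓞 K ⧸ v.asIdeal) = 2 * 3 := by norm_num
    rw [this, h0, mul_zero]
  have h4 : |(tr W v : ℤ)| ≤ 1 := by
    unfold tr
    rw [hcard]
    exact s2 h2 h3
  exact_mod_cast h4

theorem uRoots (h : Tz.S_Sing) : S_URoots := by
  intro K _ _ M
  obtain ⟨α, β, h1, h2, h3, h4⟩ := Tz.loc h K M
  have hq : ∀ v : HeightOneSpectrum (𝓞 K), (2 : ℝ) ≤ nm v := fun v => by
    exact_mod_cast (N1.exists_prime v).1
  have hmax : ∀ v : HeightOneSpectrum (𝓞 K), max (√(nm v : ℝ)) (nm v - 1) ≤ nm v := by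
    intro v
    apply max_le _ (by linarith [hq v])
    rw [Real.sqrt_le_left (by linarith [hq v])]
    nlinarith [hq v]
  refine ⟨α, β, h1, fun v => ⟨(h2 v).1.trans (hmax v), (h2 v).2.trans (hmax v)⟩, ?_, ?_⟩
  · intro v h6 hg
    obtain ⟨ha, hb⟩ := h3 v h6
    have hp := (h4 v).2 hg
    have hs0 : 0 < √(nm v : ℝ) := Real.sqrt_pos.2 (by linarith [hq v])
    have hn : ‖α v‖ * ‖β v‖ = √(nm v : ℝ) * √(nm v : ℝ) := by
      rw [← norm_mul, hp, Complex.norm_natCast, Real.mul_self_sqrt (by linarith [hq v])]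
    have ha' : ‖α v‖ = √(nm v : ℝ) := by
      refine le_antisymm ha ?_
      by_contra hlt
      push Not at hlt
      have h5 : ‖α v‖ * ‖β v‖ < √(nm v : ℝ) * √(nm v : ℝ) := by
        calc ‖α v‖ * ‖β v‖ ≤ ‖α v‖ * √(nm v : ℝ) := mul_le_mul_of_nonneg_left hb (norm_nonneg _)
          _ < _ := mul_lt_mul_of_pos_right hlt hs0
      exact absurd hn h5.ne
    have hb' : ‖β v‖ = √(nm v : ℝ) := by
      rw [ha'] at hn
      exact mul_left_cancel₀ hs0.ne' hn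
    exact ⟨⟨ha', hp⟩, hb'⟩
  · intro v h6 hbad s hs
    have htr := tr_bad h K (M v) v hbad h6
    have hq0 : (0 : ℝ) < nm v := by linarith [hq v]
    have hnq : ‖(nm v : ℂ) ^ (-s)‖ < 1 := by
      rw [show (nm v : ℂ) = ((nm v : ℝ) : ℂ) by push_cast; rfl,
        Complex.norm_cpow_eq_rpow_re_of_pos hq0]
      exact Real.rpow_lt_one_of_one_lt_of_neg (by linarith [hq v]) (by rw [Complex.neg_re]; linarith)
    have hl : locDen (M v) v s = 1 - (tr (M v) v : ℂ) * (nm v : ℂ) ^ (-s) := by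
      unfold locDen eden
      rw [if_neg (not_not.2 hbad), zero_mul, add_zero]
    have hn : ‖(tr (M v) v : ℂ) * (nm v : ℂ) ^ (-s)‖ < 1 := by
      rw [norm_mul, Complex.norm_intCast]
      calc |(tr (M v) v : ℝ)| * ‖(nm v : ℂ) ^ (-s)‖ ≤ 1 * ‖(nm v : ℂ) ^ (-s)‖ :=
            mul_le_mul_of_nonneg_right htr (norm_nonneg _)
        _ < 1 := by rw [one_mul]; exact hnq
    rw [hl]
    constructor
    · intro h0
      rw [← sub_eq_zero.1 h0, norm_one] at hn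
      exact lt_irrefl _ hn
    · calc ‖1 - (tr (M v) v : ℂ) * (nm v : ℂ) ^ (-s)‖ ≤
          ‖(1 : ℂ)‖ + ‖(tr (M v) v : ℂ) * (nm v : ℂ) ^ (-s)‖ := norm_sub_le _ _
        _ ≤ 2 := by rw [norm_one]; linarith

end MP7ed9c3.Aw
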