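import Pool.Agent.Lib.MP_7ed9c3_nt.Zg.All
import Pool.Agent.Lib.MP_7ed9c3_nt.Tz.Sing
import Pool.Agent.Lib.MP_7ed9c3_nt.Aw.UPow
import Pool.Agent.Lib.MP_7ed9c3_nt.Aw.ULoc
import Pool.Agent.Lib.MP_7ed9c3_nt.Aw.UMany1
import Pool.Agent.Lib.MP_7ed9c3_nt.Aw.UMany2
import Pool.Agent.Lib.MP_7ed9c3_nt.Aw.ULow
import Pool.Agent.Lib.MP_7ed9c3_nt.Aw.URoots
import Pool.Agent.Lib.MP_7ed9c3_nt.Aw.UBad
import Pool.Agent.Lib.MP_7ed9c3_nt.Aw.ULocZ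
import Pool.Agent.Lib.MP_7ed9c3_nt.Aw.ULocB
import Pool.Agent.Lib.MP_7ed9c3_nt.Aw.UData
import Pool.Agent.Lib.MP_7ed9c3_nt.Aw.UBr
import Pool.Agent.Lib.MP_7ed9c3_nt.Aw.Grp
import Pool.Agent.Lib.MP_7ed9c3_nt.Aw.SerGe
import Pool.Agent.Lib.MP_7ed9c3_nt.Aw.Mod
import Pool.Agent.Lib.MP_7ed9c3_nt.Aw.CoefB

/-!
# MP_7ed9c3_nt, part Aw: assembly of the uniform branch
-/

set_option autoImplicit false

namespace MP7ed9c3.Aw

open NumberField IsDedekindDomain Filter Topology MeasureTheory Metric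

theorem uLocAll : S_ULoc :=
  uLoc Zg.per Zg.num (Ext.bij Ext.prim) Zg.ratP Zg.psumE Zg.admC Zg.admConj Zs.overz Zs.coefz

theorem uMany1All : S_UMany1 :=
  uMany1 uPow uLocAll Ext.frob Zg.transBAll (Zg.classB Zg.ind) Zg.mid Zg.dyad Zg.ratP

theorem uMany2All : S_UMany2 := uMany2 uPow Zs.newtonz Zs.overz Zs.coefz Zs.countz

theorem uDataAll : S_UData :=
  uData tGrp tSerGe tMod (tCoefB Zs.overz Zs.coefz) (uRoots Tz.sing) uBad uLocZ uLocB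

/-- The uniform theorem with an explicit rate, from `S_RedQ`. -/
theorem uFinQAll (h : S_RedQ) (K : Type) [Field K] [NumberField K] :
    WindowsQ K (FewBad K) (1 / 2 + 1 / (4 * (Module.finrank ℚ K : ℝ))) ∧
    ∀ (N : Type) [Field N] [NumberField N] [IsGalois ℚ N] (g : N ≃ₐ[ℚ] N) (k : ℕ),
      Nonempty (K →ₐ[ℚ] N) → Zg.Adm (Zg.perm (K := K) g) k →
      WindowsQ K (FewBad K) (1 / 2 + 1 / (2 * (k : ℝ))) :=
  uFinQ uMany1All uMany2All uLow uDataAll h K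

/-- The uniform theorem with fixed `h` and `N`, from `S_RedG`. -/
theorem uFinGAll (h : S_RedG) (K : Type) [Field K] [NumberField K] :
    WindowsG K (FewBad K) (1 / 2 + 1 / (4 * (Module.finrank ℚ K : ℝ))) ∧
    ∀ (N : Type) [Field N] [NumberField N] [IsGalois ℚ N] (g : N ≃ₐ[ℚ] N) (k : ℕ),
      Nonempty (K →ₐ[ℚ] N) → Zg.Adm (Zg.perm (K := K) g) k →
      WindowsG K (FewBad K) (1 / 2 + 1 / (2 * (k : ℝ))) :=
  uFinG uMany1All uMany2All uLow uDataAll h K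

end MP7ed9c3.Aw
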