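import Pool.Agent.Lib.MP_7ed9c3_nt.Aw.SpecX

/-!
# MP_7ed9c3_nt, part Aw, module BlocksX (helper40): all energies are small only on a small set
-/

set_option autoImplicit false

namespace MP7ed9c3.Aw

open NumberField IsDedekindDomain Filter Topology MeasureTheory Metric

private noncomputable def BlocksX_v (h R' : ℝ) (c : ℕ → ℂ) (M nn : ℕ → ℕ) (i m : ℕ)
    (n : Fin (nn i)) : ℂ :=
  c m * gT h n m * ((R' ^ (n : ℕ) / √(vS h R' c (blk (M i) (M (i + 1))) (nn i)) : ℝ) : ℂ)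

private theorem BlocksX_mono {I : ℕ} {M : ℕ → ℕ} (hM : ∀ i < I, M i < M (i + 1)) {i j : ℕ}
    (hij : i ≤ j) (hj : j ≤ I) : M i ≤ M j := by
  induction j, hij using Nat.le_induction with
  | base => exact le_rfl
  | succ n hn ih => exact (ih (by omega)).trans (hM n (by omega)).le

private theorem BlocksX_mem {M₀ M₁ m : ℕ} (hm : m ∈ blk M₀ M₁) :
    M₀ < m ∧ m ≤ M₁ ∧ M₀ < m.minFac := by
  rw [blk, Finset.mem_filter, Finset.mem_Ioc] at hm
  exact ⟨hm.1.1, hm.1.2, hm.2⟩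

private theorem BlocksX_normsq {h R' : ℝ} (hR : 0 < R') (c : ℕ → ℂ) (n m : ℕ) {q : ℝ}
    (hq : 0 < q) :
    ‖c m * gT h n m * ((R' ^ n / √q : ℝ) : ℂ)‖ ^ 2 =
      ‖c m‖ ^ 2 * (R' ^ (2 * n) * ‖gT h n m‖ ^ 2) / q := by
  have h1 : ‖((R' ^ n / √q : ℝ) : ℂ)‖ = R' ^ n / √q := by
    rw [Complex.norm_real, Real.norm_of_nonneg (by positivity)]
  rw [norm_mul, norm_mul, h1, mul_pow, mul_pow, div_pow, Real.sq_sqrt hq.le, ← pow_mul,
    mul_comm n 2]
  ring

private theorem BlocksX_uu {h R' : ℝ} (hR : 0 < R') (c : ℕ → ℂ) {M nn : ℕ → ℕ} {i : ℕ}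
    (hpos : 0 < vS h R' c (blk (M i) (M (i + 1))) (nn i)) (m : ℕ) :
    uu (BlocksX_v h R' c M nn i) m =
      wS h R' c (nn i) m / vS h R' c (blk (M i) (M (i + 1))) (nn i) := by
  rw [uu, wS, Finset.mul_sum, Finset.sum_div, Finset.sum_range]
  refine Finset.sum_congr rfl fun n _ => ?_
  simp only [BlocksX_v]
  exact BlocksX_normsq hR c n m hpos

private theorem BlocksX_dE {h R' : ℝ} (hR : 0 < R') {c : ℕ → ℂ} {C : ℝ} (hc : Coefs c C)
    {M nn : ℕ → ℕ} {i : ℕ} (hpos : 0 < vS h R' c (blk (M i) (M (i + 1))) (nn i)) (t : ℝ)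
    (S : Finset ℕ) (hS : ∀ m, m ∈ S ↔ m ∈ blk (M i) (M (i + 1)) ∧ IsPrimePow m) :
    dE S (BlocksX_v h R' c M nn i) t = en h R' c (blk (M i) (M (i + 1))) (nn i) t /
      vS h R' c (blk (M i) (M (i + 1))) (nn i) := by
  rw [dE, en, Finset.sum_div, Finset.sum_range]
  refine Finset.sum_congr rfl fun n _ => ?_
  have h1 : ∑ m ∈ S, BlocksX_v h R' c M nn i m n * (m : ℂ) ^ (-(t * Complex.I)) =
      aS h c (blk (M i) (M (i + 1))) n t * ((R' ^ (n : ℕ) /
        √(vS h R' c (blk (M i) (M (i + 1))) (nn i)) : ℝ) : ℂ) := by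
    rw [aS, Finset.sum_mul]
    have h2 : ∑ m ∈ S, c m * gT h n m * (m : ℂ) ^ (-(t * Complex.I)) * ((R' ^ (n : ℕ) /
        √(vS h R' c (blk (M i) (M (i + 1))) (nn i)) : ℝ) : ℂ) =
        ∑ m ∈ blk (M i) (M (i + 1)), c m * gT h n m * (m : ℂ) ^ (-(t * Complex.I)) *
          ((R' ^ (n : ℕ) / √(vS h R' c (blk (M i) (M (i + 1))) (nn i)) : ℝ) : ℂ) := by
      refine Finset.sum_subset (fun m hm => ((hS m).1 hm).1) ?_
      intro m hm hm2
      have h3 : ¬ IsPrimePow m := fun hp => hm2 ((hS m).2 ⟨hm, hp⟩)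
      rw [hc.1 m h3]
      simp
    rw [← h2]
    refine Finset.sum_congr rfl fun m _ => ?_
    simp only [BlocksX_v]
    ring
  rw [h1, norm_mul, mul_pow]
  have h2 : ‖((R' ^ (n : ℕ) / √(vS h R' c (blk (M i) (M (i + 1))) (nn i)) : ℝ) : ℂ)‖ =
      R' ^ (n : ℕ) / √(vS h R' c (blk (M i) (M (i + 1))) (nn i)) := by
    rw [Complex.norm_real, Real.norm_of_nonneg (by positivity)]
  rw [h2, div_pow, Real.sq_sqrt hpos.le, ← pow_mul, mul_comm (n : ℕ) 2]
  ring

private theorem BlocksX_cont {ι : Type} [Fintype ι] (S : Finset ℕ) (v : ℕ → ι → ℂ)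
    (hS : ∀ m ∈ S, 1 ≤ m) : Continuous (dE S v) := by
  unfold dE
  refine continuous_finsetSum _ fun i _ => (Continuous.norm ?_).pow 2
  refine continuous_finsetSum _ fun m hm => continuous_const.mul ?_
  have hm0 : (m : ℂ) ≠ 0 := by
    have := hS m hm
    exact_mod_cast (by omega : m ≠ 0)
  exact Continuous.const_cpow (by fun_prop) (Or.inl hm0)

private theorem BlocksX_markov (D : ℝ → ℝ) (hD : Continuous D) (h0 : ∀ t, 0 ≤ D t) (a b : ℝ)
    (hab : a ≤ b) (X : ℝ) (hX : ∫ t in a..b, D t ≤ X) :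
    volume {t : ℝ | t ∈ Set.Icc a b ∧ 1 ≤ D t} ≤ ENNReal.ofReal X := by
  have hint : Integrable D (volume.restrict (Set.Icc a b)) := hD.integrableOn_Icc
  have hM := mul_meas_ge_le_integral_of_nonneg (μ := volume.restrict (Set.Icc a b))
    (Eventually.of_forall h0) hint 1
  have hI : ∫ t, D t ∂(volume.restrict (Set.Icc a b)) = ∫ t in a..b, D t := by
    rw [intervalIntegral.integral_of_le hab, integral_Icc_eq_integral_Ioc]
  rw [hI] at hM
  have hmeas : MeasurableSet {t : ℝ | (1 : ℝ) ≤ D t} :=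
    measurableSet_le measurable_const hD.measurable
  have hsub : {t : ℝ | t ∈ Set.Icc a b ∧ 1 ≤ D t} ⊆ {t : ℝ | (1 : ℝ) ≤ D t} ∩ Set.Icc a b := by
    rintro t ⟨h1, h2⟩
    exact ⟨h2, h1⟩
  calc volume {t : ℝ | t ∈ Set.Icc a b ∧ 1 ≤ D t} ≤
        volume ({t : ℝ | (1 : ℝ) ≤ D t} ∩ Set.Icc a b) := measure_mono hsub
    _ = volume.restrict (Set.Icc a b) {t : ℝ | (1 : ℝ) ≤ D t} :=
        (Measure.restrict_apply hmeas).symm
    _ = ENNReal.ofReal ((volume.restrict (Set.Icc a b)).real {t : ℝ | (1 : ℝ) ≤ D t}) := by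
        rw [Measure.real, ENNReal.ofReal_toReal (measure_ne_top _ _)]
    _ ≤ ENNReal.ofReal X := ENNReal.ofReal_le_ofReal (by linarith)

theorem tBlocksX (h1 : S_Quads) (h2 : S_ProdX) : S_BlocksX := by
  classical
  intro h R' C τ a b c I M nn hR hc hτ hab hM0 hM hpos hw hlog
  obtain ⟨S, hSdef⟩ : ∃ S : ℕ → Finset ℕ, ∀ i,
      S i = (blk (M i) (M (i + 1))).filter IsPrimePow := ⟨_, fun _ => rfl⟩
  have hS : ∀ i m, m ∈ S i ↔ m ∈ blk (M i) (M (i + 1)) ∧ IsPrimePow m := fun i m => by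
    rw [hSdef, Finset.mem_filter]
  have hMI : ∀ i < I, ∀ m ∈ S i, 1 ≤ m ∧ m ≤ M I := by
    intro i hi m hm
    have h3 := BlocksX_mem ((hS i m).1 hm).1
    have h4 := BlocksX_mono hM (show i + 1 ≤ I by omega) le_rfl
    omega
  have hcop : ∀ i < I, ∀ i' < I, i ≠ i' → ∀ m ∈ S i, ∀ m' ∈ S i', m.Coprime m' := by
    intro i hi i' hi' hne m hm m' hm'
    have h3 := BlocksX_mem ((hS i m).1 hm).1
    have h4 := BlocksX_mem ((hS i' m').1 hm').1
    refine Nat.coprime_of_dvd fun q hq hqm hqm' => ?_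
    have h5 : m.minFac ≤ q := Nat.minFac_le_of_dvd hq.two_le hqm
    have h6 : m'.minFac ≤ q := Nat.minFac_le_of_dvd hq.two_le hqm'
    have h7 : q ≤ m := Nat.le_of_dvd (by omega) hqm
    have h8 : q ≤ m' := Nat.le_of_dvd (by omega) hqm'
    rcases Nat.lt_or_ge i i' with h9 | h9
    · have := BlocksX_mono hM (show i + 1 ≤ i' by omega) hi'.le
      omega
    · have := BlocksX_mono hM (show i' + 1 ≤ i by omega) hi.le
      omega
  have hwn : ∀ n₀ m : ℕ, 0 ≤ wS h R' c n₀ m := by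
    intro n₀ m
    rw [wS]
    positivity
  have hsum : ∀ i < I, ∑ m ∈ S i, uu (BlocksX_v h R' c M nn i) m = 1 := by
    intro i hi
    have h3 := hpos i hi
    rw [Finset.sum_congr rfl fun m _ => BlocksX_uu hR c h3 m, ← Finset.sum_div]
    have h4 : ∑ m ∈ S i, wS h R' c (nn i) m = vS h R' c (blk (M i) (M (i + 1))) (nn i) := by
      rw [vS]
      refine Finset.sum_subset (fun m hm => ((hS i m).1 hm).1) ?_
      intro m hm hm2
      have h5 : ¬ IsPrimePow m := fun hp => hm2 ((hS i m).2 ⟨hm, hp⟩)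
      rw [wS, hc.1 m h5]
      simp
    rw [h4, div_self h3.ne']
  have hun : ∀ i < I, ∀ m, 0 ≤ uu (BlocksX_v h R' c M nn i) m := by
    intro i _ m
    rw [uu]
    positivity
  have hquad : ∀ i < I, quad (S i) (BlocksX_v h R' c M nn i) ≤ 21 / 10 := by
    intro i hi
    have h3 := hpos i hi
    have h4 := h1 (Fin (nn i)) (S i) (BlocksX_v h R' c M nn i) (fun _ => 0) (M I) 1 τ
      (fun m hm => ⟨((hS i m).1 hm).2, (hMI i hi m hm).2⟩) zero_le_one hτ (hsum i hi)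
      (fun m _ m' _ hne => absurd rfl hne)
      (fun j => (Finset.sum_le_sum_of_subset_of_nonneg (Finset.filter_subset _ _)
        (fun m _ _ => hun i hi m)).trans (hsum i hi).le)
      (fun m hm => by
        rw [BlocksX_uu hR c h3 m, div_le_iff₀ h3]
        exact hw i hi m ((hS i m).1 hm).1)
    linarith
  have hMI1 : 1 ≤ M I := hM0.trans (BlocksX_mono hM (Nat.zero_le I) le_rfl)
  have hmain := h2 I nn S (BlocksX_v h R' c M nn) (M I) (21 / 10) a b hab hMI1 (by norm_num) hMI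
    hcop hsum hquad
  -- Markov
  have hcont : Continuous fun t : ℝ => (4 / 25 : ℝ) ^ I *
      ∏ i ∈ Finset.range I, (3 - dE (S i) (BlocksX_v h R' c M nn i) t) ^ 2 := by
    refine continuous_const.mul (continuous_finsetProd _ fun i hi => ?_)
    exact (continuous_const.sub (BlocksX_cont (S i) _ fun m hm =>
      (hMI i (Finset.mem_range.1 hi) m hm).1)).pow 2
  have hnn : ∀ t : ℝ, 0 ≤ (4 / 25 : ℝ) ^ I *
      ∏ i ∈ Finset.range I, (3 - dE (S i) (BlocksX_v h R' c M nn i) t) ^ 2 := by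
    intro t
    exact mul_nonneg (by positivity) (Finset.prod_nonneg fun i _ => sq_nonneg _)
  have hbound : ∫ t in a..b, (4 / 25 : ℝ) ^ I *
      ∏ i ∈ Finset.range I, (3 - dE (S i) (BlocksX_v h R' c M nn i) t) ^ 2 ≤
      (9 / 10) ^ I * (b - a) + 2 * (4 * (M I : ℝ)) ^ (4 * I) := by
    rw [intervalIntegral.integral_const_mul]
    have h5 : (4 / 25 : ℝ) ^ I * (∫ t in a..b, ∏ i ∈ Finset.range I,
        (3 - dE (S i) (BlocksX_v h R' c M nn i) t) ^ 2) ≤ (4 / 25 : ℝ) ^ I *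
        ((b - a) * (3 + 21 / 10) ^ I + 2 * (4 * (M I : ℝ)) ^ (4 * I)) :=
      mul_le_mul_of_nonneg_left hmain (by positivity)
    refine h5.trans ?_
    have h6 : (4 / 25 : ℝ) ^ I * (3 + 21 / 10) ^ I ≤ (9 / 10) ^ I := by
      rw [← mul_pow]
      exact pow_le_pow_left₀ (by norm_num) (by norm_num) I
    have h7 : (4 / 25 : ℝ) ^ I ≤ 1 := pow_le_one₀ (by norm_num) (by norm_num)
    have h8 : (0 : ℝ) ≤ 2 * (4 * (M I : ℝ)) ^ (4 * I) := by positivity
    have h9 : 0 ≤ b - a := by linarith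
    calc (4 / 25 : ℝ) ^ I * ((b - a) * (3 + 21 / 10) ^ I + 2 * (4 * (M I : ℝ)) ^ (4 * I)) =
          ((4 / 25 : ℝ) ^ I * (3 + 21 / 10) ^ I) * (b - a) +
            (4 / 25 : ℝ) ^ I * (2 * (4 * (M I : ℝ)) ^ (4 * I)) := by ring
      _ ≤ (9 / 10) ^ I * (b - a) + 1 * (2 * (4 * (M I : ℝ)) ^ (4 * I)) :=
          add_le_add (mul_le_mul_of_nonneg_right h6 h9) (mul_le_mul_of_nonneg_right h7 h8)
      _ = _ := by ring
  refine (measure_mono ?_).trans (BlocksX_markov _ hcont hnn a b hab _ hbound)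
  rintro t ⟨ht, hen⟩
  refine ⟨ht, ?_⟩
  have h10 : (4 / 25 : ℝ) ^ I = ∏ i ∈ Finset.range I, (4 / 25 : ℝ) := by
    rw [Finset.prod_const, Finset.card_range]
  rw [h10, ← Finset.prod_mul_distrib]
  have h11 : ∏ i ∈ Finset.range I, (1 : ℝ) ≤ ∏ i ∈ Finset.range I,
      (4 / 25 : ℝ) * (3 - dE (S i) (BlocksX_v h R' c M nn i) t) ^ 2 := by
    refine Finset.prod_le_prod (fun _ _ => zero_le_one) fun i hi => ?_
    have hi' := Finset.mem_range.1 hi
    have h3 := hpos i hi'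
    rw [BlocksX_dE hR hc h3 t (S i) (hS i)]
    have h12 : en h R' c (blk (M i) (M (i + 1))) (nn i) t /
        vS h R' c (blk (M i) (M (i + 1))) (nn i) ≤ 1 / 2 := by
      rw [div_le_iff₀ h3]
      linarith [hen i hi']
    nlinarith [mul_self_nonneg (1 / 2 - en h R' c (blk (M i) (M (i + 1))) (nn i) t /
        vS h R' c (blk (M i) (M (i + 1))) (nn i))]
  rwa [Finset.prod_const_one] at h11

end MP7ed9c3.Aw
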