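import Pool.Agent.Lib.MP_7ed9c3_nt.Aw.SpecX

/-!
# MP_7ed9c3_nt, part Aw: one zero in almost every window, small exceptional sets (proof of `S_CoreX`)
-/

set_option autoImplicit false

namespace MP7ed9c3.Aw

open NumberField IsDedekindDomain Filter Topology MeasureTheory Metric

/-- The numbers `M i` are at least `1`. -/
private theorem CoreX_one (I : ℕ) (M : ℕ → ℕ) (h0 : M 0 = 1) (hM : ∀ i < I, M i < M (i + 1)) :
    ∀ i : ℕ, i ≤ I → 1 ≤ M i := by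
  intro i
  induction i with
  | zero => intro _; omega
  | succ n ih =>
    intro hn
    have h1 := ih (by omega)
    have h2 := hM n (by omega)
    omega

/-- The boundary strips have measure at most `2h`. -/
private theorem CoreX_strip (T h t₀ : ℝ) (hh : 0 < h) :
    volume (Set.Icc (t₀ - T) (t₀ - T + h) ∪ Set.Icc (t₀ + T - h) (t₀ + T)) ≤
      ENNReal.ofReal (2 * h) := by
  refine (measure_union_le _ _).trans ?_
  rw [Real.volume_Icc, Real.volume_Icc, ← ENNReal.ofReal_add (by linarith) (by linarith)]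
  apply ENNReal.ofReal_le_ofReal
  linarith

/-- A window inside the box. -/
private theorem CoreX_sub (σ₁ T h t t₀ : ℝ) (ht : |t - t₀| < T - h) :
    win σ₁ h t ⊆ win σ₁ T t₀ := by
  rintro s ⟨h1, h2⟩
  refine ⟨h1, ?_⟩
  have h3 : s.im - t₀ = (s.im - t) + (t - t₀) := by ring
  rw [h3]
  exact (abs_add_le _ _).trans_lt (by linarith)

/-- The numbers `M i` are at most `M I`. -/
private theorem CoreX_le (I : ℕ) (M : ℕ → ℕ) (hM : ∀ i < I, M i < M (i + 1)) :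
    ∀ j i : ℕ, i + j = I → M i ≤ M I := by
  intro j
  induction j with
  | zero =>
    intro i hi
    have : i = I := by omega
    rw [this]
  | succ n ih =>
    intro i hi
    have h1 := hM i (by omega)
    have h2 := ih (i + 1) (by omega)
    omega

/-- The mean energies are at least `V⁴`. -/
private theorem CoreX_four (V m v : ℝ) (hV : 0 ≤ V) (hm : 0 ≤ m) (hv : (V + m + 1) ^ 4 ≤ v) :
    V ^ 4 ≤ v := by
  have h1 : V ^ 4 ≤ (V + m + 1) ^ 4 := pow_le_pow_left₀ hV (by linarith) 4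
  linarith

/-- The points which are not in the boundary strips. -/
private theorem CoreX_mid (T h t t₀ : ℝ) (ht : |t - t₀| < T)
    (h1 : t ∉ Set.Icc (t₀ - T) (t₀ - T + h) ∪ Set.Icc (t₀ + T - h) (t₀ + T)) :
    |t - t₀| < T - h := by
  rw [abs_lt] at ht ⊢
  simp only [Set.mem_union, Set.mem_Icc, not_or, not_and, not_le] at h1
  obtain ⟨h2, h3⟩ := h1
  have h4 := h2 (by linarith [ht.1])
  constructor
  · linarith
  · by_contra h5
    have h6 : t₀ + T - h ≤ t := by linarith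
    have h7 := h3 h6
    linarith [ht.2]

/-- The numbers: the exponent `κ₁ = (D₂/δ)^I`. -/
private theorem CoreX_num (D₁ D₂ h V : ℝ) (I : ℕ) (hD₁ : 1 ≤ D₁) (hD₂ : 1 ≤ D₂) (hI : 1 ≤ I)
    (hh : 0 < h) (hh1 : h ≤ 1)
    (hV : Real.exp (I * (8 * (Real.log D₂ + D₁) + 8) / h) ≤ V) :
    Real.exp (-(D₁ / h)) ≤ 1 ∧ 1 ≤ (D₂ / Real.exp (-(D₁ / h))) ^ I ∧
      ((D₂ / Real.exp (-(D₁ / h))) ^ I) ^ 8 ≤ V ∧ (256 : ℝ) ^ I ≤ V ∧
      1 / Real.exp (-(D₁ / h)) ≤ (D₂ / Real.exp (-(D₁ / h))) ^ I ∧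
      4 * I * (D₂ / Real.exp (-(D₁ / h))) ^ I + 3 ≤
        Real.exp (I * (8 * (Real.log D₂ + D₁) + 8) / h) := by
  have hD₂0 : 0 < D₂ := by linarith
  have hlog : 0 ≤ Real.log D₂ := Real.log_nonneg hD₂
  have hI' : (1 : ℝ) ≤ I := by exact_mod_cast hI
  have hδ1 : Real.exp (-(D₁ / h)) ≤ 1 := by
    rw [Real.exp_le_one_iff]
    have : 0 < D₁ / h := by positivity
    linarith
  have hδ0 : 0 < Real.exp (-(D₁ / h)) := Real.exp_pos _
  have e1 : D₂ / Real.exp (-(D₁ / h)) = Real.exp (Real.log D₂ + D₁ / h) := by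
    rw [Real.exp_add, Real.exp_log hD₂0, Real.exp_neg]
    field_simp
  have hbase : 1 ≤ D₂ / Real.exp (-(D₁ / h)) := by
    rw [e1]
    exact Real.one_le_exp (by positivity)
  have hκ1 : 1 ≤ (D₂ / Real.exp (-(D₁ / h))) ^ I := one_le_pow₀ hbase
  have e2 : (D₂ / Real.exp (-(D₁ / h))) ^ I = Real.exp (I * (Real.log D₂ + D₁ / h)) := by
    rw [e1, ← Real.exp_nat_mul]
  have e3 : (I : ℝ) * (Real.log D₂ + D₁ / h) ≤ I * (Real.log D₂ + D₁) / h := by
    rw [le_div_iff₀ hh, mul_assoc]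
    apply mul_le_mul_of_nonneg_left _ (Nat.cast_nonneg I)
    have : (Real.log D₂ + D₁ / h) * h = Real.log D₂ * h + D₁ := by field_simp
    rw [this]
    nlinarith
  have h8I : 8 * (I : ℝ) ≤ 8 * I / h := by
    rw [le_div_iff₀ hh]
    have : 0 ≤ 8 * (I : ℝ) * (1 - h) := mul_nonneg (by positivity) (by linarith)
    linarith
  have hexp8 : Real.exp (8 * I) * ((D₂ / Real.exp (-(D₁ / h))) ^ I) ^ 8 ≤
      Real.exp (I * (8 * (Real.log D₂ + D₁) + 8) / h) := by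
    have e4 : I * (8 * (Real.log D₂ + D₁) + 8) / h =
        8 * I / h + 8 * (I * (Real.log D₂ + D₁) / h) := by ring
    rw [e4, Real.exp_add, e2, ← Real.exp_nat_mul]
    apply mul_le_mul (Real.exp_le_exp.2 h8I) _ (Real.exp_pos _).le (Real.exp_pos _).le
    rw [Real.exp_le_exp]
    push_cast
    linarith
  have h256 : (256 : ℝ) ^ I ≤ Real.exp (8 * I) := by
    have e5 : Real.exp (8 * I) = Real.exp 8 ^ I := by
      rw [← Real.exp_nat_mul]
      congr 1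
      ring
    rw [e5]
    apply pow_le_pow_left₀ (by norm_num)
    have h2 : (2 : ℝ) ≤ Real.exp 1 := by
      have := Real.add_one_le_exp 1
      linarith
    calc (256 : ℝ) = 2 ^ 8 := by norm_num
      _ ≤ Real.exp 1 ^ 8 := pow_le_pow_left₀ (by norm_num) h2 8
      _ = Real.exp 8 := by rw [← Real.exp_nat_mul]; norm_num
  have h7 : 7 * (I : ℝ) ≤ Real.exp (8 * I) := by
    have := Real.add_one_le_exp (8 * (I : ℝ))
    linarith
  have h1e : 1 ≤ Real.exp (8 * I) := by linarith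
  have hδκ : 1 / Real.exp (-(D₁ / h)) ≤ (D₂ / Real.exp (-(D₁ / h))) ^ I :=
    (div_le_div_of_nonneg_right hD₂ hδ0.le).trans (le_self_pow₀ hbase (by omega))
  clear e2
  generalize (D₂ / Real.exp (-(D₁ / h))) ^ I = κ₁ at hκ1 hexp8 hδκ ⊢
  have hκ0 : 0 ≤ κ₁ := by linarith
  have hκκ : κ₁ ≤ κ₁ ^ 8 := le_self_pow₀ hκ1 (by norm_num)
  have hκ8 : 0 ≤ κ₁ ^ 8 := by positivity
  have hκ81 : 1 ≤ κ₁ ^ 8 := hκ1.trans hκκ
  refine ⟨hδ1, hκ1, ?_, ?_, hδκ, ?_⟩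
  · calc κ₁ ^ 8 ≤ Real.exp (8 * I) * κ₁ ^ 8 := le_mul_of_one_le_left hκ8 h1e
      _ ≤ _ := hexp8
      _ ≤ V := hV
  · calc (256 : ℝ) ^ I ≤ Real.exp (8 * I) := h256
      _ ≤ Real.exp (8 * I) * κ₁ ^ 8 := le_mul_of_one_le_right (Real.exp_pos _).le hκ81
      _ ≤ _ := hexp8
      _ ≤ V := hV
  · calc 4 * I * κ₁ + 3 ≤ 7 * I * κ₁ := by
          have : 1 ≤ (I : ℝ) * κ₁ := one_le_mul_of_one_le_of_one_le hI' hκ1
          linarith
      _ ≤ Real.exp (8 * I) * κ₁ ^ 8 :=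
          mul_le_mul h7 hκκ hκ0 (Real.exp_pos _).le
      _ ≤ _ := hexp8

theorem tCoreX (h1 : S_RadQ) (h2 : S_WBQ) (h3 : S_WinAX) (h4 : S_ScaleX) (h5 : S_BlocksX)
    (h6 : S_NumCX) : S_CoreX := by
  intro C b k hC hb σ₁ hσ hσb
  obtain ⟨D₁, hD₁, hRad⟩ := h1 σ₁ b hσ hσb hb
  obtain ⟨A₁, hA₁, hWin⟩ := h3 C hC
  refine ⟨(σ₁ + 4 * b) / 5, by linarith, by linarith, ?_⟩
  intro η B hη hB
  obtain ⟨D₂, V₁, hD₂, hV₁, hSc⟩ := h4 C η B k hC hη hB
  set A : ℝ := max A₁ (C ^ 2) with hAdef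
  have hA : 0 ≤ A := hA₁.trans (le_max_left _ _)
  obtain ⟨V₂, hV₂, hNum⟩ := h6 A hA
  have hlog : 0 ≤ Real.log D₂ := Real.log_nonneg hD₂
  refine ⟨8 * (Real.log D₂ + D₁) + 8, max V₁ V₂, by linarith, hV₁.trans (le_max_left _ _), ?_⟩
  intro V T t₀ h I hV hh hh1 hI1 hexp hT c hc hL G hG hGb hGe
  obtain ⟨r₀, R, R', R₂, R₁, hR, hell, hGap⟩ := hRad h hh hh1
  have hVa : V₁ ≤ V := (le_max_left _ _).trans hV
  have hVb : V₂ ≤ V := (le_max_right _ _).trans hV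
  have hV1 : 1 ≤ V := hV₁.trans hVa
  have hV0 : 0 ≤ V := by linarith
  have hV4 : 0 < V ^ 4 := by positivity
  have hTpos : 0 < T := (Real.rpow_pos_of_pos (by linarith) _).trans_le hT
  obtain ⟨hδ1, hκ1, hκV, h256, hδκ, hκT⟩ := CoreX_num D₁ D₂ h V I hD₁ hD₂ hI1 hh hh1 hexp
  set δ : ℝ := Real.exp (-(D₁ / h)) with hδdef
  have hδ : 0 < δ := Real.exp_pos _
  have hT' : V ^ (4 * I * (D₂ / δ) ^ I + 3) ≤ T :=
    (Real.rpow_le_rpow_of_exponent_le hV1 hκT).trans hT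
  have h8 : 8 / δ ≤ V :=
    (hNum V T ((D₂ / δ) ^ I) δ h I 1 hVb hδ hδ1 hδκ h256 hκV hT' le_rfl
      (by rw [Nat.cast_one]; exact Real.one_le_rpow hV1 (by linarith)) hh1).1
  rw [← hell] at hL
  obtain ⟨M, nn, hM0, hM, hMI, hr, hv⟩ :=
    hSc h σ₁ b r₀ R R' R₂ R₁ δ hh hb hR hGap V hVa h8 c hc hL I
  have hone := CoreX_one I M hM0 hM
  obtain ⟨_, hVc, hτM, hfin⟩ := hNum V T ((D₂ / δ) ^ I) δ h I (M I) hVb hδ hδ1 hδκ h256 hκV hT'
    (hone I le_rfl) hMI hh1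
  have hτ : 0 ≤ A / δ / V ^ 4 := by positivity
  have hR' : 0 < R' := lt_trans (lt_trans hR.r₀pos hR.lt1) hR.lt2
  have hv4 : ∀ i < I, V ^ 4 ≤ vS h R' c (blk (M i) (M (i + 1))) (nn i) := fun i hi =>
    CoreX_four V (M i) _ hV0 (Nat.cast_nonneg _) (hv i hi)
  have hBl := h5 h R' C (A / δ / V ^ 4) (t₀ - T) (t₀ + T) c I M nn hR' hc hτ (by linarith)
    (by omega) hM (fun i hi => hV4.trans_le (hv4 i hi)) (by
      intro i hi m hm
      have hm1 : 1 ≤ m := by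
        have := (Finset.mem_Ioc.mp (Finset.mem_filter.mp hm).1).1
        omega
      have e1 : A / δ = A / δ / V ^ 4 * V ^ 4 := by field_simp
      calc wS h R' c (nn i) m ≤ C ^ 2 / δ :=
            h2 h σ₁ b r₀ R R' R₂ R₁ C δ hh hC hR hGap c hc (nn i) m hm1
        _ ≤ A / δ := div_le_div_of_nonneg_right (le_max_right _ _) hδ.le
        _ = A / δ / V ^ 4 * V ^ 4 := e1
        _ ≤ A / δ / V ^ 4 * vS h R' c (blk (M i) (M (i + 1))) (nn i) :=
          mul_le_mul_of_nonneg_left (hv4 i hi) hτ) hτM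
  have hsub : {t : ℝ | |t - t₀| < T ∧ ∀ ρ ∈ win σ₁ h t, ρ ∈ win σ₁ T t₀ → G ρ ≠ 0} ⊆
      {t : ℝ | t ∈ Set.Icc (t₀ - T) (t₀ + T) ∧
        ∀ i < I, en h R' c (blk (M i) (M (i + 1))) (nn i) t ≤
          vS h R' c (blk (M i) (M (i + 1))) (nn i) / 2} ∪
      (Set.Icc (t₀ - T) (t₀ - T + h) ∪ Set.Icc (t₀ + T - h) (t₀ + T)) := by
    rintro t ⟨ht, hz⟩
    by_cases hst : t ∈ Set.Icc (t₀ - T) (t₀ - T + h) ∪ Set.Icc (t₀ + T - h) (t₀ + T)
    · exact Or.inr hst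
    · left
      have hw := CoreX_sub σ₁ T h t t₀ (CoreX_mid T h t t₀ ht hst)
      have ht' := abs_lt.mp ht
      refine ⟨⟨by linarith [ht'.1], by linarith [ht'.2]⟩, ?_⟩
      intro i hi
      have hen := hWin h σ₁ b r₀ R R' R₂ R₁ δ hh hR hGap c G t V hc hV0 (hG.mono hw)
        (fun s hs => hz s hs (hw hs))
        (fun s hs => hGb s (hw hs)) (fun s hs hs3 => hGe s (hw hs) hs3) (M i) (M (i + 1)) (nn i)
        (hone (i + 1) (by omega)) (hr i hi)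
      have hMle : M (i + 1) ≤ M I := CoreX_le I M hM (I - (i + 1)) (i + 1) (by omega)
      have hlg : (Nat.log 2 (M (i + 1)) : ℝ) ≤ Nat.log 2 (M I) := by
        exact_mod_cast Nat.log_mono_right hMle
      have hbr : V + M i * (1 + (Nat.log 2 (M (i + 1)) : ℝ)) + 1 ≤
          V + M i * (1 + (Nat.log 2 (M I) : ℝ)) + 1 := by
        have := mul_le_mul_of_nonneg_left hlg (Nat.cast_nonneg (α := ℝ) (M i))
        linarith
      have hbr0 : 0 ≤ V + M i * (1 + (Nat.log 2 (M (i + 1)) : ℝ)) + 1 := by positivity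
      have hen' : A₁ / δ ^ 3 * (V + M i * (1 + (Nat.log 2 (M (i + 1)) : ℝ)) + 1) ^ 2 ≤
          A / δ ^ 3 * (V + M i * (1 + (Nat.log 2 (M I) : ℝ)) + 1) ^ 2 :=
        mul_le_mul (div_le_div_of_nonneg_right (le_max_left _ _) (by positivity))
          (pow_le_pow_left₀ hbr0 hbr 2) (sq_nonneg _) (by positivity)
      have h9 := hVc (M i)
      have h10 := hv i hi
      linarith
  have hX : 0 ≤ (9 / 10 : ℝ) ^ I * ((t₀ + T) - (t₀ - T)) + 2 * (4 * (M I : ℝ)) ^ (4 * I) := by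
    have e1 : (t₀ + T) - (t₀ - T) = 2 * T := by ring
    rw [e1]
    positivity
  calc volume {t : ℝ | |t - t₀| < T ∧ ∀ ρ ∈ win σ₁ h t, ρ ∈ win σ₁ T t₀ → G ρ ≠ 0}
      ≤ _ := measure_mono hsub
    _ ≤ _ := measure_union_le _ _
    _ ≤ ENNReal.ofReal ((9 / 10 : ℝ) ^ I * ((t₀ + T) - (t₀ - T)) +
          2 * (4 * (M I : ℝ)) ^ (4 * I)) + ENNReal.ofReal (2 * h) :=
        add_le_add hBl (CoreX_strip T h t₀ hh)
    _ = ENNReal.ofReal ((9 / 10 : ℝ) ^ I * ((t₀ + T) - (t₀ - T)) +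
          2 * (4 * (M I : ℝ)) ^ (4 * I) + 2 * h) :=
        (ENNReal.ofReal_add hX (by linarith)).symm
    _ ≤ ENNReal.ofReal (4 * (9 / 10) ^ I * T) := by
        apply ENNReal.ofReal_le_ofReal
        have e1 : (t₀ + T) - (t₀ - T) = 2 * T := by ring
        rw [e1]
        exact hfin

end MP7ed9c3.Aw
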