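import Pool.Agent.Lib.MP_7ed9c3_nt.Aw.SpecX

/-!
# MP_7ed9c3_nt, part Aw: `S_CoreX` in terms of `rate V T`

With `I = ⌊h L/D⌋` and `L = rate V T` the bound `4 (9/10)^I T` is at most `5 exp(-c₁ h L) T`, `c₁ = log(10/9)/D`.
-/

set_option autoImplicit false

namespace MP7ed9c3.Aw

open NumberField IsDedekindDomain Filter Topology MeasureTheory Metric

/-- The elementary lower bound for the exponential. -/
private theorem CoreXQ_exp (D h L : ℝ) (hD : 1 ≤ D) (hh : 0 < h) :
    (9 / 10 : ℝ) ^ (⌊h * L / D⌋₊ + 1) ≤ Real.exp (-(Real.log (10 / 9) / D * h * L)) := by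
  have hD0 : 0 < D := by linarith
  have hlog : 0 < Real.log (10 / 9) := Real.log_pos (by norm_num)
  have h1 : h * L / D < (⌊h * L / D⌋₊ : ℝ) + 1 := Nat.lt_floor_add_one _
  have h2 : Real.log (10 / 9) / D * h * L = Real.log (10 / 9) * (h * L / D) := by
    field_simp
  have h3 : (9 / 10 : ℝ) ^ (⌊h * L / D⌋₊ + 1) =
      Real.exp (-(Real.log (10 / 9) * ((⌊h * L / D⌋₊ : ℝ) + 1))) := by
    have h4 : (9 / 10 : ℝ) = Real.exp (-Real.log (10 / 9)) := by
      rw [Real.exp_neg, Real.exp_log (by norm_num)]; norm_num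
    rw [h4, ← Real.exp_nat_mul]
    congr 1
    push_cast
    ring
  rw [h3, h2]
  apply Real.exp_le_exp.mpr
  have := mul_le_mul_of_nonneg_left h1.le hlog.le
  linarith

/-- The rate is nonnegative. -/
private theorem CoreXQ_rate (V T : ℝ) (hV : 2 ≤ V) (hT : V ≤ T) : 0 ≤ rate V T := by
  have h1 : 0 < Real.log V := Real.log_pos (by linarith)
  have h2 : Real.log V ≤ Real.log T := Real.log_le_log (by linarith) hT
  unfold rate
  refine le_min (Real.log_nonneg ?_) h1.le
  rw [le_div_iff₀ h1]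
  linarith

/-- **CoreXQ**. -/
theorem tCoreXQ (h1 : S_CoreX) : S_CoreXQ := by
  intro C b k hC hb σ₁ hσ hσb
  obtain ⟨x, hx1, hx2, H⟩ := h1 C b k hC hb σ₁ hσ hσb
  refine ⟨x, hx1, hx2, ?_⟩
  intro η B hη hB
  obtain ⟨D, V₀, hD, hV₀, H'⟩ := H η B hη hB
  have hD0 : 0 < D := by linarith
  have hlog : 0 < Real.log (10 / 9) := Real.log_pos (by norm_num)
  have hlog1 : Real.log (10 / 9) ≤ 1 := by
    have := Real.log_le_sub_one_of_pos (show (0 : ℝ) < 10 / 9 by norm_num)
    linarith
  refine ⟨5, Real.log (10 / 9) / D, max V₀ 2, by norm_num, by positivity, ?_, ?_⟩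
  · rw [div_le_one hD0]; linarith
  intro V T t₀ h hV hVT hh hh1 c hc hlow G hG1 hG2 hG3
  have hV1 : V₀ ≤ V := le_trans (le_max_left _ _) hV
  have hV2 : 2 ≤ V := le_trans (le_max_right _ _) hV
  have hT0 : 0 < T := by linarith
  have hL := CoreXQ_rate V T hV2 hVT
  have hE := CoreXQ_exp D h (rate V T) hD hh
  obtain ⟨I, hI⟩ : ∃ I : ℕ, I = ⌊h * rate V T / D⌋₊ := ⟨_, rfl⟩
  rw [← hI] at hE
  have hp : 0 < (9 / 10 : ℝ) ^ I := by positivity
  rcases Nat.eq_zero_or_pos I with h0 | hpos
  · have hsub : {t : ℝ | |t - t₀| < T ∧ ∀ ρ ∈ win σ₁ h t, ρ ∈ win σ₁ T t₀ → G ρ ≠ 0} ⊆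
        Set.Ioo (t₀ - T) (t₀ + T) := by
      intro t ht
      have := abs_lt.mp ht.1
      exact ⟨by linarith [this.1], by linarith [this.2]⟩
    refine (measure_mono hsub).trans ?_
    rw [Real.volume_Ioo]
    apply ENNReal.ofReal_le_ofReal
    rw [h0] at hE
    norm_num at hE
    have := mul_le_mul_of_nonneg_right hE hT0.le
    nlinarith
  · have hIle : (I : ℝ) ≤ h * rate V T / D := by
      rw [hI]; exact Nat.floor_le (by positivity)
    have hle : I * D / h ≤ rate V T := by
      rw [le_div_iff₀ hD0] at hIle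
      rw [div_le_iff₀ hh]
      linarith
    have hlV : 0 < Real.log V := Real.log_pos (by linarith)
    have hlT : 0 < Real.log T := Real.log_pos (by linarith)
    have e1 : Real.exp (I * D / h) ≤ V := by
      have : I * D / h ≤ Real.log V := hle.trans (min_le_right _ _)
      calc Real.exp (I * D / h) ≤ Real.exp (Real.log V) := Real.exp_le_exp.mpr this
        _ = V := Real.exp_log (by linarith)
    have e2 : V ^ Real.exp (I * D / h) ≤ T := by
      have h3 : I * D / h ≤ Real.log (Real.log T / Real.log V) := hle.trans (min_le_left _ _)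
      have h4 : Real.exp (I * D / h) ≤ Real.log T / Real.log V := by
        calc Real.exp (I * D / h) ≤ Real.exp (Real.log (Real.log T / Real.log V)) :=
              Real.exp_le_exp.mpr h3
          _ = Real.log T / Real.log V := Real.exp_log (by positivity)
      rw [le_div_iff₀ hlV] at h4
      rw [Real.rpow_def_of_pos (by linarith)]
      calc Real.exp (Real.log V * Real.exp (I * D / h)) ≤ Real.exp (Real.log T) :=
            Real.exp_le_exp.mpr (by linarith)
        _ = T := Real.exp_log hT0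
    refine (H' V T t₀ h I hV1 hh hh1 hpos e1 e2 c hc hlow G hG1 hG2 hG3).trans ?_
    apply ENNReal.ofReal_le_ofReal
    apply mul_le_mul_of_nonneg_right _ hT0.le
    rw [pow_succ] at hE
    linarith

end MP7ed9c3.Aw
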