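import Pool.Agent.Lib.MP_7ed9c3_nt.Aw.SpecX

/-!
# MP_7ed9c3_nt, part Aw, module EX

The expansion of `(3 - dE)²` as a finite sum of the terms `N^(-it) N'^(it)`.  The index set is the square of
`Option (S × S)`: `none` stands for the constant `3`, the pair `(m, n)` for the term `-⟨v m, v n⟩ m^(-it) n^(it)`.
-/

set_option autoImplicit false

namespace MP7ed9c3.Aw

open NumberField IsDedekindDomain Filter Topology MeasureTheory Metric

/-- the scalar product of the vectors -/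
private noncomputable def EX_ip {ι : Type} [Fintype ι] (v : ℕ → ι → ℂ) (m n : ℕ) : ℂ :=
  ∑ i, v m i * (starRingEnd ℂ) (v n i)

private theorem EX_conj (n : ℕ) (t : ℝ) :
    (starRingEnd ℂ) ((n : ℂ) ^ (-(t * Complex.I))) = (n : ℂ) ^ (t * Complex.I) := by
  have harg : (n : ℂ).arg ≠ Real.pi := by
    rw [Complex.natCast_arg]
    exact Real.pi_ne_zero.symm
  have h := Complex.cpow_conj (n : ℂ) (-(t * Complex.I)) harg
  rw [Complex.conj_natCast] at h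
  rw [← h]
  congr 1
  simp

private theorem EX_dE {ι : Type} [Fintype ι] (S : Finset ℕ) (v : ℕ → ι → ℂ) (t : ℝ) :
    ((dE S v t : ℝ) : ℂ) = ∑ m ∈ S, ∑ n ∈ S, EX_ip v m n *
      ((m : ℂ) ^ (-(t * Complex.I)) * (n : ℂ) ^ (t * Complex.I)) := by
  have h1 : ∀ i : ι, (((‖∑ m ∈ S, v m i * (m : ℂ) ^ (-(t * Complex.I))‖ ^ 2 : ℝ)) : ℂ) =
      ∑ m ∈ S, ∑ n ∈ S, v m i * (starRingEnd ℂ) (v n i) *
        ((m : ℂ) ^ (-(t * Complex.I)) * (n : ℂ) ^ (t * Complex.I)) := by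
    intro i
    rw [Complex.ofReal_pow, ← Complex.mul_conj', map_sum, Finset.sum_mul_sum]
    refine Finset.sum_congr rfl fun m _ => Finset.sum_congr rfl fun n _ => ?_
    rw [map_mul, EX_conj]
    ring
  unfold dE
  rw [Complex.ofReal_sum, Finset.sum_congr rfl fun i _ => h1 i, Finset.sum_comm]
  refine Finset.sum_congr rfl fun m _ => ?_
  rw [Finset.sum_comm]
  refine Finset.sum_congr rfl fun n _ => ?_
  rw [EX_ip, Finset.sum_mul]

private theorem EX_diag {ι : Type} [Fintype ι] (v : ℕ → ι → ℂ) (m : ℕ) :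
    EX_ip v m m = ((uu v m : ℝ) : ℂ) := by
  unfold EX_ip uu
  rw [Complex.ofReal_sum]
  refine Finset.sum_congr rfl fun i _ => ?_
  rw [Complex.ofReal_pow, Complex.mul_conj']

private theorem EX_cs {ι : Type} [Fintype ι] (v : ℕ → ι → ℂ) (m n : ℕ) :
    sp v m n ≤ √(uu v m) * √(uu v n) := by
  unfold sp uu
  calc ‖∑ i, v m i * (starRingEnd ℂ) (v n i)‖ ≤ ∑ i, ‖v m i * (starRingEnd ℂ) (v n i)‖ :=
        norm_sum_le _ _
    _ = ∑ i, ‖v m i‖ * ‖v n i‖ := Finset.sum_congr rfl fun i _ => by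
        rw [norm_mul, Complex.norm_conj]
    _ ≤ √(∑ i, ‖v m i‖ ^ 2) * √(∑ i, ‖v n i‖ ^ 2) :=
        Real.sum_mul_le_sqrt_mul_sqrt _ _ _

private theorem EX_sp {ι : Type} [Fintype ι] (S : Finset ℕ) (v : ℕ → ι → ℂ) (M : ℕ)
    (hS : ∀ m ∈ S, 1 ≤ m ∧ m ≤ M) (h1 : ∑ m ∈ S, uu v m = 1) :
    ∑ m ∈ S, ∑ n ∈ S, sp v m n ≤ M := by
  have hu : ∀ m, 0 ≤ uu v m := fun m => Finset.sum_nonneg fun i _ => sq_nonneg _
  have hc : (S.card : ℝ) ≤ M := by
    have : S ⊆ Finset.Icc 1 M := fun m hm => Finset.mem_Icc.2 (hS m hm)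
    have h2 := Finset.card_le_card this
    rw [Nat.card_Icc] at h2
    exact_mod_cast (by omega : S.card ≤ M)
  have h2 : (∑ m ∈ S, √(uu v m)) ^ 2 ≤ M := by
    have h3 : (∑ m ∈ S, √(uu v m)) ^ 2 ≤ S.card * ∑ m ∈ S, √(uu v m) ^ 2 :=
      sq_sum_le_card_mul_sum_sq
    rw [Finset.sum_congr rfl fun m _ => Real.sq_sqrt (hu m), h1, mul_one] at h3
    exact h3.trans hc
  calc ∑ m ∈ S, ∑ n ∈ S, sp v m n ≤ ∑ m ∈ S, ∑ n ∈ S, √(uu v m) * √(uu v n) :=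
        Finset.sum_le_sum fun m _ => Finset.sum_le_sum fun n _ => EX_cs v m n
    _ = (∑ m ∈ S, √(uu v m)) ^ 2 := by rw [sq, Finset.sum_mul_sum]
    _ ≤ M := h2

/-- the index set of `3 - dE` -/
private abbrev EX_J (S : Finset ℕ) : Type := Option ({m : ℕ // m ∈ S} × {m : ℕ // m ∈ S})

private noncomputable def EX_al {ι : Type} [Fintype ι] (S : Finset ℕ) (v : ℕ → ι → ℂ) :
    EX_J S → ℂ
  | none => 3
  | some p => -EX_ip v p.1.1 p.2.1

private def EX_N (S : Finset ℕ) : EX_J S → ℕ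
  | none => 1
  | some p => p.1.1

private def EX_N' (S : Finset ℕ) : EX_J S → ℕ
  | none => 1
  | some p => p.2.1

/-- the sum over the index set -/
private theorem EX_sum {E : Type} [AddCommMonoid E] (S : Finset ℕ) (f : EX_J S → E)
    (g : ℕ → ℕ → E) (hg : ∀ p : {m : ℕ // m ∈ S} × {m : ℕ // m ∈ S}, f (some p) = g p.1.1 p.2.1) :
    ∑ j, f j = f none + ∑ m ∈ S, ∑ n ∈ S, g m n := by
  rw [Fintype.sum_option, Fintype.sum_prod_type]
  congr 1
  rw [← Finset.sum_coe_sort S (fun m => ∑ n ∈ S, g m n)]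
  refine Finset.sum_congr rfl fun m _ => ?_
  rw [← Finset.sum_coe_sort S (fun n => g m.1 n)]
  exact Finset.sum_congr rfl fun n _ => hg (m, n)

private theorem EX_lin {ι : Type} [Fintype ι] (S : Finset ℕ) (v : ℕ → ι → ℂ) (t : ℝ) :
    ((3 - dE S v t : ℝ) : ℂ) = ∑ j : EX_J S, EX_al S v j *
      ((EX_N S j : ℂ) ^ (-(t * Complex.I)) * (EX_N' S j : ℂ) ^ (t * Complex.I)) := by
  rw [EX_sum S _ (fun m n => -(EX_ip v m n *
      ((m : ℂ) ^ (-(t * Complex.I)) * (n : ℂ) ^ (t * Complex.I))))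
    (fun p => by simp only [EX_al, EX_N, EX_N', neg_mul])]
  simp only [Finset.sum_neg_distrib]
  rw [← EX_dE]
  simp only [EX_al, EX_N, EX_N', Nat.cast_one, Complex.one_cpow, mul_one]
  push_cast
  ring

private theorem EX_mem (S : Finset ℕ) (M : ℕ) (hM : 1 ≤ M) (hS : ∀ m ∈ S, 1 ≤ m ∧ m ≤ M)
    (j : EX_J S) : 1 ≤ EX_N S j ∧ EX_N S j ≤ M ∧ 1 ≤ EX_N' S j ∧ EX_N' S j ≤ M := by
  rcases j with _ | p
  · exact ⟨le_rfl, hM, le_rfl, hM⟩
  · exact ⟨(hS _ p.1.2).1, (hS _ p.1.2).2, (hS _ p.2.2).1, (hS _ p.2.2).2⟩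

private theorem EX_dvd (S : Finset ℕ) (j : EX_J S) (p : ℕ) (hp : p.Prime)
    (h : p ∣ EX_N S j ∨ p ∣ EX_N' S j) : ∃ m ∈ S, p ∣ m := by
  rcases j with _ | q
  · rcases h with h | h
    · exact absurd (Nat.dvd_one.1 h) hp.ne_one
    · exact absurd (Nat.dvd_one.1 h) hp.ne_one
  · rcases h with h | h
    · exact ⟨q.1.1, q.1.2, h⟩
    · exact ⟨q.2.1, q.2.2, h⟩

private theorem EX_norm {ι : Type} [Fintype ι] (S : Finset ℕ) (v : ℕ → ι → ℂ) (M : ℕ)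
    (hS : ∀ m ∈ S, 1 ≤ m ∧ m ≤ M) (h1 : ∑ m ∈ S, uu v m = 1) :
    ∑ j : EX_J S, ‖EX_al S v j‖ ≤ 3 + (M : ℝ) := by
  rw [EX_sum S _ (fun m n => sp v m n) (fun p => by simp only [EX_al, norm_neg]; rfl)]
  have h3 : ‖EX_al S v none‖ = 3 := by
    simp only [EX_al]
    simp
  rw [h3]
  linarith [EX_sp S v M hS h1]

private theorem EX_main {ι : Type} [Fintype ι] (S : Finset ℕ) (v : ℕ → ι → ℂ)
    (h1 : ∑ m ∈ S, uu v m = 1) :
    ‖∑ j : EX_J S, ∑ k : EX_J S, (if EX_N S j * EX_N S k = EX_N' S j * EX_N' S k then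
      EX_al S v j * EX_al S v k else 0)‖ ≤ 3 + quad S v := by
  classical
  have hd : ∑ m ∈ S, ∑ n ∈ S, (if m = n then 3 * -EX_ip v m n else 0) = -3 := by
    have e1 : ∀ m ∈ S, ∑ n ∈ S, (if m = n then 3 * -EX_ip v m n else 0) =
        -3 * ((uu v m : ℝ) : ℂ) := by
      intro m hm
      rw [Finset.sum_ite_eq, if_pos hm, EX_diag]
      ring
    rw [Finset.sum_congr rfl e1, ← Finset.mul_sum, ← Complex.ofReal_sum, h1]
    simp
  have hr : ∀ j : EX_J S, ∑ k : EX_J S, (if EX_N S j * EX_N S k = EX_N' S j * EX_N' S k then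
      EX_al S v j * EX_al S v k else 0) =
      (if EX_N S j = EX_N' S j then EX_al S v j * 3 else 0) +
      ∑ m ∈ S, ∑ n ∈ S, (if EX_N S j * m = EX_N' S j * n then
        EX_al S v j * -EX_ip v m n else 0) := by
    intro j
    rw [EX_sum S _ (fun m n => if EX_N S j * m = EX_N' S j * n then
      EX_al S v j * -EX_ip v m n else 0) (fun p => rfl)]
    congr 1
    simp only [EX_al, EX_N, EX_N', mul_one]
  have hA : ∑ j : EX_J S, (if EX_N S j = EX_N' S j then EX_al S v j * 3 else 0) = 6 := by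
    rw [EX_sum S _ (fun m n => if m = n then 3 * -EX_ip v m n else 0)
      (fun p => by simp only [EX_al, EX_N, EX_N', mul_comm]), hd]
    simp only [EX_al, EX_N, EX_N', if_true]
    norm_num
  have hB : ∑ j : EX_J S, ∑ m ∈ S, ∑ n ∈ S, (if EX_N S j * m = EX_N' S j * n then
        EX_al S v j * -EX_ip v m n else 0) =
      -3 + ∑ m₁ ∈ S, ∑ n₁ ∈ S, ∑ m₂ ∈ S, ∑ n₂ ∈ S, (if m₁ * m₂ = n₁ * n₂ then
        EX_ip v m₁ n₁ * EX_ip v m₂ n₂ else 0) := by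
    rw [EX_sum S _ (fun m₁ n₁ => ∑ m₂ ∈ S, ∑ n₂ ∈ S, (if m₁ * m₂ = n₁ * n₂ then
        EX_ip v m₁ n₁ * EX_ip v m₂ n₂ else 0))
      (fun p => by simp only [EX_al, EX_N, EX_N', neg_mul_neg])]
    congr 1
    rw [← hd]
    simp only [EX_al, EX_N, EX_N', one_mul]
  rw [Finset.sum_congr rfl fun j _ => hr j, Finset.sum_add_distrib, hA, hB]
  have hz : ‖∑ m₁ ∈ S, ∑ n₁ ∈ S, ∑ m₂ ∈ S, ∑ n₂ ∈ S, (if m₁ * m₂ = n₁ * n₂ then
        EX_ip v m₁ n₁ * EX_ip v m₂ n₂ else 0)‖ ≤ quad S v := by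
    have e1 : quad S v = ∑ m₁ ∈ S, ∑ n₁ ∈ S, ∑ m₂ ∈ S, ∑ n₂ ∈ S,
        (if m₁ * m₂ = n₁ * n₂ then sp v m₁ n₁ * sp v m₂ n₂ else 0) := by
      unfold quad
      refine Finset.sum_congr rfl fun m₁ _ => ?_
      rw [Finset.sum_comm]
    rw [e1]
    refine (norm_sum_le _ _).trans <| Finset.sum_le_sum fun m₁ _ =>
      (norm_sum_le _ _).trans <| Finset.sum_le_sum fun n₁ _ =>
        (norm_sum_le _ _).trans <| Finset.sum_le_sum fun m₂ _ =>
          (norm_sum_le _ _).trans <| Finset.sum_le_sum fun n₂ _ => ?_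
    by_cases he : m₁ * m₂ = n₁ * n₂
    · rw [if_pos he, if_pos he, norm_mul]
      exact le_rfl
    · rw [if_neg he, if_neg he, norm_zero]
  generalize (∑ m₁ ∈ S, ∑ n₁ ∈ S, ∑ m₂ ∈ S, ∑ n₂ ∈ S, (if m₁ * m₂ = n₁ * n₂ then
        EX_ip v m₁ n₁ * EX_ip v m₂ n₂ else 0)) = z at hz ⊢
  have e2 : (6 : ℂ) + (-3 + z) = 3 + z := by ring
  rw [e2]
  refine (norm_add_le _ _).trans ?_
  have e3 : ‖(3 : ℂ)‖ = 3 := by simp
  rw [e3]
  linarith

/-- **EX**: the expansion of `(3 - dE)²`. -/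
theorem tEX : S_EX := by
  classical
  intro ι _ S v M hM hS hu
  refine ⟨EX_J S × EX_J S, inferInstance, fun q => EX_al S v q.1 * EX_al S v q.2,
    fun q => EX_N S q.1 * EX_N S q.2, fun q => EX_N' S q.1 * EX_N' S q.2, ?_, ?_, ?_, ?_, ?_⟩
  · intro q
    obtain ⟨a1, a2, a3, a4⟩ := EX_mem S M hM hS q.1
    obtain ⟨b1, b2, b3, b4⟩ := EX_mem S M hM hS q.2
    refine ⟨Nat.mul_pos a1 b1, ?_, Nat.mul_pos a3 b3, ?_⟩
    · rw [sq]
      exact Nat.mul_le_mul a2 b2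
    · rw [sq]
      exact Nat.mul_le_mul a4 b4
  · intro q p hp h
    have h' : p ∣ (EX_N S q.1 * EX_N S q.2) * (EX_N' S q.1 * EX_N' S q.2) := h
    rcases hp.dvd_mul.1 h' with h1 | h1
    · rcases hp.dvd_mul.1 h1 with h2 | h2
      · exact EX_dvd S q.1 p hp (Or.inl h2)
      · exact EX_dvd S q.2 p hp (Or.inl h2)
    · rcases hp.dvd_mul.1 h1 with h2 | h2
      · exact EX_dvd S q.1 p hp (Or.inr h2)
      · exact EX_dvd S q.2 p hp (Or.inr h2)
  · intro t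
    rw [Complex.ofReal_pow, EX_lin, sq, Finset.sum_mul_sum, Fintype.sum_prod_type]
    refine Finset.sum_congr rfl fun j _ => Finset.sum_congr rfl fun k _ => ?_
    rw [Nat.cast_mul, Nat.cast_mul, Complex.natCast_mul_natCast_cpow,
      Complex.natCast_mul_natCast_cpow]
    ring
  · have h0 : 0 ≤ ∑ j : EX_J S, ‖EX_al S v j‖ := Finset.sum_nonneg fun _ _ => norm_nonneg _
    have h3 : ∑ q : EX_J S × EX_J S, ‖EX_al S v q.1 * EX_al S v q.2‖ =
        (∑ j : EX_J S, ‖EX_al S v j‖) ^ 2 := by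
      rw [sq, Finset.sum_mul_sum, Fintype.sum_prod_type]
      exact Finset.sum_congr rfl fun j _ => Finset.sum_congr rfl fun k _ => norm_mul _ _
    rw [h3]
    exact pow_le_pow_left₀ h0 (EX_norm S v M hS hu) 2
  · rw [Fintype.sum_prod_type]
    exact EX_main S v hu

end MP7ed9c3.Aw
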