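import Pool.Agent.Lib.MP_7ed9c3_nt.Aw.SpecX
import Pool.Agent.Lib.MP_7ed9c3_nt.Aw.AllU

/-!
# MP_7ed9c3_nt, part Aw: assembly with exponentially small exceptional sets, uniform in the curve
-/

set_option autoImplicit false

namespace MP7ed9c3.Aw

open NumberField IsDedekindDomain Filter Topology MeasureTheory Metric

/-- **The uniform theorem with exponentially small exceptional sets**, from `S_RedX`. -/
theorem uFinXAll (h5 : S_RedX) (K : Type) [Field K] [NumberField K] :
    WindowsX K (FewBad K) (1 / 2 + 1 / (4 * (Module.finrank ℚ K : ℝ))) ∧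
    ∀ (N : Type) [Field N] [NumberField N] [IsGalois ℚ N] (g : N ≃ₐ[ℚ] N) (k : ℕ),
      Nonempty (K →ₐ[ℚ] N) → Zg.Adm (Zg.perm (K := K) g) k →
      WindowsX K (FewBad K) (1 / 2 + 1 / (2 * (k : ℝ))) := by
  have hn : (1 : ℝ) ≤ Module.finrank ℚ K := by
    exact_mod_cast (Module.finrank_pos : 0 < Module.finrank ℚ K)
  refine ⟨h5 K _ _ ?_ ?_ (uData2 uMany2All uLow uDataAll K), fun N _ _ _ g k hne hA => ?_⟩
  · have : 0 < 1 / (4 * (Module.finrank ℚ K : ℝ)) := by positivity
    linarith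
  · have : 1 / (4 * (Module.finrank ℚ K : ℝ)) ≤ 1 / 2 :=
      one_div_le_one_div_of_le (by norm_num) (by linarith)
    linarith
  · have hk : 1 ≤ k := by
      obtain ⟨j, hj1, hj2, -⟩ := hA (fun _ => 0) (fun _ => rfl)
      omega
    have hkR : (1 : ℝ) ≤ k := by exact_mod_cast hk
    refine h5 K _ _ ?_ ?_ (uData1 uMany1All uLow uDataAll K N g k hne hA)
    · have : 0 < 1 / (2 * (k : ℝ)) := by positivity
      linarith
    · have : 1 / (2 * (k : ℝ)) ≤ 1 / 2 :=
        one_div_le_one_div_of_le (by norm_num) (by linarith)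
      linarith

end MP7ed9c3.Aw
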