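import Pool.Agent.Lib.MP_7ed9c3_nt.Aw.SpecX

/-!
# MP_7ed9c3_nt, part Aw: the numbers in RedX
-/

set_option autoImplicit false

namespace MP7ed9c3.Aw

open NumberField IsDedekindDomain Filter Topology MeasureTheory Metric

/-- The rates for `V` and `2V`. -/
private lemma NumX_rate (V H : ℝ) (hV : 2 ≤ V) (hH : Real.log V ≤ Real.log H) :
    rate V H - 1 ≤ rate (2 * V) H := by
  have hl2 : Real.log 2 ≤ 1 := by
    have := Real.log_two_lt_d9
    linarith
  have hl20 : 0 ≤ Real.log 2 := Real.log_nonneg (by norm_num)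
  have hlV : 0 < Real.log V := Real.log_pos (by linarith)
  have hlH : 0 < Real.log H := lt_of_lt_of_le hlV hH
  have hl : Real.log (2 * V) = Real.log 2 + Real.log V :=
    Real.log_mul (by norm_num) (by linarith)
  have hle : Real.log 2 ≤ Real.log V := Real.log_le_log (by norm_num) hV
  unfold rate
  refine le_min ?_ ?_
  · have h1 : Real.log (Real.log H / Real.log V) - Real.log 2 ≤
        Real.log (Real.log H / Real.log (2 * V)) := by
      rw [← Real.log_div (by positivity) (by norm_num)]
      refine Real.log_le_log (by positivity) ?_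
      rw [div_div]
      refine div_le_div_of_nonneg_left hlH.le (by rw [hl]; positivity) ?_
      rw [hl]
      linarith
    have h2 := min_le_left (Real.log (Real.log H / Real.log V)) (Real.log V)
    linarith
  · have h2 := min_le_right (Real.log (Real.log H / Real.log V)) (Real.log V)
    rw [hl]
    linarith

/-- Two elementary properties of the rate. -/
private lemma NumX_le (V H : ℝ) (hV : 2 ≤ V) (hH : V ≤ H) :
    0 ≤ rate V H ∧ rate V H ≤ Real.log V := by
  have hlV : 0 < Real.log V := Real.log_pos (by linarith)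
  have hle : Real.log V ≤ Real.log H := Real.log_le_log (by linarith) hH
  unfold rate
  refine ⟨le_min ?_ hlV.le, min_le_right _ _⟩
  exact Real.log_nonneg ((one_le_div hlV).mpr hle)

private lemma NumX_small (V H : ℝ) (hV : 2 ≤ V) (hH : V ≤ H) (hH2 : H < 2 * V) :
    rate V H ≤ 1 := by
  have hlV : 0 < Real.log V := Real.log_pos (by linarith)
  have hle : Real.log V ≤ Real.log H := Real.log_le_log (by linarith) hH
  have hl2 : Real.log 2 ≤ 1 := by
    have := Real.log_two_lt_d9
    linarith
  have hlH : Real.log H ≤ 2 * Real.log V := by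
    have h1 : Real.log H ≤ Real.log (2 * V) := Real.log_le_log (by linarith) hH2.le
    have h2 : Real.log (2 * V) = Real.log 2 + Real.log V :=
      Real.log_mul (by norm_num) (by linarith)
    have h3 : Real.log 2 ≤ Real.log V := Real.log_le_log (by norm_num) hV
    linarith
  unfold rate
  refine (min_le_left _ _).trans ?_
  refine le_trans (Real.log_le_log ?_ ((div_le_iff₀ hlV).mpr hlH)) hl2
  exact div_pos (lt_of_lt_of_le hlV hle) hlV

private lemma NumX_half : Real.exp (1 / 2) ≤ 2 := by
  have h1 : Real.exp (1 / 2) * Real.exp (1 / 2) = Real.exp 1 := by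
    rw [← Real.exp_add]
    norm_num
  have h2 := Real.exp_one_lt_d9
  have h3 := Real.exp_pos (1 / 2)
  nlinarith

/-- **NumX**: the numbers in `S_RedX`. -/
theorem tNumX : S_NumX := by
  intro A c₁ h N₀ hA hc₁ hc₁1 hh
  obtain ⟨h', hh'e⟩ : ∃ h' : ℝ, h' = min h 1 := ⟨_, rfl⟩
  have hh' : 0 < h' := by
    rw [hh'e]
    exact lt_min hh one_pos
  have hh1 : h' ≤ 1 := by
    rw [hh'e]
    exact min_le_right _ _
  rw [← hh'e]
  have hN0 : (0 : ℝ) ≤ (N₀ : ℝ) := Nat.cast_nonneg _
  have hch : c₁ * h' ≤ 1 := by nlinarith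
  have hch0 : 0 < c₁ * h' := mul_pos hc₁ hh'
  obtain ⟨c, hc⟩ : ∃ c : ℝ, c = c₁ * h' / (2 * (1 + N₀)) := ⟨_, rfl⟩
  have hc0 : 0 < c := by
    rw [hc]
    positivity
  have hc2 : c ≤ 1 / 2 := by
    rw [hc, div_le_iff₀ (by positivity)]
    linarith
  refine ⟨4 * A + 4, c, max 2 (h ^ 2), hc0, le_max_left _ _, ?_⟩
  intro V H N hV hH hN
  have hV2 : 2 ≤ V := (le_max_left _ _).trans hV
  have hVh : h ^ 2 ≤ V := (le_max_right _ _).trans hV
  have hV0 : 0 < V := by linarith
  have hH0 : 0 < H := by linarith
  have hN1 : (1 : ℝ) ≤ (N : ℝ) := by exact_mod_cast hN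
  have hN00 : (0 : ℝ) < (N : ℝ) := by linarith
  obtain ⟨hr0, hrV⟩ := NumX_le V H hV2 hH
  have hlle : Real.log V ≤ Real.log H := Real.log_le_log hV0 hH
  have hcr : c * rate V H / N ≤ c * rate V H := div_le_self (mul_nonneg hc0.le hr0) hN1
  have hcr2 : c * rate V H ≤ 1 / 2 * rate V H := mul_le_mul_of_nonneg_right hc2 hr0
  constructor
  · intro hlt
    have hr1 := NumX_small V H hV2 hH hlt
    have h2 : 1 - c * rate V H / N ≤ Real.exp (-(c * rate V H / N)) :=
      Real.one_sub_le_exp_neg _
    have h3 : (1 : ℝ) / 2 ≤ Real.exp (-(c * rate V H / N)) := by linarith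
    calc (2 : ℝ) ≤ (4 * A + 4) * (1 / 2) := by linarith
      _ ≤ (4 * A + 4) * Real.exp (-(c * rate V H / N)) :=
        mul_le_mul_of_nonneg_left h3 (by linarith)
  · intro _
    have hR := NumX_rate V H hV2 hlle
    obtain ⟨k, hk⟩ : ∃ k : ℝ, k = c₁ * (h' / (2 * ((N + N₀ : ℕ) : ℝ))) := ⟨_, rfl⟩
    rw [← hk]
    have hNN : (1 : ℝ) ≤ ((N + N₀ : ℕ) : ℝ) := by
      push_cast
      linarith
    have hk' : k = c₁ * h' / (2 * ((N + N₀ : ℕ) : ℝ)) := by
      rw [hk, mul_div_assoc]
    have hk0 : 0 ≤ k := by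
      rw [hk']
      positivity
    have hk2 : k ≤ 1 / 2 := by
      rw [hk', div_le_iff₀ (by positivity)]
      linarith
    have hkc : c / N ≤ k := by
      rw [hc, hk', div_div]
      refine div_le_div_of_nonneg_left hch0.le (by positivity) ?_
      push_cast
      nlinarith
    have h4 : c * rate V H / N - 1 / 2 ≤ k * rate (2 * V) H := by
      have e1 : k * (rate V H - 1) ≤ k * rate (2 * V) H := mul_le_mul_of_nonneg_left hR hk0
      have e2 : c / N * rate V H ≤ k * rate V H := mul_le_mul_of_nonneg_right hkc hr0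
      have e3 : c * rate V H / N = c / N * rate V H := by ring
      rw [e3]
      linarith
    have h5 : Real.exp (-(k * rate (2 * V) H)) ≤ 2 * Real.exp (-(c * rate V H / N)) := by
      calc Real.exp (-(k * rate (2 * V) H)) ≤ Real.exp (1 / 2 + -(c * rate V H / N)) :=
            Real.exp_le_exp.mpr (by linarith)
        _ = Real.exp (1 / 2) * Real.exp (-(c * rate V H / N)) := Real.exp_add _ _
        _ ≤ 2 * Real.exp (-(c * rate V H / N)) :=
            mul_le_mul_of_nonneg_right NumX_half (Real.exp_pos _).le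
    have h6 : h ≤ Real.exp (-(c * rate V H / N)) * H := by
      have e1 : -(1 / 2 * Real.log V) ≤ -(c * rate V H / N) := by linarith
      have e2 : 2 * Real.log h ≤ Real.log V := by
        have := Real.log_le_log (by positivity) hVh
        rw [Real.log_pow] at this
        exact_mod_cast this
      calc h = Real.exp (Real.log h) := (Real.exp_log hh).symm
        _ ≤ Real.exp (-(1 / 2 * Real.log V) + Real.log V) := Real.exp_le_exp.mpr (by linarith)
        _ = Real.exp (-(1 / 2 * Real.log V)) * V := by rw [Real.exp_add, Real.exp_log hV0]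
        _ ≤ Real.exp (-(c * rate V H / N)) * H :=
            mul_le_mul (Real.exp_le_exp.mpr e1) hH hV0.le (Real.exp_pos _).le
    have h7 : 2 * (A * Real.exp (-(k * rate (2 * V) H))) * H ≤
        2 * (A * (2 * Real.exp (-(c * rate V H / N)))) * H := by
      refine mul_le_mul_of_nonneg_right ?_ hH0.le
      refine mul_le_mul_of_nonneg_left ?_ (by norm_num)
      exact mul_le_mul_of_nonneg_left h5 (by linarith)
    have h8 : 0 ≤ Real.exp (-(c * rate V H / N)) * H := by positivity
    calc 2 * (A * Real.exp (-(k * rate (2 * V) H))) * H + 2 * h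
        ≤ 2 * (A * (2 * Real.exp (-(c * rate V H / N)))) * H +
          4 * (Real.exp (-(c * rate V H / N)) * H) := by linarith
      _ = (4 * A + 4) * Real.exp (-(c * rate V H / N)) * H := by ring

end MP7ed9c3.Aw
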