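import Pool.Agent.Lib.MP_7ed9c3_nt.Aw.SpecX

/-!
# MP_7ed9c3_nt, part Aw: the mean value of a product of sums with coprime supports
-/

set_option autoImplicit false

namespace MP7ed9c3.Aw

open NumberField IsDedekindDomain Filter Topology MeasureTheory Metric

private theorem PM_cpow {ι : Type} (s : Finset ι) (f : ι → ℕ) (z : ℂ) :
    ∏ i ∈ s, ((f i : ℂ) ^ z) = ((∏ i ∈ s, f i : ℕ) : ℂ) ^ z := by
  classical
  induction s using Finset.induction_on with
  | empty => simp
  | insert i s hi ih =>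
    rw [Finset.prod_insert hi, Finset.prod_insert hi, ih, Nat.cast_mul,
      Complex.natCast_mul_natCast_cpow]

/-- coprime supports: the factors divide each other if the products are equal -/
private theorem PM_dvd {I : ℕ} (f g : Fin I → ℕ)
    (hc : ∀ i i' : Fin I, i ≠ i' → (f i * g i).Coprime (f i' * g i'))
    (h : ∏ i, f i = ∏ i, g i) (i : Fin I) : f i ∣ g i := by
  have h1 : f i ∣ ∏ i, f i := Finset.dvd_prod_of_mem f (Finset.mem_univ i)
  rw [h, ← Finset.mul_prod_erase Finset.univ g (Finset.mem_univ i)] at h1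
  refine Nat.Coprime.dvd_of_dvd_mul_right ?_ h1
  refine Nat.Coprime.prod_right fun i' hi' => ?_
  have h2 := hc i i' (Finset.ne_of_mem_erase hi').symm
  exact h2.coprime_mul_right.coprime_mul_left_right

private theorem PM_cont (A : ℂ) (m n : ℕ) (hm : 1 ≤ m) (hn : 1 ≤ n) :
    Continuous fun t : ℝ => A * ((m : ℂ) ^ (-(t * Complex.I)) * (n : ℂ) ^ (t * Complex.I)) := by
  have hm' : (m : ℂ) ≠ 0 := by
    exact_mod_cast (Nat.pos_iff_ne_zero.1 hm)
  have hn' : (n : ℂ) ≠ 0 := by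
    exact_mod_cast (Nat.pos_iff_ne_zero.1 hn)
  have c1 : Continuous fun t : ℝ => -((t : ℂ) * Complex.I) := by fun_prop
  have c2 : Continuous fun t : ℝ => (t : ℂ) * Complex.I := by fun_prop
  exact continuous_const.mul ((c1.const_cpow (Or.inl hm')).mul (c2.const_cpow (Or.inl hn')))

/-- **PM**: the mean value of a product of sums with coprime supports. -/
theorem tPM (h1 : S_Osc) : S_PM := by
  intro I J _ al N N' Q a b hab hN hc
  have hN1 : ∀ p : (∀ i, J i), 1 ≤ ∏ i, N i (p i) := fun p =>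
    Nat.succ_le_of_lt (Finset.prod_pos fun i _ => (hN i (p i)).1)
  have hN1' : ∀ p : (∀ i, J i), 1 ≤ ∏ i, N' i (p i) := fun p =>
    Nat.succ_le_of_lt (Finset.prod_pos fun i _ => (hN i (p i)).2.2.1)
  have hNQ : ∀ p : (∀ i, J i), ∏ i, N i (p i) ≤ ∏ i, Q i := fun p =>
    Finset.prod_le_prod' fun i _ => (hN i (p i)).2.1
  have hNQ' : ∀ p : (∀ i, J i), ∏ i, N' i (p i) ≤ ∏ i, Q i := fun p =>
    Finset.prod_le_prod' fun i _ => (hN i (p i)).2.2.2
  have e1 : ∀ t : ℝ, ∏ i, ∑ j, al i j *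
      ((N i j : ℂ) ^ (-(t * Complex.I)) * (N' i j : ℂ) ^ (t * Complex.I)) =
      ∑ p : (∀ i, J i), (∏ i, al i (p i)) *
        (((∏ i, N i (p i) : ℕ) : ℂ) ^ (-(t * Complex.I)) *
          ((∏ i, N' i (p i) : ℕ) : ℂ) ^ (t * Complex.I)) := by
    intro t
    rw [Fintype.prod_sum]
    refine Finset.sum_congr rfl fun p _ => ?_
    rw [Finset.prod_mul_distrib, Finset.prod_mul_distrib, PM_cpow, PM_cpow]
  have e2 : ∏ i, ∑ j, (if N i j = N' i j then al i j else 0) =
      ∑ p : (∀ i, J i), (if ∏ i, N i (p i) = ∏ i, N' i (p i) then ∏ i, al i (p i) else 0) := by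
    rw [Fintype.prod_sum]
    refine Finset.sum_congr rfl fun p _ => ?_
    by_cases h : ∏ i, N i (p i) = ∏ i, N' i (p i)
    · rw [if_pos h]
      refine Finset.prod_congr rfl fun i _ => ?_
      rw [if_pos]
      refine Nat.dvd_antisymm
        (PM_dvd (fun i => N i (p i)) (fun i => N' i (p i))
          (fun i i' hi => hc i i' hi (p i) (p i')) h i)
        (PM_dvd (fun i => N' i (p i)) (fun i => N i (p i)) (fun i i' hi => ?_) h.symm i)
      have h2 := hc i i' hi (p i) (p i')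
      rw [mul_comm (N i (p i)), mul_comm (N i' (p i'))] at h2
      exact h2
    · rw [if_neg h]
      have h2 : ∃ i, N i (p i) ≠ N' i (p i) := by
        by_contra hcon
        refine h (Finset.prod_congr rfl fun i _ => ?_)
        by_contra h3
        exact hcon ⟨i, h3⟩
      obtain ⟨i, hi⟩ := h2
      exact Finset.prod_eq_zero (Finset.mem_univ i) (if_neg hi)
  have e3 : ∏ i, ∑ j, ‖al i j‖ = ∑ p : (∀ i, J i), ‖∏ i, al i (p i)‖ := by
    rw [Fintype.prod_sum]
    exact Finset.sum_congr rfl fun p _ => (norm_prod _ _).symm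
  have e4 : (∫ t in a..b, ∏ i, ∑ j, al i j *
      ((N i j : ℂ) ^ (-(t * Complex.I)) * (N' i j : ℂ) ^ (t * Complex.I))) =
      ∑ p : (∀ i, J i), (∏ i, al i (p i)) *
        ∫ t in a..b, (((∏ i, N i (p i) : ℕ) : ℂ) ^ (-(t * Complex.I)) *
          ((∏ i, N' i (p i) : ℕ) : ℂ) ^ (t * Complex.I)) := by
    simp only [e1]
    rw [intervalIntegral.integral_finsetSum fun p _ =>
      (PM_cont _ _ _ (hN1 p) (hN1' p)).intervalIntegrable a b]
    exact Finset.sum_congr rfl fun p _ => intervalIntegral.integral_const_mul _ _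
  rw [e4, e2, e3, Finset.mul_sum, ← Finset.sum_sub_distrib, Finset.mul_sum]
  refine (norm_sum_le _ _).trans (Finset.sum_le_sum fun p _ => ?_)
  by_cases h : ∏ i, N i (p i) = ∏ i, N' i (p i)
  · rw [if_pos h, ← h]
    have hne : ((∏ i, N i (p i) : ℕ) : ℂ) ≠ 0 := by
      exact_mod_cast (Nat.pos_iff_ne_zero.1 (hN1 p))
    have e5 : ∀ t : ℝ, ((∏ i, N i (p i) : ℕ) : ℂ) ^ (-(t * Complex.I)) *
        ((∏ i, N i (p i) : ℕ) : ℂ) ^ (t * Complex.I) = 1 := by
      intro t
      rw [← Complex.cpow_add _ _ hne, neg_add_cancel, Complex.cpow_zero]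
    simp only [e5]
    rw [intervalIntegral.integral_const]
    have e6 : (∏ i, al i (p i)) * ((b - a) • (1 : ℂ)) -
        ((b - a : ℝ) : ℂ) * ∏ i, al i (p i) = 0 := by
      rw [Complex.real_smul]
      ring
    rw [e6, norm_zero]
    positivity
  · rw [if_neg h, mul_zero, sub_zero, norm_mul]
    have e6 := h1 _ _ (∏ i, Q i) a b (hN1 p) (hN1' p) (hNQ p) (hNQ' p) h
    have e7 : ((∏ i, Q i : ℕ) : ℝ) = ∏ i, (Q i : ℝ) := Nat.cast_prod _ _
    rw [e7] at e6
    calc _ ≤ ‖∏ i, al i (p i)‖ * (2 * ∏ i, (Q i : ℝ)) :=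
          mul_le_mul_of_nonneg_left e6 (norm_nonneg _)
      _ = _ := by ring

end MP7ed9c3.Aw
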