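import Pool.Agent.Lib.MP_7ed9c3_nt.Aw.SpecX

/-!
# MP_7ed9c3_nt, part Aw: the blocks, by induction, with explicit exponents (block sizes at least 1)
-/

set_option autoImplicit false

namespace MP7ed9c3.Aw

open NumberField IsDedekindDomain Filter Topology MeasureTheory Metric

theorem tScaleX (h1 : S_StepX) : S_ScaleX := by
  intro C η B k hC hη hB
  obtain ⟨D, V₀, hD, hV₀, hs⟩ := h1 C η B k hC hη hB
  refine ⟨D, V₀, hD, hV₀, ?_⟩
  intro h σ₁ b r₀ R R' R₂ R₁ δ hh hb hR hG V hV hV8 c hc hlow I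
  have hδ0 : 0 < δ := hG.pos
  have hδ1 : δ ≤ 1 := by
    have := hG.le
    linarith
  have hDδ : 1 ≤ D / δ := by
    rw [le_div_iff₀ hδ0]
    linarith
  induction I with
  | zero =>
    refine ⟨fun _ => 1, fun _ => 0, rfl, ?_, ?_, ?_, ?_⟩
    · intro i hi; omega
    · rw [pow_zero, Real.rpow_one]
      simpa using hV₀.trans hV
    · intro i hi; omega
    · intro i hi; omega
  | succ I ih =>
    obtain ⟨M, nn, m0, mlt, mI, mr, mv⟩ := ih
    have hκ : 1 ≤ (D / δ) ^ I := one_le_pow₀ hDδ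
    have m1 : ∀ i, i ≤ I → 1 ≤ M i := by
      intro i
      induction i with
      | zero => intro _; rw [m0]
      | succ i ihi =>
        intro hi
        exact (ihi (by omega)).trans (mlt i (by omega)).le
    obtain ⟨m₁, n₀, q1, q2, q3, q4⟩ := hs h σ₁ b r₀ R R' R₂ R₁ δ hh hb hR hG V hV hV8 c hc hlow
      ((D / δ) ^ I) (M I) hκ (m1 I le_rfl) mI
    obtain ⟨M', hM'⟩ : ∃ M' : ℕ → ℕ, M' = fun i => if i ≤ I then M i else m₁ := ⟨_, rfl⟩
    obtain ⟨nn', hnn'⟩ : ∃ nn' : ℕ → ℕ, nn' = fun i => if i < I then nn i else n₀ := ⟨_, rfl⟩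
    have e1 : ∀ i, i ≤ I → M' i = M i := fun i hi => by rw [hM']; exact if_pos hi
    have e2 : M' (I + 1) = m₁ := by rw [hM']; exact if_neg (by omega)
    have e3 : ∀ i, i < I → nn' i = nn i := fun i hi => by rw [hnn']; exact if_pos hi
    have e4 : nn' I = n₀ := by rw [hnn']; exact if_neg (by omega)
    refine ⟨M', nn', ?_, ?_, ?_, ?_, ?_⟩
    · rw [e1 0 (by omega), m0]
    · intro i hi
      rcases Nat.lt_succ_iff_lt_or_eq.mp hi with hi' | hi'
      · rw [e1 i (by omega), e1 (i + 1) (by omega)]; exact mlt i hi'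
      · subst hi'; rw [e1 i le_rfl, e2]; exact q1
    · rw [e2, pow_succ, mul_comm]; exact q2
    · intro i hi
      rcases Nat.lt_succ_iff_lt_or_eq.mp hi with hi' | hi'
      · rw [e1 (i + 1) (by omega), e3 i hi']; exact mr i hi'
      · subst hi'; rw [e2, e4]; exact q3
    · intro i hi
      rcases Nat.lt_succ_iff_lt_or_eq.mp hi with hi' | hi'
      · rw [e1 i (by omega), e1 (i + 1) (by omega), e3 i hi']; exact mv i hi'
      · subst hi'; rw [e1 i le_rfl, e2, e4]; exact q4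

end MP7ed9c3.Aw
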