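import Pool.Agent.Lib.MP_7ed9c3_nt.Aw.SpecX

/-!
# MP_7ed9c3_nt, part Aw, module StepX: the next block of coefficients, primes larger than `m₀`
-/

set_option autoImplicit false

namespace MP7ed9c3.Aw

open NumberField IsDedekindDomain Filter Topology MeasureTheory Metric

/-- the bounds for `(1/r₀)^(n₀)` -/
private theorem StepX_pow (r₀ δ Q : ℝ) (hδ : 0 < δ) (hδ2 : δ ≤ 1 / 2) (h0 : 1 / 2 ≤ r₀)
    (h1 : r₀ ≤ 1 - δ) (hQ : 1 ≤ Q) :
    (1 / r₀) ^ ⌈Real.log (2 * Q / δ) / δ⌉₊ ≤ 2 * (2 * Q / δ) ^ (1 / δ) ∧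
    Q ≤ (1 / r₀) ^ ⌈Real.log (2 * Q / δ) / δ⌉₊ := by
  have hr0 : 0 < r₀ := by linarith
  obtain ⟨U, hU⟩ : ∃ U, U = 2 * Q / δ := ⟨_, rfl⟩
  have hUQ : Q ≤ U := by
    rw [hU, le_div_iff₀ hδ]
    nlinarith
  have hU1 : 1 ≤ U := hQ.trans hUQ
  have hlU : 0 ≤ Real.log U := Real.log_nonneg hU1
  rw [← hU]
  obtain ⟨n, hn⟩ : ∃ n, n = ⌈Real.log U / δ⌉₊ := ⟨_, rfl⟩
  have hn1 : (n : ℝ) < Real.log U / δ + 1 := by
    rw [hn]
    exact Nat.ceil_lt_add_one (by positivity)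
  have hn2 : Real.log U / δ ≤ n := by
    rw [hn]
    exact Nat.le_ceil _
  rw [← hn]
  constructor
  · have e1 : 1 / r₀ ≤ 2 := by
      rw [div_le_iff₀ hr0]
      linarith
    have e2 : (2 : ℝ) ≤ Real.exp 1 := by
      have := Real.add_one_le_exp (1 : ℝ)
      linarith
    calc (1 / r₀) ^ n ≤ 2 ^ n := pow_le_pow_left₀ (by positivity) e1 n
      _ = (2 : ℝ) ^ (n : ℝ) := (Real.rpow_natCast 2 n).symm
      _ ≤ (2 : ℝ) ^ (Real.log U / δ + 1) :=
          Real.rpow_le_rpow_of_exponent_le (by norm_num) hn1.le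
      _ = (2 : ℝ) ^ (Real.log U / δ) * 2 := by
          rw [Real.rpow_add (by norm_num), Real.rpow_one]
      _ ≤ (Real.exp 1) ^ (Real.log U / δ) * 2 :=
          mul_le_mul_of_nonneg_right
            (Real.rpow_le_rpow (by norm_num) e2 (by positivity)) (by norm_num)
      _ = 2 * U ^ (1 / δ) := by

          rw [Real.exp_one_rpow, Real.rpow_def_of_pos (by linarith : 0 < U), mul_comm]
          congr 2
          ring
  · have e1 : Real.exp δ ≤ 1 / r₀ := by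
      rw [le_div_iff₀ hr0]
      have h2 : r₀ ≤ Real.exp (-δ) := by
        have := Real.add_one_le_exp (-δ)
        linarith
      calc Real.exp δ * r₀ ≤ Real.exp δ * Real.exp (-δ) :=
            mul_le_mul_of_nonneg_left h2 (Real.exp_pos _).le
        _ = 1 := by rw [← Real.exp_add, add_neg_cancel, Real.exp_zero]
    calc Q ≤ U := hUQ
      _ = Real.exp (Real.log U) := (Real.exp_log (by linarith)).symm
      _ ≤ Real.exp (n * δ) := by
          rw [Real.exp_le_exp]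
          rwa [div_le_iff₀ hδ] at hn2
      _ = Real.exp δ ^ n := Real.exp_nat_mul δ n
      _ ≤ (1 / r₀) ^ n := pow_le_pow_left₀ (Real.exp_pos _).le e1 n

/-- the last inequality -/
private theorem StepX_num (c₀ C W : ℝ) (hc₀ : 0 < c₀) (hW1 : 1 ≤ W) (h1 : 2 / c₀ ≤ W)
    (h2 : 2 * C ^ 2 ≤ W) : W ^ 4 ≤ c₀ * (W ^ 6 - C ^ 2 * W ^ 2) := by
  have h3 : 2 ≤ c₀ * W := by
    rw [div_le_iff₀ hc₀] at h1
    linarith
  have h4 : W ≤ W ^ 4 := by
    calc W = W ^ 1 := (pow_one W).symm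
      _ ≤ W ^ 4 := pow_le_pow_right₀ hW1 (by norm_num)
  have h45 : W ^ 4 ≤ W ^ 5 := pow_le_pow_right₀ hW1 (by norm_num)
  have h5 : 2 * W ^ 5 ≤ c₀ * W ^ 6 := by
    calc 2 * W ^ 5 ≤ c₀ * W * W ^ 5 := mul_le_mul_of_nonneg_right h3 (by positivity)
      _ = c₀ * W ^ 6 := by ring
  have h6 : 2 * (c₀ * (C ^ 2 * W ^ 2)) ≤ c₀ * W ^ 6 := by
    calc 2 * (c₀ * (C ^ 2 * W ^ 2)) = c₀ * (2 * C ^ 2 * W ^ 2) := by ring
      _ ≤ c₀ * (W ^ 4 * W ^ 2) := by
          refine mul_le_mul_of_nonneg_left ?_ hc₀.le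
          exact mul_le_mul_of_nonneg_right (h2.trans h4) (by positivity)
      _ = c₀ * W ^ 6 := by ring
  have h7 : c₀ * (W ^ 6 - C ^ 2 * W ^ 2) = c₀ * W ^ 6 - c₀ * (C ^ 2 * W ^ 2) := by ring
  rw [h7]
  linarith

/-- the number of the powers `p ^ j ≤ Q` with `p ≤ m₀` -/
private theorem StepX_card (T : Finset ℕ) (m₀ Q : ℕ)
    (hT : ∀ m ∈ T, IsPrimePow m ∧ m ≤ Q ∧ m.minFac ≤ m₀) : T.card ≤ m₀ * Nat.log 2 Q := by
  have h1 : T ⊆ (Finset.Icc 1 m₀ ×ˢ Finset.Icc 1 (Nat.log 2 Q)).image (fun x => x.1 ^ x.2) := by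
    intro m hm
    obtain ⟨hpp, hmQ, hmin⟩ := hT m hm
    obtain ⟨p, j, hp, hj, hpj⟩ := (isPrimePow_nat_iff m).1 hpp
    have hmf : m.minFac = p := by
      rw [← hpj]
      exact Nat.Prime.pow_minFac hp (by omega)
    rw [Finset.mem_image]
    refine ⟨(p, j), ?_, hpj⟩
    rw [Finset.mem_product, Finset.mem_Icc, Finset.mem_Icc]
    refine ⟨⟨hp.one_lt.le, by rw [← hmf]; exact hmin⟩, hj, ?_⟩
    refine Nat.le_log_of_pow_le (by norm_num) ?_
    calc 2 ^ j ≤ p ^ j := Nat.pow_le_pow_left hp.two_le j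
      _ = m := hpj
      _ ≤ Q := hmQ
  calc T.card ≤ _ := Finset.card_le_card h1
    _ ≤ _ := Finset.card_image_le
    _ = m₀ * Nat.log 2 Q := by
        rw [Finset.card_product, Nat.card_Icc, Nat.card_Icc]
        simp

/-- the size of the logarithm -/
private theorem StepX_log (W E : ℝ) (P k : ℕ) (hW : 1 ≤ W) (hP : 1 ≤ P) (hE : 0 ≤ E)
    (hPW : (P : ℝ) ≤ W ^ E) (hWE : (4 * (k * E)) ^ 2 ≤ W) : (Nat.log 2 (P ^ k) : ℝ) ≤ W := by
  have hP1 : (1 : ℝ) ≤ P := by exact_mod_cast hP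
  have hlW : 0 ≤ Real.log W := Real.log_nonneg hW
  have hk0 : (0 : ℝ) ≤ k := Nat.cast_nonneg k
  have h1 : Real.log P ≤ E * Real.log W := by
    calc Real.log P ≤ Real.log (W ^ E) := Real.log_le_log (by linarith) hPW
      _ = E * Real.log W := Real.log_rpow (by linarith) E
  have h2 : (Nat.log 2 (P ^ k) : ℝ) * Real.log 2 ≤ k * Real.log P := by
    have h3 : (2 : ℝ) ^ (Nat.log 2 (P ^ k)) ≤ (P : ℝ) ^ k := by
      have h4 := Nat.pow_log_le_self 2 (x := P ^ k) (pow_pos (by omega) k).ne'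
      exact_mod_cast h4
    have h5 := Real.log_le_log (by positivity) h3
    rwa [Real.log_pow, Real.log_pow] at h5
  have hl2 : 1 / 2 < Real.log 2 := by
    have := Real.log_two_gt_d9
    linarith
  have hn0 : (0 : ℝ) ≤ (Nat.log 2 (P ^ k) : ℝ) := Nat.cast_nonneg _
  have h6 : (Nat.log 2 (P ^ k) : ℝ) ≤ 2 * (k * (E * Real.log W)) := by
    have h7 : (k : ℝ) * Real.log P ≤ k * (E * Real.log W) := mul_le_mul_of_nonneg_left h1 hk0
    have h8 : (Nat.log 2 (P ^ k) : ℝ) * (1 / 2) ≤ (Nat.log 2 (P ^ k) : ℝ) * Real.log 2 :=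
      mul_le_mul_of_nonneg_left hl2.le hn0
    linarith
  have hs : Real.log W ≤ 2 * √W := by
    have h9 : Real.log (√W) ≤ √W := by
      have := Real.log_le_sub_one_of_pos (Real.sqrt_pos.2 (by linarith : 0 < W))
      linarith
    have h10 : Real.log W = 2 * Real.log (√W) := by
      rw [Real.log_sqrt (by linarith)]
      ring
    rw [h10]
    linarith
  have hkE : 0 ≤ (k : ℝ) * E := mul_nonneg hk0 hE
  have hsq : 4 * (k * E) ≤ √W := by
    exact Real.le_sqrt_of_sq_le hWE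
  calc (Nat.log 2 (P ^ k) : ℝ) ≤ 2 * (k * (E * Real.log W)) := h6
    _ = 2 * (k * E) * Real.log W := by ring
    _ ≤ 2 * (k * E) * (2 * √W) := mul_le_mul_of_nonneg_left hs (by positivity)
    _ = 4 * (k * E) * √W := by ring
    _ ≤ √W * √W := mul_le_mul_of_nonneg_right hsq (Real.sqrt_nonneg W)
    _ = W := Real.mul_self_sqrt (by linarith)

/-- the lower bound for the mean energy -/
private theorem StepX_low (h R' C x c₀ : ℝ) (c : ℕ → ℂ) (S : Finset ℕ) (m₀ m₁ n₀ Q : ℕ) (A : ℝ)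
    (hc : Coefs c C) (hC : 0 ≤ C) (hx : 1 / 2 < x) (hc₀ : 0 ≤ c₀)
    (hS : ∀ m ∈ S, 1 ≤ m ∧ m ≤ Q) (hQ : Q ≤ m₁)
    (hG : ∀ m ∈ S, c₀ * (m : ℝ) ^ (-(2 * x)) ≤
      ∑ n ∈ Finset.range n₀, R' ^ (2 * n) * ‖gT h n m‖ ^ 2)
    (hA : A ≤ ∑ m ∈ S, ‖c m‖ ^ 2 * (m : ℝ) ^ (-(2 * x))) :
    c₀ * (A - C ^ 2 * (m₀ * Nat.log 2 Q)) ≤ vS h R' c (blk m₀ m₁) n₀ := by
  have hw : ∀ m, 0 ≤ wS h R' c n₀ m := by
    intro m
    unfold wS
    refine mul_nonneg (by positivity) (Finset.sum_nonneg fun n _ => ?_)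
    have : 0 ≤ R' ^ (2 * n) := by
      rw [pow_mul]
      positivity
    positivity
  -- the elements with a small prime factor
  have hsmall : ∑ m ∈ S.filter (fun m => ¬ m₀ < m.minFac), ‖c m‖ ^ 2 * (m : ℝ) ^ (-(2 * x)) ≤
      C ^ 2 * (m₀ * Nat.log 2 Q) := by
    calc ∑ m ∈ S.filter (fun m => ¬ m₀ < m.minFac), ‖c m‖ ^ 2 * (m : ℝ) ^ (-(2 * x))
        = ∑ m ∈ (S.filter (fun m => ¬ m₀ < m.minFac)).filter (fun m => IsPrimePow m),
            ‖c m‖ ^ 2 * (m : ℝ) ^ (-(2 * x)) := by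
          symm
          refine Finset.sum_subset (Finset.filter_subset _ _) ?_
          intro m hm hm2
          have h1 : ¬ IsPrimePow m := fun h => hm2 (Finset.mem_filter.2 ⟨hm, h⟩)
          rw [hc.1 m h1]
          simp
      _ ≤ ∑ _m ∈ (S.filter (fun m => ¬ m₀ < m.minFac)).filter (fun m => IsPrimePow m), C ^ 2 := by
          refine Finset.sum_le_sum fun m hm => ?_
          have hmS : m ∈ S := (Finset.mem_filter.1 (Finset.mem_filter.1 hm).1).1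
          have hm1 : 1 ≤ m := (hS m hmS).1
          have hm1' : (1 : ℝ) ≤ m := by exact_mod_cast hm1
          have h1 : ‖c m‖ ^ 2 ≤ C ^ 2 * m := by
            calc ‖c m‖ ^ 2 ≤ (C * √m) ^ 2 := pow_le_pow_left₀ (norm_nonneg _) (hc.2 m) 2
              _ = C ^ 2 * m := by rw [mul_pow, Real.sq_sqrt (by linarith)]
          have h2 : (m : ℝ) * (m : ℝ) ^ (-(2 * x)) ≤ 1 := by
            have h3 : (m : ℝ) * (m : ℝ) ^ (-(2 * x)) = (m : ℝ) ^ (1 + -(2 * x)) := by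
              rw [Real.rpow_add (by linarith), Real.rpow_one]
            rw [h3]
            exact Real.rpow_le_one_of_one_le_of_nonpos hm1' (by linarith)
          calc ‖c m‖ ^ 2 * (m : ℝ) ^ (-(2 * x)) ≤ C ^ 2 * m * (m : ℝ) ^ (-(2 * x)) :=
                mul_le_mul_of_nonneg_right h1 (Real.rpow_nonneg (by linarith) _)
            _ = C ^ 2 * (m * (m : ℝ) ^ (-(2 * x))) := by ring
            _ ≤ C ^ 2 * 1 := mul_le_mul_of_nonneg_left h2 (by positivity)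
            _ = C ^ 2 := mul_one _
      _ = (((S.filter (fun m => ¬ m₀ < m.minFac)).filter (fun m => IsPrimePow m)).card : ℝ) *
            C ^ 2 := by
          rw [Finset.sum_const, nsmul_eq_mul]
      _ ≤ ((m₀ : ℝ) * Nat.log 2 Q) * C ^ 2 := by
          refine mul_le_mul_of_nonneg_right ?_ (by positivity)
          have h2 := StepX_card ((S.filter (fun m => ¬ m₀ < m.minFac)).filter
            (fun m => IsPrimePow m)) m₀ Q (by
              intro m hm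
              rw [Finset.mem_filter, Finset.mem_filter] at hm
              exact ⟨hm.2, (hS m hm.1.1).2, not_lt.1 hm.1.2⟩)
          exact_mod_cast h2
      _ = C ^ 2 * (m₀ * Nat.log 2 Q) := mul_comm _ _
  have hsplit := Finset.sum_filter_add_sum_filter_not S (fun m => m₀ < m.minFac)
    (fun m => ‖c m‖ ^ 2 * (m : ℝ) ^ (-(2 * x)))
  have hbig : c₀ * ∑ m ∈ S.filter (fun m => m₀ < m.minFac), ‖c m‖ ^ 2 * (m : ℝ) ^ (-(2 * x)) ≤
      vS h R' c (blk m₀ m₁) n₀ := by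
    rw [Finset.mul_sum]
    calc ∑ m ∈ S.filter (fun m => m₀ < m.minFac), c₀ * (‖c m‖ ^ 2 * (m : ℝ) ^ (-(2 * x)))
        ≤ ∑ m ∈ S.filter (fun m => m₀ < m.minFac), wS h R' c n₀ m := by
          refine Finset.sum_le_sum fun m hm => ?_
          unfold wS
          calc c₀ * (‖c m‖ ^ 2 * (m : ℝ) ^ (-(2 * x))) =
                ‖c m‖ ^ 2 * (c₀ * (m : ℝ) ^ (-(2 * x))) := by ring
            _ ≤ _ := mul_le_mul_of_nonneg_left (hG m (Finset.mem_filter.1 hm).1) (by positivity)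
      _ ≤ vS h R' c (blk m₀ m₁) n₀ := by
          unfold vS
          refine Finset.sum_le_sum_of_subset_of_nonneg ?_ fun m _ _ => hw m
          intro m hm
          rw [Finset.mem_filter] at hm
          have hm1 := (hS m hm.1).1
          have hmin : m.minFac ≤ m := Nat.minFac_le hm1
          unfold blk
          rw [Finset.mem_filter]
          exact ⟨Finset.mem_Ioc.2 ⟨lt_of_lt_of_le hm.2 hmin, (hS m hm.1).2.trans hQ⟩, hm.2⟩
  refine le_trans (mul_le_mul_of_nonneg_left ?_ hc₀) hbig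
  linarith

theorem tStepX (h1 : S_GLowQ) : S_StepX := by
  intro C η B k hC hη hB
  obtain ⟨al, hal⟩ : ∃ al, al = 6 / η + 2 := ⟨_, rfl⟩
  have hη4 : 0 < 6 / η := by positivity
  have hal2 : 2 ≤ al := by rw [hal]; linarith
  have halη : 6 ≤ al * η := by
    rw [hal, add_mul, div_mul_cancel₀ _ hη.ne']
    linarith
  have hk0 : (0 : ℝ) ≤ k := Nat.cast_nonneg k
  have halB : 2 ≤ al * B := by nlinarith
  have hC2 : 0 ≤ 2 * C ^ 2 := by positivity
  refine ⟨3 * (al * B) * (k + 2), 2 * C ^ 2 + 1 + (4 * (k * (al * B))) ^ 2, ?_, by nlinarith [sq_nonneg (4 * (k * (al * B)))], ?_⟩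
  · nlinarith
  intro h σ₁ b r₀ R R' R₂ R₁ δ hh hb hR hgap V hV hV8 c hc hlow κ₁ m₀ hκ₁ _ hm₀
  have hδ : 0 < δ := hgap.pos
  have hδ2 : δ ≤ 1 / 2 := hgap.le
  have hx : 1 / 2 < ell h R := hR.e4
  have h8 : 16 ≤ 8 / δ := by
    rw [le_div_iff₀ hδ]
    linarith
  have hV16 : 16 ≤ V := h8.trans hV8
  have hV1 : 1 ≤ V := by linarith
  have hV0 : 0 < V := by linarith
  have hVC : 2 * C ^ 2 ≤ V := by linarith [sq_nonneg (4 * (k * (al * B)))]
  have hVE : (4 * (k * (al * B))) ^ 2 ≤ V := by linarith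
  have hm₀0 : (0 : ℝ) ≤ m₀ := Nat.cast_nonneg m₀
  obtain ⟨W, hW⟩ : ∃ W : ℝ, W = V + m₀ + 1 := ⟨_, rfl⟩
  have hW1 : 1 ≤ W := by linarith
  have hVW : V ≤ W := by linarith
  have hVκ : V ≤ V ^ κ₁ := by
    calc V = V ^ (1 : ℝ) := (Real.rpow_one V).symm
      _ ≤ V ^ κ₁ := Real.rpow_le_rpow_of_exponent_le hV1 hκ₁
  have hW3 : W ≤ V ^ (3 * κ₁) := by
    have e1 : 0 ≤ V ^ κ₁ := by positivity
    calc W ≤ 3 * V ^ κ₁ := by linarith
      _ ≤ V ^ κ₁ * V ^ κ₁ := mul_le_mul_of_nonneg_right (by linarith) e1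
      _ = V ^ (κ₁ + κ₁) := (Real.rpow_add hV0 _ _).symm
      _ ≤ V ^ (3 * κ₁) := Real.rpow_le_rpow_of_exponent_le hV1 (by linarith)
  -- the number Y
  have hWY : W ≤ W ^ al := by
    calc W = W ^ (1 : ℝ) := (Real.rpow_one W).symm
      _ ≤ W ^ al := Real.rpow_le_rpow_of_exponent_le hW1 (by linarith)
  have hVY : V ^ 2 ≤ W ^ al := by
    calc V ^ 2 ≤ W ^ 2 := pow_le_pow_left₀ (by linarith) hVW 2
      _ = W ^ (2 : ℝ) := (Real.rpow_two W).symm
      _ ≤ W ^ al := Real.rpow_le_rpow_of_exponent_le hW1 hal2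
  obtain ⟨P, S, hYP, hPY, hSP, hsum⟩ := hlow (W ^ al) hVY
  have hPV : V ≤ P := by linarith
  have hP1 : (1 : ℝ) ≤ P := by linarith
  have hP1' : 1 ≤ P := by exact_mod_cast hP1
  have hPη : W ^ 6 ≤ (P : ℝ) ^ η := by
    calc W ^ 6 = W ^ (6 : ℝ) := by
          rw [← Real.rpow_natCast]
          norm_num
      _ ≤ W ^ (al * η) := Real.rpow_le_rpow_of_exponent_le hW1 halη
      _ = (W ^ al) ^ η := Real.rpow_mul (by linarith) _ _
      _ ≤ (P : ℝ) ^ η := Real.rpow_le_rpow (by linarith) hYP hη.le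
  -- k is positive
  have hk : 1 ≤ k := by
    by_contra hk
    have hk' : k = 0 := by omega
    have h2 : ∑ m ∈ S, ‖c m‖ ^ 2 * (m : ℝ) ^ (-(2 * ell h R)) = 0 := by
      refine Finset.sum_eq_zero fun m hm => ?_
      obtain ⟨h3, h4⟩ := hSP m hm
      rw [hk', pow_zero] at h4
      have h5 : m = 1 := by omega
      rw [h5, hc.1 1 not_isPrimePow_one]
      simp
    rw [h2] at hsum
    have h3 : 1 ≤ W ^ 6 := one_le_pow₀ hW1
    linarith
  have hPQ : P ≤ P ^ k := by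
    calc P = P ^ 1 := (pow_one P).symm
      _ ≤ P ^ k := Nat.pow_le_pow_right hP1' hk
  have hPQ' : (P : ℝ) ≤ (P : ℝ) ^ k := by exact_mod_cast hPQ
  have hQ1 : (1 : ℝ) ≤ (P : ℝ) ^ k := hP1.trans hPQ'
  obtain ⟨hup, hlo⟩ := StepX_pow r₀ δ ((P : ℝ) ^ k) hδ hδ2 hgap.g0 hgap.g1 hQ1
  obtain ⟨n₀, hn₀⟩ : ∃ n₀ : ℕ, n₀ = ⌈Real.log (2 * (P : ℝ) ^ k / δ) / δ⌉₊ := ⟨_, rfl⟩
  rw [← hn₀] at hup hlo
  have hceil : (1 / r₀) ^ n₀ ≤ (⌈(1 / r₀) ^ n₀⌉₊ : ℝ) := Nat.le_ceil _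
  have hQm : P ^ k ≤ ⌈(1 / r₀) ^ n₀⌉₊ := by
    have := hlo.trans hceil
    exact_mod_cast this
  refine ⟨⌈(1 / r₀) ^ n₀⌉₊, n₀, ?_, ?_, hceil, ?_⟩
  · have h2 : (m₀ : ℝ) < (⌈(1 / r₀) ^ n₀⌉₊ : ℝ) := by linarith
    exact_mod_cast h2
  · -- the upper bound
    have h2 : (⌈(1 / r₀) ^ n₀⌉₊ : ℝ) < (1 / r₀) ^ n₀ + 1 :=
      Nat.ceil_lt_add_one (by linarith)
    have hd1 : 1 ≤ 1 / δ := by
      rw [le_div_iff₀ hδ]
      linarith
    have h2δ : 2 / δ ≤ P := by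
      have e1 : 2 / δ ≤ 8 / δ := by
        rw [div_le_div_iff_of_pos_right hδ]
        norm_num
      linarith
    have hU : 2 * (P : ℝ) ^ k / δ ≤ (P : ℝ) ^ ((k : ℝ) + 1) := by
      calc 2 * (P : ℝ) ^ k / δ = 2 / δ * (P : ℝ) ^ k := by ring
        _ ≤ P * (P : ℝ) ^ k := mul_le_mul_of_nonneg_right h2δ (by positivity)
        _ = (P : ℝ) ^ ((k : ℝ) + 1) := by
            rw [Real.rpow_add (by linarith), Real.rpow_one, Real.rpow_natCast, mul_comm]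
    have hU0 : 0 ≤ 2 * (P : ℝ) ^ k / δ := by positivity
    have h3 : (2 * (P : ℝ) ^ k / δ) ^ (1 / δ) ≤ (P : ℝ) ^ (((k : ℝ) + 1) * (1 / δ)) := by
      calc (2 * (P : ℝ) ^ k / δ) ^ (1 / δ) ≤ ((P : ℝ) ^ ((k : ℝ) + 1)) ^ (1 / δ) :=
            Real.rpow_le_rpow hU0 hU (by linarith)
        _ = (P : ℝ) ^ (((k : ℝ) + 1) * (1 / δ)) := (Real.rpow_mul (by linarith) _ _).symm
    have hPW : (P : ℝ) ≤ V ^ (3 * κ₁ * (al * B)) := by
      calc (P : ℝ) ≤ (W ^ al) ^ B := hPY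
        _ = W ^ (al * B) := (Real.rpow_mul (by linarith) _ _).symm
        _ ≤ (V ^ (3 * κ₁)) ^ (al * B) := Real.rpow_le_rpow (by linarith) hW3 (by linarith)
        _ = V ^ (3 * κ₁ * (al * B)) := (Real.rpow_mul (by linarith) _ _).symm
    have hkd : 0 ≤ ((k : ℝ) + 2) * (1 / δ) := by positivity
    calc (⌈(1 / r₀) ^ n₀⌉₊ : ℝ) ≤ 2 * (1 / r₀) ^ n₀ := by linarith
      _ ≤ 2 * (2 * (2 * (P : ℝ) ^ k / δ) ^ (1 / δ)) := by linarith
      _ ≤ 4 * (P : ℝ) ^ (((k : ℝ) + 1) * (1 / δ)) := by linarith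
      _ ≤ P * (P : ℝ) ^ (((k : ℝ) + 1) * (1 / δ)) :=
          mul_le_mul_of_nonneg_right (by linarith) (by positivity)
      _ = (P : ℝ) ^ (1 + ((k : ℝ) + 1) * (1 / δ)) := by
          rw [Real.rpow_add (by linarith), Real.rpow_one]
      _ ≤ (P : ℝ) ^ (((k : ℝ) + 2) * (1 / δ)) := by
          refine Real.rpow_le_rpow_of_exponent_le hP1 ?_
          have e1 : ((k : ℝ) + 2) * (1 / δ) = ((k : ℝ) + 1) * (1 / δ) + 1 / δ := by ring
          rw [e1]
          linarith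
      _ ≤ (V ^ (3 * κ₁ * (al * B))) ^ (((k : ℝ) + 2) * (1 / δ)) :=
          Real.rpow_le_rpow (by linarith) hPW hkd
      _ = V ^ (3 * κ₁ * (al * B) * (((k : ℝ) + 2) * (1 / δ))) :=
          (Real.rpow_mul (by linarith) _ _).symm
      _ = V ^ (3 * (al * B) * (k + 2) / δ * κ₁) := by
          congr 1
          ring
  · -- the lower bound
    have hlow' := StepX_low h R' C (ell h R) (δ / 4) c S m₀ ⌈(1 / r₀) ^ n₀⌉₊ n₀ (P ^ k) (W ^ 6) hc
      hC hx (by linarith)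
      (fun m hm => ⟨(hSP m hm).1, (hSP m hm).2⟩) hQm
      (fun m hm => by
        obtain ⟨hm1, hm2⟩ := hSP m hm
        refine h1 h σ₁ b r₀ R R' R₂ R₁ δ hh hb hR hgap n₀ m hm1 ?_
        have hm1' : (1 : ℝ) ≤ m := by exact_mod_cast hm1
        have hm2' : (m : ℝ) ≤ (P : ℝ) ^ k := by exact_mod_cast hm2
        have h2 : Real.log (2 * m / δ) ≤ Real.log (2 * (P : ℝ) ^ k / δ) := by
          refine Real.log_le_log (by positivity) ?_
          rw [div_le_div_iff_of_pos_right hδ]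
          linarith
        calc Real.log (2 * m / δ) / δ ≤ Real.log (2 * (P : ℝ) ^ k / δ) / δ := by
              rwa [div_le_div_iff_of_pos_right hδ]
          _ ≤ n₀ := by
              rw [hn₀]
              exact Nat.le_ceil _)
      (hPη.trans hsum)
    have hlog : (Nat.log 2 (P ^ k) : ℝ) ≤ W := by
      refine StepX_log W (al * B) P k hW1 hP1' (by linarith) ?_ (hVE.trans hVW)
      calc (P : ℝ) ≤ (W ^ al) ^ B := hPY
        _ = W ^ (al * B) := (Real.rpow_mul (by linarith) _ _).symm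
    have h84 : 2 / (δ / 4) ≤ W := by
      have e1 : 2 / (δ / 4) = 8 / δ := by
        field_simp
        norm_num
      rw [e1]
      linarith
    have hnum := StepX_num (δ / 4) C W (by linarith) hW1 h84 (hVC.trans hVW)
    have h5 : δ / 4 * (W ^ 6 - C ^ 2 * W ^ 2) ≤
        δ / 4 * (W ^ 6 - C ^ 2 * (m₀ * Nat.log 2 (P ^ k))) := by
      refine mul_le_mul_of_nonneg_left ?_ (by linarith)
      have h7 : (m₀ : ℝ) * Nat.log 2 (P ^ k) ≤ W ^ 2 := by
        calc (m₀ : ℝ) * Nat.log 2 (P ^ k) ≤ W * W :=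
              mul_le_mul (by linarith) hlog (Nat.cast_nonneg _) (by linarith)
          _ = W ^ 2 := (sq W).symm
      have h6 : C ^ 2 * ((m₀ : ℝ) * Nat.log 2 (P ^ k)) ≤ C ^ 2 * W ^ 2 :=
        mul_le_mul_of_nonneg_left h7 (by positivity)
      linarith
    rw [← hW]
    exact hnum.trans (h5.trans hlow')

end MP7ed9c3.Aw
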