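import Pool.Agent.Lib.MP_7ed9c3_nt.Aw.SpecX

/-!
# MP_7ed9c3_nt, part Aw: a window without zeros has small energies, small primes removed
-/

set_option autoImplicit false

namespace MP7ed9c3.Aw

open NumberField IsDedekindDomain Filter Topology MeasureTheory Metric

/-- The number of the powers of one prime. -/
private theorem WinAX_fib (S : Finset ℕ) (M p : ℕ) (hS : ∀ m ∈ S, IsPrimePow m ∧ m ≤ M) :
    (S.filter fun n => n.minFac = p).card ≤ Nat.log 2 M := by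
  have key : ∀ n ∈ S.filter (fun n => n.minFac = p), p ^ n.factorization p = n := by
    intro n hn
    rw [Finset.mem_filter] at hn
    have h := (hS n hn.1).1.minFac_pow_factorization_eq
    rw [hn.2] at h
    exact h
  have h : (S.filter fun n => n.minFac = p).card ≤ (Finset.Icc 1 (Nat.log 2 M)).card := by
    refine Finset.card_le_card_of_injOn (fun n => n.factorization p) ?_ ?_
    · intro n hn
      have hn' : n ∈ S.filter (fun n => n.minFac = p) := hn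
      have h1 := key n hn'
      rw [Finset.mem_filter] at hn'
      have h2 := hS n hn'.1
      have h3 : n ≠ 1 := h2.1.ne_one
      have h4 : p.Prime := hn'.2 ▸ Nat.minFac_prime h3
      have h5 : 1 ≤ n.factorization p := by
        by_contra hc
        have h6 : n.factorization p = 0 := by omega
        rw [h6, pow_zero] at h1
        exact h3 h1.symm
      have h6 : 2 ^ n.factorization p ≤ M := by
        calc 2 ^ n.factorization p ≤ p ^ n.factorization p := Nat.pow_le_pow_left h4.two_le _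
          _ = n := h1
          _ ≤ M := h2.2
      have h7 : n.factorization p ≤ Nat.log 2 M := Nat.le_log_of_pow_le (by norm_num) h6
      exact Finset.mem_coe.2 (Finset.mem_Icc.2 ⟨h5, h7⟩)
    · intro a ha b hb hab
      have h1 := key a ha
      have h2 := key b hb
      have h3 : a.factorization p = b.factorization p := hab
      rw [← h1, ← h2, h3]
  simpa using h

/-- The number of the powers of small primes. -/
private theorem WinAX_card (S : Finset ℕ) (M₀ M₁ : ℕ)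
    (hS : ∀ m ∈ S, IsPrimePow m ∧ m ≤ M₁ ∧ m.minFac ≤ M₀) :
    S.card ≤ M₀ * Nat.log 2 M₁ := by
  have h1 : S.card ≤ Nat.log 2 M₁ * (Finset.Icc 1 M₀).card := by
    refine Finset.card_le_mul_card_image_of_maps_to (f := Nat.minFac) ?_ (Nat.log 2 M₁) ?_
    · intro m hm
      exact Finset.mem_Icc.2 ⟨Nat.minFac_pos m, (hS m hm).2.2⟩
    · intro p _
      exact WinAX_fib S M₁ p fun m hm => ⟨(hS m hm).1, (hS m hm).2.1⟩
  rw [Nat.card_Icc, Nat.add_sub_cancel, mul_comm] at h1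
  exact h1

/-- The removed terms. -/
private theorem WinAX_rem (h1 : S_GUp) (h R₂ : ℝ) (hh : 0 < h) (hR0 : 0 < R₂) (hR1 : R₂ < 1)
    (hell : 1 / 2 < ell h R₂) (c : ℕ → ℂ) (C : ℝ) (hC : 0 ≤ C) (hc : Coefs c C) (t : ℝ)
    (n M₀ M₁ : ℕ) (D : Finset ℕ) (hD : ∀ m ∈ D, 0 < m ∧ m ≤ M₁ ∧ m.minFac ≤ M₀) :
    ‖aS h c D n t‖ ≤ C * (M₀ * (Nat.log 2 M₁ : ℝ)) / R₂ ^ n := by
  classical
  have hRn : 0 < R₂ ^ n := pow_pos hR0 n
  have e0 : aS h c D n t = aS h c (D.filter IsPrimePow) n t := by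
    rw [aS, aS]
    refine (Finset.sum_filter_of_ne fun m _ hne => ?_).symm
    by_contra hp
    exact hne (by rw [hc.1 m hp, zero_mul, zero_mul])
  have hb : ∀ m ∈ D.filter IsPrimePow,
      ‖c m * gT h n m * (m : ℂ) ^ (-(t * Complex.I))‖ ≤ C / R₂ ^ n := by
    intro m hm
    rw [Finset.mem_filter] at hm
    have hm0 : 0 < m := (hD m hm.1).1
    have hmp : (0 : ℝ) < m := by exact_mod_cast hm0
    have hm1 : (1 : ℝ) ≤ m := by exact_mod_cast hm0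
    have e0 : ‖(m : ℂ) ^ (-(t * Complex.I))‖ = 1 := by
      rw [Complex.norm_natCast_cpow_of_pos hm0]
      simp
    have e1 : √(m : ℝ) * (m : ℝ) ^ (-ell h R₂) ≤ 1 := by
      rw [Real.sqrt_eq_rpow, ← Real.rpow_add hmp]
      exact Real.rpow_le_one_of_one_le_of_nonpos hm1 (by linarith)
    have e2 := h1 h R₂ n m hh hR0 hR1 hm0
    rw [norm_mul, norm_mul, e0, mul_one]
    calc ‖c m‖ * ‖gT h n m‖ ≤ (C * √m) * ((m : ℝ) ^ (-ell h R₂) / R₂ ^ n) :=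
          mul_le_mul (hc.2 m) e2 (norm_nonneg _) (by positivity)
      _ = (C / R₂ ^ n) * (√(m : ℝ) * (m : ℝ) ^ (-ell h R₂)) := by ring
      _ ≤ (C / R₂ ^ n) * 1 := mul_le_mul_of_nonneg_left e1 (by positivity)
      _ = C / R₂ ^ n := mul_one _
  have hcard : ((D.filter IsPrimePow).card : ℝ) ≤ M₀ * (Nat.log 2 M₁ : ℝ) := by
    have h2 := WinAX_card (D.filter IsPrimePow) M₀ M₁ fun m hm => by
      rw [Finset.mem_filter] at hm
      exact ⟨hm.2, (hD m hm.1).2⟩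
    exact_mod_cast h2
  rw [e0, aS]
  refine (norm_sum_le_of_le _ hb).trans ?_
  rw [Finset.sum_const, nsmul_eq_mul]
  calc ((D.filter IsPrimePow).card : ℝ) * (C / R₂ ^ n)
      ≤ (M₀ * (Nat.log 2 M₁ : ℝ)) * (C / R₂ ^ n) :=
        mul_le_mul_of_nonneg_right hcard (by positivity)
    _ = C * (M₀ * (Nat.log 2 M₁ : ℝ)) / R₂ ^ n := by ring

/-- The geometric sum. -/
private theorem WinAX_geom (h R' R₂ δ : ℝ) (h0 : 0 < R') (h1 : R' ≤ (1 - δ) * R₂) (hR0 : 0 < R₂)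
    (hδ : 0 < δ) (c : ℕ → ℂ) (S : Finset ℕ)
    (n₀ : ℕ) (t D : ℝ) (hD : ∀ n < n₀, ‖aS h c S n t‖ ≤ D / R₂ ^ n) :
    en h R' c S n₀ t ≤ D ^ 2 * (1 / δ) := by
  obtain ⟨q, hq⟩ : ∃ q : ℝ, q = (R' / R₂) ^ 2 := ⟨_, rfl⟩
  have hq0 : 0 ≤ q := by rw [hq]; positivity
  have e0 : 0 ≤ R' / R₂ := by positivity
  have e1 : R' / R₂ ≤ 1 - δ := by rw [div_le_iff₀ hR0]; exact h1
  have hq1 : q ≤ 1 - δ := by rw [hq]; nlinarith
  have hq2 : q < 1 := by linarith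
  have hgeo : ∑ n ∈ Finset.range n₀, q ^ n ≤ 1 / δ := by
    have h2 := (summable_geometric_of_lt_one hq0 hq2).sum_le_tsum (Finset.range n₀)
      (fun n _ => pow_nonneg hq0 n)
    rw [tsum_geometric_of_lt_one hq0 hq2] at h2
    rw [one_div]
    exact h2.trans (inv_anti₀ hδ (by linarith))
  have e2 : en h R' c S n₀ t ≤ ∑ n ∈ Finset.range n₀, D ^ 2 * q ^ n := by
    rw [en]
    refine Finset.sum_le_sum fun n hn => ?_
    rw [Finset.mem_range] at hn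
    have hRn : 0 < R₂ ^ n := pow_pos hR0 n
    have e3 : ‖aS h c S n t‖ ^ 2 ≤ (D / R₂ ^ n) ^ 2 :=
      pow_le_pow_left₀ (norm_nonneg _) (hD n hn) 2
    calc R' ^ (2 * n) * ‖aS h c S n t‖ ^ 2 ≤ R' ^ (2 * n) * (D / R₂ ^ n) ^ 2 :=
          mul_le_mul_of_nonneg_left e3 (by positivity)
      _ = D ^ 2 * q ^ n := by
          rw [hq, div_pow, div_pow, div_pow, ← pow_mul, ← pow_mul, ← pow_mul, mul_comm n 2]
          ring
  rw [← Finset.mul_sum] at e2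
  exact e2.trans (mul_le_mul_of_nonneg_left hgeo (sq_nonneg _))

/-- The energy of a part. -/
private theorem WinAX_split (h R' : ℝ) (hR : 0 ≤ R') (c : ℕ → ℂ) (S : Finset ℕ) (p : ℕ → Prop)
    [DecidablePred p] (n₀ : ℕ) (t : ℝ) :
    en h R' c (S.filter p) n₀ t ≤
      2 * en h R' c S n₀ t + 2 * en h R' c (S.filter fun m => ¬ p m) n₀ t := by
  rw [en, en, en, Finset.mul_sum, Finset.mul_sum, ← Finset.sum_add_distrib]
  refine Finset.sum_le_sum fun n _ => ?_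
  have e1 : aS h c (S.filter p) n t + aS h c (S.filter fun m => ¬ p m) n t = aS h c S n t := by
    rw [aS, aS, aS]
    exact Finset.sum_filter_add_sum_filter_not _ _ _
  have e2 : ‖aS h c (S.filter p) n t‖ ≤
      ‖aS h c S n t‖ + ‖aS h c (S.filter fun m => ¬ p m) n t‖ := by
    have e3 : aS h c (S.filter p) n t = aS h c S n t - aS h c (S.filter fun m => ¬ p m) n t := by
      rw [← e1]
      ring
    rw [e3]
    exact norm_sub_le _ _
  have e4 : ‖aS h c (S.filter p) n t‖ ^ 2 ≤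
      2 * ‖aS h c S n t‖ ^ 2 + 2 * ‖aS h c (S.filter fun m => ¬ p m) n t‖ ^ 2 := by
    have e5 := pow_le_pow_left₀ (norm_nonneg _) e2 2
    nlinarith [sq_nonneg (‖aS h c S n t‖ - ‖aS h c (S.filter fun m => ¬ p m) n t‖)]
  have e6 : 0 ≤ R' ^ (2 * n) := pow_nonneg hR _
  calc R' ^ (2 * n) * ‖aS h c (S.filter p) n t‖ ^ 2
      ≤ R' ^ (2 * n) *
        (2 * ‖aS h c S n t‖ ^ 2 + 2 * ‖aS h c (S.filter fun m => ¬ p m) n t‖ ^ 2) :=
        mul_le_mul_of_nonneg_left e4 e6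
    _ = _ := by ring

theorem tWinAX (h1 : S_GUp) (h2 : S_WinAQ) : S_WinAX := by
  intro C hC
  obtain ⟨A₀, hA₀, hA⟩ := h2 C hC
  refine ⟨2 * A₀ + 2 * C ^ 2, by positivity, ?_⟩
  intro h σ₁ b r₀ R R' R₂ R₁ δ hh rad gap c G t V hc hV hGd hG0 hGV hGe M₀ M₁ n₀ hM₁ hn₀
  have hδ : 0 < δ := gap.pos
  have hδ1 : δ ≤ 1 := by linarith [gap.le]
  have hR'0 : 0 < R' := by linarith [rad.r₀pos, rad.lt1, rad.lt2]
  have hR20 : 0 < R₂ := by linarith [rad.lt3]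
  have hR21 : R₂ < 1 := by linarith [rad.lt4, rad.lt5]
  have hen := hA h σ₁ b r₀ R R' R₂ R₁ δ hh rad gap c G t V hc hV hGd hG0 hGV hGe M₀ M₁ n₀ hM₁ hn₀
  have hL : (0 : ℝ) ≤ (Nat.log 2 M₁ : ℝ) := Nat.cast_nonneg _
  have hM : (0 : ℝ) ≤ (M₀ : ℝ) := Nat.cast_nonneg _
  have hML : (0 : ℝ) ≤ M₀ * (Nat.log 2 M₁ : ℝ) := mul_nonneg hM hL
  have hrem := WinAX_geom h R' R₂ δ hR'0 gap.g3 hR20 hδ c
    ((Finset.Ioc M₀ M₁).filter fun m => ¬ M₀ < m.minFac) n₀ t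
    (C * (M₀ * (Nat.log 2 M₁ : ℝ))) fun n _ =>
      WinAX_rem h1 h R₂ hh hR20 hR21 rad.e3 c C hC hc t n M₀ M₁ _ fun m hm => by
        rw [Finset.mem_filter, Finset.mem_Ioc] at hm
        exact ⟨by omega, hm.1.2, by omega⟩
  have hs := WinAX_split h R' hR'0.le c (Finset.Ioc M₀ M₁) (fun m => M₀ < m.minFac) n₀ t
  obtain ⟨X, hX⟩ : ∃ X : ℝ, X = V + M₀ * (1 + (Nat.log 2 M₁ : ℝ)) + 1 := ⟨_, rfl⟩
  have hX1 : V + M₀ + 1 ≤ X := by rw [hX]; nlinarith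
  have hX2 : M₀ * (Nat.log 2 M₁ : ℝ) ≤ X := by rw [hX]; nlinarith
  have e1 : (V + M₀ + 1) ^ 2 ≤ X ^ 2 := pow_le_pow_left₀ (by linarith) hX1 2
  have e2 : (M₀ * (Nat.log 2 M₁ : ℝ)) ^ 2 ≤ X ^ 2 := pow_le_pow_left₀ hML hX2 2
  have e3 : 1 / δ ≤ 1 / δ ^ 3 := by
    refine one_div_le_one_div_of_le (pow_pos hδ 3) ?_
    calc δ ^ 3 ≤ δ ^ 1 := pow_le_pow_of_le_one hδ.le hδ1 (by norm_num)
      _ = δ := pow_one δ
  rw [← hX]
  have e4 : en h R' c (blk M₀ M₁) n₀ t ≤ 2 * (A₀ / δ ^ 3 * (V + M₀ + 1) ^ 2) +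
      2 * ((C * (M₀ * (Nat.log 2 M₁ : ℝ))) ^ 2 * (1 / δ)) := by
    have e5 : blk M₀ M₁ = (Finset.Ioc M₀ M₁).filter (fun m => M₀ < m.minFac) := rfl
    rw [e5]
    exact hs.trans (add_le_add (mul_le_mul_of_nonneg_left hen (by norm_num))
      (mul_le_mul_of_nonneg_left hrem (by norm_num)))
  refine e4.trans ?_
  have e6 : A₀ / δ ^ 3 * (V + M₀ + 1) ^ 2 ≤ A₀ / δ ^ 3 * X ^ 2 :=
    mul_le_mul_of_nonneg_left e1 (by positivity)
  have e7 : (C * (M₀ * (Nat.log 2 M₁ : ℝ))) ^ 2 * (1 / δ) ≤ C ^ 2 * X ^ 2 * (1 / δ ^ 3) := by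
    rw [mul_pow]
    exact mul_le_mul (mul_le_mul_of_nonneg_left e2 (sq_nonneg C)) e3 (by positivity)
      (by positivity)
  calc 2 * (A₀ / δ ^ 3 * (V + M₀ + 1) ^ 2) +
      2 * ((C * (M₀ * (Nat.log 2 M₁ : ℝ))) ^ 2 * (1 / δ))
      ≤ 2 * (A₀ / δ ^ 3 * X ^ 2) + 2 * (C ^ 2 * X ^ 2 * (1 / δ ^ 3)) := by linarith
    _ = (2 * A₀ + 2 * C ^ 2) / δ ^ 3 * X ^ 2 := by ring

end MP7ed9c3.Aw
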