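import Pool.Agent.Lib.MP_7ed9c3_nt.Aw.AllQ
import Pool.Agent.Lib.MP_7ed9c3_nt.Aw.FinX
import Pool.Agent.Lib.MP_7ed9c3_nt.Aw.PM
import Pool.Agent.Lib.MP_7ed9c3_nt.Aw.EX
import Pool.Agent.Lib.MP_7ed9c3_nt.Aw.ProdX
import Pool.Agent.Lib.MP_7ed9c3_nt.Aw.BlocksX
import Pool.Agent.Lib.MP_7ed9c3_nt.Aw.WinAX
import Pool.Agent.Lib.MP_7ed9c3_nt.Aw.StepX
import Pool.Agent.Lib.MP_7ed9c3_nt.Aw.ScaleX
import Pool.Agent.Lib.MP_7ed9c3_nt.Aw.NumCX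
import Pool.Agent.Lib.MP_7ed9c3_nt.Aw.CoreX
import Pool.Agent.Lib.MP_7ed9c3_nt.Aw.CoreXQ
import Pool.Agent.Lib.MP_7ed9c3_nt.Aw.NumX
import Pool.Agent.Lib.MP_7ed9c3_nt.Aw.RedX

/-!
# MP_7ed9c3_nt: assembly of part Aw (exponentially small exceptional sets, uniform in the curve)
-/

set_option autoImplicit false

namespace MP7ed9c3.Aw

open NumberField IsDedekindDomain Filter Topology MeasureTheory Metric

theorem blocksXAll : S_BlocksX := tBlocksX (tQuads tPP tQ3) (tProdX (tPM tOsc) tEX)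

theorem coreXAll : S_CoreX :=
  tCoreX tRadQ (tWBQ gUpAll) (tWinAX gUpAll (tWinAQ tPhi tTc gUpAll (tLogWQ tPhi)))
    (tScaleX (tStepX (tGLowQ tPhi tTc gUpAll))) blocksXAll tNumCX

theorem redXAll : S_RedX := tRedX (tCoreXQ coreXAll) tMark tNumX

/-- The theorem for both kinds of abscissas. -/
theorem finUX (K : Type) [Field K] [NumberField K] :
    WindowsX K (FewBad K) (1 / 2 + 1 / (4 * (Module.finrank ℚ K : ℝ))) ∧
    ∀ (N : Type) [Field N] [NumberField N] [IsGalois ℚ N] (g : N ≃ₐ[ℚ] N) (k : ℕ),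
      Nonempty (K →ₐ[ℚ] N) → Zg.Adm (Zg.perm (K := K) g) k →
      WindowsX K (FewBad K) (1 / 2 + 1 / (2 * (k : ℝ))) :=
  uFinXAll redXAll K

end MP7ed9c3.Aw
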