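import Pool.Agent.Lib.MP_7ed9c3_nt.Aw.Spec

/-!
# MP_7ed9c3_nt, part Aw: one zero in almost every window (proof of `S_Core`)
-/

set_option autoImplicit false

namespace MP7ed9c3.Aw

open NumberField IsDedekindDomain Filter Topology MeasureTheory Metric

/-- The numbers `M i` are at least `1`. -/
private theorem Core_one (I : ℕ) (M : ℕ → ℕ) (h0 : M 0 = 1) (hM : ∀ i < I, M i < M (i + 1)) :
    ∀ i : ℕ, i ≤ I → 1 ≤ M i := by
  intro i
  induction i with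
  | zero => intro _; omega
  | succ n ih =>
    intro hn
    have h1 := ih (by omega)
    have h2 := hM n (by omega)
    omega

/-- The boundary strips have measure at most `2h`. -/
private theorem Core_strip (T h t₀ : ℝ) (hh : 0 < h) :
    volume (Set.Icc (t₀ - T) (t₀ - T + h) ∪ Set.Icc (t₀ + T - h) (t₀ + T)) ≤
      ENNReal.ofReal (2 * h) := by
  refine (measure_union_le _ _).trans ?_
  rw [Real.volume_Icc, Real.volume_Icc, ← ENNReal.ofReal_add (by linarith) (by linarith)]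
  apply ENNReal.ofReal_le_ofReal
  linarith

/-- A window inside the box. -/
private theorem Core_sub (σ₁ T h t t₀ : ℝ) (ht : |t - t₀| < T - h) :
    win σ₁ h t ⊆ win σ₁ T t₀ := by
  rintro s ⟨h1, h2⟩
  refine ⟨h1, ?_⟩
  have h3 : s.im - t₀ = (s.im - t) + (t - t₀) := by ring
  rw [h3]
  exact (abs_add_le _ _).trans_lt (by linarith)

/-- The inequality for one block. -/
private theorem Core_half (A V m v : ℝ) (hA : 2 * A ≤ V) (hm : 0 ≤ m)
    (hv : (V + m + 1) ^ 3 ≤ v) : A * (V + m + 1) ^ 2 ≤ v / 2 := by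
  have h1 : 2 * A * (V + m + 1) ^ 2 ≤ (V + m + 1) * (V + m + 1) ^ 2 := by
    apply mul_le_mul_of_nonneg_right _ (sq_nonneg _)
    linarith
  have h2 : (V + m + 1) * (V + m + 1) ^ 2 = (V + m + 1) ^ 3 := by ring
  linarith

/-- The mean energies are at least `V³`. -/
private theorem Core_cube (V m v : ℝ) (hV : 0 ≤ V) (hm : 0 ≤ m) (hv : (V + m + 1) ^ 3 ≤ v) :
    V ^ 3 ≤ v := by
  have h1 : V ^ 3 ≤ (V + m + 1) ^ 3 := pow_le_pow_left₀ hV (by linarith) 3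
  linarith

/-- The points which are not in the boundary strips. -/
private theorem Core_mid (T h t t₀ : ℝ) (ht : |t - t₀| < T)
    (h1 : t ∉ Set.Icc (t₀ - T) (t₀ - T + h) ∪ Set.Icc (t₀ + T - h) (t₀ + T)) :
    |t - t₀| < T - h := by
  rw [abs_lt] at ht ⊢
  simp only [Set.mem_union, Set.mem_Icc, not_or, not_and, not_le] at h1
  obtain ⟨h2, h3⟩ := h1
  have h4 := h2 (by linarith [ht.1])
  constructor
  · linarith
  · by_contra h5
    have h6 : t₀ + T - h ≤ t := by linarith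
    have h7 := h3 h6
    linarith [ht.2]

theorem tCore (h1 : S_Rad) (h2 : S_WB) (h3 : S_WinA) (h4 : S_Scale) (h5 : S_Blocks)
    (h6 : S_NumC) : S_Core := by
  intro C b k hC hb σ₁ h ε hσ hσb hh hε
  obtain ⟨r₀, R, R', R₂, R₁, hR⟩ := h1 h σ₁ b hh hσ hσb hb
  obtain ⟨A, hA, hWin⟩ := h3 h σ₁ b r₀ R R' R₂ R₁ C hh hC hR
  obtain ⟨C', hC', hWB⟩ := h2 h σ₁ b r₀ R R' R₂ R₁ C hh hC hR
  refine ⟨ell h R, hR.e4, hR.e2, ?_⟩
  intro η B hη hB
  obtain ⟨I, hI, hI1⟩ : ∃ I : ℕ, 16 / ε ≤ (I : ℝ) ∧ 1 ≤ I := by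
    refine ⟨⌈16 / ε⌉₊ + 1, ?_, by omega⟩
    push_cast
    have := Nat.le_ceil (16 / ε)
    linarith
  obtain ⟨κ₁, V₁, hκ₁, hV₁, hSc⟩ := h4 h σ₁ b r₀ R R' R₂ R₁ C η B k hh hC hη hB hR I
  obtain ⟨V₂, hV₂, hNum⟩ := h6 ε C' κ₁ h I hε hC' hκ₁ hh hI
  refine ⟨5 * κ₁ + 1, max V₁ (max V₂ (2 * A)), by linarith, ?_⟩
  intro V T t₀ hV hT c hc hL G hG hGb hGe
  have hVa : V₁ ≤ V := (le_max_left _ _).trans hV
  have hVb : V₂ ≤ V := ((le_max_left _ _).trans (le_max_right _ _)).trans hV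
  have hVc : 2 * A ≤ V := ((le_max_right _ _).trans (le_max_right _ _)).trans hV
  have hV1 : 1 ≤ V := hV₁.trans hVa
  have hV0 : 0 ≤ V := by linarith
  have hV3 : 0 < V ^ 3 := by positivity
  have hTpos : 0 < T := (Real.rpow_pos_of_pos (by linarith) _).trans_le hT
  obtain ⟨M, nn, hM0, hM, hMI, hr, hv⟩ := hSc V hVa c hc hL
  have hone := Core_one I M hM0 hM
  have hτ : 0 ≤ C' / V ^ 3 := div_nonneg hC' hV3.le
  have hR' : 0 < R' := lt_trans (lt_trans hR.r₀pos hR.lt1) hR.lt2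
  have hv3 : ∀ i < I, V ^ 3 ≤ vS h R' c (Finset.Ioc (M i) (M (i + 1))) (nn i) := fun i hi =>
    Core_cube V (M i) _ hV0 (Nat.cast_nonneg _) (hv i hi)
  have hBl := h5 h R' C (C' / V ^ 3) (t₀ - T) (t₀ + T) c I M nn hR' hc hI1 hτ (by linarith) hM
    (fun i hi => hV3.trans_le (hv3 i hi)) (by
      intro i hi m hm
      have hm1 : 1 ≤ m := by
        have := (Finset.mem_Ioc.mp hm).1
        omega
      have e1 : C' = C' / V ^ 3 * V ^ 3 := by field_simp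
      calc wS h R' c (nn i) m ≤ C' := hWB c hc (nn i) m hm1
        _ = C' / V ^ 3 * V ^ 3 := e1
        _ ≤ C' / V ^ 3 * vS h R' c (Finset.Ioc (M i) (M (i + 1))) (nn i) :=
          mul_le_mul_of_nonneg_left (hv3 i hi) hτ)
  have hsub : {t : ℝ | |t - t₀| < T ∧ ∀ ρ ∈ win σ₁ h t, ρ ∈ win σ₁ T t₀ → G ρ ≠ 0} ⊆
      {t : ℝ | t ∈ Set.Icc (t₀ - T) (t₀ + T) ∧
        ∀ i < I, en h R' c (Finset.Ioc (M i) (M (i + 1))) (nn i) t ≤
          vS h R' c (Finset.Ioc (M i) (M (i + 1))) (nn i) / 2} ∪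
      (Set.Icc (t₀ - T) (t₀ - T + h) ∪ Set.Icc (t₀ + T - h) (t₀ + T)) := by
    rintro t ⟨ht, hz⟩
    by_cases hst : t ∈ Set.Icc (t₀ - T) (t₀ - T + h) ∪ Set.Icc (t₀ + T - h) (t₀ + T)
    · exact Or.inr hst
    · left
      have hw := Core_sub σ₁ T h t t₀ (Core_mid T h t t₀ ht hst)
      have ht' := abs_lt.mp ht
      refine ⟨⟨by linarith [ht'.1], by linarith [ht'.2]⟩, ?_⟩
      intro i hi
      have hen := hWin c G t V hc hV0 (hG.mono hw) (fun s hs => hz s hs (hw hs))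
        (fun s hs => hGb s (hw hs)) (fun s hs hs3 => hGe s (hw hs) hs3) (M i) (M (i + 1)) (nn i)
        (hone (i + 1) (by omega)) (hr i hi)
      exact hen.trans (Core_half A V (M i) _ hVc (Nat.cast_nonneg _) (hv i hi))
  have hX : 0 ≤ 4 * ((1 / (I : ℝ) + C' / V ^ 3 * (Nat.log 2 (M I) : ℝ) ^ 2) *
      ((t₀ + T) - (t₀ - T)) + 6 * (M I : ℝ) ^ 4) := by
    have e1 : (t₀ + T) - (t₀ - T) = 2 * T := by ring
    rw [e1]
    positivity
  calc volume {t : ℝ | |t - t₀| < T ∧ ∀ ρ ∈ win σ₁ h t, ρ ∈ win σ₁ T t₀ → G ρ ≠ 0}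
      ≤ _ := measure_mono hsub
    _ ≤ _ := measure_union_le _ _
    _ ≤ ENNReal.ofReal (4 * ((1 / (I : ℝ) + C' / V ^ 3 * (Nat.log 2 (M I) : ℝ) ^ 2) *
          ((t₀ + T) - (t₀ - T)) + 6 * (M I : ℝ) ^ 4)) + ENNReal.ofReal (2 * h) :=
        add_le_add hBl (Core_strip T h t₀ hh)
    _ = ENNReal.ofReal (4 * ((1 / (I : ℝ) + C' / V ^ 3 * (Nat.log 2 (M I) : ℝ) ^ 2) *
          ((t₀ + T) - (t₀ - T)) + 6 * (M I : ℝ) ^ 4) + 2 * h) :=
        (ENNReal.ofReal_add hX (by linarith)).symm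
    _ ≤ ENNReal.ofReal (ε * T) := by
        apply ENNReal.ofReal_le_ofReal
        have e1 : (t₀ + T) - (t₀ - T) = 2 * T := by ring
        rw [e1]
        exact hNum V T (M I) hVb hT (hone I le_rfl) hMI

end MP7ed9c3.Aw
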