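import Pool.Agent.Lib.MP_7ed9c3_nt.Aw.Spec

/-!
# MP_7ed9c3_nt, part Aw: the data of the Euler product (helper55)
-/

set_option autoImplicit false

namespace MP7ed9c3.Aw

open NumberField IsDedekindDomain Filter Topology MeasureTheory Metric

section
variable {K : Type} [Field K] [NumberField K]

private theorem DataE_cut_mem (X : Finset (HeightOneSpectrum (𝓞 K)))
    (α : HeightOneSpectrum (𝓞 K) → ℂ) (v : HeightOneSpectrum (𝓞 K)) (hv : v ∈ X) :
    cut X α v = 0 := by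
  unfold cut
  rw [if_pos hv]

private theorem DataE_cut_not (X : Finset (HeightOneSpectrum (𝓞 K)))
    (α : HeightOneSpectrum (𝓞 K) → ℂ) (v : HeightOneSpectrum (𝓞 K)) (hv : v ∉ X) :
    cut X α v = α v := by
  unfold cut
  rw [if_neg hv]

private theorem DataE_tau (X : Finset (HeightOneSpectrum (𝓞 K)))
    (α β : HeightOneSpectrum (𝓞 K) → ℂ) (i : HeightOneSpectrum (𝓞 K) × ℕ) :
    ‖Zs.tauE (cut X α) (cut X β) i‖ ≤ ‖Zs.tauE α β i‖ := by
  by_cases h : i.1 ∈ X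
  · have h0 : Zs.tauE (cut X α) (cut X β) i = 0 := by
      unfold Zs.tauE
      rw [DataE_cut_mem X α i.1 h, DataE_cut_mem X β i.1 h, zero_pow (Nat.succ_ne_zero _)]
      simp
    rw [h0, norm_zero]
    exact norm_nonneg _
  · have h0 : Zs.tauE (cut X α) (cut X β) i = Zs.tauE α β i := by
      unfold Zs.tauE
      rw [DataE_cut_not X α i.1 h, DataE_cut_not X β i.1 h]
    rw [h0]

private theorem DataE_lam (i : HeightOneSpectrum (𝓞 K) × ℕ) : 1 ≤ Zs.lamE K i := by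
  unfold Zs.lamE
  have h : 0 < nm i.1 := by
    unfold nm
    have h0 : Ideal.absNorm i.1.asIdeal ≠ 0 := by
      rw [Ne, Ideal.absNorm_eq_zero_iff]
      exact i.1.ne_bot
    omega
  exact Nat.one_le_pow _ _ h

end

/-- **DataE.** -/
theorem tDataE (h1 : S_Grp) (h2 : S_SerGe) (h3 : S_Mod) (h4 : S_CoefB) (h5 : S_LocZ)
    (h6 : S_LocB) (h7 : Zs.S_Roots) (h8 : Zg.S_RootsP) : S_DataE := by
  classical
  intro K _ _ E hE M hM k b hlow
  obtain ⟨α, β, X₀, hX₀, hloc, hbd, hroot⟩ := h7 K E hE M hM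
  obtain ⟨X, hX⟩ : ∃ X : Finset (HeightOneSpectrum (𝓞 K)), ∀ v, v ∈ X ↔ v ∈ X₀ :=
    ⟨hX₀.toFinset, fun v => Set.Finite.mem_toFinset hX₀⟩
  obtain ⟨hsum, hexp⟩ := h2 K α β M hloc hbd
  obtain ⟨hdiff, B, hB⟩ := h6 K α β M X hloc
  have hsq : ∀ v, ‖cut X α v‖ ≤ √(nm v) ∧ ‖cut X β v‖ ≤ √(nm v) := by
    intro v
    by_cases hv : v ∈ X
    · rw [DataE_cut_mem X α v hv, DataE_cut_mem X β v hv, norm_zero]
      exact ⟨Real.sqrt_nonneg _, Real.sqrt_nonneg _⟩
    · rw [DataE_cut_not X α v hv, DataE_cut_not X β v hv]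
      have := hroot v fun h => hv ((hX v).2 h)
      exact ⟨this.1.le, this.2.le⟩
  have hOK : Zg.RootsOK K (cut X α) (cut X β) := by
    refine hX₀.subset fun v hv => ?_
    by_contra hvX
    refine hv ?_
    have hvX' : v ∉ X := fun h => hvX ((hX v).1 h)
    rw [DataE_cut_not X α v hvX', DataE_cut_not X β v hvX']
    obtain ⟨e1, e2⟩ := hroot v hvX
    exact ⟨e1, h8 K (M v) v (α v) (β v) (hloc v) e1 e2⟩
  have hsum' : Summable (fun i => ‖Zs.tauE (cut X α) (cut X β) i‖ / (Zs.lamE K i : ℝ) ^ 3) := by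
    refine Summable.of_nonneg_of_le (fun i => by positivity) (fun i => ?_) hsum
    exact div_le_div_of_nonneg_right (DataE_tau X α β i) (by positivity)
  refine ⟨fun s => ∏ v ∈ X, locDen (M v) v s,
    Zs.coef (Zs.lamE K) (Zs.tauE (cut X α) (cut X β)), 2 * (Module.finrank ℚ K : ℝ), B, k,
    by positivity, h4 K (cut X α) (cut X β) hsq, hlow (cut X α) (cut X β) hOK, hdiff, hB,
    h5 K α β M X hloc, fun s hs => ?_⟩
  have e1 := h3 K α β M X hloc hbd hsum s hs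
  have e2 := h1 _ (Zs.lamE K) (Zs.tauE (cut X α) (cut X β)) DataE_lam hsum' s hs
  rw [← e2, e1, hexp s hs]

end MP7ed9c3.Aw
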