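import Pool.Agent.Lib.MP_7ed9c3_nt.Aw.SpecQ

/-!
# MP_7ed9c3_nt, part Aw: one family of models as a class
-/

set_option autoImplicit false

namespace MP7ed9c3.Aw

open NumberField IsDedekindDomain Filter Topology MeasureTheory Metric

theorem tDataF : S_DataF := by
  intro K _ _ M b hD
  obtain ⟨P, c, C, B₀, k, hC, hco, hlow, hdiff, hB, hN, hprod⟩ := hD
  choose! N₀ hN₀ using hN
  refine ⟨C, k, N₀, hC, fun x hx hxb => ?_⟩
  obtain ⟨η, B, Y₀, hη, hB1, hlow'⟩ := hlow x hx hxb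
  refine ⟨η, B, max 1 (max Y₀ B₀), hη, hB1, fun V hV M' hM' => ?_⟩
  have hM : M' = M := hM'
  subst hM
  have h1 : 1 ≤ V := (le_max_left _ _).trans hV
  have hY : Y₀ ≤ V := ((le_max_left _ _).trans (le_max_right _ _)).trans hV
  have hB₀ : B₀ ≤ V := ((le_max_right _ _).trans (le_max_right _ _)).trans hV
  refine ⟨P, c, hco, ?_, hdiff, ?_, ?_, hprod⟩
  · intro Y hYV
    exact hlow' Y (by nlinarith)
  · intro s hs
    have h2 : V + 1 ≤ Real.exp V := Real.add_one_le_exp V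
    have h3 := hB s (by linarith)
    linarith
  · intro h t Z hh hZ
    exact hN₀ h hh t Z (fun ρ hρ => ⟨(hZ ρ hρ).2.1, (hZ ρ hρ).2.2⟩)

end MP7ed9c3.Aw
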