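import Pool.Agent.Lib.MP_7ed9c3_nt.Aw.Spec

/-!
# MP_7ed9c3_nt, part Aw: assembly of the theorem
-/

set_option autoImplicit false

namespace MP7ed9c3.Aw

open NumberField IsDedekindDomain Filter Topology MeasureTheory Metric

private theorem Fin_b1 {x : ℝ} (hx : 0 < x) : (1 : ℝ) / 2 < 1 / 2 + 1 / x := by
  have : 0 < 1 / x := by positivity
  linarith

private theorem Fin_b2 {x : ℝ} (hx : 2 ≤ x) : (1 : ℝ) / 2 + 1 / x ≤ 1 := by
  have : 1 / x ≤ 1 / 2 := one_div_le_one_div_of_le (by norm_num) hx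
  linarith

theorem tFin (h1 : S_DataE) (h2 : S_Red) (h3 : S_LowA) (h4 : S_LowG) : S_Fin := by
  intro K _ _ E hE M hM
  constructor
  · have hn : 1 ≤ Module.finrank ℚ K := Module.finrank_pos
    have hnR : (1 : ℝ) ≤ (Module.finrank ℚ K : ℝ) := by exact_mod_cast hn
    exact h2 K M _ (Fin_b1 (by linarith)) (Fin_b2 (by linarith)) (h1 K E hE M hM _ _ (h3 K))
  · intro N _ _ _ g k hne hadm
    have hk : 1 ≤ k := by
      obtain ⟨j, hj1, hj2, -⟩ := hadm (fun _ => 0) (fun _ => rfl)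
      omega
    have hkR : (1 : ℝ) ≤ (k : ℝ) := by exact_mod_cast hk
    exact h2 K M _ (Fin_b1 (by linarith)) (Fin_b2 (by linarith))
      (h1 K E hE M hM _ _ (h4 K N g k hne hadm))

end MP7ed9c3.Aw
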