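import Pool.Agent.Lib.MP_7ed9c3_nt.Aw.SpecQ

/-!
# MP_7ed9c3_nt, part Aw: module FinQ

Assembly of the theorem with explicit rate, for one curve.
-/

set_option autoImplicit false

namespace MP7ed9c3.Aw

open NumberField IsDedekindDomain Filter Topology MeasureTheory Metric

/-- An admissible number is positive. -/
private lemma FinQ_adm {Y : Type} [Fintype Y] (π : Equiv.Perm Y) (k : ℕ) (h : Zg.Adm π k) :
    1 ≤ k := by
  obtain ⟨j, h1, h2, _⟩ := h (fun _ => 0) (fun _ => rfl)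
  omega

private lemma FinQ_half (x : ℝ) (hx : 1 ≤ x) : (1 / 2 : ℝ) < 1 / 2 + 1 / (2 * x) ∧
    (1 / 2 : ℝ) + 1 / (2 * x) ≤ 1 := by
  have h1 : 0 < 1 / (2 * x) := by positivity
  have h2 : 1 / (2 * x) ≤ 1 / 2 := by
    apply one_div_le_one_div_of_le (by norm_num)
    linarith
  constructor <;> linarith

private lemma FinQ_quarter (x : ℝ) (hx : 1 ≤ x) : (1 / 2 : ℝ) < 1 / 2 + 1 / (4 * x) ∧
    (1 / 2 : ℝ) + 1 / (4 * x) ≤ 1 := by
  have h1 : 0 < 1 / (4 * x) := by positivity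
  have h2 : 1 / (4 * x) ≤ 1 / 2 := by
    apply one_div_le_one_div_of_le (by norm_num)
    linarith
  constructor <;> linarith

theorem tFinQ (h1 : S_DataE) (h2 : S_DataF) (h3 : S_RedQ) (h4 : S_LowA) (h5 : S_LowG) :
    S_FinQ := by
  intro K _ _ E hE M hM
  refine ⟨?_, ?_⟩
  · have hn : (1 : ℝ) ≤ (Module.finrank ℚ K : ℝ) := by
      exact_mod_cast (Module.finrank_pos : 0 < Module.finrank ℚ K)
    obtain ⟨hb1, hb2⟩ := FinQ_quarter _ hn
    exact h3 K _ _ hb1 hb2 (h2 K M _ (h1 K E hE M hM _ _ (h4 K)))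
  · intro N _ _ _ g k hN hk
    have hk1 : (1 : ℝ) ≤ (k : ℝ) := by exact_mod_cast FinQ_adm _ k hk
    obtain ⟨hb1, hb2⟩ := FinQ_half _ hk1
    exact h3 K _ _ hb1 hb2 (h2 K M _ (h1 K E hE M hM _ _ (h5 K N g k hN hk)))

end MP7ed9c3.Aw
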