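import Pool.Agent.Lib.MP_7ed9c3_nt.Aw.Spec

/-!
# MP_7ed9c3_nt, part Aw: GLow

Lower bound for the weighted square sum of the Taylor coefficients of `m^(-phi)`.
-/

set_option autoImplicit false

namespace MP7ed9c3.Aw

open NumberField IsDedekindDomain Filter Topology MeasureTheory Metric

/-- The condition on `n₀`. -/
private theorem GLow_num (q x : ℝ) (hq0 : 0 < q) (hq1 : q < 1) (n₀ m : ℕ) (hm : 1 ≤ m)
    (hn : (|x| + |Real.log (2 / (1 - q))|) / Real.log (1 / q) * (1 + Real.log m) ≤ n₀) :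
    q ^ n₀ * (1 - q)⁻¹ ≤ (m : ℝ) ^ (-x) / 2 := by
  have hm' : (1 : ℝ) ≤ m := by exact_mod_cast hm
  have hm0 : (0 : ℝ) < m := by linarith
  have hlm : 0 ≤ Real.log m := Real.log_nonneg hm'
  have hl : 0 < Real.log (1 / q) := by
    apply Real.log_pos
    rw [lt_div_iff₀ hq0]
    linarith
  have h1q : 0 < 1 - q := by linarith
  have hd : 0 < 2 / (1 - q) := by positivity
  have hkey : x * Real.log m + Real.log (2 / (1 - q)) ≤ n₀ * Real.log (1 / q) := by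
    have h1 : (|x| + |Real.log (2 / (1 - q))|) * (1 + Real.log m) ≤ n₀ * Real.log (1 / q) := by
      have := mul_le_mul_of_nonneg_right hn hl.le
      calc (|x| + |Real.log (2 / (1 - q))|) * (1 + Real.log m)
          = (|x| + |Real.log (2 / (1 - q))|) / Real.log (1 / q) * (1 + Real.log m) *
              Real.log (1 / q) := by
            field_simp
        _ ≤ _ := this
    have h2 : x * Real.log m ≤ |x| * Real.log m := mul_le_mul_of_nonneg_right (le_abs_self x) hlm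
    have h3 : Real.log (2 / (1 - q)) ≤ |Real.log (2 / (1 - q))| := le_abs_self _
    have h4 : 0 ≤ |Real.log (2 / (1 - q))| * Real.log m := mul_nonneg (abs_nonneg _) hlm
    have h5 : 0 ≤ |x| := abs_nonneg x
    nlinarith
  have hqe : q ^ n₀ = Real.exp (-(n₀ * Real.log (1 / q))) := by
    rw [one_div, Real.log_inv, mul_neg, neg_neg, ← Real.log_pow, Real.exp_log (pow_pos hq0 _)]
  have hme : (m : ℝ) ^ (-x) = Real.exp (-(x * Real.log m)) := by
    rw [Real.rpow_def_of_pos hm0]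
    congr 1
    ring
  have hde : (1 - q) / 2 = Real.exp (-Real.log (2 / (1 - q))) := by
    rw [Real.exp_neg, Real.exp_log hd, inv_div]
  have hle : q ^ n₀ ≤ (m : ℝ) ^ (-x) * ((1 - q) / 2) := by
    rw [hqe, hme, hde, ← Real.exp_add]
    apply Real.exp_le_exp.mpr
    linarith
  calc q ^ n₀ * (1 - q)⁻¹ ≤ (m : ℝ) ^ (-x) * ((1 - q) / 2) * (1 - q)⁻¹ :=
        mul_le_mul_of_nonneg_right hle (inv_nonneg.mpr h1q.le)
    _ = (m : ℝ) ^ (-x) / 2 := by field_simp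

/-- Cauchy-Schwarz. -/
private theorem GLow_cs (a : ℕ → ℝ) (R R' : ℝ) (hR : 0 < R) (hR' : R < R') (n₀ : ℕ) :
    (1 - (R / R') ^ 2) * (∑ n ∈ Finset.range n₀, a n * R ^ n) ^ 2 ≤
      ∑ n ∈ Finset.range n₀, R' ^ (2 * n) * a n ^ 2 := by
  have hR'0 : 0 < R' := hR.trans hR'
  have hq0 : 0 < R / R' := div_pos hR hR'0
  have hq1 : R / R' < 1 := (div_lt_one hR'0).mpr hR'
  have hq2 : (R / R') ^ 2 < 1 := by
    have := pow_lt_one₀ hq0.le hq1 (two_ne_zero)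
    exact this
  have h0 : 0 < 1 - (R / R') ^ 2 := by linarith
  have hcs := Finset.sum_mul_sq_le_sq_mul_sq (Finset.range n₀) (fun n => R' ^ n * a n)
    (fun n => (R / R') ^ n)
  have e1 : ∑ n ∈ Finset.range n₀, R' ^ n * a n * (R / R') ^ n =
      ∑ n ∈ Finset.range n₀, a n * R ^ n := by
    refine Finset.sum_congr rfl fun n _ => ?_
    rw [div_pow]
    have : R' ^ n ≠ 0 := pow_ne_zero _ hR'0.ne'
    field_simp
  have e2 : ∑ n ∈ Finset.range n₀, (R' ^ n * a n) ^ 2 =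
      ∑ n ∈ Finset.range n₀, R' ^ (2 * n) * a n ^ 2 := by
    refine Finset.sum_congr rfl fun n _ => ?_
    ring
  have e3 : ∑ n ∈ Finset.range n₀, ((R / R') ^ n) ^ 2 ≤ (1 - (R / R') ^ 2)⁻¹ := by
    have h1 : ∑ n ∈ Finset.range n₀, ((R / R') ^ n) ^ 2 =
        ∑ n ∈ Finset.range n₀, ((R / R') ^ 2) ^ n := by
      refine Finset.sum_congr rfl fun n _ => ?_
      rw [← pow_mul, ← pow_mul, mul_comm]
    rw [h1]
    exact (hasSum_geometric_of_lt_one (sq_nonneg _) hq2).summable.sum_le_tsum _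
      (fun i _ => pow_nonneg (sq_nonneg _) i) |>.trans
      (by rw [tsum_geometric_of_lt_one (sq_nonneg _) hq2])
  have hS : 0 ≤ ∑ n ∈ Finset.range n₀, R' ^ (2 * n) * a n ^ 2 :=
    Finset.sum_nonneg fun n _ => mul_nonneg (pow_nonneg hR'0.le _) (sq_nonneg _)
  rw [e1, e2] at hcs
  calc (1 - (R / R') ^ 2) * (∑ n ∈ Finset.range n₀, a n * R ^ n) ^ 2
      ≤ (1 - (R / R') ^ 2) * ((∑ n ∈ Finset.range n₀, R' ^ (2 * n) * a n ^ 2) *
          ∑ n ∈ Finset.range n₀, ((R / R') ^ n) ^ 2) := mul_le_mul_of_nonneg_left hcs h0.le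
    _ ≤ (1 - (R / R') ^ 2) * ((∑ n ∈ Finset.range n₀, R' ^ (2 * n) * a n ^ 2) *
          (1 - (R / R') ^ 2)⁻¹) :=
        mul_le_mul_of_nonneg_left (mul_le_mul_of_nonneg_left e3 hS) h0.le
    _ = ∑ n ∈ Finset.range n₀, R' ^ (2 * n) * a n ^ 2 := by
        rw [mul_comm (∑ n ∈ Finset.range n₀, R' ^ (2 * n) * a n ^ 2), ← mul_assoc,
          mul_inv_cancel₀ h0.ne', one_mul]

theorem tGLow (h1 : S_Phi) (h2 : S_Tc) (h3 : S_GUp) : S_GLow := by
  intro h R R' R₂ hh hR hRR' hR'R₂ hR₂ hell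
  obtain ⟨hphid, -, -, hphiv, -⟩ := h1 h hh
  obtain ⟨-, -, -, hhs, -⟩ := h2
  have hR'0 : 0 < R' := hR.trans hRR'
  have hR₂0 : 0 < R₂ := hR'0.trans hR'R₂
  have hRR₂ : R < R₂ := hRR'.trans hR'R₂
  have hR1 : R < 1 := hRR₂.trans hR₂
  have hq0 : 0 < R / R₂ := div_pos hR hR₂0
  have hq1 : R / R₂ < 1 := (div_lt_one hR₂0).mpr hRR₂
  have hl : 0 < Real.log (1 / (R / R₂)) := by
    apply Real.log_pos
    rw [lt_div_iff₀ hq0]
    linarith
  have hqq0 : 0 < R / R' := div_pos hR hR'0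
  have hqq1 : (R / R') ^ 2 < 1 :=
    pow_lt_one₀ hqq0.le ((div_lt_one hR'0).mpr hRR') two_ne_zero
  refine ⟨(1 - (R / R') ^ 2) / 4,
    (|ell h R| + |Real.log (2 / (1 - R / R₂))|) / Real.log (1 / (R / R₂)), by linarith,
    by positivity, ?_⟩
  intro n₀ m hm hn
  have hm' : (1 : ℝ) ≤ m := by exact_mod_cast hm
  have hm0 : (0 : ℝ) < m := by linarith
  have hmc : (m : ℂ) ≠ 0 := by
    have : m ≠ 0 := by omega
    exact_mod_cast this
  have hfd : DifferentiableOn ℂ (fun w => (m : ℂ) ^ (-phi h w)) (ball 0 1) :=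
    hphid.neg.const_cpow (Or.inl hmc)
  have hmem : (-(R : ℂ)) ∈ ball (0 : ℂ) 1 := by
    rw [mem_ball_zero_iff, norm_neg, Complex.norm_real, Real.norm_eq_abs, abs_of_pos hR]
    exact hR1
  have hs := hhs 1 (fun w => (m : ℂ) ^ (-phi h w)) (-(R : ℂ)) one_pos hfd hmem
  have hval : ‖(m : ℂ) ^ (-phi h (-(R : ℂ)))‖ = (m : ℝ) ^ (-ell h R) := by
    rw [hphiv R hR.le hR1, Complex.norm_natCast_cpow_of_pos (by omega)]
    simp
  have hnormT : ∀ n, ‖gT h n m * (-(R : ℂ)) ^ n‖ = ‖gT h n m‖ * R ^ n := by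
    intro n
    rw [norm_mul, norm_pow, norm_neg, Complex.norm_real, Real.norm_eq_abs, abs_of_pos hR]
  have hup : ∀ n, ‖gT h n m * (-(R : ℂ)) ^ n‖ ≤ (R / R₂) ^ n := by
    intro n
    rw [hnormT]
    have hg := h3 h R₂ n m hh hR₂0 hR₂ hm
    have hle1 : (m : ℝ) ^ (-ell h R₂) ≤ 1 :=
      Real.rpow_le_one_of_one_le_of_nonpos hm' (by linarith)
    have hg' : ‖gT h n m‖ ≤ 1 / R₂ ^ n :=
      hg.trans (div_le_div_of_nonneg_right hle1 (pow_nonneg hR₂0.le _))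
    calc ‖gT h n m‖ * R ^ n ≤ 1 / R₂ ^ n * R ^ n :=
          mul_le_mul_of_nonneg_right hg' (pow_nonneg hR.le _)
      _ = (R / R₂) ^ n := by rw [div_pow]; ring
  have hs' : HasSum (fun n : ℕ => gT h n m * (-(R : ℂ)) ^ n) ((m : ℂ) ^ (-phi h (-(R : ℂ)))) := hs
  have hsplit := hs'.summable.sum_add_tsum_nat_add n₀
  rw [hs'.tsum_eq] at hsplit
  have htail : ‖∑' i, gT h (i + n₀) m * (-(R : ℂ)) ^ (i + n₀)‖ ≤
      (R / R₂) ^ n₀ * (1 - R / R₂)⁻¹ := by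
    refine tsum_of_norm_bounded
      ((hasSum_geometric_of_lt_one hq0.le hq1).mul_left ((R / R₂) ^ n₀)) fun i => ?_
    refine (hup (i + n₀)).trans (le_of_eq ?_)
    rw [pow_add, mul_comm]
  have hnum := GLow_num (R / R₂) (ell h R) hq0 hq1 n₀ m hm hn
  have hfin : ‖∑ n ∈ Finset.range n₀, gT h n m * (-(R : ℂ)) ^ n‖ ≤
      ∑ n ∈ Finset.range n₀, ‖gT h n m‖ * R ^ n := by
    refine (norm_sum_le _ _).trans (le_of_eq ?_)
    exact Finset.sum_congr rfl fun n _ => hnormT n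
  have hhalf : (m : ℝ) ^ (-ell h R) / 2 ≤ ∑ n ∈ Finset.range n₀, ‖gT h n m‖ * R ^ n := by
    have htri : (m : ℝ) ^ (-ell h R) ≤
        ‖∑ n ∈ Finset.range n₀, gT h n m * (-(R : ℂ)) ^ n‖ +
          ‖∑' i, gT h (i + n₀) m * (-(R : ℂ)) ^ (i + n₀)‖ := by
      rw [← hval, ← hsplit]
      exact norm_add_le _ _
    linarith
  have hcs := GLow_cs (fun n => ‖gT h n m‖) R R' hR hRR' n₀
  have hpos : 0 ≤ (m : ℝ) ^ (-ell h R) / 2 := by positivity
  have hsq : ((m : ℝ) ^ (-ell h R) / 2) ^ 2 ≤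
      (∑ n ∈ Finset.range n₀, ‖gT h n m‖ * R ^ n) ^ 2 :=
    pow_le_pow_left₀ hpos hhalf 2
  have hpow : (m : ℝ) ^ (-(2 * ell h R)) = ((m : ℝ) ^ (-ell h R)) ^ 2 := by
    rw [← Real.rpow_natCast, ← Real.rpow_mul hm0.le]
    congr 1
    push_cast
    ring
  calc (1 - (R / R') ^ 2) / 4 * (m : ℝ) ^ (-(2 * ell h R))
      = (1 - (R / R') ^ 2) * ((m : ℝ) ^ (-ell h R) / 2) ^ 2 := by rw [hpow]; ring
    _ ≤ (1 - (R / R') ^ 2) * (∑ n ∈ Finset.range n₀, ‖gT h n m‖ * R ^ n) ^ 2 :=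
        mul_le_mul_of_nonneg_left hsq (by linarith)
    _ ≤ _ := hcs

end MP7ed9c3.Aw
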