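import Pool.Agent.Lib.MP_7ed9c3_nt.Aw.Spec

/-!
# MP_7ed9c3_nt, Aw/LocB: finitely many Euler polynomials are entire and bounded for `Re s ≥ 0`
-/

set_option autoImplicit false

namespace MP7ed9c3.Aw

open NumberField IsDedekindDomain Filter Topology MeasureTheory Metric

private theorem LocB_pos {K : Type} [Field K] [NumberField K] (v : HeightOneSpectrum (𝓞 K)) :
    0 < nm v := by
  unfold nm
  have h : Ideal.absNorm v.asIdeal ≠ 0 := by
    intro h0
    exact v.ne_bot (Ideal.absNorm_eq_zero_iff.mp h0)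
  exact Nat.pos_of_ne_zero h

private theorem LocB_fac (q : ℕ) (hq : 0 < q) (a s : ℂ) (hs : 0 ≤ s.re) :
    ‖1 - a * (q : ℂ) ^ (-s)‖ ≤ 1 + ‖a‖ := by
  have h1 : ‖(q : ℂ) ^ (-s)‖ ≤ 1 := by
    rw [Complex.norm_natCast_cpow_of_pos hq, Complex.neg_re]
    exact Real.rpow_le_one_of_one_le_of_nonpos (by exact_mod_cast hq) (by linarith)
  calc ‖1 - a * (q : ℂ) ^ (-s)‖ ≤ ‖(1 : ℂ)‖ + ‖a * (q : ℂ) ^ (-s)‖ := norm_sub_le _ _
    _ = 1 + ‖a‖ * ‖(q : ℂ) ^ (-s)‖ := by rw [norm_one, norm_mul]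
    _ ≤ 1 + ‖a‖ := by
        have := mul_le_mul_of_nonneg_left h1 (norm_nonneg a)
        linarith

private theorem LocB_diff (q : ℕ) (hq : 0 < q) (a : ℂ) :
    Differentiable ℂ fun s : ℂ => 1 - a * (q : ℂ) ^ (-s) := by
  have hq0 : (q : ℂ) ≠ 0 := by exact_mod_cast hq.ne'
  have h1 : Differentiable ℂ fun s : ℂ => (q : ℂ) ^ (-s) :=
    (differentiable_neg).const_cpow (Or.inl hq0)
  exact (differentiable_const _).sub ((differentiable_const _).mul h1)

/-- **LocB**. -/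
theorem tLocB : S_LocB := by
  intro K _ _ α β M X hM
  have hfun : (fun s : ℂ => ∏ v ∈ X, locDen (M v) v s) =
      fun s : ℂ => ∏ v ∈ X, ((1 - α v * (nm v : ℂ) ^ (-s)) * (1 - β v * (nm v : ℂ) ^ (-s))) := by
    funext s
    exact Finset.prod_congr rfl fun v _ => hM v s
  refine ⟨?_, ∏ v ∈ X, ((1 + ‖α v‖) * (1 + ‖β v‖)), ?_⟩
  · rw [hfun]
    have hd : ∀ v ∈ X, Differentiable ℂ fun s : ℂ =>
        (1 - α v * (nm v : ℂ) ^ (-s)) * (1 - β v * (nm v : ℂ) ^ (-s)) := fun v _ =>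
      (LocB_diff (nm v) (LocB_pos v) (α v)).mul (LocB_diff (nm v) (LocB_pos v) (β v))
    exact Differentiable.fun_finsetProd hd
  · intro s hs
    rw [Finset.prod_congr rfl fun v _ => hM v s, norm_prod]
    refine Finset.prod_le_prod (fun v _ => norm_nonneg _) fun v _ => ?_
    rw [norm_mul]
    exact mul_le_mul (LocB_fac (nm v) (LocB_pos v) (α v) s hs)
      (LocB_fac (nm v) (LocB_pos v) (β v) s hs) (norm_nonneg _)
      (by have := norm_nonneg (α v); linarith)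

end MP7ed9c3.Aw
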