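import Pool.Agent.Lib.MP_7ed9c3_nt.Aw.Spec

/-!
# MP_7ed9c3_nt, part Aw, LocZ: zeros of finitely many Euler polynomials in a window
-/

set_option autoImplicit false

namespace MP7ed9c3.Aw

open NumberField IsDedekindDomain Filter Topology MeasureTheory Metric

private theorem LocZ_eq (a : ℂ) (q : ℕ) (hq : 2 ≤ q) (s s' : ℂ)
    (h : 1 - a * (q : ℂ) ^ (-s) = 0) (h' : 1 - a * (q : ℂ) ^ (-s') = 0) :
    ∃ n : ℤ, (s.im - s'.im) * Real.log q / (2 * Real.pi) = n ∧ s.re = s'.re := by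
  have hq0 : (q : ℂ) ≠ 0 := by exact_mod_cast (by omega : q ≠ 0)
  have hqr : (1 : ℝ) < q := by exact_mod_cast (by omega : 1 < q)
  have hlog : Real.log q ≠ 0 := (Real.log_pos hqr).ne'
  have ha : a ≠ 0 := by
    intro h0
    rw [h0, zero_mul, sub_zero] at h
    exact one_ne_zero h
  have h1 : a * (q : ℂ) ^ (-s) = a * (q : ℂ) ^ (-s') := by linear_combination h' - h
  have h2 : (q : ℂ) ^ (-s) = (q : ℂ) ^ (-s') := mul_left_cancel₀ ha h1
  rw [Complex.cpow_def_of_ne_zero hq0, Complex.cpow_def_of_ne_zero hq0,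
    Complex.exp_eq_exp_iff_exists_int] at h2
  obtain ⟨n, hn⟩ := h2
  have hl : Complex.log (q : ℂ) = ((Real.log q : ℝ) : ℂ) := (Complex.natCast_log).symm
  rw [hl] at hn
  have him := congrArg Complex.im hn
  have hre := congrArg Complex.re hn
  simp only [Complex.mul_im, Complex.add_im, Complex.neg_im, Complex.neg_re, Complex.ofReal_re,
    Complex.ofReal_im, Complex.mul_re, Complex.add_re, Complex.I_re, Complex.I_im,
    Complex.intCast_re, Complex.intCast_im, Complex.re_ofNat, Complex.im_ofNat, zero_mul,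
    mul_zero, mul_one, sub_zero, add_zero] at him hre
  refine ⟨-n, ?_, ?_⟩
  · have hpi : (2 * Real.pi) ≠ 0 := by positivity
    rw [div_eq_iff hpi]
    push_cast
    linarith
  · have h3 : Real.log q * (s.re - s'.re) = 0 := by linarith
    rcases mul_eq_zero.mp h3 with h4 | h4
    · exact absurd h4 hlog
    · linarith

private theorem LocZ_one (a : ℂ) (q : ℕ) (hq : 2 ≤ q) (h : ℝ) :
    ∃ N₀ : ℕ, ∀ (t : ℝ) (Z : Finset ℂ),
      (∀ ρ ∈ Z, |ρ.im - t| < h ∧ 1 - a * (q : ℂ) ^ (-ρ) = 0) → Z.card ≤ N₀ := by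
  have hqr : (1 : ℝ) < q := by exact_mod_cast (by omega : 1 < q)
  have hlog : 0 < Real.log q := Real.log_pos hqr
  have hpi : 0 < 2 * Real.pi := by positivity
  obtain ⟨B, hB⟩ := exists_nat_ge (h * Real.log q / (2 * Real.pi))
  refine ⟨(Finset.Icc (-(B : ℤ)) B).card, ?_⟩
  intro t Z hZ
  refine Finset.card_le_card_of_injOn
    (fun ρ : ℂ => ⌊(ρ.im - t) * Real.log q / (2 * Real.pi)⌋) ?_ ?_
  · intro ρ hρ
    obtain ⟨h1, -⟩ := hZ ρ hρ
    obtain ⟨h2, h3⟩ := abs_lt.mp h1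
    have h4 : (ρ.im - t) * Real.log q / (2 * Real.pi) ≤ h * Real.log q / (2 * Real.pi) :=
      div_le_div_of_nonneg_right (mul_le_mul_of_nonneg_right h3.le hlog.le) hpi.le
    have h5 : -(h * Real.log q / (2 * Real.pi)) ≤ (ρ.im - t) * Real.log q / (2 * Real.pi) := by
      rw [← neg_div, ← neg_mul]
      exact div_le_div_of_nonneg_right (mul_le_mul_of_nonneg_right h2.le hlog.le) hpi.le
    rw [Finset.mem_coe, Finset.mem_Icc]
    constructor
    · rw [Int.le_floor]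
      push_cast
      linarith
    · have h6 : (⌊(ρ.im - t) * Real.log q / (2 * Real.pi)⌋ : ℝ) ≤ (B : ℝ) :=
        (Int.floor_le _).trans (h4.trans hB)
      exact_mod_cast h6
  · intro ρ hρ ρ' hρ' hfl
    obtain ⟨-, h1⟩ := hZ ρ hρ
    obtain ⟨-, h2⟩ := hZ ρ' hρ'
    obtain ⟨n, hn, hre⟩ := LocZ_eq a q hq ρ ρ' h1 h2
    have h3 : |(ρ.im - t) * Real.log q / (2 * Real.pi) - (ρ'.im - t) * Real.log q / (2 * Real.pi)|
        < 1 := Int.abs_sub_lt_one_of_floor_eq_floor hfl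
    have h4 : (ρ.im - t) * Real.log q / (2 * Real.pi) - (ρ'.im - t) * Real.log q / (2 * Real.pi) =
        (n : ℝ) := by
      rw [← hn]
      ring
    rw [h4] at h3
    have h5 : n = 0 := by
      have : |n| < 1 := by exact_mod_cast h3
      exact Int.abs_lt_one_iff.mp this
    rw [h5, Int.cast_zero, div_eq_zero_iff] at hn
    rcases hn with hn | hn
    · rcases mul_eq_zero.mp hn with hn | hn
      · exact Complex.ext hre (by linarith)
      · exact absurd hn hlog.ne'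
    · exact absurd hn hpi.ne'

theorem tLocZ : S_LocZ := by
  classical
  intro K _ _ α β M X hfac h _
  have hq : ∀ v : HeightOneSpectrum (𝓞 K), 2 ≤ nm v := by
    intro v
    have : 1 < Ideal.absNorm v.asIdeal := HeightOneSpectrum.one_lt_absNorm v
    exact this
  have hA := fun v : HeightOneSpectrum (𝓞 K) => LocZ_one (α v) (nm v) (hq v) h
  have hB := fun v : HeightOneSpectrum (𝓞 K) => LocZ_one (β v) (nm v) (hq v) h
  choose NA hNA using hA
  choose NB hNB using hB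
  refine ⟨∑ v ∈ X, (NA v + NB v), ?_⟩
  intro t Z hZ
  have hsub : Z ⊆ X.biUnion fun v =>
      (Z.filter fun ρ => 1 - α v * (nm v : ℂ) ^ (-ρ) = 0) ∪
        (Z.filter fun ρ => 1 - β v * (nm v : ℂ) ^ (-ρ) = 0) := by
    intro ρ hρ
    obtain ⟨-, h0⟩ := hZ ρ hρ
    obtain ⟨v, hv, h1⟩ := Finset.prod_eq_zero_iff.mp h0
    rw [hfac v ρ] at h1
    rw [Finset.mem_biUnion]
    refine ⟨v, hv, ?_⟩
    rw [Finset.mem_union, Finset.mem_filter, Finset.mem_filter]
    rcases mul_eq_zero.mp h1 with h2 | h2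
    · exact Or.inl ⟨hρ, h2⟩
    · exact Or.inr ⟨hρ, h2⟩
  refine (Finset.card_le_card hsub).trans (Finset.card_biUnion_le.trans ?_)
  refine Finset.sum_le_sum fun v _ => ?_
  refine (Finset.card_union_le _ _).trans (add_le_add ?_ ?_)
  · refine hNA v t _ fun ρ hρ => ?_
    obtain ⟨h1, h2⟩ := Finset.mem_filter.mp hρ
    exact ⟨(hZ ρ h1).1, h2⟩
  · refine hNB v t _ fun ρ hρ => ?_
    obtain ⟨h1, h2⟩ := Finset.mem_filter.mp hρ
    exact ⟨(hZ ρ h1).1, h2⟩

end MP7ed9c3.Aw
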