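import Pool.Agent.Lib.MP_7ed9c3_nt.Aw.Spec
import Pool.Agent.Lib.MP_7ed9c3_nt.Zs.LogBall
import Mathlib.Analysis.Complex.BorelCaratheodory

/-!
# MP_7ed9c3_nt, part Aw, module LogW: the logarithm in a window without zeros
-/

set_option autoImplicit false

namespace MP7ed9c3.Aw

open NumberField IsDedekindDomain Filter Topology MeasureTheory Metric

private noncomputable def LogW_u (C : ℝ) (m : ℕ) : ℝ := C * (m : ℝ) ^ (-(5 / 2 : ℝ))

private lemma LogW_summable (C : ℝ) : Summable (LogW_u C) :=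
  (Real.summable_nat_rpow.2 (by norm_num)).mul_left C

private lemma LogW_term {c : ℕ → ℂ} {C : ℝ} (hC : 0 ≤ C) (hc : Coefs c C) (m : ℕ) (s : ℂ)
    (hs : 3 ≤ s.re) : ‖c m * (m : ℂ) ^ (-s)‖ ≤ LogW_u C m := by
  rcases Nat.eq_zero_or_pos m with hm | hm
  · have h0 : c m = 0 := by
      have := hc.2 m
      rw [hm, Nat.cast_zero, Real.sqrt_zero, mul_zero] at this
      rw [hm]
      exact norm_le_zero_iff.1 this
    rw [h0, zero_mul, norm_zero]
    unfold LogW_u
    positivity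
  · have hm1 : (1 : ℝ) ≤ m := by exact_mod_cast hm
    have hm0 : (0 : ℝ) < m := by linarith
    rw [norm_mul, Complex.norm_natCast_cpow_of_pos hm]
    have h1 : (m : ℝ) ^ (-s).re ≤ (m : ℝ) ^ (-3 : ℝ) :=
      Real.rpow_le_rpow_of_exponent_le hm1 (by rw [Complex.neg_re]; linarith)
    calc ‖c m‖ * (m : ℝ) ^ (-s).re ≤ (C * √m) * (m : ℝ) ^ (-3 : ℝ) :=
          mul_le_mul (hc.2 m) h1 (Real.rpow_nonneg hm0.le _) (mul_nonneg hC (Real.sqrt_nonneg _))
      _ = LogW_u C m := by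
        unfold LogW_u
        rw [mul_assoc, Real.sqrt_eq_rpow, ← Real.rpow_add hm0]
        norm_num

private lemma LogW_cont {c : ℕ → ℂ} {C : ℝ} (hC : 0 ≤ C) (hc : Coefs c C) :
    ContinuousOn (dir c) {s : ℂ | 3 ≤ s.re} := by
  unfold dir
  refine continuousOn_tsum (u := LogW_u C) ?_ (LogW_summable C) ?_
  · intro m
    rcases Nat.eq_zero_or_pos m with hm | hm
    · have h0 : c m = 0 := by
        have := hc.2 m
        rw [hm, Nat.cast_zero, Real.sqrt_zero, mul_zero] at this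
        rw [hm]
        exact norm_le_zero_iff.1 this
      simp only [h0, zero_mul]
      exact continuousOn_const
    · have hm0 : (m : ℂ) ≠ 0 := by
        exact_mod_cast hm.ne'
      exact (continuous_const.mul (continuous_neg.const_cpow (Or.inl hm0))).continuousOn
  · intro m s hs
    exact LogW_term hC hc m s hs

private lemma LogW_bound {c : ℕ → ℂ} {C : ℝ} (hC : 0 ≤ C) (hc : Coefs c C) (s : ℂ)
    (hs : 3 ≤ s.re) : ‖dir c s‖ ≤ ∑' m, LogW_u C m :=
  tsum_of_norm_bounded (LogW_summable C).hasSum fun m => LogW_term hC hc m s hs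

theorem tLogW (h1 : S_Phi) : S_LogW := by
  intro h σ₁ b r₀ R R' R₂ R₁ C hh hC hR
  obtain ⟨hphi1, hphi2, hphi3, -, -⟩ := h1 h hh
  have hr0 := hR.r₀pos
  have hl1 := hR.lt1
  have hl2 := hR.lt2
  have hl3 := hR.lt3
  have hl4 := hR.lt4
  have hl5 := hR.lt5
  have hB0 : 0 ≤ ∑' m, LogW_u C m := tsum_nonneg fun m => by
    unfold LogW_u
    positivity
  set B : ℝ := ∑' m, LogW_u C m with hB
  have hR12 : 0 < R₁ - R₂ := by linarith
  have hR2 : 0 < R₂ := by linarith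
  refine ⟨2 * R₂ / (R₁ - R₂) + B * (R₁ + R₂) / (R₁ - R₂), ?_, ?_⟩
  · have : 0 < R₁ + R₂ := by linarith
    positivity
  intro c G t V hc hV hG hG0 hGV hGd
  -- the map of the ball
  have hsub : ball (0 : ℂ) R₁ ⊆ ball (0 : ℂ) 1 := ball_subset_ball hl5.le
  have hmem : ∀ w ∈ ball (0 : ℂ) R₁, phi h w + t * Complex.I ∈ win σ₁ h t := by
    intro w hw
    have hw1 : ‖w‖ ≤ R₁ := (mem_ball_zero_iff.1 hw).le
    have h2 := hphi3 R₁ w (by linarith) hl5 hw1
    have h3 := hphi2 w (hsub hw)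
    have h4 := hR.e1
    refine ⟨?_, ?_⟩
    · have : (phi h w + t * Complex.I).re = (phi h w).re := by simp
      rw [this]
      linarith
    · have : (phi h w + t * Complex.I).im - t = (phi h w).im := by simp
      rw [this]
      exact h3
  have hmem3 : ∀ w ∈ ball (0 : ℂ) r₀, 3 ≤ (phi h w + t * Complex.I).re := by
    intro w hw
    have hw1 : ‖w‖ ≤ r₀ := (mem_ball_zero_iff.1 hw).le
    have h2 := hphi3 r₀ w hr0.le (by linarith) hw1
    have : (phi h w + t * Complex.I).re = (phi h w).re := by simp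
    rw [this]
    linarith [hR.e0]
  have hsub0 : ball (0 : ℂ) r₀ ⊆ ball (0 : ℂ) R₁ := ball_subset_ball (by linarith)
  have hpsi : DifferentiableOn ℂ (fun w => phi h w + t * Complex.I) (ball 0 R₁) :=
    (hphi1.mono hsub).add_const _
  have hg : DifferentiableOn ℂ (fun w => G (phi h w + t * Complex.I)) (ball 0 R₁) :=
    hG.comp hpsi hmem
  have hR1 : 0 < R₁ := by linarith
  obtain ⟨f₀, hf₀, hexp⟩ := MP7ed9c3.Zs.logballz_exists hR1 hg fun w hw => hG0 _ (hmem w hw)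
  -- the difference
  set d : ℂ → ℂ := fun w => f₀ w - dir c (phi h w + t * Complex.I) with hd
  have hdc : ContinuousOn d (ball 0 r₀) := by
    refine (hf₀.continuousOn.mono hsub0).sub ?_
    exact (LogW_cont hC hc).comp (hpsi.continuousOn.mono hsub0) hmem3
  have hd1 : ∀ w ∈ ball (0 : ℂ) r₀, Complex.exp (d w) = 1 := by
    intro w hw
    rw [hd]
    simp only
    rw [Complex.exp_sub, hexp w (hsub0 hw), hGd _ (hmem w (hsub0 hw)) (hmem3 w hw)]
    exact div_self (Complex.exp_ne_zero _)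
  have hdconst : ∀ w ∈ ball (0 : ℂ) r₀, d w = d 0 := by
    intro w hw
    have hseg : ∀ s ∈ Set.Icc (0 : ℝ) 1, (s : ℂ) * w ∈ ball (0 : ℂ) r₀ := by
      intro s hs
      rw [mem_ball_zero_iff] at hw ⊢
      rw [norm_mul, Complex.norm_real, Real.norm_of_nonneg hs.1]
      calc s * ‖w‖ ≤ 1 * ‖w‖ := mul_le_mul_of_nonneg_right hs.2 (norm_nonneg _)
        _ < r₀ := by rw [one_mul]; exact hw
    have h5 : ContinuousOn (fun s : ℝ => d ((s : ℂ) * w)) (Set.Icc 0 1) := by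
      refine hdc.comp ?_ hseg
      exact (Complex.continuous_ofReal.mul continuous_const).continuousOn
    have h6 := MP7ed9c3.Zs.logballz_const h5 (fun s hs => hd1 _ (hseg s hs))
      (Set.right_mem_Icc.2 zero_le_one) (Set.left_mem_Icc.2 zero_le_one)
    simpa using h6
  have h0mem : (0 : ℂ) ∈ ball (0 : ℂ) r₀ := mem_ball_self hr0
  have hexpd : Complex.exp (d 0) = 1 := hd1 0 h0mem
  have hfr : ∀ w ∈ ball (0 : ℂ) r₀, f₀ w - d 0 = dir c (phi h w + t * Complex.I) := by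
    intro w hw
    rw [← hdconst w hw, hd]
    ring
  refine ⟨fun w => f₀ w - d 0, hf₀.sub_const _, hfr, ?_⟩
  intro w hw
  have hfd : DifferentiableOn ℂ (fun w => f₀ w - d 0) (ball 0 R₁) := hf₀.sub_const _
  have hfe : ∀ w ∈ ball (0 : ℂ) R₁, Complex.exp (f₀ w - d 0) = G (phi h w + t * Complex.I) := by
    intro w hw
    rw [Complex.exp_sub, hexpd, div_one, hexp w hw]
  have hre : Set.MapsTo (fun w => f₀ w - d 0) (ball 0 R₁) {z | z.re ≤ V + 1} := by
    intro w hw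
    have h7 : Real.exp (f₀ w - d 0).re ≤ Real.exp V := by
      rw [← Complex.norm_exp, hfe w hw]
      exact hGV _ (hmem w hw)
    have h8 := Real.exp_le_exp.1 h7
    change (f₀ w - d 0).re ≤ V + 1
    linarith
  have hw2 : ‖w‖ < R₂ := mem_ball_zero_iff.1 hw
  have hw1 : w ∈ ball (0 : ℂ) R₁ := mem_ball_zero_iff.2 (by linarith)
  have h9 := Complex.borelCaratheodory (by linarith : 0 < V + 1) hfd hre hR1 hw1
  have h10 : ‖f₀ 0 - d 0‖ ≤ B := by
    rw [hfr 0 h0mem]
    exact LogW_bound hC hc _ (hmem3 0 h0mem)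
  have hden : R₁ - R₂ ≤ R₁ - ‖w‖ := by linarith
  have hden0 : 0 < R₁ - ‖w‖ := by linarith
  have h11 : 2 * (V + 1) * ‖w‖ / (R₁ - ‖w‖) ≤ 2 * (V + 1) * R₂ / (R₁ - R₂) := by
    apply div_le_div₀ (by positivity) _ hR12 hden
    exact mul_le_mul_of_nonneg_left hw2.le (by linarith)
  have h12 : ‖f₀ 0 - d 0‖ * (R₁ + ‖w‖) / (R₁ - ‖w‖) ≤ B * (R₁ + R₂) / (R₁ - R₂) := by
    apply div_le_div₀ (by positivity) _ hR12 hden
    exact mul_le_mul h10 (by linarith) (by positivity) hB0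
  have h13 : 0 ≤ B * (R₁ + R₂) / (R₁ - R₂) := by positivity
  calc ‖f₀ w - d 0‖ ≤ 2 * (V + 1) * R₂ / (R₁ - R₂) + B * (R₁ + R₂) / (R₁ - R₂) :=
        h9.trans (add_le_add h11 h12)
    _ ≤ 2 * (V + 1) * R₂ / (R₁ - R₂) + B * (R₁ + R₂) / (R₁ - R₂) * (V + 1) := by
      have := le_mul_of_one_le_right h13 (by linarith : 1 ≤ V + 1)
      linarith
    _ = _ := by ring

end MP7ed9c3.Aw
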