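import Pool.Agent.Lib.MP_7ed9c3_nt.Aw.Spec

/-!
# MP_7ed9c3_nt, part Aw, module LowA (helper14): the lower bound for `b = 1/2 + 1/(4n)`
-/

set_option autoImplicit false

namespace MP7ed9c3.Aw

open NumberField IsDedekindDomain Filter Topology MeasureTheory Metric

private theorem LowA_nm_pos {K : Type} [Field K] [NumberField K] (v : HeightOneSpectrum (𝓞 K)) :
    (0 : ℝ) < nm v := by
  have h : nm v ≠ 0 := by
    unfold nm
    rw [Ne, Ideal.absNorm_eq_zero_iff]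
    exact v.ne_bot
  exact_mod_cast Nat.pos_of_ne_zero h

private theorem LowA_norm {a b : ℂ} {q : ℝ} (hq : 0 < q) (ha : ‖a‖ = √q) (hab : a * b = (q : ℂ)) :
    ‖b‖ = √q := by
  have h1 : ‖a‖ * ‖b‖ = q := by
    rw [← norm_mul, hab, Complex.norm_real, Real.norm_of_nonneg hq.le]
  have h2 : 0 < √q := Real.sqrt_pos.2 hq
  have h3 : √q * √q = q := Real.mul_self_sqrt hq.le
  rw [ha] at h1
  exact mul_left_cancel₀ h2.ne' (h1.trans h3.symm)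

theorem tLowA (h1 : Zs.S_Lower) : S_LowA := by
  intro K _ _ α β hroots x hx1 hx2
  have hgood : ∀ v ∉ {v : HeightOneSpectrum (𝓞 K) | ¬ (‖α v‖ = √(nm v) ∧ α v * β v = (nm v : ℂ))},
      ‖α v‖ = √(nm v) ∧ ‖β v‖ = √(nm v) := by
    intro v hv
    obtain ⟨h2, h3⟩ : ‖α v‖ = √(nm v) ∧ α v * β v = (nm v : ℂ) := by
      by_contra h4
      exact hv h4
    refine ⟨h2, LowA_norm (LowA_nm_pos v) h2 ?_⟩
    rw [h3]
    norm_num
  obtain ⟨η, P₀, hη, hP⟩ := h1 K α β _ hroots hgood x hx1 hx2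
  refine ⟨η, 2, max (P₀ : ℝ) 2, hη, by norm_num, fun Y hY => ?_⟩
  have hY1 : (P₀ : ℝ) ≤ Y := (le_max_left _ _).trans hY
  have hY2 : (2 : ℝ) ≤ Y := (le_max_right _ _).trans hY
  have hc : Y ≤ (⌈Y⌉₊ : ℝ) := Nat.le_ceil Y
  have hc2 : (⌈Y⌉₊ : ℝ) < Y + 1 := Nat.ceil_lt_add_one (by linarith)
  obtain ⟨S, hS1, hS2⟩ := hP ⌈Y⌉₊ (by exact_mod_cast hY1.trans hc)
  refine ⟨⌈Y⌉₊, S, hc, ?_, hS1, hS2⟩
  have h5 : Y ^ (2 : ℝ) = Y * Y := by
    rw [Real.rpow_two, sq]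
  rw [h5]
  nlinarith

end MP7ed9c3.Aw
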