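import Pool.Agent.Lib.MP_7ed9c3_nt.Aw.Spec

/-!
# MP_7ed9c3_nt, part Aw, module LowG: the lower bound for an admissible number
-/

set_option autoImplicit false

namespace MP7ed9c3.Aw

open NumberField IsDedekindDomain Filter Topology MeasureTheory Metric

theorem tLowG (h1 : Zg.S_Many) (h2 : Zg.S_Lower) : S_LowG := by
  intro K N _ _ _ _ _ g k hKN hadm α β hr x hx1 hx2
  obtain ⟨c, hc, H⟩ := h1 K N g k hKN hadm α β hr
  exact h2 _ k c x hc hx1 hx2 H

end MP7ed9c3.Aw
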