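import Pool.Agent.Lib.MP_7ed9c3_nt.Aw.Spec

/-!
MP_7ed9c3_nt, part Aw, module NWin (helper56): from one zero in a window to `N` zeros.
-/

set_option autoImplicit false

namespace MP7ed9c3.Aw

open NumberField IsDedekindDomain Filter Topology MeasureTheory Metric

private lemma NWin_edge (T h t₀ : ℝ) :
    volume {t : ℝ | T - h ≤ |t - t₀| ∧ |t - t₀| < T} ≤ ENNReal.ofReal h + ENNReal.ofReal h := by
  have hs : {t : ℝ | T - h ≤ |t - t₀| ∧ |t - t₀| < T} ⊆
      Set.Icc (t₀ + T - h) (t₀ + T) ∪ Set.Icc (t₀ - T) (t₀ - T + h) := by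
    rintro t ⟨h1, h2⟩
    rw [abs_lt] at h2
    rcases le_abs.1 h1 with h3 | h3
    · left
      constructor <;> linarith [h2.1, h2.2]
    · right
      constructor <;> linarith [h2.1, h2.2]
  refine (measure_mono hs).trans ((measure_union_le _ _).trans ?_)
  rw [Real.volume_Icc, Real.volume_Icc]
  apply add_le_add <;> apply ENNReal.ofReal_le_ofReal <;> linarith

private lemma NWin_s (h : ℝ) (N j : ℕ) (hh : 0 < h) (hN : 1 ≤ N) (hj : j < N) :
    |(2 * (j : ℝ) + 1 - N) * (h / N)| < h ∧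
      -h ≤ (2 * (j : ℝ) - N) * (h / N) ∧ (2 * (j : ℝ) + 2 - N) * (h / N) ≤ h := by
  have hN0 : (0 : ℝ) < N := by exact_mod_cast hN
  have hp : 0 < h / N := div_pos hh hN0
  have hNh : (N : ℝ) * (h / N) = h := mul_div_cancel₀ h hN0.ne'
  have hj1 : (j : ℝ) + 1 ≤ N := by exact_mod_cast hj
  have hj0 : (0 : ℝ) ≤ j := Nat.cast_nonneg j
  refine ⟨?_, ?_, ?_⟩
  · rw [abs_lt]
    constructor
    · have h1 : -(N : ℝ) * (h / N) < (2 * (j : ℝ) + 1 - N) * (h / N) :=
        mul_lt_mul_of_pos_right (by linarith) hp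
      linarith
    · have h1 : (2 * (j : ℝ) + 1 - N) * (h / N) < (N : ℝ) * (h / N) :=
        mul_lt_mul_of_pos_right (by linarith) hp
      linarith
  · have h1 : -(N : ℝ) * (h / N) ≤ (2 * (j : ℝ) - N) * (h / N) :=
      mul_le_mul_of_nonneg_right (by linarith) hp.le
    linarith
  · have h1 : (2 * (j : ℝ) + 2 - N) * (h / N) ≤ (N : ℝ) * (h / N) :=
      mul_le_mul_of_nonneg_right (by linarith) hp.le
    linarith

theorem tNWin : S_NWin := by
  classical
  intro Z σ₁ h ε' T t₀ N hh hε hN hhT hE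
  have hN0 : (0 : ℝ) < N := by exact_mod_cast hN
  have hp : 0 < h / N := div_pos hh hN0
  set E : Set ℝ := {t : ℝ | |t - t₀| < T ∧ ∀ ρ ∈ win σ₁ (h / N) t, ρ ∈ win σ₁ T t₀ → ρ ∉ Z} with hEdef
  let s : ℕ → ℝ := fun j => (2 * (j : ℝ) + 1 - N) * (h / N)
  have hsub : {t : ℝ | |t - t₀| < T ∧ ¬ ∃ Y : Finset ℂ, Y.card = N ∧
      ∀ ρ ∈ Y, ρ ∈ win σ₁ h t ∧ ρ ∈ win σ₁ T t₀ ∧ ρ ∈ Z} ⊆
      (⋃ j ∈ Finset.range N, (fun t => t + s j) ⁻¹' E) ∪
        {t : ℝ | T - h ≤ |t - t₀| ∧ |t - t₀| < T} := by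
    rintro t ⟨ht, hY⟩
    by_cases hb : T - h ≤ |t - t₀|
    · exact Or.inr ⟨hb, ht⟩
    · left
      by_contra hc
      have hc' : ∀ j < N, t + s j ∉ E := by
        intro j hj hm
        apply hc
        rw [Set.mem_iUnion₂]
        exact ⟨j, Finset.mem_range.2 hj, hm⟩
      have hz : ∀ j < N, ∃ ρ, ρ ∈ win σ₁ (h / N) (t + s j) ∧ ρ ∈ win σ₁ T t₀ ∧ ρ ∈ Z := by
        intro j hj
        by_contra hn
        apply hc' j hj
        refine ⟨?_, fun ρ h1 h2 h3 => hn ⟨ρ, h1, h2, h3⟩⟩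
        have h1 := (NWin_s h N j hh hN hj).1
        have h2 : t + s j - t₀ = (t - t₀) + s j := by ring
        rw [h2]
        have h3 : |s j| < h := h1
        have h4 := abs_add_le (t - t₀) (s j)
        linarith
      choose! ρ h1 h2 h3 using hz
      apply hY
      refine ⟨(Finset.range N).image ρ, ?_, ?_⟩
      · rw [Finset.card_image_of_injOn, Finset.card_range]
        intro i hi j hj hij
        rw [Finset.coe_range, Set.mem_Iio] at hi hj
        have a1 := (h1 i hi).2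
        have a2 := (h1 j hj).2
        rw [hij] at a1
        rw [abs_lt] at a1 a2
        simp only [s] at a1 a2
        have e1 : (2 * (i : ℝ) - 2 * j) * (h / N) < 2 * (h / N) := by nlinarith [a1.1, a2.2, a1.2, a2.1]
        have e2 : (2 * (j : ℝ) - 2 * i) * (h / N) < 2 * (h / N) := by nlinarith [a1.1, a2.2, a1.2, a2.1]
        have e3 : 2 * (i : ℝ) - 2 * j < 2 := lt_of_mul_lt_mul_right e1 hp.le
        have e4 : 2 * (j : ℝ) - 2 * i < 2 := lt_of_mul_lt_mul_right e2 hp.le
        have e5 : (i : ℝ) < j + 1 := by linarith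
        have e6 : (j : ℝ) < i + 1 := by linarith
        have e7 : i < j + 1 := by exact_mod_cast e5
        have e8 : j < i + 1 := by exact_mod_cast e6
        omega
      · intro z hz'
        rw [Finset.mem_image] at hz'
        obtain ⟨j, hj, rfl⟩ := hz'
        rw [Finset.mem_range] at hj
        refine ⟨⟨(h1 j hj).1, ?_⟩, h2 j hj, h3 j hj⟩
        have a1 := (h1 j hj).2
        obtain ⟨_, b1, b2⟩ := NWin_s h N j hh hN hj
        rw [abs_lt] at a1 ⊢
        simp only [s] at a1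
        constructor <;> nlinarith [a1.1, a1.2]
  refine (measure_mono hsub).trans ((measure_union_le _ _).trans ?_)
  have hT : 0 < T := by linarith
  have hu : volume (⋃ j ∈ Finset.range N, (fun t => t + s j) ⁻¹' E) ≤
      ENNReal.ofReal (N * ε' * T) := by
    refine (measure_biUnion_finset_le _ _).trans ?_
    have hv : ∀ j ∈ Finset.range N, volume ((fun t => t + s j) ⁻¹' E) ≤ ENNReal.ofReal (ε' * T) := by
      intro j _
      rw [measure_preimage_add_right]
      exact hE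
    refine (Finset.sum_le_sum hv).trans ?_
    rw [Finset.sum_const, Finset.card_range, nsmul_eq_mul, mul_assoc, ENNReal.ofReal_mul hN0.le,
      ENNReal.ofReal_natCast]
  calc volume (⋃ j ∈ Finset.range N, (fun t => t + s j) ⁻¹' E) +
        volume {t : ℝ | T - h ≤ |t - t₀| ∧ |t - t₀| < T}
      ≤ ENNReal.ofReal (N * ε' * T) + (ENNReal.ofReal h + ENNReal.ofReal h) :=
        add_le_add hu (NWin_edge T h t₀)
    _ = ENNReal.ofReal (N * ε' * T + 2 * h) := by
        rw [← ENNReal.ofReal_add hh.le hh.le, ← ENNReal.ofReal_add (by positivity) (by linarith)]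
        congr 1
        ring

end MP7ed9c3.Aw
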