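import Pool.Agent.Lib.MP_7ed9c3_nt.Aw.Spec

/-!
# MP_7ed9c3_nt, part Aw: the numbers in the core
-/

set_option autoImplicit false

namespace MP7ed9c3.Aw

open NumberField IsDedekindDomain Filter Topology MeasureTheory Metric

private theorem NumC_log {V κ : ℝ} {M : ℕ} (hV : 1 ≤ V) (hκ : 1 ≤ κ) (hM : 1 ≤ M)
    (hMV : (M : ℝ) ≤ V ^ κ) : (Nat.log 2 M : ℝ) ≤ 2 * κ * V := by
  have hV0 : 0 < V := by linarith
  have hM0 : (0 : ℝ) < M := by exact_mod_cast hM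
  have h1 : (Nat.log 2 M : ℝ) ≤ Real.logb 2 M := by exact_mod_cast Real.natLog_le_logb M 2
  have h2 : Real.log M ≤ κ * Real.log V := by
    rw [← Real.log_rpow hV0]
    exact Real.log_le_log hM0 hMV
  have h3 : Real.log V ≤ V := by
    have := Real.log_le_sub_one_of_pos hV0
    linarith
  have h4 : Real.log M ≤ κ * V := h2.trans (mul_le_mul_of_nonneg_left h3 (by linarith))
  have h5 : (1 : ℝ) / 2 < Real.log 2 := by
    have := Real.log_two_gt_d9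
    linarith
  have h6 : Real.logb 2 M ≤ 2 * κ * V := by
    rw [Real.logb, div_le_iff₀ (by linarith)]
    have h7 : 0 ≤ κ * V := by positivity
    nlinarith
  exact h1.trans h6

private theorem NumC_pow {V κ T : ℝ} {M : ℕ} (hV : 1 ≤ V) (hκ : 1 ≤ κ)
    (hT : V ^ (5 * κ + 1) ≤ T) (hMV : (M : ℝ) ≤ V ^ κ) : (M : ℝ) ^ 4 * V ≤ T := by
  have hV0 : 0 < V := by linarith
  have h1 : (M : ℝ) ^ 4 ≤ V ^ (4 * κ) := by
    calc (M : ℝ) ^ 4 ≤ (V ^ κ) ^ 4 := pow_le_pow_left₀ (Nat.cast_nonneg _) hMV 4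
      _ = V ^ (4 * κ) := by
          rw [mul_comm, Real.rpow_mul hV0.le]
          norm_cast
  calc (M : ℝ) ^ 4 * V ≤ V ^ (4 * κ) * V := mul_le_mul_of_nonneg_right h1 hV0.le
    _ = V ^ (4 * κ + 1) := by rw [Real.rpow_add hV0, Real.rpow_one]
    _ ≤ V ^ (5 * κ + 1) := Real.rpow_le_rpow_of_exponent_le hV (by linarith)
    _ ≤ T := hT

private theorem NumC_T {V κ T : ℝ} (hV : 1 ≤ V) (hκ : 1 ≤ κ)
    (hT : V ^ (5 * κ + 1) ≤ T) : V ≤ T := by
  calc V = V ^ (1 : ℝ) := (Real.rpow_one V).symm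
    _ ≤ V ^ (5 * κ + 1) := Real.rpow_le_rpow_of_exponent_le hV (by linarith)
    _ ≤ T := hT

private theorem NumC_main {ε A κ h V T L m4 i : ℝ} (hε : 0 < ε) (hA : 0 ≤ A)
    (hi : i ≤ ε / 16) (hV1 : 1 ≤ V) (hVA : 192 * A * κ ^ 2 ≤ ε * V) (hV2 : 144 ≤ ε * V)
    (hVh : 12 * h ≤ ε * V) (hVT : V ≤ T) (hL0 : 0 ≤ L) (hL : L ≤ 2 * κ * V) (hm : m4 * V ≤ T)
    (hm0 : 0 ≤ m4) :
    4 * ((i + A / V ^ 3 * L ^ 2) * (2 * T) + 6 * m4) + 2 * h ≤ ε * T := by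
  have hV0 : 0 < V := by linarith
  have hT0 : 0 < T := by linarith
  have e1 : A / V ^ 3 * L ^ 2 ≤ ε / 48 := by
    have h1 : L ^ 2 ≤ (2 * κ * V) ^ 2 := pow_le_pow_left₀ hL0 hL 2
    calc A / V ^ 3 * L ^ 2 ≤ A / V ^ 3 * (2 * κ * V) ^ 2 :=
          mul_le_mul_of_nonneg_left h1 (by positivity)
      _ = 4 * A * κ ^ 2 / V := by field_simp; ring
      _ ≤ ε / 48 := by
          rw [div_le_iff₀ hV0]
          linarith
  have e2 : (i + A / V ^ 3 * L ^ 2) * (2 * T) ≤ (ε / 16 + ε / 48) * (2 * T) :=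
    mul_le_mul_of_nonneg_right (by linarith) (by linarith)
  have e3 : 24 * m4 ≤ ε * T / 6 := by
    have h1 : 144 * m4 ≤ (ε * V) * m4 := mul_le_mul_of_nonneg_right hV2 hm0
    have h2 : ε * (m4 * V) ≤ ε * T := mul_le_mul_of_nonneg_left hm hε.le
    nlinarith
  have e4 : 12 * h ≤ ε * T := hVh.trans (mul_le_mul_of_nonneg_left hVT hε.le)
  nlinarith

theorem tNumC : S_NumC := by
  intro ε A κ h I hε hA hκ hh hI
  have hI0 : (0 : ℝ) < I := lt_of_lt_of_le (by positivity) hI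
  have hi : 1 / (I : ℝ) ≤ ε / 16 := by
    rw [div_le_iff₀ hε] at hI
    rw [div_le_div_iff₀ hI0 (by norm_num)]
    linarith
  refine ⟨1 + 192 * A * κ ^ 2 / ε + 144 / ε + 12 * h / ε, ?_, ?_⟩
  · have h1 : 0 ≤ 192 * A * κ ^ 2 / ε := by positivity
    have h2 : 0 ≤ 144 / ε := by positivity
    have h3 : 0 ≤ 12 * h / ε := by positivity
    linarith
  intro V T M hV hT hM hMV
  have h1 : 0 ≤ 192 * A * κ ^ 2 / ε := by positivity
  have h2 : 0 ≤ 144 / ε := by positivity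
  have h3 : 0 ≤ 12 * h / ε := by positivity
  have hV1 : 1 ≤ V := by linarith
  have hVA : 192 * A * κ ^ 2 ≤ ε * V := by
    have : 192 * A * κ ^ 2 / ε ≤ V := by linarith
    rw [div_le_iff₀ hε] at this
    linarith
  have hV2 : 144 ≤ ε * V := by
    have : 144 / ε ≤ V := by linarith
    rw [div_le_iff₀ hε] at this
    linarith
  have hVh : 12 * h ≤ ε * V := by
    have : 12 * h / ε ≤ V := by linarith
    rw [div_le_iff₀ hε] at this
    linarith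
  exact NumC_main hε hA hi hV1 hVA hV2 hVh (NumC_T hV1 hκ hT) (Nat.cast_nonneg _)
    (NumC_log hV1 hκ hM hMV) (NumC_pow hV1 hκ hT hMV) (by positivity)

end MP7ed9c3.Aw
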