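import Pool.Agent.Lib.MP_7ed9c3_nt.Aw.SpecR

/-!
# MP_7ed9c3_nt, part Aw, module NumCQ (helper61): the numbers in the core, the height tends to 0
-/

set_option autoImplicit false

namespace MP7ed9c3.Aw

open NumberField IsDedekindDomain Filter Topology MeasureTheory Metric

private theorem NumCQ_log {V κ W : ℝ} {M : ℕ} (hW : 1 ≤ W) (hVW : V = W ^ 4) (hκ : 1 ≤ κ)
    (hκW : κ ≤ W) (hM : 1 ≤ M) (hMV : (M : ℝ) ≤ V ^ κ) : (Nat.log 2 M : ℝ) ≤ 8 * W ^ 2 := by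
  have hW0 : 0 < W := by linarith
  have hV0 : 0 < V := by rw [hVW]; positivity
  have hM0 : (0 : ℝ) < M := by exact_mod_cast hM
  have h1 : (Nat.log 2 M : ℝ) ≤ Real.logb 2 M := by exact_mod_cast Real.natLog_le_logb M 2
  have h2 : Real.log M ≤ κ * Real.log V := by
    rw [← Real.log_rpow hV0]
    exact Real.log_le_log hM0 hMV
  have h3 : Real.log V ≤ 4 * W := by
    rw [hVW, Real.log_pow]
    have := Real.log_le_sub_one_of_pos hW0
    push_cast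
    linarith
  have h4 : Real.log M ≤ W * (4 * W) :=
    h2.trans ((mul_le_mul_of_nonneg_left h3 (by linarith)).trans
      (mul_le_mul_of_nonneg_right hκW (by linarith)))
  have h5 : (1 : ℝ) / 2 < Real.log 2 := by
    have := Real.log_two_gt_d9
    linarith
  have h6 : Real.logb 2 M ≤ 8 * W ^ 2 := by
    rw [Real.logb, div_le_iff₀ (by linarith)]
    have h7 : 0 ≤ W ^ 2 := by positivity
    nlinarith
  exact h1.trans h6

private theorem NumCQ_pow {V κ T : ℝ} {M : ℕ} (hV : 1 ≤ V) (hκ : 1 ≤ κ)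
    (hT : V ^ (5 * κ + 1) ≤ T) (hMV : (M : ℝ) ≤ V ^ κ) : (M : ℝ) ^ 4 * V ≤ T := by
  have hV0 : 0 < V := by linarith
  have h1 : (M : ℝ) ^ 4 ≤ V ^ (4 * κ) := by
    calc (M : ℝ) ^ 4 ≤ (V ^ κ) ^ 4 := pow_le_pow_left₀ (Nat.cast_nonneg _) hMV 4
      _ = V ^ (4 * κ) := by
          rw [mul_comm, Real.rpow_mul hV0.le]
          norm_cast
  calc (M : ℝ) ^ 4 * V ≤ V ^ (4 * κ) * V := mul_le_mul_of_nonneg_right h1 hV0.le
    _ = V ^ (4 * κ + 1) := by rw [Real.rpow_add hV0, Real.rpow_one]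
    _ ≤ V ^ (5 * κ + 1) := Real.rpow_le_rpow_of_exponent_le hV (by linarith)
    _ ≤ T := hT

private theorem NumCQ_T {V κ T : ℝ} (hV : 1 ≤ V) (hκ : 1 ≤ κ)
    (hT : V ^ (5 * κ + 1) ≤ T) : V ≤ T := by
  calc V = V ^ (1 : ℝ) := (Real.rpow_one V).symm
    _ ≤ V ^ (5 * κ + 1) := Real.rpow_le_rpow_of_exponent_le hV (by linarith)
    _ ≤ T := hT

private theorem NumCQ_main {ε A V T L m4 i δ W h : ℝ} (hε : 0 < ε) (hA : 0 ≤ A)
    (hi : i ≤ ε / 16) (hW2 : 2 ≤ W) (hWA : 2 * A ≤ W) (hWB : 3072 * A ≤ ε * W)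
    (hWC : 144 ≤ ε * W) (hVW : V = W ^ 4) (hδ : 0 < δ) (hδW : 1 / δ ≤ W) (hVT : V ≤ T)
    (hL0 : 0 ≤ L) (hL : L ≤ 8 * W ^ 2) (hm : m4 * V ≤ T) (hm0 : 0 ≤ m4) (hh : h ≤ 1) :
    8 / δ ≤ V ∧ 2 * (A / δ ^ 3) ≤ V ∧
      4 * ((i + A / δ / V ^ 3 * L ^ 2) * (2 * T) + 6 * m4) + 2 * h ≤ ε * T := by
  have hW0 : 0 < W := by linarith
  have hW1 : 1 ≤ W := by linarith
  have hV0 : 0 < V := by rw [hVW]; positivity
  have hd0 : 0 ≤ 1 / δ := by positivity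
  have hWV : W ≤ V := by
    rw [hVW]
    calc W = W ^ 1 := (pow_one W).symm
      _ ≤ W ^ 4 := pow_le_pow_right₀ hW1 (by norm_num)
  have hT0 : 0 < T := by linarith
  have a1 : 8 / δ ≤ V := by
    have h8 : (8 : ℝ) ≤ W ^ 3 := by
      calc (8 : ℝ) = 2 ^ 3 := by norm_num
        _ ≤ W ^ 3 := pow_le_pow_left₀ (by norm_num) hW2 3
    calc 8 / δ = 8 * (1 / δ) := by ring
      _ ≤ W ^ 3 * W := mul_le_mul h8 hδW hd0 (by positivity)
      _ = V := by rw [hVW]; ring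
  have a2 : 2 * (A / δ ^ 3) ≤ V := by
    have h3 : (1 / δ) ^ 3 ≤ W ^ 3 := pow_le_pow_left₀ hd0 hδW 3
    calc 2 * (A / δ ^ 3) = 2 * A * (1 / δ) ^ 3 := by
          rw [one_div, inv_pow]
          ring
      _ ≤ W * W ^ 3 := mul_le_mul hWA h3 (by positivity) hW0.le
      _ = V := by rw [hVW]; ring
  have e1 : A / δ / V ^ 3 * L ^ 2 ≤ ε / 48 := by
    have h1 : L ^ 2 ≤ (8 * W ^ 2) ^ 2 := pow_le_pow_left₀ hL0 hL 2
    have h2 : A * (1 / δ) * L ^ 2 ≤ A * W * (8 * W ^ 2) ^ 2 :=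
      mul_le_mul (mul_le_mul_of_nonneg_left hδW hA) h1 (by positivity) (by positivity)
    have h3 : A * W * (8 * W ^ 2) ^ 2 ≤ 64 * A * W ^ 11 := by
      have h4 : W ^ 5 ≤ W ^ 11 := pow_le_pow_right₀ hW1 (by norm_num)
      calc A * W * (8 * W ^ 2) ^ 2 = 64 * A * W ^ 5 := by ring
        _ ≤ 64 * A * W ^ 11 := mul_le_mul_of_nonneg_left h4 (by positivity)
    have h5 : 64 * A * W ^ 11 ≤ ε / 48 * V ^ 3 := by
      have h6 : 3072 * A * W ^ 11 ≤ ε * W * W ^ 11 :=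
        mul_le_mul_of_nonneg_right hWB (by positivity)
      rw [hVW]
      calc 64 * A * W ^ 11 = 3072 * A * W ^ 11 / 48 := by ring
        _ ≤ ε * W * W ^ 11 / 48 := by linarith
        _ = ε / 48 * (W ^ 4) ^ 3 := by ring
    calc A / δ / V ^ 3 * L ^ 2 = A * (1 / δ) * L ^ 2 / V ^ 3 := by ring
      _ ≤ ε / 48 := by
          rw [div_le_iff₀ (by positivity)]
          linarith
  refine ⟨a1, a2, ?_⟩
  have e2 : (i + A / δ / V ^ 3 * L ^ 2) * (2 * T) ≤ (ε / 16 + ε / 48) * (2 * T) :=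
    mul_le_mul_of_nonneg_right (by linarith) (by linarith)
  have hεV : 144 ≤ ε * V := hWC.trans (mul_le_mul_of_nonneg_left hWV hε.le)
  have e3 : 24 * m4 ≤ ε * T / 6 := by
    have h1 : 144 * m4 ≤ (ε * V) * m4 := mul_le_mul_of_nonneg_right hεV hm0
    have h2 : ε * (m4 * V) ≤ ε * T := mul_le_mul_of_nonneg_left hm hε.le
    nlinarith
  have e4 : 144 ≤ ε * T := hεV.trans (mul_le_mul_of_nonneg_left hVT hε.le)
  nlinarith

theorem tNumCQ : S_NumCQ := by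
  intro ε A I hε hA hI
  have hI0 : (0 : ℝ) < I := lt_of_lt_of_le (by positivity) hI
  have hi : 1 / (I : ℝ) ≤ ε / 16 := by
    rw [div_le_iff₀ hε] at hI
    rw [div_le_div_iff₀ hI0 (by norm_num)]
    linarith
  have q1 : 0 ≤ 3072 * A / ε := by positivity
  have q2 : 0 ≤ 144 / ε := by positivity
  set W₀ : ℝ := 2 + 2 * A + 3072 * A / ε + 144 / ε with hW₀
  have hW₀2 : 2 ≤ W₀ := by linarith
  refine ⟨W₀ ^ 4, one_le_pow₀ (by linarith), ?_⟩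
  intro V T κ δ h M hV hδ hδV hκ hκV hT hM hMV hh
  have hV0 : 0 < V := lt_of_lt_of_le (by positivity) hV
  have hVW : V = (V ^ (1 / 4 : ℝ)) ^ 4 := by
    rw [← Real.rpow_natCast, ← Real.rpow_mul hV0.le]
    norm_num
  have hWW : W₀ ≤ V ^ (1 / 4 : ℝ) := by
    have h1 : (W₀ ^ 4) ^ (1 / 4 : ℝ) ≤ V ^ (1 / 4 : ℝ) :=
      Real.rpow_le_rpow (by positivity) hV (by norm_num)
    have h2 : (W₀ ^ 4) ^ (1 / 4 : ℝ) = W₀ := by
      rw [← Real.rpow_natCast, ← Real.rpow_mul (by linarith)]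
      norm_num
    rwa [h2] at h1
  have hV1 : 1 ≤ V := (one_le_pow₀ (by linarith : (1 : ℝ) ≤ W₀)).trans hV
  have hWB : 3072 * A ≤ ε * V ^ (1 / 4 : ℝ) := by
    have : 3072 * A / ε ≤ V ^ (1 / 4 : ℝ) := by linarith
    rw [div_le_iff₀ hε] at this
    linarith
  have hWC : 144 ≤ ε * V ^ (1 / 4 : ℝ) := by
    have : 144 / ε ≤ V ^ (1 / 4 : ℝ) := by linarith
    rw [div_le_iff₀ hε] at this
    linarith
  exact NumCQ_main hε hA hi (by linarith) (by linarith) hWB hWC hVW hδ hδV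
    (NumCQ_T hV1 hκ hT) (Nat.cast_nonneg _)
    (NumCQ_log (by linarith) hVW hκ hκV hM hMV) (NumCQ_pow hV1 hκ hT hMV) (by positivity) hh

end MP7ed9c3.Aw
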