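import Pool.Agent.Lib.MP_7ed9c3_nt.Aw.SpecX

/-!
# MP_7ed9c3_nt, part Aw, module NumCX (helper95): the numbers in the core, exponentially small exceptional sets
-/

set_option autoImplicit false

namespace MP7ed9c3.Aw

open NumberField IsDedekindDomain Filter Topology MeasureTheory Metric

private theorem NumCX_log {V κ U : ℝ} {M : ℕ} (hU : 32 ≤ U) (hVU : V = U ^ 16) (hκ : 1 ≤ κ)
    (hκU : κ ≤ U ^ 2) (hM : 1 ≤ M) (hMV : (M : ℝ) ≤ V ^ κ) : (Nat.log 2 M : ℝ) ≤ U ^ 4 := by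
  have hU0 : 0 < U := by linarith
  have hV0 : 0 < V := by rw [hVU]; positivity
  have hM0 : (0 : ℝ) < M := by exact_mod_cast hM
  have h1 : (Nat.log 2 M : ℝ) ≤ Real.logb 2 M := by exact_mod_cast Real.natLog_le_logb M 2
  have h2 : Real.log M ≤ κ * Real.log V := by
    rw [← Real.log_rpow hV0]
    exact Real.log_le_log hM0 hMV
  have h3 : Real.log V ≤ 16 * U := by
    rw [hVU, Real.log_pow]
    have := Real.log_le_sub_one_of_pos hU0
    push_cast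
    linarith
  have h4 : Real.log M ≤ U ^ 2 * (16 * U) :=
    h2.trans ((mul_le_mul_of_nonneg_left h3 (by linarith)).trans
      (mul_le_mul_of_nonneg_right hκU (by linarith)))
  have h5 : (1 : ℝ) / 2 < Real.log 2 := by
    have := Real.log_two_gt_d9
    linarith
  have h6 : Real.logb 2 M ≤ U ^ 4 := by
    rw [Real.logb, div_le_iff₀ (by linarith)]
    have h7 : U ^ 2 * (16 * U) = 16 * U ^ 3 := by ring
    have h8 : 32 * U ^ 3 ≤ U ^ 4 := by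
      calc 32 * U ^ 3 ≤ U * U ^ 3 := mul_le_mul_of_nonneg_right hU (by positivity)
        _ = U ^ 4 := by ring
    have h9 : U ^ 4 * (1 / 2) ≤ U ^ 4 * Real.log 2 :=
      mul_le_mul_of_nonneg_left h5.le (by positivity)
    linarith
  exact h1.trans h6

private theorem NumCX_d {V κ T h : ℝ} {I M : ℕ} (hV : 2 ≤ V) (hκ : 1 ≤ κ)
    (hI : (256 : ℝ) ^ I ≤ V) (hT : V ^ (4 * I * κ + 3) ≤ T) (hMV : (M : ℝ) ≤ V ^ κ)
    (hh : h ≤ 1) :
    (9 / 10) ^ I * (2 * T) + 2 * (4 * (M : ℝ)) ^ (4 * I) + 2 * h ≤ 4 * (9 / 10) ^ I * T := by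
  have hV0 : 0 < V := by linarith
  have hI0 : (0 : ℝ) ≤ I := Nat.cast_nonneg _
  have hP : V ^ (4 * I * κ + 3) = V ^ (4 * I * κ) * V ^ 3 := by
    rw [Real.rpow_add hV0]
    norm_cast
  obtain ⟨Q, hQ⟩ : ∃ Q : ℝ, Q = V ^ (4 * I * κ) := ⟨_, rfl⟩
  have hQ1 : 1 ≤ Q := by
    rw [hQ]
    exact Real.one_le_rpow (by linarith) (by positivity)
  have hMQ : (M : ℝ) ^ (4 * I) ≤ Q := by
    calc (M : ℝ) ^ (4 * I) ≤ (V ^ κ) ^ (4 * I) :=
          pow_le_pow_left₀ (Nat.cast_nonneg _) hMV _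
      _ = Q := by
          rw [hQ, ← Real.rpow_natCast, ← Real.rpow_mul hV0.le]
          congr 1
          push_cast
          ring
  have h4 : (4 * (M : ℝ)) ^ (4 * I) = 256 ^ I * (M : ℝ) ^ (4 * I) := by
    rw [mul_pow, pow_mul (4 : ℝ) 4 I]
    norm_num
  have h5 : (4 * (M : ℝ)) ^ (4 * I) ≤ V * Q := by
    rw [h4]
    exact mul_le_mul hI hMQ (by positivity) hV0.le
  have hT' : Q * V ^ 3 ≤ T := by
    rw [hQ, ← hP]
    exact hT
  have hg0 : (0 : ℝ) ≤ (9 / 10) ^ I := by positivity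
  have hg : 1 ≤ V * (9 / 10) ^ I := by
    calc (1 : ℝ) ≤ (256 * (9 / 10)) ^ I := one_le_pow₀ (by norm_num)
      _ = 256 ^ I * (9 / 10) ^ I := mul_pow _ _ _
      _ ≤ V * (9 / 10) ^ I := mul_le_mul_of_nonneg_right hI hg0
  have hgT : Q * V ^ 2 ≤ (9 / 10) ^ I * T := by
    have h6 : (9 / 10) ^ I * (Q * V ^ 3) ≤ (9 / 10) ^ I * T := mul_le_mul_of_nonneg_left hT' hg0
    have h7 : 1 * (Q * V ^ 2) ≤ (V * (9 / 10) ^ I) * (Q * V ^ 2) :=
      mul_le_mul_of_nonneg_right hg (by positivity)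
    calc Q * V ^ 2 = 1 * (Q * V ^ 2) := (one_mul _).symm
      _ ≤ (V * (9 / 10) ^ I) * (Q * V ^ 2) := h7
      _ = (9 / 10) ^ I * (Q * V ^ 3) := by ring
      _ ≤ _ := h6
  have h8 : 2 * (V * Q) ≤ Q * V ^ 2 := by
    have h9 : 2 * (V * Q) ≤ V * (V * Q) := mul_le_mul_of_nonneg_right hV (by positivity)
    calc 2 * (V * Q) ≤ V * (V * Q) := h9
      _ = Q * V ^ 2 := by ring
  have h10 : 2 ≤ Q * V ^ 2 := by
    have h11 : (2 : ℝ) ≤ V ^ 2 := by nlinarith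
    have h12 : 1 * V ^ 2 ≤ Q * V ^ 2 := mul_le_mul_of_nonneg_right hQ1 (by positivity)
    linarith
  calc (9 / 10) ^ I * (2 * T) + 2 * (4 * (M : ℝ)) ^ (4 * I) + 2 * h
      ≤ 2 * ((9 / 10) ^ I * T) + 2 * (V * Q) + 2 := by linarith
    _ ≤ 2 * ((9 / 10) ^ I * T) + (9 / 10) ^ I * T + (9 / 10) ^ I * T := by linarith
    _ = 4 * (9 / 10) ^ I * T := by ring

private theorem NumCX_bc {A V L δ U : ℝ} (hA : 0 ≤ A) (hU : 32 ≤ U) (hUA : 10 * A ≤ U)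
    (hVU : V = U ^ 16) (hδ : 0 < δ) (hδU : 1 / δ ≤ U ^ 2) (hL0 : 0 ≤ L) (hL : L ≤ U ^ 4) :
    8 / δ ≤ V ∧
      (∀ m : ℝ, 0 ≤ m → 2 * (A / δ ^ 3 * (V + m * (1 + L) + 1) ^ 2) ≤ (V + m + 1) ^ 4) ∧
      A / δ / V ^ 4 * L ^ 2 ≤ 1 / 10 := by
  have hU0 : 0 < U := by linarith
  have hU1 : 1 ≤ U := by linarith
  have hV0 : 0 < V := by rw [hVU]; positivity
  have hd0 : 0 ≤ 1 / δ := by positivity
  refine ⟨?_, ?_, ?_⟩
  · have h1 : (8 : ℝ) ≤ U ^ 14 := by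
      calc (8 : ℝ) ≤ U := by linarith
        _ = U ^ 1 := (pow_one U).symm
        _ ≤ U ^ 14 := pow_le_pow_right₀ hU1 (by norm_num)
    calc 8 / δ = 8 * (1 / δ) := by ring
      _ ≤ U ^ 14 * U ^ 2 := mul_le_mul h1 hδU hd0 (by positivity)
      _ = V := by rw [hVU]; ring
  · intro m hm
    have h4 : (1 : ℝ) ≤ U ^ 4 := one_le_pow₀ hU1
    have hs0 : 0 ≤ V + m + 1 := by positivity
    have h5 : V + m * (1 + L) + 1 ≤ 2 * U ^ 4 * (V + m + 1) := by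
      have h6 : m * (1 + L) ≤ m * (2 * U ^ 4) := mul_le_mul_of_nonneg_left (by linarith) hm
      have h7 : 1 * (V + 1) ≤ (2 * U ^ 4) * (V + 1) :=
        mul_le_mul_of_nonneg_right (by linarith) (by positivity)
      calc V + m * (1 + L) + 1 ≤ (2 * U ^ 4) * (V + 1) + m * (2 * U ^ 4) := by linarith
        _ = 2 * U ^ 4 * (V + m + 1) := by ring
    have h8 : (V + m * (1 + L) + 1) ^ 2 ≤ (2 * U ^ 4 * (V + m + 1)) ^ 2 :=
      pow_le_pow_left₀ (by positivity) h5 2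
    have h9 : A / δ ^ 3 ≤ A * U ^ 6 := by
      have h10 : (1 / δ) ^ 3 ≤ (U ^ 2) ^ 3 := pow_le_pow_left₀ hd0 hδU 3
      calc A / δ ^ 3 = A * (1 / δ) ^ 3 := by
            rw [one_div, inv_pow]
            ring
        _ ≤ A * (U ^ 2) ^ 3 := mul_le_mul_of_nonneg_left h10 hA
        _ = A * U ^ 6 := by ring
    have h11 : U ^ 15 ≤ (V + m + 1) ^ 2 := by
      have h12 : U ^ 15 ≤ V ^ 2 := by
        rw [hVU]
        calc U ^ 15 ≤ U ^ 32 := pow_le_pow_right₀ hU1 (by norm_num)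
          _ = (U ^ 16) ^ 2 := by ring
      have h13 : V ^ 2 ≤ (V + m + 1) ^ 2 := pow_le_pow_left₀ hV0.le (by linarith) 2
      exact h12.trans h13
    have h14 : 8 * A * U ^ 14 ≤ U ^ 15 := by
      calc 8 * A * U ^ 14 ≤ U * U ^ 14 :=
            mul_le_mul_of_nonneg_right (by linarith) (by positivity)
        _ = U ^ 15 := by ring
    calc 2 * (A / δ ^ 3 * (V + m * (1 + L) + 1) ^ 2)
        ≤ 2 * (A * U ^ 6 * (2 * U ^ 4 * (V + m + 1)) ^ 2) := by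
          refine mul_le_mul_of_nonneg_left ?_ (by norm_num)
          exact mul_le_mul h9 h8 (by positivity) (by positivity)
      _ = (8 * A * U ^ 14) * (V + m + 1) ^ 2 := by ring
      _ ≤ (V + m + 1) ^ 2 * (V + m + 1) ^ 2 :=
          mul_le_mul_of_nonneg_right (h14.trans h11) (by positivity)
      _ = (V + m + 1) ^ 4 := by ring
  · have h1 : L ^ 2 ≤ (U ^ 4) ^ 2 := pow_le_pow_left₀ hL0 hL 2
    have h2 : A * (1 / δ) * L ^ 2 ≤ A * U ^ 2 * (U ^ 4) ^ 2 :=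
      mul_le_mul (mul_le_mul_of_nonneg_left hδU hA) h1 (by positivity) (by positivity)
    have h3 : A * U ^ 2 * (U ^ 4) ^ 2 ≤ 1 / 10 * V ^ 4 := by
      have h4 : 10 * A * U ^ 10 ≤ U ^ 11 := by
        calc 10 * A * U ^ 10 ≤ U * U ^ 10 :=
              mul_le_mul_of_nonneg_right hUA (by positivity)
          _ = U ^ 11 := by ring
      have h5 : U ^ 11 ≤ V ^ 4 := by
        rw [hVU]
        calc U ^ 11 ≤ U ^ 64 := pow_le_pow_right₀ hU1 (by norm_num)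
          _ = (U ^ 16) ^ 4 := by ring
      calc A * U ^ 2 * (U ^ 4) ^ 2 = 10 * A * U ^ 10 / 10 := by ring
        _ ≤ V ^ 4 / 10 := by linarith
        _ = 1 / 10 * V ^ 4 := by ring
    calc A / δ / V ^ 4 * L ^ 2 = A * (1 / δ) * L ^ 2 / V ^ 4 := by ring
      _ ≤ 1 / 10 := by
          rw [div_le_iff₀ (by positivity)]
          linarith

theorem tNumCX : S_NumCX := by
  intro A hA
  obtain ⟨U₀, hU₀⟩ : ∃ U₀ : ℝ, U₀ = 32 + 10 * A := ⟨_, rfl⟩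
  have hU₀2 : 32 ≤ U₀ := by linarith
  refine ⟨U₀ ^ 16, one_le_pow₀ (by linarith), ?_⟩
  intro V T κ δ h I M hV hδ _ hδκ hI hκV hT hM hMV hh
  have hV0 : 0 < V := lt_of_lt_of_le (by positivity) hV
  have hκ0 : 0 < κ := lt_of_lt_of_le (by positivity) hδκ
  have hVU : V = (V ^ (1 / 16 : ℝ)) ^ 16 := by
    rw [← Real.rpow_natCast, ← Real.rpow_mul hV0.le]
    norm_num
  obtain ⟨U, hUdef⟩ : ∃ U : ℝ, U = V ^ (1 / 16 : ℝ) := ⟨_, rfl⟩
  rw [← hUdef] at hVU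
  have hU00 : 0 ≤ U := by
    rw [hUdef]
    positivity
  have hUU : U₀ ≤ U := by
    have h1 : U₀ ^ 16 ≤ U ^ 16 := by
      rw [← hVU]
      exact hV
    exact le_of_pow_le_pow_left₀ (by norm_num) hU00 h1
  have hκU : κ ≤ U ^ 2 := by
    have h1 : κ ^ 8 ≤ (U ^ 2) ^ 8 := by
      calc κ ^ 8 ≤ V := hκV
        _ = (U ^ 2) ^ 8 := by rw [hVU]; ring
    exact le_of_pow_le_pow_left₀ (by norm_num) (by positivity) h1
  have hκ1 : 1 ≤ κ := by
    have h1 : (1 : ℝ) ≤ 1 / δ := by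
      rw [le_div_iff₀ hδ]
      linarith
    exact h1.trans hδκ
  have hV2 : 2 ≤ V := by
    calc (2 : ℝ) ≤ U := by linarith
      _ = U ^ 1 := (pow_one U).symm
      _ ≤ U ^ 16 := pow_le_pow_right₀ (by linarith) (by norm_num)
      _ = V := hVU.symm
  have hL := NumCX_log (by linarith) hVU hκ1 hκU hM hMV
  obtain ⟨ha, hb, hc⟩ := NumCX_bc hA (by linarith) (by linarith) hVU hδ (hδκ.trans hκU)
    (Nat.cast_nonneg (Nat.log 2 M)) hL
  exact ⟨ha, fun m => hb m (Nat.cast_nonneg m), hc, NumCX_d hV2 hκ1 hI hT hMV hh⟩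

end MP7ed9c3.Aw
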