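import Pool.Agent.Lib.MP_7ed9c3_nt.Aw.Spec

/-!
# MP_7ed9c3_nt, part Aw, module Quads (helper61): the sum over the quadruples with equal products
-/

set_option autoImplicit false

namespace MP7ed9c3.Aw

open NumberField IsDedekindDomain Filter Topology MeasureTheory Metric

private theorem Quads_sp_nonneg {ι : Type} [Fintype ι] (v : ℕ → ι → ℂ) (m m' : ℕ) :
    0 ≤ sp v m m' := norm_nonneg _

private theorem Quads_uu_nonneg {ι : Type} [Fintype ι] (v : ℕ → ι → ℂ) (m : ℕ) : 0 ≤ uu v m := by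
  unfold uu
  positivity

private theorem Quads_sp_self {ι : Type} [Fintype ι] (v : ℕ → ι → ℂ) (m : ℕ) :
    sp v m m = uu v m := by
  unfold sp uu
  have h : ∑ i, v m i * (starRingEnd ℂ) (v m i) = ((∑ i, ‖v m i‖ ^ 2 : ℝ) : ℂ) := by
    push_cast
    refine Finset.sum_congr rfl fun i _ => ?_
    rw [Complex.mul_conj, Complex.normSq_eq_norm_sq]
    push_cast
    rfl
  rw [h, Complex.norm_real, Real.norm_of_nonneg (by positivity)]

private theorem Quads_cs {ι : Type} [Fintype ι] (v : ℕ → ι → ℂ) (m m' : ℕ) :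
    sp v m m' ^ 2 ≤ uu v m * uu v m' := by
  unfold sp uu
  have h1 : ‖∑ i, v m i * (starRingEnd ℂ) (v m' i)‖ ≤ ∑ i, ‖v m i‖ * ‖v m' i‖ := by
    refine (norm_sum_le _ _).trans (le_of_eq ?_)
    refine Finset.sum_congr rfl fun i _ => ?_
    rw [norm_mul, RCLike.norm_conj]
  exact (pow_le_pow_left₀ (norm_nonneg _) h1 2).trans (Finset.sum_mul_sq_le_sq_mul_sq _ _ _)

private theorem Quads_symm {ι : Type} [Fintype ι] (v : ℕ → ι → ℂ) (m m' : ℕ) :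
    sp v m m' = sp v m' m := by
  unfold sp
  rw [← RCLike.norm_conj, map_sum]
  refine congrArg _ (Finset.sum_congr rfl fun i _ => ?_)
  rw [map_mul, Complex.conj_conj, mul_comm]

private theorem Quads_two {S : Finset ℕ} (f : ℕ → ℕ → ℝ) {a b : ℕ} (ha : a ∈ S) (hb : b ∈ S) :
    ∑ x ∈ S, ∑ y ∈ S, (if x = a ∧ y = b then f x y else 0) = f a b := by
  rw [Finset.sum_eq_single a, Finset.sum_eq_single b]
  · rw [if_pos ⟨rfl, rfl⟩]
  · intro y _ hy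
    rw [if_neg (fun h => hy h.2)]
  · intro h
    exact absurd hb h
  · intro x _ hx
    exact Finset.sum_eq_zero fun y _ => if_neg fun h => hx h.1
  · intro h
    exact absurd ha h

theorem tQuads (h1 : S_PP) (h2 : S_Q3) : S_Quads := by
  classical
  intro ι _ S v blk M δ τ hS hδ hτ hsum hblk hδs hτs
  have hQ := h2 ι S v M τ hS hτ hsum hτs
  have hpt : quad S v ≤ ∑ m₁ ∈ S, ∑ m₂ ∈ S, ∑ n₁ ∈ S, ∑ n₂ ∈ S,
      ((if n₁ = m₁ ∧ n₂ = m₂ then sp v m₁ n₁ * sp v m₂ n₂ else 0) +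
        (if n₁ = m₂ ∧ n₂ = m₁ then sp v m₁ n₁ * sp v m₂ n₂ else 0) +
        (if m₁ * m₂ = n₁ * n₂ ∧ m₂.minFac = m₁.minFac ∧ n₁.minFac = m₁.minFac ∧
          n₂.minFac = m₁.minFac then sp v m₁ n₁ * sp v m₂ n₂ else 0)) := by
    unfold quad
    refine Finset.sum_le_sum fun m₁ hm₁ => Finset.sum_le_sum fun m₂ hm₂ =>
      Finset.sum_le_sum fun n₁ hn₁ => Finset.sum_le_sum fun n₂ hn₂ => ?_
    have hnn : 0 ≤ sp v m₁ n₁ * sp v m₂ n₂ :=
      mul_nonneg (Quads_sp_nonneg v _ _) (Quads_sp_nonneg v _ _)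
    have hite : ∀ P : Prop, ∀ _ : Decidable P, 0 ≤ (if P then sp v m₁ n₁ * sp v m₂ n₂ else 0) := by
      intro P _
      split_ifs
      · exact hnn
      · exact le_rfl
    have a1 := hite (n₁ = m₁ ∧ n₂ = m₂) inferInstance
    have a2 := hite (n₁ = m₂ ∧ n₂ = m₁) inferInstance
    have a3 := hite (m₁ * m₂ = n₁ * n₂ ∧ m₂.minFac = m₁.minFac ∧ n₁.minFac = m₁.minFac ∧
      n₂.minFac = m₁.minFac) inferInstance
    by_cases he : m₁ * m₂ = n₁ * n₂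
    · rw [if_pos he]
      rcases h1 m₁ m₂ n₁ n₂ (hS m₁ hm₁).1 (hS m₂ hm₂).1 (hS n₁ hn₁).1 (hS n₂ hn₂).1 he with h | h | h
      · rw [if_pos h]
        linarith
      · rw [if_pos h]
        linarith
      · rw [if_pos (show m₁ * m₂ = n₁ * n₂ ∧ m₂.minFac = m₁.minFac ∧ n₁.minFac = m₁.minFac ∧
          n₂.minFac = m₁.minFac from ⟨he, h⟩)]
        linarith
    · rw [if_neg he]
      linarith
  simp only [Finset.sum_add_distrib] at hpt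
  have hA : ∑ m₁ ∈ S, ∑ m₂ ∈ S, ∑ n₁ ∈ S, ∑ n₂ ∈ S,
      (if n₁ = m₁ ∧ n₂ = m₂ then sp v m₁ n₁ * sp v m₂ n₂ else 0) = 1 := by
    have e : ∀ m₁ ∈ S, ∀ m₂ ∈ S, ∑ n₁ ∈ S, ∑ n₂ ∈ S,
        (if n₁ = m₁ ∧ n₂ = m₂ then sp v m₁ n₁ * sp v m₂ n₂ else 0) = uu v m₁ * uu v m₂ := by
      intro m₁ hm₁ m₂ hm₂
      rw [Quads_two (fun x y => sp v m₁ x * sp v m₂ y) hm₁ hm₂, Quads_sp_self, Quads_sp_self]
    rw [Finset.sum_congr rfl fun m₁ hm₁ => Finset.sum_congr rfl fun m₂ hm₂ => e m₁ hm₁ m₂ hm₂,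
      ← Finset.sum_mul_sum, hsum, mul_one]
  have hB : ∑ m₁ ∈ S, ∑ m₂ ∈ S, ∑ n₁ ∈ S, ∑ n₂ ∈ S,
      (if n₁ = m₂ ∧ n₂ = m₁ then sp v m₁ n₁ * sp v m₂ n₂ else 0) ≤ δ := by
    have e : ∀ m₁ ∈ S, ∑ m₂ ∈ S, ∑ n₁ ∈ S, ∑ n₂ ∈ S,
        (if n₁ = m₂ ∧ n₂ = m₁ then sp v m₁ n₁ * sp v m₂ n₂ else 0) ≤ uu v m₁ * δ := by
      intro m₁ hm₁
      calc ∑ m₂ ∈ S, ∑ n₁ ∈ S, ∑ n₂ ∈ S,
          (if n₁ = m₂ ∧ n₂ = m₁ then sp v m₁ n₁ * sp v m₂ n₂ else 0)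
          ≤ ∑ m₂ ∈ S, (if blk m₂ = blk m₁ then uu v m₁ * uu v m₂ else 0) := by
            refine Finset.sum_le_sum fun m₂ hm₂ => ?_
            rw [Quads_two (fun x y => sp v m₁ x * sp v m₂ y) hm₂ hm₁, Quads_symm v m₂ m₁, ← pow_two]
            split_ifs with hb
            · exact Quads_cs v m₁ m₂
            · rw [hblk m₁ hm₁ m₂ hm₂ (fun hh => hb hh.symm)]
              norm_num
        _ = uu v m₁ * ∑ m₂ ∈ S with blk m₂ = blk m₁, uu v m₂ := by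
            rw [← Finset.sum_filter, Finset.mul_sum]
        _ ≤ uu v m₁ * δ := mul_le_mul_of_nonneg_left (hδs (blk m₁)) (Quads_uu_nonneg v m₁)
    refine (Finset.sum_le_sum e).trans (le_of_eq ?_)
    rw [← Finset.sum_mul, hsum, one_mul]
  rw [hA] at hpt
  linarith

end MP7ed9c3.Aw
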