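import Pool.Agent.Lib.MP_7ed9c3_nt.Aw.Spec

/-!
# MP_7ed9c3_nt, part Aw: module Rad

The choice of the radii: the radius at which `ell` takes a given value.
-/

set_option autoImplicit false

namespace MP7ed9c3.Aw

open NumberField IsDedekindDomain Filter Topology MeasureTheory Metric

/-- The radius with `ell h r = y`. -/
private noncomputable def Rad_T (h y : ℝ) : ℝ :=
  1 - 2 / (Real.exp (Real.pi * (4 - y) / (2 * h)) + 1)

private lemma Rad_T_lt_one (h y : ℝ) : Rad_T h y < 1 := by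
  have h1 := Real.exp_pos (Real.pi * (4 - y) / (2 * h))
  have h2 : 0 < 2 / (Real.exp (Real.pi * (4 - y) / (2 * h)) + 1) := by positivity
  simp only [Rad_T]
  linarith

private lemma Rad_T_lt (h y z : ℝ) (hh : 0 < h) (hyz : y < z) : Rad_T h z < Rad_T h y := by
  have h1 := Real.exp_pos (Real.pi * (4 - z) / (2 * h))
  have h3 : Real.pi * (4 - z) / (2 * h) < Real.pi * (4 - y) / (2 * h) := by
    apply div_lt_div_of_pos_right _ (by positivity)
    have := Real.pi_pos
    nlinarith
  have h4 := Real.exp_lt_exp.mpr h3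
  have h5 : 2 / (Real.exp (Real.pi * (4 - y) / (2 * h)) + 1) <
      2 / (Real.exp (Real.pi * (4 - z) / (2 * h)) + 1) := by
    apply div_lt_div_of_pos_left (by norm_num) (by positivity)
    linarith
  simp only [Rad_T]
  linarith

private lemma Rad_T_pos (h y : ℝ) (hh : 0 < h) (hy : y < 4) : 0 < Rad_T h y := by
  have h1 := Rad_T_lt h y 4 hh hy
  have h2 : Rad_T h 4 = 0 := by
    simp only [Rad_T, sub_self, mul_zero, zero_div, Real.exp_zero]
    norm_num
  linarith

private lemma Rad_T_ell (h y : ℝ) (hh : 0 < h) : ell h (Rad_T h y) = y := by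
  have h1 := Real.exp_pos (Real.pi * (4 - y) / (2 * h))
  have h2 : (1 + Rad_T h y) / (1 - Rad_T h y) = Real.exp (Real.pi * (4 - y) / (2 * h)) := by
    simp only [Rad_T]
    have h3 : Real.exp (Real.pi * (4 - y) / (2 * h)) + 1 ≠ 0 := by positivity
    field_simp
    ring
  have hpi := Real.pi_pos
  rw [ell, h2, Real.log_exp]
  field_simp
  ring

theorem tRad : S_Rad := by
  intro h σ₁ b hh h1 h2 h3
  have hd : 0 < b - σ₁ := by linarith
  refine ⟨Rad_T h 3, Rad_T h (σ₁ + 4 * ((b - σ₁) / 5)), Rad_T h (σ₁ + 3 * ((b - σ₁) / 5)),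
    Rad_T h (σ₁ + 2 * ((b - σ₁) / 5)), Rad_T h (σ₁ + (b - σ₁) / 5), ?_⟩
  exact
    { r₀pos := Rad_T_pos h 3 hh (by norm_num)
      lt1 := Rad_T_lt h _ _ hh (by linarith)
      lt2 := Rad_T_lt h _ _ hh (by linarith)
      lt3 := Rad_T_lt h _ _ hh (by linarith)
      lt4 := Rad_T_lt h _ _ hh (by linarith)
      lt5 := Rad_T_lt_one h _
      e0 := by rw [Rad_T_ell h _ hh]
      e1 := by rw [Rad_T_ell h _ hh]; linarith
      e2 := by rw [Rad_T_ell h _ hh]; linarith
      e3 := by rw [Rad_T_ell h _ hh]; linarith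
      e4 := by rw [Rad_T_ell h _ hh]; linarith }

end MP7ed9c3.Aw
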