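import Pool.Agent.Lib.MP_7ed9c3_nt.Aw.Spec

/-!
MP_7ed9c3_nt, part Aw, module Red: reduction to `S_Core` (helper77).
-/

set_option autoImplicit false

namespace MP7ed9c3.Aw

open NumberField IsDedekindDomain Filter Topology MeasureTheory Metric

/-- removing few elements of a finite set of zeros -/
private theorem Red_sub (Y : Finset ℂ) (P : ℂ → Prop) [DecidablePred P] (N N₀ : ℕ)
    (hY : Y.card = N + N₀ + 1) (hP : (Y.filter P).card ≤ N₀) :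
    ∃ Y' : Finset ℂ, Y'.card = N ∧ ∀ ρ ∈ Y', ρ ∈ Y ∧ ¬ P ρ := by
  have h1 := Finset.card_filter_add_card_filter_not (s := Y) P
  have h2 : N ≤ (Y.filter fun a => ¬ P a).card := by omega
  obtain ⟨Y', hs, hc⟩ := Finset.exists_subset_card_eq h2
  refine ⟨Y', hc, fun ρ hρ => ?_⟩
  have := hs hρ
  rw [Finset.mem_filter] at this
  exact this

/-- the numbers -/
private theorem Red_num (κ V₁ Y₀ h ε B : ℝ) (hκ : 1 ≤ κ) (hh : 0 < h) (hε : 0 < ε) (V : ℝ)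
    (hV : 1 + |V₁| + (2 : ℝ) ^ κ + |Y₀| + h + 4 * h / ε + |B| ≤ V) :
    1 ≤ V ∧ V₁ ≤ 2 * V ∧ (2 * V) ^ κ ≤ V ^ (κ + 1) ∧ Y₀ ≤ (2 * V) ^ 2 ∧ h ≤ V ^ (κ + 1) ∧
      2 * h ≤ ε * V ^ (κ + 1) / 2 ∧ B ≤ Real.exp V := by
  have p1 : 0 ≤ |V₁| := abs_nonneg _
  have p2 : 0 < (2 : ℝ) ^ κ := Real.rpow_pos_of_pos (by norm_num) _
  have p3 : 0 ≤ |Y₀| := abs_nonneg _
  have p4 : 0 < 4 * h / ε := by positivity
  have p5 : 0 ≤ |B| := abs_nonneg _
  have q1 : V₁ ≤ |V₁| := le_abs_self _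
  have q2 : Y₀ ≤ |Y₀| := le_abs_self _
  have q3 : B ≤ |B| := le_abs_self _
  have hV1 : 1 ≤ V := by linarith
  have hV0 : 0 < V := by linarith
  have e1 : V ^ (κ + 1) = V ^ κ * V := by
    rw [Real.rpow_add hV0, Real.rpow_one]
  have e2 : V ≤ V ^ (κ + 1) := by
    have := Real.rpow_le_rpow_of_exponent_le hV1 (show (1 : ℝ) ≤ κ + 1 by linarith)
    rwa [Real.rpow_one] at this
  have e3 : 0 < V ^ κ := Real.rpow_pos_of_pos hV0 _
  refine ⟨hV1, by linarith, ?_, ?_, by linarith, ?_, ?_⟩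
  · rw [Real.mul_rpow (by norm_num) hV0.le, e1, mul_comm]
    exact mul_le_mul_of_nonneg_left (by linarith) e3.le
  · nlinarith
  · have e4 : 4 * h / ε ≤ V := by linarith
    rw [div_le_iff₀ hε] at e4
    have e5 : ε * V ≤ ε * V ^ (κ + 1) := mul_le_mul_of_nonneg_left e2 hε.le
    nlinarith
  · have := Real.add_one_le_exp V
    linarith

theorem tRed (h1 : S_Core) (h2 : S_NWin) : S_Red := by
  classical
  intro K _ _ M b hb hb1 hD σ₁ h ε hσ hh hε N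
  obtain ⟨P, c, C, B, k, hC, hc, hlow, hPd, hPB, hPZ, hexp⟩ := hD
  obtain ⟨N₀, hN₀⟩ := hPZ h hh
  set σ : ℝ := max σ₁ (1 / 2) with hσdef
  have hσ1 : σ₁ ≤ σ := le_max_left _ _
  have hσ2 : 1 / 2 ≤ σ := le_max_right _ _
  have hσb : σ < b := max_lt hσ hb
  set N' : ℕ := N + N₀ + 1 with hN'
  have hN'0 : (0 : ℝ) < N' := by
    rw [hN']
    positivity
  have hε' : 0 < ε / (2 * N') := by positivity
  obtain ⟨x, hx1, hx2, hcore⟩ := h1 C b k hC hb1 σ (h / N') (ε / (2 * N')) hσ2 hσb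
    (by positivity) hε'
  obtain ⟨η, B', Y₀, hη, hB', hLow⟩ := hlow x hx1 hx2
  obtain ⟨κ, V₁, hκ, hcore⟩ := hcore η B' hη hB'
  refine ⟨κ + 1, 1 + |V₁| + (2 : ℝ) ^ κ + |Y₀| + h + 4 * h / ε + |B|, ?_⟩
  intro V t₀ hV F hFd hFb hFe
  obtain ⟨hV1, a1, a2, a3, a4, a5, a6⟩ := Red_num κ V₁ Y₀ h ε B hκ hh hε V hV
  set T : ℝ := V ^ (κ + 1) with hT
  have hwin : ∀ s ∈ win σ T t₀, σ₁ < s.re ∧ |s.im - t₀| < T := by
    intro s hs
    exact ⟨lt_of_le_of_lt hσ1 hs.1, hs.2⟩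
  have hre : ∀ s ∈ win σ T t₀, 0 ≤ s.re := by
    intro s hs
    have : σ < s.re := hs.1
    linarith
  -- the function without the finitely many Euler factors
  set G : ℂ → ℂ := fun s => P s * F s with hG
  have hGd : DifferentiableOn ℂ G (win σ T t₀) :=
    hPd.differentiableOn.mul (hFd.mono fun s hs => hwin s hs)
  have hGb : ∀ s ∈ win σ T t₀, ‖G s‖ ≤ Real.exp (2 * V) := by
    intro s hs
    have b1 := hPB s (hre s hs)
    have b2 := hFb s (hwin s hs).1 (hwin s hs).2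
    have b3 : 0 ≤ B := (norm_nonneg _).trans b1
    calc ‖G s‖ = ‖P s‖ * ‖F s‖ := norm_mul _ _
      _ ≤ B * Real.exp V := mul_le_mul b1 b2 (norm_nonneg _) b3
      _ ≤ Real.exp V * Real.exp V := mul_le_mul_of_nonneg_right a6 (Real.exp_pos _).le
      _ = Real.exp (2 * V) := by rw [← Real.exp_add]; ring_nf
  have hGe : ∀ s ∈ win σ T t₀, 3 ≤ s.re → G s = Complex.exp (dir c s) := by
    intro s hs h3
    rw [← hexp s h3, hG]
    simp only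
    rw [hFe s (by linarith) (hwin s hs).2]
  have hLU : LowU c k x η B' ((2 * V) ^ 2) := fun Y hY => hLow Y (a3.trans hY)
  have k1 := hcore (2 * V) T t₀ a1 a2 c hc hLU G hGd hGb hGe
  have k2 := h2 {s : ℂ | G s = 0} σ h (ε / (2 * N')) T t₀ N' hh hε'.le (by omega) a4 k1
  have k3 : (N' : ℝ) * (ε / (2 * N')) * T + 2 * h ≤ ε * T := by
    have : (N' : ℝ) * (ε / (2 * N')) = ε / 2 := by
      field_simp
    rw [this]
    linarith
  refine le_trans (measure_mono ?_) (k2.trans (ENNReal.ofReal_le_ofReal k3))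
  rintro t ⟨ht1, ht2⟩
  refine ⟨ht1, fun hY => ht2 ?_⟩
  obtain ⟨Y, hYc, hYp⟩ := hY
  have hfew : (Y.filter fun ρ => P ρ = 0).card ≤ N₀ := by
    refine hN₀ t _ fun ρ hρ => ?_
    rw [Finset.mem_filter] at hρ
    exact ⟨(hYp ρ hρ.1).1.2, hρ.2⟩
  obtain ⟨Y', hY'c, hY'⟩ := Red_sub Y (fun ρ => P ρ = 0) N N₀ hYc hfew
  refine ⟨Y', hY'c, fun ρ hρ => ?_⟩
  obtain ⟨m1, m2⟩ := hY' ρ hρ
  obtain ⟨n1, n2, n3⟩ := hYp ρ m1
  refine ⟨lt_of_le_of_lt hσ1 n1.1, n1.2, n2.2, ?_⟩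
  have n4 : P ρ * F ρ = 0 := n3
  exact (mul_eq_zero.mp n4).resolve_left m2

end MP7ed9c3.Aw
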