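import Pool.Agent.Lib.MP_7ed9c3_nt.Aw.SpecQ

/-!
# MP_7ed9c3_nt, part Aw, module RedG: reduction to `S_Core` for a class of families of models
-/

set_option autoImplicit false

namespace MP7ed9c3.Aw

open NumberField IsDedekindDomain Filter Topology MeasureTheory Metric

/-- removing few elements of a finite set of zeros -/
private theorem RedG_sub (Y : Finset ℂ) (P : ℂ → Prop) [DecidablePred P] (N N₀ : ℕ)
    (hY : Y.card = N + N₀ + 1) (hP : (Y.filter P).card ≤ N₀) :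
    ∃ Y' : Finset ℂ, Y'.card = N ∧ ∀ ρ ∈ Y', ρ ∈ Y ∧ ¬ P ρ := by
  have h1 := Finset.card_filter_add_card_filter_not (s := Y) P
  have h2 : N ≤ (Y.filter fun a => ¬ P a).card := by omega
  obtain ⟨Y', hs, hc⟩ := Finset.exists_subset_card_eq h2
  refine ⟨Y', hc, fun ρ hρ => ?_⟩
  have := hs hρ
  rw [Finset.mem_filter] at this
  exact this

/-- the numbers -/
private theorem RedG_num (κ h ε V H : ℝ) (hκ : 1 ≤ κ) (hh : 0 < h) (hε : 0 < ε)
    (hV : 4 * h / ε + h + 2 ≤ V) (hH : V ^ (2 * κ) ≤ H) :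
    (2 * V) ^ κ ≤ H ∧ h ≤ H ∧ 2 * h ≤ ε * H / 2 ∧ V ^ 2 ≤ (2 * V) ^ 2 ∧ V ≤ 2 * V := by
  have p1 : 0 < 4 * h / ε := by positivity
  have hV2 : 2 ≤ V := by linarith
  have hV0 : 0 < V := by linarith
  have e1 : (2 * V) ^ κ ≤ V ^ (2 * κ) := by
    have c1 : (2 * V) ^ κ ≤ (V * V) ^ κ :=
      Real.rpow_le_rpow (by linarith) (by nlinarith) (by linarith)
    have c2 : (V * V) ^ κ = V ^ (2 * κ) := by
      rw [Real.mul_rpow hV0.le hV0.le, ← Real.rpow_add hV0]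
      ring_nf
    exact c1.trans c2.le
  have e2 : V ≤ V ^ (2 * κ) := by
    have := Real.rpow_le_rpow_of_exponent_le (show (1 : ℝ) ≤ V by linarith)
      (show (1 : ℝ) ≤ 2 * κ by linarith)
    rwa [Real.rpow_one] at this
  have e3 : V ≤ H := e2.trans hH
  have e4 : 4 * h / ε ≤ H := by linarith
  rw [div_le_iff₀ hε] at e4
  refine ⟨e1.trans hH, by linarith, by nlinarith, by nlinarith, by linarith⟩

theorem tRedG (h1 : S_Core) (h2 : S_NWin) : S_RedG := by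
  classical
  intro K _ _ 𝓔 b hb hb1 hD σ₁ h ε hσ hh hε N
  obtain ⟨C, k, N₀, hC, hD⟩ := hD
  set σ : ℝ := max σ₁ (1 / 2) with hσdef
  have hσ1 : σ₁ ≤ σ := le_max_left _ _
  have hσ2 : 1 / 2 ≤ σ := le_max_right _ _
  have hσb : σ < b := max_lt hσ hb
  set N' : ℕ := N + N₀ h + 1 with hN'
  have hN'0 : (0 : ℝ) < N' := by
    rw [hN']
    positivity
  have hε' : 0 < ε / (2 * N') := by positivity
  obtain ⟨x, hx1, hx2, hcore⟩ := h1 C b k hC hb1 σ (h / N') (ε / (2 * N')) hσ2 hσb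
    (by positivity) hε'
  obtain ⟨η, B, V₁, hη, hB, hDV⟩ := hD x hx1 hx2
  obtain ⟨κ₀, V₀, hκ₀, hcore⟩ := hcore η B hη hB
  refine ⟨2 * κ₀, max (max V₀ V₁) (4 * h / ε + h + 2), ?_⟩
  intro V H t₀ hV hH M hM F hFd hFb hFe
  have v0 : V₀ ≤ V := (le_max_left _ _).trans ((le_max_left _ _).trans hV)
  have v1 : V₁ ≤ V := (le_max_right _ _).trans ((le_max_left _ _).trans hV)
  have v3 : 4 * h / ε + h + 2 ≤ V := (le_max_right _ _).trans hV
  obtain ⟨a1, a2, a3, a4, a5⟩ := RedG_num κ₀ h ε V H hκ₀ hh hε v3 hH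
  obtain ⟨P, c, hc, hLow, hPd, hPB, hPZ, hexp⟩ := hDV V v1 M hM
  have hwin : ∀ s ∈ win σ H t₀, σ₁ < s.re ∧ |s.im - t₀| < H := by
    intro s hs
    exact ⟨lt_of_le_of_lt hσ1 hs.1, hs.2⟩
  have hre : ∀ s ∈ win σ H t₀, 1 / 2 ≤ s.re := by
    intro s hs
    have h0 : σ < s.re := hs.1
    linarith
  -- the function without the finitely many Euler factors
  set G : ℂ → ℂ := fun s => P s * F s with hG
  have hGd : DifferentiableOn ℂ G (win σ H t₀) :=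
    hPd.differentiableOn.mul (hFd.mono fun s hs => hwin s hs)
  have hGb : ∀ s ∈ win σ H t₀, ‖G s‖ ≤ Real.exp (2 * V) := by
    intro s hs
    have b1 := hPB s (hre s hs)
    have b2 := hFb s (hwin s hs).1 (hwin s hs).2
    calc ‖G s‖ = ‖P s‖ * ‖F s‖ := norm_mul _ _
      _ ≤ Real.exp V * Real.exp V := mul_le_mul b1 b2 (norm_nonneg _) (Real.exp_pos _).le
      _ = Real.exp (2 * V) := by rw [← Real.exp_add]; ring_nf
  have hGe : ∀ s ∈ win σ H t₀, 3 ≤ s.re → G s = Complex.exp (dir c s) := by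
    intro s hs h3
    rw [← hexp s h3, hG]
    simp only
    rw [hFe s (by linarith) (hwin s hs).2]
  have hLU : LowU c k x η B ((2 * V) ^ 2) := fun Y hY => hLow Y (a4.trans hY)
  have k1 := hcore (2 * V) H t₀ (v0.trans a5) a1 c hc hLU G hGd hGb hGe
  have k2 := h2 {s : ℂ | G s = 0} σ h (ε / (2 * N')) H t₀ N' hh hε'.le (by omega) a2 k1
  have k3 : (N' : ℝ) * (ε / (2 * N')) * H + 2 * h ≤ ε * H := by
    have : (N' : ℝ) * (ε / (2 * N')) = ε / 2 := by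
      field_simp
    rw [this]
    linarith
  refine le_trans (measure_mono ?_) (k2.trans (ENNReal.ofReal_le_ofReal k3))
  rintro t ⟨ht1, ht2⟩
  refine ⟨ht1, fun hY => ht2 ?_⟩
  obtain ⟨Y, hYc, hYp⟩ := hY
  have hfew : (Y.filter fun ρ => P ρ = 0).card ≤ N₀ h := by
    refine hPZ h t _ hh fun ρ hρ => ?_
    rw [Finset.mem_filter] at hρ
    exact ⟨hre ρ (hYp ρ hρ.1).2.1, (hYp ρ hρ.1).1.2, hρ.2⟩
  obtain ⟨Y', hY'c, hY'⟩ := RedG_sub Y (fun ρ => P ρ = 0) N (N₀ h) hYc hfew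
  refine ⟨Y', hY'c, fun ρ hρ => ?_⟩
  obtain ⟨m1, m2⟩ := hY' ρ hρ
  obtain ⟨n1, n2, n3⟩ := hYp ρ m1
  refine ⟨lt_of_le_of_lt hσ1 n1.1, n1.2, n2.2, ?_⟩
  have n4 : P ρ * F ρ = 0 := n3
  exact (mul_eq_zero.mp n4).resolve_left m2

end MP7ed9c3.Aw
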