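import Pool.Agent.Lib.MP_7ed9c3_nt.Aw.Spec

/-!
# MP_7ed9c3_nt, part Aw: the blocks, by induction
-/

set_option autoImplicit false

namespace MP7ed9c3.Aw

open NumberField IsDedekindDomain Filter Topology MeasureTheory Metric

theorem tScale (h1 : S_Step) : S_Scale := by
  intro h σ₁ b r₀ R R' R₂ R₁ C η B k hh hC hη hB hR I
  induction I with
  | zero =>
    refine ⟨1, 1, le_rfl, le_rfl, ?_⟩
    intro V hV c hc hlow
    refine ⟨fun _ => 1, fun _ => 0, rfl, ?_, ?_, ?_, ?_⟩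
    · intro i hi; omega
    · rw [Real.rpow_one]; simpa using hV
    · intro i hi; omega
    · intro i hi; omega
  | succ I ih =>
    obtain ⟨κ₁, V₀, hκ, hV₀, ih⟩ := ih
    obtain ⟨κ₂, V₀', hκ₂, hV₀', hs⟩ := h1 h σ₁ b r₀ R R' R₂ R₁ C η B k hh hC hη hB hR κ₁ hκ
    refine ⟨κ₂, max V₀ V₀', hκ.trans hκ₂, hV₀.trans (le_max_left _ _), ?_⟩
    intro V hV c hc hlow
    have hV1 : V₀ ≤ V := (le_max_left _ _).trans hV
    have hV2 : V₀' ≤ V := (le_max_right _ _).trans hV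
    obtain ⟨M, nn, m0, mlt, mI, mr, mv⟩ := ih V hV1 c hc hlow
    obtain ⟨m₁, n₀, q1, q2, q3, q4⟩ := hs V hV2 c hc hlow (M I) mI
    obtain ⟨M', hM'⟩ : ∃ M' : ℕ → ℕ, M' = fun i => if i ≤ I then M i else m₁ := ⟨_, rfl⟩
    obtain ⟨nn', hnn'⟩ : ∃ nn' : ℕ → ℕ, nn' = fun i => if i < I then nn i else n₀ := ⟨_, rfl⟩
    have e1 : ∀ i, i ≤ I → M' i = M i := fun i hi => by rw [hM']; exact if_pos hi
    have e2 : M' (I + 1) = m₁ := by rw [hM']; exact if_neg (by omega)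
    have e3 : ∀ i, i < I → nn' i = nn i := fun i hi => by rw [hnn']; exact if_pos hi
    have e4 : nn' I = n₀ := by rw [hnn']; exact if_neg (by omega)
    refine ⟨M', nn', ?_, ?_, ?_, ?_, ?_⟩
    · rw [e1 0 (by omega), m0]
    · intro i hi
      rcases Nat.lt_succ_iff_lt_or_eq.mp hi with hi' | hi'
      · rw [e1 i (by omega), e1 (i + 1) (by omega)]; exact mlt i hi'
      · subst hi'; rw [e1 i le_rfl, e2]; exact q1
    · rw [e2]; exact q2
    · intro i hi
      rcases Nat.lt_succ_iff_lt_or_eq.mp hi with hi' | hi'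
      · rw [e1 (i + 1) (by omega), e3 i hi']; exact mr i hi'
      · subst hi'; rw [e2, e4]; exact q3
    · intro i hi
      rcases Nat.lt_succ_iff_lt_or_eq.mp hi with hi' | hi'
      · rw [e1 i (by omega), e1 (i + 1) (by omega), e3 i hi']; exact mv i hi'
      · subst hi'; rw [e1 i le_rfl, e2, e4]; exact q4

end MP7ed9c3.Aw
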