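import Pool.Agent.Lib.MP_7ed9c3_nt.Zg.Spec

/-!
# MP_7ed9c3_nt, part Aw: zeros in almost every window (statements)

`E` an elliptic curve over a number field `K`, `σ₁ < b` as in ZerosInBoxes, `h, ε > 0`, `N`.  There are `κ`,
`V₀` such that for `V ≥ V₀` and all real `t₀`: for every function `F` which is holomorphic and at most `e^V` in the
box `Re s > σ₁`, `|Im s - t₀| < V^κ` and agrees there with the Euler product for `Re s > 3/2`, the set of the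
`t`, `|t - t₀| < V^κ`, such that `F` has fewer than `N` zeros `ρ` in the window `Re ρ > σ₁`, `|Im ρ - t| < h`,
has measure at most `ε V^κ`.

Idea: `φ(w) = 4 + (2h/π) Log((1+w)/(1-w))` maps the unit disc to the strip `|Im| < h`.  If the window at `t`
has no zero then the Taylor coefficients of `log F(φ(w) + it)` are at most `C V R^(-n)`.  They are
`∑ c(m) g_n(m) m^(-it)`, `c(m)` the coefficients of `log L(E,s)`, supported on prime powers.  The `m` are divided in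
`I` blocks; the sum of the normalized square norms of the blocks is a function of `t` with mean value `1` and
variance at most `1/I + o(1)`, and it is at most `1/4` if the window at `t` has no zero.

Every statement `S_Name` is a separate module `Aw/Name.lean` with `theorem tName : S_Name` (the statements
after the word from are hypotheses, in this order); the complete proof is in the docstring.  All modules import only this file (and Mathlib); code may be copied from other files.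
-/

set_option autoImplicit false

namespace MP7ed9c3.Aw

open NumberField IsDedekindDomain Filter Topology MeasureTheory Metric

/-! ## A. The window -/

/-- The map of the unit disc to the strip `|Im| < h`. -/
noncomputable def phi (h : ℝ) (w : ℂ) : ℂ :=
  4 + ((2 * h / Real.pi : ℝ) : ℂ) * Complex.log ((1 + w) / (1 - w))

/-- The least real part of `phi` on the circle of radius `r`. -/
noncomputable def ell (h r : ℝ) : ℝ := 4 - 2 * h / Real.pi * Real.log ((1 + r) / (1 - r))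

/-- **Phi**.

Proof.  `Re ((1+w)/(1-w)) = (1 - |w|²)/|1-w|² > 0` for `|w| < 1`, so `(1+w)/(1-w)` is in `Complex.slitPlane`, its
argument is in `(-π/2, π/2)` (`Complex.abs_arg_lt_pi_div_two_iff`), and
`Im phi = (2h/π) arg`.  `Re phi = 4 + (2h/π) log |(1+w)/(1-w)|` and for `‖w‖ ≤ r < 1`:
`|(1+w)/(1-w)| ≥ (1-r)/(1+r)`.  For `w = -r` the quotient is the real number `(1-r)/(1+r) > 0`. -/
def S_Phi : Prop :=
  ∀ h : ℝ, 0 < h →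
    DifferentiableOn ℂ (phi h) (ball 0 1) ∧ (∀ w ∈ ball (0 : ℂ) 1, |(phi h w).im| < h) ∧
    (∀ (r : ℝ) (w : ℂ), 0 ≤ r → r < 1 → ‖w‖ ≤ r → ell h r ≤ (phi h w).re) ∧
    (∀ r : ℝ, 0 ≤ r → r < 1 → phi h (-(r : ℂ)) = (ell h r : ℂ)) ∧ phi h 0 = 4

/-- The radii. -/
structure Radii (h σ₁ b r₀ R R' R₂ R₁ : ℝ) : Prop where
  r₀pos : 0 < r₀
  lt1 : r₀ < R
  lt2 : R < R'
  lt3 : R' < R₂
  lt4 : R₂ < R₁
  lt5 : R₁ < 1
  e0 : 3 ≤ ell h r₀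
  e1 : σ₁ < ell h R₁
  e2 : ell h R < b
  e3 : 1 / 2 < ell h R₂
  e4 : 1 / 2 < ell h R

/-- **Rad**.

Proof.  `T(y) = tanh (π (4 - y)/(4h))` satisfies `ell h (T y) = y` (`(1 + tanh a)/(1 - tanh a) = exp(2a)`) and is strictly
decreasing with values in `(0, 1)` for `y < 4`.  Take
`r₀ = T 3`, `R = T (σ₁ + 4d)`, `R' = T (σ₁ + 3d)`, `R₂ = T (σ₁ + 2d)`, `R₁ = T (σ₁ + d)`, `d = (b - σ₁)/5`. -/
def S_Rad : Prop :=
  ∀ h σ₁ b : ℝ, 0 < h → 1 / 2 ≤ σ₁ → σ₁ < b → b ≤ 1 →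
    ∃ r₀ R R' R₂ R₁ : ℝ, Radii h σ₁ b r₀ R R' R₂ R₁

/-- The Taylor coefficient at `0`. -/
noncomputable def tc (n : ℕ) (f : ℂ → ℂ) : ℂ := iteratedDeriv n f 0 / (n.factorial : ℂ)

/-- **Tc**.

Proof.  (1) `iteratedDeriv_add`, `iteratedDeriv_const_mul` etc. for functions analytic at `0`
(`DifferentiableOn.analyticAt`, `AnalyticAt.contDiffAt`).  (2) Cauchy's estimate on the circle of radius `s < r`
(`Complex.norm_iteratedDeriv_le_of_forall_mem_sphere_norm_le`), `s → r`.  (3) `Complex.hasSum_taylorSeries_on_ball`.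
(4) `Filter.EventuallyEq.iteratedDeriv_eq`. -/
def S_Tc : Prop :=
  (∀ (n : ℕ) (r : ℝ) (f g : ℂ → ℂ), 0 < r → DifferentiableOn ℂ f (ball 0 r) →
    DifferentiableOn ℂ g (ball 0 r) → tc n (fun w => f w + g w) = tc n f + tc n g) ∧
  (∀ (n : ℕ) (r : ℝ) (a : ℂ) (f : ℂ → ℂ), 0 < r → DifferentiableOn ℂ f (ball 0 r) →
    tc n (fun w => a * f w) = a * tc n f) ∧
  (∀ (n : ℕ) (r A : ℝ) (f : ℂ → ℂ), 0 < r → DifferentiableOn ℂ f (ball 0 r) →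
    (∀ w ∈ ball (0 : ℂ) r, ‖f w‖ ≤ A) → ‖tc n f‖ ≤ A / r ^ n) ∧
  (∀ (r : ℝ) (f : ℂ → ℂ) (w : ℂ), 0 < r → DifferentiableOn ℂ f (ball 0 r) → w ∈ ball (0 : ℂ) r →
    HasSum (fun n : ℕ => tc n f * w ^ n) (f w)) ∧
  (∀ (n : ℕ) (r : ℝ) (f g : ℂ → ℂ), 0 < r → (∀ w ∈ ball (0 : ℂ) r, f w = g w) → tc n f = tc n g)

/-- The Taylor coefficients of `m^(-phi(w))`. -/
noncomputable def gT (h : ℝ) (n m : ℕ) : ℂ := tc n (fun w => (m : ℂ) ^ (-phi h w))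

/-- **GUp** (from `S_Phi`, `S_Tc`).

Proof.  On `ball 0 r`: `|m^(-phi)| = m^(-Re phi) ≤ m^(-ell h r)` (`m ≥ 1`), Cauchy's estimate `S_Tc` (2). -/
def S_GUp : Prop :=
  ∀ (h r : ℝ) (n m : ℕ), 0 < h → 0 < r → r < 1 → 1 ≤ m →
    ‖gT h n m‖ ≤ (m : ℝ) ^ (-ell h r) / r ^ n

/-- **GLow** (from `S_Phi`, `S_Tc`, `S_GUp`).

Proof.  `x = ell h R`.  `m^(-x) = m^(-phi(-R)) = ∑_n g_n(m) (-R)^n`.  By `S_GUp` for `R₂` (`ell h R₂ ≥ 0`) `|g_n(m)| ≤ R₂^(-n)`, so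
the sum over `n ≥ n₀` is at most `(R/R₂)^(n₀)/(1 - R/R₂) ≤ m^(-x)/2` if
`n₀ log(R₂/R) ≥ x log m + log(2/(1 - R/R₂))`: true if `n₀ ≥ L (1 + log m)`,
`L = (|x| + |log(2/(1 - R/R₂))|)/log(R₂/R)`.  So `m^(-x)/2 ≤ ∑_(n<n₀) |g_n| R^n ≤
(∑_(n<n₀) R'^(2n) |g_n|²)^(1/2) (∑ (R/R')^(2n))^(1/2)`; `c = (1 - (R/R')²)/4`. -/
def S_GLow : Prop :=
  ∀ h R R' R₂ : ℝ, 0 < h → 0 < R → R < R' → R' < R₂ → R₂ < 1 → 0 ≤ ell h R₂ →
    ∃ c L : ℝ, 0 < c ∧ 0 ≤ L ∧ ∀ n₀ m : ℕ, 1 ≤ m → L * (1 + Real.log m) ≤ n₀ →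
      c * (m : ℝ) ^ (-(2 * ell h R)) ≤ ∑ n ∈ Finset.range n₀, R' ^ (2 * n) * ‖gT h n m‖ ^ 2

/-- Coefficients supported on prime powers, at most `C √m`. -/
def Coefs (c : ℕ → ℂ) (C : ℝ) : Prop :=
  (∀ m : ℕ, ¬ IsPrimePow m → c m = 0) ∧ ∀ m : ℕ, ‖c m‖ ≤ C * √m

/-- The Dirichlet series. -/
noncomputable def dir (c : ℕ → ℂ) (s : ℂ) : ℂ := ∑' m : ℕ, c m * (m : ℂ) ^ (-s)

/-- The window at `t`. -/
def win (σ₁ h t : ℝ) : Set ℂ := {s : ℂ | σ₁ < s.re ∧ |s.im - t| < h}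

/-- **LogW** (from `S_Phi`).

Proof.  `|dir c s| ≤ B := ∑_m C m^(1/2-3)` for `Re s ≥ 3` (`c 0 = 0`).
`g(w) = G(phi h w + i t)` is differentiable and not zero on `ball 0 R₁`: `Re phi ≥ ell h R₁ > σ₁`, `|Im phi| < h`; `‖g‖ ≤ e^V`.
So `g = exp f₀` on the ball (`logballz_exists` in `Zs/LogBall.lean`).  On `ball 0 r₀`: `Re phi ≥ ell h r₀ ≥ 3`, so
`g = exp(dir c (phi + it))`, and `f₀ - dir c (phi + i t)` is continuous with values in `2πi ℤ` on a connected set, so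
constant (`dir c` is continuous on `Re s ≥ 3`: `continuousOn_tsum` with the bound `C √m m^(-3)`); subtract the constant: `f`.  `Re f ≤ V` and `|f 0| ≤ B`.
Borel-Caratheodory (`Complex.borelCaratheodory`, on `ball 0 R₁`, `M = V + B + 1`) for `‖w‖ < R₂`:
`|f w| ≤ 2 (V + B + 1) R₂/(R₁ - R₂) + B (R₁ + R₂)/(R₁ - R₂) ≤ A (V + 1)`. -/
def S_LogW : Prop :=
  ∀ (h σ₁ b r₀ R R' R₂ R₁ C : ℝ), 0 < h → 0 ≤ C → Radii h σ₁ b r₀ R R' R₂ R₁ →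
    ∃ A : ℝ, 0 ≤ A ∧ ∀ (c : ℕ → ℂ) (G : ℂ → ℂ) (t V : ℝ), Coefs c C → 0 ≤ V →
      DifferentiableOn ℂ G (win σ₁ h t) → (∀ s ∈ win σ₁ h t, G s ≠ 0) →
      (∀ s ∈ win σ₁ h t, ‖G s‖ ≤ Real.exp V) →
      (∀ s ∈ win σ₁ h t, 3 ≤ s.re → G s = Complex.exp (dir c s)) →
      ∃ f : ℂ → ℂ, DifferentiableOn ℂ f (ball 0 R₁) ∧
        (∀ w ∈ ball (0 : ℂ) r₀, f w = dir c (phi h w + t * Complex.I)) ∧
        ∀ w ∈ ball (0 : ℂ) R₂, ‖f w‖ ≤ A * (V + 1)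

/-- The sum over a block. -/
noncomputable def aS (h : ℝ) (c : ℕ → ℂ) (S : Finset ℕ) (n : ℕ) (t : ℝ) : ℂ :=
  ∑ m ∈ S, c m * gT h n m * (m : ℂ) ^ (-(t * Complex.I))

/-- The energy of a block. -/
noncomputable def en (h R' : ℝ) (c : ℕ → ℂ) (S : Finset ℕ) (n₀ : ℕ) (t : ℝ) : ℝ :=
  ∑ n ∈ Finset.range n₀, R' ^ (2 * n) * ‖aS h c S n t‖ ^ 2

/-- The weight of `m`. -/
noncomputable def wS (h R' : ℝ) (c : ℕ → ℂ) (n₀ m : ℕ) : ℝ :=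
  ‖c m‖ ^ 2 * ∑ n ∈ Finset.range n₀, R' ^ (2 * n) * ‖gT h n m‖ ^ 2

/-- The mean energy of a block. -/
noncomputable def vS (h R' : ℝ) (c : ℕ → ℂ) (S : Finset ℕ) (n₀ : ℕ) : ℝ :=
  ∑ m ∈ S, wS h R' c n₀ m

/-- **WinA** (from `S_Phi`, `S_Tc`, `S_GUp`, `S_LogW`): a window without zeros has small energies.

Proof.  `f`, `A` from `S_LogW`.  `|tc n f| ≤ A (V+1)/R₂^n` (`S_Tc` (2)).  On `ball 0 r₀`:
`f(w) = ∑_(1 ≤ m ≤ M₁) c m m^(-it) m^(-phi w) + e(w)`, `|e| ≤ ∑_(m > M₁) C √m m^(-3) ≤ C' M₁^(-3/2)` (compare with an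
integral; or crudely `√m m^(-3) ≤ M₁^(-1) m^(-3/2)` for `m ≥ M₁`, `∑ m^(-3/2)` a constant, which is enough:
`|e| ≤ C'/M₁`).  `e` is the difference of two differentiable functions.  So
`tc n f = ∑_(m ≤ M₁) c m m^(-it) g_n(m) + tc n e`, `|tc n e| ≤ C' r₀^(-n)/M₁ ≤ C'` for `n < n₀` (`r₀^(-n₀) ≤ M₁`).  The sum
over `m ≤ M₀` is at most `∑_(m ≤ M₀) C √m m^(-ell h R₂) R₂^(-n) ≤ C M₀ R₂^(-n)` (`S_GUp`, `ell h R₂ ≥ 1/2`).  So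
`|aS| ≤ (A (V+1) + C M₀ + C') R₂^(-n)`, and `∑_n R'^(2n) R₂^(-2n) ≤ 1/(1 - (R'/R₂)²)`. -/
def S_WinA : Prop :=
  ∀ (h σ₁ b r₀ R R' R₂ R₁ C : ℝ), 0 < h → 0 ≤ C → Radii h σ₁ b r₀ R R' R₂ R₁ →
    ∃ A : ℝ, 0 ≤ A ∧ ∀ (c : ℕ → ℂ) (G : ℂ → ℂ) (t V : ℝ), Coefs c C → 0 ≤ V →
      DifferentiableOn ℂ G (win σ₁ h t) → (∀ s ∈ win σ₁ h t, G s ≠ 0) →
      (∀ s ∈ win σ₁ h t, ‖G s‖ ≤ Real.exp V) →
      (∀ s ∈ win σ₁ h t, 3 ≤ s.re → G s = Complex.exp (dir c s)) →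
      ∀ M₀ M₁ n₀ : ℕ, 1 ≤ M₁ → (1 / r₀) ^ n₀ ≤ (M₁ : ℝ) →
        en h R' c (Finset.Ioc M₀ M₁) n₀ t ≤ A * (V + M₀ + 1) ^ 2

/-! ## B. Scales -/

/-- `Zg.Low` with its constants. -/
def LowU (a : ℕ → ℂ) (k : ℕ) (x η B Y₀ : ℝ) : Prop :=
  ∀ Y : ℝ, Y₀ ≤ Y → ∃ (P : ℕ) (S : Finset ℕ),
    Y ≤ P ∧ (P : ℝ) ≤ Y ^ B ∧ (∀ m ∈ S, 1 ≤ m ∧ m ≤ P ^ k) ∧
    (P : ℝ) ^ η ≤ ∑ m ∈ S, ‖a m‖ ^ 2 * (m : ℝ) ^ (-(2 * x))

/-- **Step** (from `S_GLow`): the next block.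

Proof.  `c₀`, `L` from `S_GLow` (`R`, `R'`, `R₂`; `ell h R₂ > 1/2 ≥ 0`).
`Y = (V + m₀ + 1)^(4/η + 2) ≥ V²`; `P`, `S` from `LowU`: `Y ≤ P ≤ Y^B`,
`∑_(m ∈ S) |c m|² m^(-2x) ≥ P^η ≥ (V + m₀ + 1)^4`, `x = ell h R > 1/2`.
`n₀ = ⌈L (1 + log P^k) + (log P^k)/log(1/r₀)⌉ + 1`, `m₁ = ⌈(1/r₀)^(n₀)⌉`.  Then
`m₁ ≥ (1/r₀)^(n₀) ≥ P^k ≥ P ≥ Y > m₀` (`k ≥ 1`: otherwise `S ⊆ {1}`, and `|c 1| = 0` since `1` is not a prime power, so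
`P^η ≤ 0` is false), and `m₁ ≤ 2 (1/r₀)^(n₀) ≤ C₃ (P^k)^(C₂) ≤ V^(κ₂)` for large `V` (`Y ≤ (3 V^κ₁)^(4/η+2)`).
`vS ≥ ∑_(m ∈ S, m > m₀) |c m|² c₀ m^(-2x) ≥ c₀ (P^η - ∑_(m ≤ m₀) C² m^(1-2x)) ≥ c₀ ((V+m₀+1)^4 - C² m₀)`
(all terms of `vS` are `≥ 0`; `m ≤ P^k ≤ m₁` for `m ∈ S`; `|c m| ≤ C √m`), which is `≥ (V + m₀ + 1)^3` for large `V`. -/
def S_Step : Prop :=
  ∀ (h σ₁ b r₀ R R' R₂ R₁ C η B : ℝ) (k : ℕ), 0 < h → 0 ≤ C → 0 < η → 1 ≤ B →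
    Radii h σ₁ b r₀ R R' R₂ R₁ → ∀ κ₁ : ℝ, 1 ≤ κ₁ → ∃ κ₂ V₀ : ℝ, κ₁ ≤ κ₂ ∧ 1 ≤ V₀ ∧
      ∀ V : ℝ, V₀ ≤ V → ∀ c : ℕ → ℂ, Coefs c C → LowU c k (ell h R) η B (V ^ 2) →
      ∀ m₀ : ℕ, (m₀ : ℝ) ≤ V ^ κ₁ → ∃ m₁ n₀ : ℕ, m₀ < m₁ ∧ (m₁ : ℝ) ≤ V ^ κ₂ ∧
        (1 / r₀) ^ n₀ ≤ (m₁ : ℝ) ∧ (V + m₀ + 1) ^ 3 ≤ vS h R' c (Finset.Ioc m₀ m₁) n₀

/-- **Scale** (from `S_Step`): the blocks.

Proof.  Induction on `I`; for `I = 0` take `M 0 = 1`, `κ₁ = 1`, `V₀ = 1`.  Step: given `κ₁`, `V₀` for `I`, take `κ₂`, `V₀'` from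
`S_Step`; for `V ≥ max V₀ V₀'` and `c` take `M`, `nn` for `I`, apply `S_Step` to `m₀ = M I`, and change `M` and `nn` only at the new
indices: `M (I+1) = m₁`, `nn I = n₀` (`Function.update`, or `fun i => if i ≤ I then M i else m₁`). -/
def S_Scale : Prop :=
  ∀ (h σ₁ b r₀ R R' R₂ R₁ C η B : ℝ) (k : ℕ), 0 < h → 0 ≤ C → 0 < η → 1 ≤ B →
    Radii h σ₁ b r₀ R R' R₂ R₁ →
    ∀ I : ℕ, ∃ κ₁ V₀ : ℝ, 1 ≤ κ₁ ∧ 1 ≤ V₀ ∧ ∀ V : ℝ, V₀ ≤ V → ∀ c : ℕ → ℂ, Coefs c C →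
      LowU c k (ell h R) η B (V ^ 2) → ∃ M nn : ℕ → ℕ,
      M 0 = 1 ∧ (∀ i < I, M i < M (i + 1)) ∧ (M I : ℝ) ≤ V ^ κ₁ ∧
      (∀ i < I, (1 / r₀) ^ nn i ≤ (M (i + 1) : ℝ)) ∧
      ∀ i < I, (V + M i + 1) ^ 3 ≤ vS h R' c (Finset.Ioc (M i) (M (i + 1))) (nn i)

/-- **WB** (from `S_GUp`): the weights are bounded.

Proof.  `m ≥ 1`: `‖c m‖² ≤ C² m`, `‖gT‖² ≤ m^(-2 ell h R₂) R₂^(-2n) ≤ m^(-1) R₂^(-2n)`, and `∑_n (R'/R₂)^(2n) ≤ 1/(1 - (R'/R₂)²)`. -/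
def S_WB : Prop :=
  ∀ (h σ₁ b r₀ R R' R₂ R₁ C : ℝ), 0 < h → 0 ≤ C → Radii h σ₁ b r₀ R R' R₂ R₁ →
    ∃ A : ℝ, 0 ≤ A ∧ ∀ c : ℕ → ℂ, Coefs c C → ∀ n₀ m : ℕ, 1 ≤ m → wS h R' c n₀ m ≤ A

/-- **NumC**: the numbers in `S_Core`.

Proof.  `Nat.log 2 M ≤ log M/log 2 ≤ 2 κ₁ log V`, so `(A/V³) (Nat.log 2 M)² → 0`; `M⁴ ≤ V^(4κ₁) ≤ T/V` (`5 κ₁ + 1 ≥ 4 κ₁ + 1`);
`2h ≤ (2h/V) T` (`T ≥ V^(5κ₁+1) ≥ V`... in fact `T ≥ V²`).  `8/I ≤ ε/2`. -/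
def S_NumC : Prop :=
  ∀ (ε A κ₁ h : ℝ) (I : ℕ), 0 < ε → 0 ≤ A → 1 ≤ κ₁ → 0 < h → 16 / ε ≤ I → ∃ V₀ : ℝ, 1 ≤ V₀ ∧
    ∀ (V T : ℝ) (M : ℕ), V₀ ≤ V → V ^ (5 * κ₁ + 1) ≤ T → 1 ≤ M → (M : ℝ) ≤ V ^ κ₁ →
      4 * ((1 / I + A / V ^ 3 * (Nat.log 2 M : ℝ) ^ 2) * (2 * T) + 6 * (M : ℝ) ^ 4) + 2 * h ≤ ε * T

/-! ## C. Mean values -/

/-- **Osc**.

Proof.  `y = log(N'/N)`, the function is `exp(i y t)`, `|∫| = |exp(iyb) - exp(iya)|/|y| ≤ 2/|y|`, and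
`|log(N'/N)| ≥ 1/max(N,N')` for different positive integers (`log(1+1/k) ≥ 1/(k+1)`, `Real.one_sub_inv_le_log_of_pos`). -/
def S_Osc : Prop :=
  ∀ (N N' X : ℕ) (a b : ℝ), 1 ≤ N → 1 ≤ N' → N ≤ X → N' ≤ X → N ≠ N' →
    ‖∫ t in a..b, (N : ℂ) ^ (-(t * Complex.I)) * (N' : ℂ) ^ (t * Complex.I)‖ ≤ 2 * X

/-- The energy of a family of vectors. -/
noncomputable def dE {ι : Type} [Fintype ι] (S : Finset ℕ) (v : ℕ → ι → ℂ) (t : ℝ) : ℝ :=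
  ∑ i, ‖∑ m ∈ S, v m i * (m : ℂ) ^ (-(t * Complex.I))‖ ^ 2

/-- The square of the norm of the vector. -/
noncomputable def uu {ι : Type} [Fintype ι] (v : ℕ → ι → ℂ) (m : ℕ) : ℝ := ∑ i, ‖v m i‖ ^ 2

/-- The absolute value of the scalar product. -/
noncomputable def sp {ι : Type} [Fintype ι] (v : ℕ → ι → ℂ) (m m' : ℕ) : ℝ :=
  ‖∑ i, v m i * (starRingEnd ℂ) (v m' i)‖

open Classical in
/-- The sum over the quadruples with equal products. -/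
noncomputable def quad {ι : Type} [Fintype ι] (S : Finset ℕ) (v : ℕ → ι → ℂ) : ℝ :=
  ∑ m₁ ∈ S, ∑ m₂ ∈ S, ∑ n₁ ∈ S, ∑ n₂ ∈ S,
    if m₁ * m₂ = n₁ * n₂ then sp v m₁ n₁ * sp v m₂ n₂ else 0

/-- **MeanA** (from `S_Osc`): the first moment.

Proof.  `conj (m^(-it)) = m^(it)` for natural `m ≥ 1`.  `dE = ∑_(m, m') ⟨v m, v m'⟩ m^(-it) m'^(it)` (as complex
numbers).  The terms `m = m'` give `(b-a) ∑ uu`; the others are, by `S_Osc` (`X = M`) and `|⟨v m, v m'⟩| ≤ √(uu m) √(uu m')`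
(Cauchy-Schwarz), together at most `2M (∑_m √(uu m))² ≤ 2M · M ∑ uu = 2 M²` (`S` has at most `M` elements). -/
def S_MeanA : Prop :=
  ∀ (ι : Type) [Fintype ι] (S : Finset ℕ) (v : ℕ → ι → ℂ) (M : ℕ) (a b : ℝ), a ≤ b →
    (∀ m ∈ S, 1 ≤ m ∧ m ≤ M) → ∑ m ∈ S, uu v m = 1 →
    (b - a) - 2 * (M : ℝ) ^ 2 ≤ ∫ t in a..b, dE S v t

/-- **MeanB** (from `S_Osc`): the second moment.

Proof.  As `S_MeanA`: `dE² = ∑_(m₁,n₁,m₂,n₂) ⟨v m₁, v n₁⟩ ⟨v m₂, v n₂⟩ (m₁ m₂)^(-it) (n₁ n₂)^(it)`; the terms with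
`m₁ m₂ = n₁ n₂` contribute at most `(b-a) quad`, each of the others at most `2 M² √(uu m₁ uu n₁ uu m₂ uu n₂)`, together
at most `2 M² (∑ √uu)⁴ ≤ 2 M² (M)² = 2 M⁴`. -/
def S_MeanB : Prop :=
  ∀ (ι : Type) [Fintype ι] (S : Finset ℕ) (v : ℕ → ι → ℂ) (M : ℕ) (a b : ℝ), a ≤ b →
    (∀ m ∈ S, 1 ≤ m ∧ m ≤ M) → ∑ m ∈ S, uu v m = 1 →
    ∫ t in a..b, dE S v t ^ 2 ≤ (b - a) * quad S v + 2 * (M : ℝ) ^ 4

/-- **PP**: products of two prime powers.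

Proof.  If all four are powers of one prime: third case (`Nat.minFac` of a power `p^j`, `j ≥ 1`, is `p`,
`Nat.Prime.pow_minFac`).  Let `m₁ = p^a`.  If `m₂ = q^b` with `q ≠ p`: `m₁ m₂` has exactly the prime factors `p`, `q`, so
`n₁`, `n₂` are not powers of the same prime, and by unique factorization (`Nat.factorization` at `p` and `q`)
`{n₁, n₂} = {p^a, q^b}`.  If `m₂ = p^b`: the only prime factor of `n₁ n₂` is `p`. -/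
def S_PP : Prop :=
  ∀ m₁ m₂ n₁ n₂ : ℕ, IsPrimePow m₁ → IsPrimePow m₂ → IsPrimePow n₁ → IsPrimePow n₂ →
    m₁ * m₂ = n₁ * n₂ → (n₁ = m₁ ∧ n₂ = m₂) ∨ (n₁ = m₂ ∧ n₂ = m₁) ∨
      (m₂.minFac = m₁.minFac ∧ n₁.minFac = m₁.minFac ∧ n₂.minFac = m₁.minFac)

open Classical in
/-- **Q3**: the quadruples of powers of one prime.

Proof.  All terms are `≥ 0`, `sp(m,n) ≤ √(uu m uu n)` (Cauchy-Schwarz), so each term is at most `√(uu m₁ uu m₂) τ`.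
Given `m₁`, `m₂`, `n₁` (all positive) the number `n₂` is determined by `n₁ n₂ = m₁ m₂`, and `n₁` is one of the at most
`L = Nat.log 2 M` elements of `S` with `minFac n₁ = minFac m₁ = p` (they are powers `p^j`, `1 ≤ j`, `2^j ≤ p^j ≤ M`, and are determined
by `j`).  So the total is at most
`τ L ∑_(m₁, m₂ ∈ S, minFac m₁ = minFac m₂) √(uu m₁ uu m₂) ≤ τ L ∑ (uu m₁ + uu m₂)/2 ≤ τ L · L ∑ uu`. -/
def S_Q3 : Prop :=
  ∀ (ι : Type) [Fintype ι] (S : Finset ℕ) (v : ℕ → ι → ℂ) (M : ℕ) (τ : ℝ),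
    (∀ m ∈ S, IsPrimePow m ∧ m ≤ M) → 0 ≤ τ → ∑ m ∈ S, uu v m = 1 → (∀ m ∈ S, uu v m ≤ τ) →
    (∑ m₁ ∈ S, ∑ m₂ ∈ S, ∑ n₁ ∈ S, ∑ n₂ ∈ S,
      if m₁ * m₂ = n₁ * n₂ ∧ m₂.minFac = m₁.minFac ∧ n₁.minFac = m₁.minFac ∧
        n₂.minFac = m₁.minFac then sp v m₁ n₁ * sp v m₂ n₂ else 0) ≤ τ * (Nat.log 2 M : ℝ) ^ 2

/-- **Quads** (from `S_PP`, `S_Q3`).

Proof.  All terms are `≥ 0` and each quadruple with `m₁ m₂ = n₁ n₂` is in one of the classes of `S_PP`.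
First class: `∑ sp(m₁,m₁) sp(m₂,m₂) = (∑ uu)² = 1`.
Second class: `∑_(m₁,m₂) sp(m₁,m₂)²`, which vanishes unless `blk m₁ = blk m₂`, and `sp² ≤ uu(m₁) uu(m₂)`; the sum over `m₂`
in the block of `m₁` is at most `δ uu(m₁)`, so the total is at most `δ`.
Third class: `S_Q3`. -/
def S_Quads : Prop :=
  ∀ (ι : Type) [Fintype ι] (S : Finset ℕ) (v : ℕ → ι → ℂ) (blk : ℕ → ℕ) (M : ℕ) (δ τ : ℝ),
    (∀ m ∈ S, IsPrimePow m ∧ m ≤ M) → 0 ≤ δ → 0 ≤ τ → ∑ m ∈ S, uu v m = 1 →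
    (∀ m ∈ S, ∀ m' ∈ S, blk m ≠ blk m' → sp v m m' = 0) →
    (∀ j : ℕ, ∑ m ∈ S with blk m = j, uu v m ≤ δ) → (∀ m ∈ S, uu v m ≤ τ) →
    quad S v ≤ 1 + δ + τ * (Nat.log 2 M : ℝ) ^ 2

/-- **Cheb** (from `S_MeanA`, `S_MeanB`, `S_Quads`).

Proof.  `D = dE S v` is continuous and `≥ 0`.  `∫ (D - 1)² = ∫ D² - 2 ∫ D + (b - a) ≤
(b-a)(1 + δ + τ L²) + 2M⁴ - 2 (b-a) + 4 M² + (b-a) ≤ (δ + τ L²)(b-a) + 6 M⁴`, `L = Nat.log 2 M`.  On the set `D ≤ 1/2` the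
integrand is at least `1/4`. -/
def S_Cheb : Prop :=
  ∀ (ι : Type) [Fintype ι] (S : Finset ℕ) (v : ℕ → ι → ℂ) (blk : ℕ → ℕ) (M : ℕ) (δ τ a b : ℝ),
    a ≤ b → (∀ m ∈ S, IsPrimePow m ∧ m ≤ M) → 0 ≤ δ → 0 ≤ τ → ∑ m ∈ S, uu v m = 1 →
    (∀ m ∈ S, ∀ m' ∈ S, blk m ≠ blk m' → sp v m m' = 0) →
    (∀ j : ℕ, ∑ m ∈ S with blk m = j, uu v m ≤ δ) → (∀ m ∈ S, uu v m ≤ τ) →
    volume {t : ℝ | t ∈ Set.Icc a b ∧ dE S v t ≤ 1 / 2} ≤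
      ENNReal.ofReal (4 * ((δ + τ * (Nat.log 2 M : ℝ) ^ 2) * (b - a) + 6 * (M : ℝ) ^ 4))

/-- **Blocks** (from `S_Cheb`): almost everywhere some block has a large energy.

Proof.  `ι = Σ i : Fin I, Fin (nn i)`, `S` = the set of the prime powers `m` with `M 0 < m ≤ M I`, `blk m` = the number of
`i < I` with `M (i+1) < m` (so `m ∈ Ioc (M i) (M (i+1))` iff `blk m = i`, for `m` in the range),
`v m ⟨i, n⟩ = c m · gT h n m · R'^n/√(I v_i)` if `m ∈ Ioc (M i) (M (i+1))`, else `0`; `v_i = vS … (nn i) > 0`.  Then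
`uu v m = wS h R' c (nn i) m/(I v_i)` for `m` in block `i`; `∑ uu = ∑_i 1/I = 1`; `δ = 1/I`;
`uu ≤ τ` by hypothesis (`I ≥ 1`); vectors of different blocks have disjoint supports.
`dE S v t = ∑_i en_i(t)/(I v_i)` (`c m = 0` if `m` is not a prime power), so it is at most `1/2` if `en_i(t) ≤ v_i/2` for
all `i`. -/
def S_Blocks : Prop :=
  ∀ (h R' C τ a b : ℝ) (c : ℕ → ℂ) (I : ℕ) (M nn : ℕ → ℕ), 0 < R' → Coefs c C → 1 ≤ I → 0 ≤ τ →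
    a ≤ b → (∀ i < I, M i < M (i + 1)) →
    (∀ i < I, 0 < vS h R' c (Finset.Ioc (M i) (M (i + 1))) (nn i)) →
    (∀ i < I, ∀ m ∈ Finset.Ioc (M i) (M (i + 1)),
      wS h R' c (nn i) m ≤ τ * vS h R' c (Finset.Ioc (M i) (M (i + 1))) (nn i)) →
    volume {t : ℝ | t ∈ Set.Icc a b ∧ ∀ i < I, en h R' c (Finset.Ioc (M i) (M (i + 1))) (nn i) t ≤
        vS h R' c (Finset.Ioc (M i) (M (i + 1))) (nn i) / 2} ≤
      ENNReal.ofReal (4 * ((1 / I + τ * (Nat.log 2 (M I) : ℝ) ^ 2) * (b - a) + 6 * (M I : ℝ) ^ 4))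

/-- **Core** (from `S_Rad`, `S_WB`, `S_WinA`, `S_Scale`, `S_Blocks`, `S_NumC`): one zero in almost every window.

Proof.  Radii from `S_Rad` (with `b`), `A` from `S_WinA`, `C'` from `S_WB`, `x = ell h R`, `1/2 < x < b`, `I = ⌈16/ε⌉ + 1`, `κ₁`, `V₁` from
`S_Scale`, `κ = 5 κ₁ + 1`.  Let `V ≥ V₀` be large, `T ≥ V^κ`, `M`, `nn` from `S_Scale`,
`v_i ≥ (V + M_i + 1)³ ≥ 2 A (V + M_i + 1)²` (`V ≥ 2A`).  `τ = C'/V³`: `wS ≤ C'` (`m > M i ≥ 1`, or `m ≥ 1` anyway) and `v_i ≥ V³`.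
Let `t` be in the set of the statement with `|t - t₀| < T - h`: then `win σ₁ h t` is contained in the box and `G` has no zero
there, so by `S_WinA`: `en_i(t) ≤ A (V + M_i + 1)² ≤ v_i/2` for all `i < I` (`M₁ = M (i+1) ≥ 1`).  So the measure of these `t` is, by
`S_Blocks` on `[t₀ - T, t₀ + T]`, at most `4 ((1/I + (C'/V³) (log₂ M_I)²) 2T + 6 M_I⁴)`.  The other `t` (`T - h ≤ |t - t₀| < T`) have
measure at most `2h`.  `S_NumC`. -/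
def S_Core : Prop :=
  ∀ (C b : ℝ) (k : ℕ), 0 ≤ C → b ≤ 1 →
    ∀ σ₁ h ε : ℝ, 1 / 2 ≤ σ₁ → σ₁ < b → 0 < h → 0 < ε → ∃ x : ℝ, 1 / 2 < x ∧ x < b ∧
      ∀ η B : ℝ, 0 < η → 1 ≤ B → ∃ κ V₀ : ℝ, 1 ≤ κ ∧
      ∀ V T t₀ : ℝ, V₀ ≤ V → V ^ κ ≤ T → ∀ c : ℕ → ℂ, Coefs c C → LowU c k x η B (V ^ 2) →
      ∀ G : ℂ → ℂ, DifferentiableOn ℂ G (win σ₁ T t₀) →
        (∀ s ∈ win σ₁ T t₀, ‖G s‖ ≤ Real.exp V) →
        (∀ s ∈ win σ₁ T t₀, 3 ≤ s.re → G s = Complex.exp (dir c s)) →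
        volume {t : ℝ | |t - t₀| < T ∧ ∀ ρ ∈ win σ₁ h t, ρ ∈ win σ₁ T t₀ → G ρ ≠ 0} ≤
          ENNReal.ofReal (ε * T)

/-! ## D. The Euler product -/

/-- **Grp**: grouping the terms.

Proof.  `∑_i |τ_i| |λ_i^(-s)| ≤ ∑ |τ_i|/λ_i³ < ∞` (`λ_i ≥ 1`, `Re s ≥ 3`).  The function
`(i, m) ↦ if λ_i = m then τ_i m^(-s) else 0` is summable; sum it in both orders (`Summable.tsum_comm`,
`tsum_ite_eq`). -/
def S_Grp : Prop :=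
  ∀ (ι : Type) (lam : ι → ℕ) (τ : ι → ℂ), (∀ i, 1 ≤ lam i) →
    Summable (fun i => ‖τ i‖ / (lam i : ℝ) ^ 3) →
    ∀ s : ℂ, 3 ≤ s.re → Zs.ser lam τ s = dir (Zs.coef lam τ) s

/-- **SerGe**: the logarithm of the Euler product for `Re s ≥ 3`.

Proof.  As `Zs/Series.lean` (`seriesz`), where `Re s = 3` is used only for `|q^(-s)| = q^(-3)`; here `|q^(-s)| ≤ q^(-3)`. -/
def S_SerGe : Prop :=
  ∀ (K : Type) [Field K] [NumberField K] (α β : HeightOneSpectrum (𝓞 K) → ℂ)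
    (M : HeightOneSpectrum (𝓞 K) → WeierstrassCurve (𝓞 K)),
    (∀ (v : HeightOneSpectrum (𝓞 K)) (s : ℂ), locDen (M v) v s =
        (1 - α v * (nm v : ℂ) ^ (-s)) * (1 - β v * (nm v : ℂ) ^ (-s))) →
    (∀ v, ‖α v‖ ≤ nm v + 1 ∧ ‖β v‖ ≤ nm v + 1) →
    Summable (fun i => ‖Zs.tauE α β i‖ / (Zs.lamE K i : ℝ) ^ 3) ∧
    ∀ s : ℂ, 3 ≤ s.re → ∏' v : HeightOneSpectrum (𝓞 K), (locDen (M v) v s)⁻¹ =
      Complex.exp (Zs.ser (Zs.lamE K) (Zs.tauE α β) s)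

open Classical in
/-- The roots, put equal to `0` on a finite set. -/
noncomputable def cut {K : Type} [Field K] [NumberField K] (X : Finset (HeightOneSpectrum (𝓞 K)))
    (α : HeightOneSpectrum (𝓞 K) → ℂ) : HeightOneSpectrum (𝓞 K) → ℂ :=
  fun v => if v ∈ X then 0 else α v

/-- **Mod**: removing the Euler factors of a finite set.

Proof.  `tauE α β i = tauE (cut α) (cut β) i` for `i.1 ∉ X`, and `tauE (cut α) (cut β) i = 0` for `i.1 ∈ X`.  So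
`ser (tauE α β) - ser (tauE (cut …)) = ∑_(v ∈ X) ∑_j τ_(v,j) λ^(-s) = ∑_(v ∈ X) (-log(1 - α q^(-s)) - log(1 - β q^(-s)))`
(absolute convergence: `tsum` over the pairs; `seriesz_log`, `seriesz_ratio` in `Zs/Series.lean`), and the exponential of this is
`∏_(v ∈ X) locDen⁻¹`. -/
def S_Mod : Prop :=
  ∀ (K : Type) [Field K] [NumberField K] (α β : HeightOneSpectrum (𝓞 K) → ℂ)
    (M : HeightOneSpectrum (𝓞 K) → WeierstrassCurve (𝓞 K)) (X : Finset (HeightOneSpectrum (𝓞 K))),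
    (∀ (v : HeightOneSpectrum (𝓞 K)) (s : ℂ), locDen (M v) v s =
        (1 - α v * (nm v : ℂ) ^ (-s)) * (1 - β v * (nm v : ℂ) ^ (-s))) →
    (∀ v, ‖α v‖ ≤ nm v + 1 ∧ ‖β v‖ ≤ nm v + 1) →
    Summable (fun i => ‖Zs.tauE α β i‖ / (Zs.lamE K i : ℝ) ^ 3) →
    ∀ s : ℂ, 3 ≤ s.re →
      Complex.exp (Zs.ser (Zs.lamE K) (Zs.tauE (cut X α) (cut X β)) s) =
        (∏ v ∈ X, locDen (M v) v s) * Complex.exp (Zs.ser (Zs.lamE K) (Zs.tauE α β) s)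

/-- **CoefB** (from `Zs.S_Over`, `Zs.S_Coef`): size of the coefficients.

Proof.  If `coef m ≠ 0` some `(v, j)` has `nm v^(j+1) = m`; `nm v` is a prime power (see the proof of `Zs.S_Over`), so `m` is a
prime power.  For `m = p^k`, `k ≥ 1`: `s`, `f` from `S_Over`, `coef = psum/k` by `S_Coef`, and
`|psum| ≤ ∑_(v ∈ s, f v ∣ k) f v · 2 (√(p^(f v)))^(k/f v) = 2 √(p^k) ∑ f v ≤ 2n √(p^k)`.  For `m = 0` and `m = 1` the coefficient is `0`. -/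
def S_CoefB : Prop :=
  ∀ (K : Type) [Field K] [NumberField K] (α β : HeightOneSpectrum (𝓞 K) → ℂ),
    (∀ v, ‖α v‖ ≤ √(nm v) ∧ ‖β v‖ ≤ √(nm v)) →
    Coefs (Zs.coef (Zs.lamE K) (Zs.tauE α β)) (2 * (Module.finrank ℚ K : ℝ))

/-- **LocZ**: the zeros of finitely many Euler polynomials in a window.

Proof.  A zero of `∏ locDen` is a zero of `1 - a q^(-s)`, `a = α v` or `β v`, `q = nm v ≥ 2`, `v ∈ X` (`a ≠ 0`).  If `s`, `s'` are two zeros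
of the same factor then `q^(-s) = q^(-s')`, so `s - s' = 2πi k/log q` with an integer `k` (`Complex.exp_eq_exp_iff_exists_int`), and
`|Im s - Im s'| < 2h` gives `|k| < h log q/π`.  So there are at most `2 (h log q/π) + 1` zeros of this factor in a window; sum over the
`2 |X|` factors. -/
def S_LocZ : Prop :=
  ∀ (K : Type) [Field K] [NumberField K] (α β : HeightOneSpectrum (𝓞 K) → ℂ)
    (M : HeightOneSpectrum (𝓞 K) → WeierstrassCurve (𝓞 K)) (X : Finset (HeightOneSpectrum (𝓞 K))),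
    (∀ (v : HeightOneSpectrum (𝓞 K)) (s : ℂ), locDen (M v) v s =
        (1 - α v * (nm v : ℂ) ^ (-s)) * (1 - β v * (nm v : ℂ) ^ (-s))) →
    ∀ h : ℝ, 0 < h → ∃ N₀ : ℕ, ∀ (t : ℝ) (Z : Finset ℂ),
      (∀ ρ ∈ Z, |ρ.im - t| < h ∧ ∏ v ∈ X, locDen (M v) v ρ = 0) → Z.card ≤ N₀

/-- **LocB**: finitely many Euler polynomials are entire and bounded for `Re s ≥ 0`.

Proof.  `|1 - α q^(-s)| ≤ 1 + |α|` for `Re s ≥ 0`. -/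
def S_LocB : Prop :=
  ∀ (K : Type) [Field K] [NumberField K] (α β : HeightOneSpectrum (𝓞 K) → ℂ)
    (M : HeightOneSpectrum (𝓞 K) → WeierstrassCurve (𝓞 K)) (X : Finset (HeightOneSpectrum (𝓞 K))),
    (∀ (v : HeightOneSpectrum (𝓞 K)) (s : ℂ), locDen (M v) v s =
        (1 - α v * (nm v : ℂ) ^ (-s)) * (1 - β v * (nm v : ℂ) ^ (-s))) →
    (Differentiable ℂ fun s : ℂ => ∏ v ∈ X, locDen (M v) v s) ∧
    ∃ B : ℝ, ∀ s : ℂ, 0 ≤ s.re → ‖∏ v ∈ X, locDen (M v) v s‖ ≤ B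

/-- **NWin**: from one zero to `N` zeros.

Proof.  `N ≥ 1` (otherwise the set is empty).  `h' = h/N`, `s_j = (2j + 1 - N) h'`, `j < N`: the windows `|y - (t + s_j)| < h'` are disjoint
and contained in `|y - t| < h`, `|s_j| < h`.  If `|t - t₀| < T - h` and every `t + s_j` is outside the exceptional set of the
hypothesis then choose a zero in each of the `N` disjoint windows: `N` different points.  So the set of the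
statement is contained in the union of the `N` translates of the exceptional set (measure `≤ ε' T` each, translation invariance:
`measure_preimage_add_right`) and of the set `T - h ≤ |t - t₀| < T` (measure `≤ 2h`). -/
def S_NWin : Prop :=
  ∀ (Z : Set ℂ) (σ₁ h ε' T t₀ : ℝ) (N : ℕ), 0 < h → 0 ≤ ε' → 1 ≤ N → h ≤ T →
    volume {t : ℝ | |t - t₀| < T ∧ ∀ ρ ∈ win σ₁ (h / N) t, ρ ∈ win σ₁ T t₀ → ρ ∉ Z} ≤
      ENNReal.ofReal (ε' * T) →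
    volume {t : ℝ | |t - t₀| < T ∧ ¬ ∃ Y : Finset ℂ, Y.card = N ∧
        ∀ ρ ∈ Y, ρ ∈ win σ₁ h t ∧ ρ ∈ win σ₁ T t₀ ∧ ρ ∈ Z} ≤ ENNReal.ofReal (N * ε' * T + 2 * h)

/-- The conclusion. -/
def Windows (K : Type) [Field K] [NumberField K]
    (M : HeightOneSpectrum (𝓞 K) → WeierstrassCurve (𝓞 K)) (b : ℝ) : Prop :=
  ∀ σ₁ h ε : ℝ, σ₁ < b → 0 < h → 0 < ε → ∀ N : ℕ, ∃ κ V₀ : ℝ, ∀ V t₀ : ℝ, V₀ ≤ V →
      ∀ F : ℂ → ℂ, DifferentiableOn ℂ F {s : ℂ | σ₁ < s.re ∧ |s.im - t₀| < V ^ κ} →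
        (∀ s : ℂ, σ₁ < s.re → |s.im - t₀| < V ^ κ → ‖F s‖ ≤ Real.exp V) →
        (∀ s : ℂ, 3 / 2 < s.re → |s.im - t₀| < V ^ κ →
          F s = ∏' v : HeightOneSpectrum (𝓞 K), (locDen (M v) v s)⁻¹) →
        volume {t : ℝ | |t - t₀| < V ^ κ ∧ ¬ ∃ Y : Finset ℂ, Y.card = N ∧ ∀ ρ ∈ Y,
            σ₁ < ρ.re ∧ |ρ.im - t| < h ∧ |ρ.im - t₀| < V ^ κ ∧ F ρ = 0} ≤
          ENNReal.ofReal (ε * V ^ κ)

/-- Everything we need about the Euler product: `P` a finite product of Euler polynomials. -/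
def Data (K : Type) [Field K] [NumberField K]
    (M : HeightOneSpectrum (𝓞 K) → WeierstrassCurve (𝓞 K)) (b : ℝ) : Prop :=
  ∃ (P : ℂ → ℂ) (c : ℕ → ℂ) (C B : ℝ) (k : ℕ), 0 ≤ C ∧ Coefs c C ∧
    (∀ x : ℝ, 1 / 2 < x → x < b → Zg.Low c k x) ∧
    Differentiable ℂ P ∧ (∀ s : ℂ, 0 ≤ s.re → ‖P s‖ ≤ B) ∧
    (∀ h : ℝ, 0 < h → ∃ N₀ : ℕ, ∀ (t : ℝ) (Z : Finset ℂ),
      (∀ ρ ∈ Z, |ρ.im - t| < h ∧ P ρ = 0) → Z.card ≤ N₀) ∧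
    ∀ s : ℂ, 3 ≤ s.re →
      P s * ∏' v : HeightOneSpectrum (𝓞 K), (locDen (M v) v s)⁻¹ = Complex.exp (dir c s)

/-- The lower bound for all families of roots. -/
def LowAll (K : Type) [Field K] [NumberField K] (k : ℕ) (b : ℝ) : Prop :=
  ∀ α β : HeightOneSpectrum (𝓞 K) → ℂ, Zg.RootsOK K α β →
    ∀ x : ℝ, 1 / 2 < x → x < b → Zg.Low (Zs.coef (Zs.lamE K) (Zs.tauE α β)) k x

/-- **DataE** (from `S_Grp`, `S_SerGe`, `S_Mod`, `S_CoefB`, `S_LocZ`, `S_LocB`, `Zs.S_Roots`, `Zg.S_RootsP`).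

Proof.  `α`, `β`, `X` from `Zs.S_Roots`, `X` as a `Finset`; `P = ∏_(v ∈ X) locDen`; `α' = cut X α`, `β' = cut X β`:
`‖α'‖, ‖β'‖ ≤ √(nm v)`, also `≤ nm v + 1`; `RootsOK K α' β'` because the exceptional set is contained in `X` (`Zg.S_RootsP`).
`c = Zs.coef (lamE K) (tauE α' β')`, `C = 2n`, `S_CoefB`; `Low` by `LowAll`; `S_LocB`, `S_LocZ`.  For `Re s ≥ 3`: `S_SerGe` for `α`, `β`,
`S_Mod`, and `S_Grp` for `tauE α' β'` (its summability: `‖tauE α' β' i‖ ≤ ‖tauE α β i‖`). -/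
def S_DataE : Prop :=
  ∀ (K : Type) [Field K] [NumberField K] (E : WeierstrassCurve K), E.IsElliptic →
    ∀ M : HeightOneSpectrum (𝓞 K) → WeierstrassCurve (𝓞 K), (∀ v, IsMinAt E v (M v)) →
    ∀ (k : ℕ) (b : ℝ), LowAll K k b → Data K M b

/-- **Red** (from `S_Core`, `S_NWin`).

Proof.  `σ = max σ₁ (1/2) < b` (the windows with `σ` are smaller, so it suffices to find the zeros there).
`N₀` from `Data` for `h`, `N' = N + N₀ + 1`, `ε' = ε/(2N')`.  `S_Core` for `σ`, `h/N'`, `ε'` gives `x`; `η`, `B'`, `Y₀` from `Low c k x`,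
then `κ`, `V₁`; the new exponent is `κ + 1`, `T = V^(κ+1)`.  For `V ≥ 1` large: `(2V)² ≥ Y₀` (so `LowU c k x η B' ((2V)^2)`), `(2V)^κ ≤ T`, `h ≤ T`, `2h ≤ ε T/2`, `B e^V ≤ e^(2V)`.  `G = F P`:
differentiable on the box, `‖G‖ ≤ e^(2V)`, `G = exp(dir c)` for `Re s ≥ 3`.  `S_Core` with `2V`, `T`, then `S_NWin` with `Z` = the zeros of
`G`, `N'`, `ε'`: outside a set of measure at most `N' ε' T + 2h ≤ ε T` there is a set `Y` of `N'` zeros of `G` in the window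
(in the box).  At most `N₀` of them are zeros of `P`; the others (at least `N`; choose a subset with `N` elements) are zeros of `F`. -/
def S_Red : Prop :=
  ∀ (K : Type) [Field K] [NumberField K] (M : HeightOneSpectrum (𝓞 K) → WeierstrassCurve (𝓞 K))
    (b : ℝ), 1 / 2 < b → b ≤ 1 → Data K M b → Windows K M b

/-- **LowA** (from `Zs.S_Lower`): the lower bound for `b = 1/2 + 1/(4n)`.

Proof.  `X` = the exceptional set of `RootsOK`; for `v ∉ X`: `‖α‖ = √(nm v)`, `‖β‖ = nm v/‖α‖ = √(nm v)`.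
`Zs.S_Lower` gives `η`, `P₀`; for `Y ≥ max P₀ 2`: `P = ⌈Y⌉₊ ≤ Y²`, `B = 2`. -/
def S_LowA : Prop :=
  ∀ (K : Type) [Field K] [NumberField K],
    LowAll K (2 * Module.finrank ℚ K) (1 / 2 + 1 / (4 * (Module.finrank ℚ K : ℝ)))

/-- **LowG** (from `Zg.S_Many`, `Zg.S_Lower`): the lower bound for an admissible number.

Proof.  As in `Zg/Fin.lean`. -/
def S_LowG : Prop :=
  ∀ (K N : Type) [Field K] [NumberField K] [Field N] [NumberField N] [IsGalois ℚ N]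
    (g : N ≃ₐ[ℚ] N) (k : ℕ), Nonempty (K →ₐ[ℚ] N) → Zg.Adm (Zg.perm (K := K) g) k →
    LowAll K k (1 / 2 + 1 / (2 * (k : ℝ)))

/-- **Fin** (from `S_DataE`, `S_Red`, `S_LowA`, `S_LowG`).

Proof.  First part: `b = 1/2 + 1/(4n) ≤ 1` (`n ≥ 1`).  Second part: `k ≥ 1` (`Adm` with `ψ = 0`), `b ≤ 1`. -/
def S_Fin : Prop :=
  ∀ (K : Type) [Field K] [NumberField K] (E : WeierstrassCurve K), E.IsElliptic →
    ∀ M : HeightOneSpectrum (𝓞 K) → WeierstrassCurve (𝓞 K), (∀ v, IsMinAt E v (M v)) →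
    Windows K M (1 / 2 + 1 / (4 * (Module.finrank ℚ K : ℝ))) ∧
    ∀ (N : Type) [Field N] [NumberField N] [IsGalois ℚ N] (g : N ≃ₐ[ℚ] N) (k : ℕ),
      Nonempty (K →ₐ[ℚ] N) → Zg.Adm (Zg.perm (K := K) g) k → Windows K M (1 / 2 + 1 / (2 * (k : ℝ)))

end MP7ed9c3.Aw
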