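import Pool.Agent.Lib.MP_7ed9c3_nt.Aw.Spec

/-!
# MP_7ed9c3_nt, part Aw: the statement with an explicit rate, uniform in the curve (statements)

For `H ≥ V^κ₀` all `t`, `|t - t₀| < H`, outside a set of measure `≤ ε H` have at least
`c min(log(log H/log V), log V)` zeros in `Re ρ > σ₁`, `|Im ρ - t| < h`.  The small windows have half height
`h₁ = A/min(log(log H/log V), log V)`, `S_CoreQ` says that almost all of them contain a zero, and a window of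
half height `h` is cut into `⌊h/h₁⌋` of them (`S_Mark`).

Module `Aw/Name.lean` with `theorem tName : S_Name`, as in `Aw/Spec.lean`, but importing `Aw/SpecQ.lean`.
-/

set_option autoImplicit false

namespace MP7ed9c3.Aw

open NumberField IsDedekindDomain Filter Topology MeasureTheory Metric

/-- The number which measures the length of the box. -/
noncomputable def rate (V T : ℝ) : ℝ := min (Real.log (Real.log T / Real.log V)) (Real.log V)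

/-- **CoreQ**: one zero in almost every window of half height `h`, with `h → 0` (see `Aw/SpecR.lean`). -/
def S_CoreQ : Prop :=
  ∀ (C b : ℝ) (k : ℕ), 0 ≤ C → b ≤ 1 →
    ∀ σ₁ ε : ℝ, 1 / 2 ≤ σ₁ → σ₁ < b → 0 < ε → ∃ x : ℝ, 1 / 2 < x ∧ x < b ∧
      ∀ η B : ℝ, 0 < η → 1 ≤ B → ∃ A κ₀ V₀ : ℝ, 1 ≤ A ∧ 1 ≤ κ₀ ∧
      ∀ V T t₀ h : ℝ, V₀ ≤ V → V ^ κ₀ ≤ T → 0 < h → h ≤ 1 → A ≤ h * rate V T →
      ∀ c : ℕ → ℂ, Coefs c C → LowU c k x η B (V ^ 2) →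
      ∀ G : ℂ → ℂ, DifferentiableOn ℂ G (win σ₁ T t₀) →
        (∀ s ∈ win σ₁ T t₀, ‖G s‖ ≤ Real.exp V) →
        (∀ s ∈ win σ₁ T t₀, 3 ≤ s.re → G s = Complex.exp (dir c s)) →
        volume {t : ℝ | |t - t₀| < T ∧ ∀ ρ ∈ win σ₁ h t, ρ ∈ win σ₁ T t₀ → G ρ ≠ 0} ≤
          ENNReal.ofReal (ε * T)

/-- The Euler product for a class `𝓔 V` of families of models: `P` is a finite product of Euler polynomials. -/
def DataG (K : Type) [Field K] [NumberField K]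
    (𝓔 : ℝ → (HeightOneSpectrum (𝓞 K) → WeierstrassCurve (𝓞 K)) → Prop) (b : ℝ) : Prop :=
  ∃ (C : ℝ) (k : ℕ) (N₀ : ℝ → ℕ), 0 ≤ C ∧ ∀ x : ℝ, 1 / 2 < x → x < b →
    ∃ η B V₁ : ℝ, 0 < η ∧ 1 ≤ B ∧ ∀ V : ℝ, V₁ ≤ V →
      ∀ M : HeightOneSpectrum (𝓞 K) → WeierstrassCurve (𝓞 K), 𝓔 V M →
      ∃ (P : ℂ → ℂ) (c : ℕ → ℂ), Coefs c C ∧ LowU c k x η B (V ^ 2) ∧ Differentiable ℂ P ∧
        (∀ s : ℂ, 1 / 2 ≤ s.re → ‖P s‖ ≤ Real.exp V) ∧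
        (∀ (h t : ℝ) (Z : Finset ℂ), 0 < h →
          (∀ ρ ∈ Z, 1 / 2 ≤ ρ.re ∧ |ρ.im - t| < h ∧ P ρ = 0) → Z.card ≤ N₀ h) ∧
        ∀ s : ℂ, 3 ≤ s.re →
          P s * ∏' v : HeightOneSpectrum (𝓞 K), (locDen (M v) v s)⁻¹ = Complex.exp (dir c s)

/-- Families of minimal models of an elliptic curve with at most `V` primes of bad reduction. -/
def FewBad (K : Type) [Field K] [NumberField K] (V : ℝ)
    (M : HeightOneSpectrum (𝓞 K) → WeierstrassCurve (𝓞 K)) : Prop :=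
  (∃ E : WeierstrassCurve K, E.IsElliptic ∧ ∀ v, IsMinAt E v (M v)) ∧
    {v : HeightOneSpectrum (𝓞 K) | (M v).Δ ∈ v.asIdeal}.Finite ∧
    ({v : HeightOneSpectrum (𝓞 K) | (M v).Δ ∈ v.asIdeal}.ncard : ℝ) ≤ V

/-- **DataF**: one family of models.

Proof.  `P`, `c`, `C`, `B₀`, `k` from `Data`; `N₀ h` by choice (for `h ≤ 0` anything).  Given `x`: `η`, `B`, `Y₀` from `Zg.Low c k x`;
`V₁ = max 1 (max Y₀ B₀)`: for `V ≥ V₁`: `V² ≥ V ≥ Y₀`, `B₀ ≤ V ≤ e^V`. -/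
def S_DataF : Prop :=
  ∀ (K : Type) [Field K] [NumberField K] (M : HeightOneSpectrum (𝓞 K) → WeierstrassCurve (𝓞 K))
    (b : ℝ), Data K M b → DataG K (fun _ M' => M' = M) b

/-- The number of zeros in the window of half height `h` at `t`, in the box. -/
def ManyZ (Z : Set ℂ) (σ₁ h T t₀ : ℝ) (N : ℕ) (t : ℝ) : Prop :=
  ∃ Y : Finset ℂ, Y.card = N ∧ ∀ ρ ∈ Y, ρ ∈ win σ₁ h t ∧ ρ ∈ win σ₁ T t₀ ∧ ρ ∈ Z

/-- **Mark**: from small windows to large ones, by Markov's inequality.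

Proof.  `s_j = (2j + 1 - n) h₁`, `j < n`, where `n h₁ ≤ h`: the windows of half height `h₁` at `t + s_j` are disjoint and contained
in the window of half height `h` at `t`; `|s_j| < h`.  Let `B₁` be a measurable set which contains the exceptional set of the
hypothesis and has the same measure, at most `ε₁ T` (`toMeasurable`).  Let `f(t)` be the number of `j < n` with
`t + s_j ∈ B₁`: measurable, `∫ f = ∑_j volume {t | t + s_j ∈ B₁} = n volume B₁ ≤ n ε₁ T` (`lintegral`, translation invariance), so by Markov's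
inequality (`meas_ge_le_lintegral_div` or `mul_meas_ge_le_lintegral`) the set where `2 f(t) ≥ n` has measure at most
`2 ε₁ T` (`n ≥ 1`).  If `t` is not in this set and `|t - t₀| < T - h`, then more than `n/2` of the windows at `t + s_j` contain a point of
`Z` which is in the box (`|t + s_j - t₀| < T`); these are different points, so there are at least `N` of them if `2N ≤ n`.  The other `t`
(`T - h ≤ |t - t₀| < T`) have measure at most `2h`. -/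
def S_Mark : Prop :=
  ∀ (Z : Set ℂ) (σ₁ h h₁ ε₁ T t₀ : ℝ) (n N : ℕ), 0 < h₁ → n * h₁ ≤ h → 1 ≤ n → 2 * N ≤ n →
    0 ≤ ε₁ → h ≤ T →
    volume {t : ℝ | |t - t₀| < T ∧ ∀ ρ ∈ win σ₁ h₁ t, ρ ∈ win σ₁ T t₀ → ρ ∉ Z} ≤
      ENNReal.ofReal (ε₁ * T) →
    volume {t : ℝ | |t - t₀| < T ∧ ¬ ManyZ Z σ₁ h T t₀ N t} ≤ ENNReal.ofReal (2 * ε₁ * T + 2 * h)

/-- The conclusion. -/
def WindowsQ (K : Type) [Field K] [NumberField K]
    (𝓔 : ℝ → (HeightOneSpectrum (𝓞 K) → WeierstrassCurve (𝓞 K)) → Prop) (b : ℝ) : Prop :=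
  ∀ σ₁ h ε : ℝ, σ₁ < b → 0 < h → 0 < ε → ∃ c κ V₀ : ℝ, 0 < c ∧ ∀ V H t₀ : ℝ, V₀ ≤ V → V ^ κ ≤ H →
      ∀ M : HeightOneSpectrum (𝓞 K) → WeierstrassCurve (𝓞 K), 𝓔 V M →
      ∀ F : ℂ → ℂ, DifferentiableOn ℂ F {s : ℂ | σ₁ < s.re ∧ |s.im - t₀| < H} →
        (∀ s : ℂ, σ₁ < s.re → |s.im - t₀| < H → ‖F s‖ ≤ Real.exp V) →
        (∀ s : ℂ, 3 / 2 < s.re → |s.im - t₀| < H →
          F s = ∏' v : HeightOneSpectrum (𝓞 K), (locDen (M v) v s)⁻¹) →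
        volume {t : ℝ | |t - t₀| < H ∧ ¬ ∃ Y : Finset ℂ,
            c * min (Real.log (Real.log H / Real.log V)) (Real.log V) ≤ (Y.card : ℝ) ∧ ∀ ρ ∈ Y,
            σ₁ < ρ.re ∧ |ρ.im - t| < h ∧ |ρ.im - t₀| < H ∧ F ρ = 0} ≤
          ENNReal.ofReal (ε * H)

/-- **NumQ**: the numbers in `S_RedQ`.

Proof.  `U = 2V`, `rate U H = min (log(log H/log U)) (log U)`.  `log U ≤ 2 log V` (`V ≥ 2`), so
`log(log H/log U) ≥ log(log H/log V) - log 2`, and `log U ≥ log V`; so `r := rate U H ≥ rate V H - 1`.  `h' = min h 1`,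
`κ ≥ 2 κ₀` so large that `log κ ≥ 2 + 8 A (N₀ + 1)/h'`, and `V ≥ V₀ ≥ κ`: `log(log H/log V) ≥ log κ` and `log V ≥ log κ`, so
`rate V H ≥ log κ` and `r ≥ max(8 A (N₀+1)/h', (rate V H)/2)`.
`h₁ = A/r ≤ 1`, `n = ⌊h'/h₁⌋ ≥ h' r/A - 1 ≥ 8(N₀+1) - 1`, `N = n/2` (natural division) `≥ h' r/(2A) - 1`, so
`N - N₀ ≥ h' r/(4 A)`; `c = h'/(8A)`: `c rate V H ≤ 2 c r = h' r/(4A) ≤ N - N₀`.  `(2V)^κ₀ ≤ V^(2κ₀) ≤ H` (`κ ≥ 2κ₀`). -/
def S_NumQ : Prop :=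
  ∀ (A κ₀ h : ℝ) (N₀ : ℕ), 1 ≤ A → 1 ≤ κ₀ → 0 < h → ∃ c κ V₀ : ℝ, 0 < c ∧ 2 ≤ V₀ ∧ 1 ≤ κ ∧
    ∀ V H : ℝ, V₀ ≤ V → V ^ κ ≤ H → (2 * V) ^ κ₀ ≤ H ∧ V ≤ H ∧
      ∃ (h₁ : ℝ) (n N : ℕ), 0 < h₁ ∧ h₁ ≤ 1 ∧ A ≤ h₁ * rate (2 * V) H ∧ n * h₁ ≤ h ∧ 1 ≤ n ∧
        2 * N ≤ n ∧ N₀ ≤ N ∧ c * min (Real.log (Real.log H / Real.log V)) (Real.log V) ≤ (N : ℝ) - N₀

/-- **RedQ** (from `S_CoreQ`, `S_Mark`, `S_NumQ`).

Proof.  `σ = max σ₁ (1/2) < b` (smaller windows).  `C`, `k`, `N₀` from `DataG`; `S_CoreQ` for `C`, `b`, `k`, `σ`, `ε₁ = ε/8` gives `x`; `η`, `B`, `V₁` from `DataG`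
for `x`; `A`, `κ₀`, `V₀` from `S_CoreQ`; `c`, `κ`, `V₂` from `S_NumQ` for `A`, `κ₀`, `h`, `N₀ h`.  For large `V` and `H ≥ V^κ`, `M`, `F`:
`P`, `c'` from `DataG` for `V`; `G = F P` on `win σ H t₀`: differentiable, `‖G‖ ≤ e^V e^V = e^(2V)`, `G = exp(dir c')` for `Re s ≥ 3`.
`LowU … (V^2)` implies `LowU … ((2V)^2)`.  `S_CoreQ` with `2V`, `T = H` and `h₁`, then `S_Mark` with `Z` = the zeros of `G`, `n`, `N`: outside a set of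
measure at most `2 ε₁ H + 2h ≤ ε H` (`H ≥ V ≥ 8h/ε`) there is a set `Y` of `N` zeros of `G` in the window; at most
`N₀ h` of them are zeros of `P` (`Re ρ > σ ≥ 1/2`), the others (at least `N - N₀ h`) are zeros of `F`: filter `Y`. -/
def S_RedQ : Prop :=
  ∀ (K : Type) [Field K] [NumberField K]
    (𝓔 : ℝ → (HeightOneSpectrum (𝓞 K) → WeierstrassCurve (𝓞 K)) → Prop) (b : ℝ),
    1 / 2 < b → b ≤ 1 → DataG K 𝓔 b → WindowsQ K 𝓔 b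

/-- The conclusion with fixed `h` and `N`, for a class of families of models. -/
def WindowsG (K : Type) [Field K] [NumberField K]
    (𝓔 : ℝ → (HeightOneSpectrum (𝓞 K) → WeierstrassCurve (𝓞 K)) → Prop) (b : ℝ) : Prop :=
  ∀ σ₁ h ε : ℝ, σ₁ < b → 0 < h → 0 < ε → ∀ N : ℕ, ∃ κ V₀ : ℝ, ∀ V H t₀ : ℝ, V₀ ≤ V → V ^ κ ≤ H →
      ∀ M : HeightOneSpectrum (𝓞 K) → WeierstrassCurve (𝓞 K), 𝓔 V M →
      ∀ F : ℂ → ℂ, DifferentiableOn ℂ F {s : ℂ | σ₁ < s.re ∧ |s.im - t₀| < H} →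
        (∀ s : ℂ, σ₁ < s.re → |s.im - t₀| < H → ‖F s‖ ≤ Real.exp V) →
        (∀ s : ℂ, 3 / 2 < s.re → |s.im - t₀| < H →
          F s = ∏' v : HeightOneSpectrum (𝓞 K), (locDen (M v) v s)⁻¹) →
        volume {t : ℝ | |t - t₀| < H ∧ ¬ ∃ Y : Finset ℂ, Y.card = N ∧ ∀ ρ ∈ Y,
            σ₁ < ρ.re ∧ |ρ.im - t| < h ∧ |ρ.im - t₀| < H ∧ F ρ = 0} ≤
          ENNReal.ofReal (ε * H)

/-- **RedG** (from `S_Core`, `S_NWin`).

Proof.  As `S_Red` in `Aw/Spec.lean`, with `DataG` in place of `Data`: `σ = max σ₁ (1/2)`, `N' = N + N₀ h + 1`, `ε' = ε/(2N')`, `S_Core` for `C`, `b`, `k`, `σ`,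
`h/N'`, `ε'` gives `x`; `η`, `B`, `V₁` from `DataG`; `κ₀`, `V₀` from `S_Core`; `κ = 2 κ₀`: `(2V)^κ₀ ≤ V^κ ≤ H` for `V ≥ 2`.  `G = F P`,
`‖G‖ ≤ e^(2V)`; `S_Core` with `2V`, `T = H`; `S_NWin` with `Z` = the zeros of `G`, `N'`, `ε'`. -/
def S_RedG : Prop :=
  ∀ (K : Type) [Field K] [NumberField K]
    (𝓔 : ℝ → (HeightOneSpectrum (𝓞 K) → WeierstrassCurve (𝓞 K)) → Prop) (b : ℝ),
    1 / 2 < b → b ≤ 1 → DataG K 𝓔 b → WindowsG K 𝓔 b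

/-- **FinQ** (from `S_DataE`, `S_DataF`, `S_RedQ`, `S_LowA`, `S_LowG`): the theorem with explicit rate, for one curve.

Proof.  As `S_Fin`. -/
def S_FinQ : Prop :=
  ∀ (K : Type) [Field K] [NumberField K] (E : WeierstrassCurve K), E.IsElliptic →
    ∀ M : HeightOneSpectrum (𝓞 K) → WeierstrassCurve (𝓞 K), (∀ v, IsMinAt E v (M v)) →
    WindowsQ K (fun _ M' => M' = M) (1 / 2 + 1 / (4 * (Module.finrank ℚ K : ℝ))) ∧
    ∀ (N : Type) [Field N] [NumberField N] [IsGalois ℚ N] (g : N ≃ₐ[ℚ] N) (k : ℕ),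
      Nonempty (K →ₐ[ℚ] N) → Zg.Adm (Zg.perm (K := K) g) k →
      WindowsQ K (fun _ M' => M' = M) (1 / 2 + 1 / (2 * (k : ℝ)))

end MP7ed9c3.Aw
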