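import Pool.Agent.Lib.MP_7ed9c3_nt.Aw.SpecQ

/-!
# MP_7ed9c3_nt, part Aw: one zero in almost every window, the height tends to 0 (statements)

The statements of `Aw/Spec.lean` with a constant that depends on the height `h` of the window are replaced by
versions in which this dependence is explicit: all radii are separated by the factor `1 - δ`, `δ = exp(-D/h)`, and all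
constants are powers of `1/δ` times a constant which does not depend on `h`.  The result is `S_CoreQ` (`Aw/SpecQ.lean`).

Module `Aw/Name.lean` with `theorem tName : S_Name` (the statements after the word from are hypotheses, in this
order), importing only this file (and Mathlib); the complete proof is in the docstring.  The code of the fixed
versions (`Rad`, `GLow`, `LogW`, `WinA`, `Step`, `Scale`, `WB`, `NumC`, `Core`) may be copied.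
-/

set_option autoImplicit false

namespace MP7ed9c3.Aw

open NumberField IsDedekindDomain Filter Topology MeasureTheory Metric

/-- The radii are separated by the factor `1 - δ`. -/
structure Gap (δ r₀ R R' R₂ R₁ : ℝ) : Prop where
  pos : 0 < δ
  le : δ ≤ 1 / 2
  g0 : 1 / 2 ≤ r₀
  g1 : r₀ ≤ 1 - δ
  g2 : R ≤ (1 - δ) * R'
  g3 : R' ≤ (1 - δ) * R₂
  g4 : R₂ ≤ (1 - δ) * R₁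

/-- **RadQ**: the radii, with `δ = exp(-D/h)`.

Proof.  `E(y) = exp(π(4-y)/(2h))`, `T(y) = 1 - 2/(E(y)+1)`: `(1+T)/(1-T) = E`, so `ell h (T y) = y`, and `T` is strictly
decreasing in `y`.  `d = (b - σ₁)/5`, `r₀ = T 3`, `R = T (σ₁+4d)`, `R' = T (σ₁+3d)`, `R₂ = T (σ₁+2d)`, `R₁ = T (σ₁+d)`
(`σ₁ + 4d = (σ₁+4b)/5 < b ≤ 1 < 3`).  `E(3) ≥ exp(π/2) ≥ 3` (`h ≤ 1`), so `r₀ ≥ 1/2`; `1 - r₀ = 2/(E(3)+1) ≥ 1/E(3) = exp(-π/(2h))`.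
For `y' ≤ y - d`, `E = E(y)`, `E' = E(y')`, `y, y' ≥ 0`: `T y' - T y = 2(E'-E)/((E+1)(E'+1)) ≥ (E'-E)/(2EE') = (1 - E/E')/(2E)
≥ c₁ exp(-2π/h)`, `c₁ = (1 - exp(-πd/2))/2` (`h ≤ 1`, `E ≤ exp(2π/h)`).  `D = 2π + log(1/c₁) ≥ 1`: `exp(-D/h) ≤ c₁ exp(-2π/h)`
and `≤ exp(-π/(2h))`, `≤ 1/2`.  `T y ≤ T y' - δ ≤ (1-δ) T y'` since `T y' ≤ 1`. -/
def S_RadQ : Prop :=
  ∀ σ₁ b : ℝ, 1 / 2 ≤ σ₁ → σ₁ < b → b ≤ 1 → ∃ D : ℝ, 1 ≤ D ∧ ∀ h : ℝ, 0 < h → h ≤ 1 →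
    ∃ r₀ R R' R₂ R₁ : ℝ, Radii h σ₁ b r₀ R R' R₂ R₁ ∧ ell h R = (σ₁ + 4 * b) / 5 ∧
      Gap (Real.exp (-(D / h))) r₀ R R' R₂ R₁

/-- **GLowQ** (from `S_Phi`, `S_Tc`, `S_GUp`).

Proof.  As `S_GLow`.  `x = ell h R < b ≤ 1`.  `m^(-x) = m^(-phi(-R)) = ∑_n g_n(m) (-R)^n`.  By `S_GUp` for `R₂` (`ell h R₂ ≥ 0`)
`|g_n(m)| ≤ R₂^(-n)`; `R/R₂ ≤ (1-δ)² ≤ 1-δ`; so the sum over `n ≥ n₀` is at most `(1-δ)^(n₀)/δ ≤ exp(-δ n₀)/δ ≤ 1/(2m) ≤ m^(-x)/2`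
(`δ n₀ ≥ log(2m/δ)`).  So `m^(-x)/2 ≤ ∑_(n<n₀) |g_n| R^n ≤ (∑_(n<n₀) R'^(2n) |g_n|²)^(1/2) (∑ (R/R')^(2n))^(1/2)` and
`∑ (R/R')^(2n) ≤ 1/(1-(1-δ)²) ≤ 1/δ`. -/
def S_GLowQ : Prop :=
  ∀ h σ₁ b r₀ R R' R₂ R₁ δ : ℝ, 0 < h → b ≤ 1 → Radii h σ₁ b r₀ R R' R₂ R₁ →
    Gap δ r₀ R R' R₂ R₁ → ∀ n₀ m : ℕ, 1 ≤ m → Real.log (2 * m / δ) / δ ≤ n₀ →
      δ / 4 * (m : ℝ) ^ (-(2 * ell h R)) ≤ ∑ n ∈ Finset.range n₀, R' ^ (2 * n) * ‖gT h n m‖ ^ 2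

/-- **LogWQ** (from `S_Phi`).

Proof.  As `S_LogW`, with `B = ∑_m C m^(1/2-3)` (independent of `h`).  Borel-Caratheodory on `ball 0 R₁`, `M = V + B + 1`, for `‖w‖ < R₂`:
`|f w| ≤ 2 M R₂/(R₁-R₂) + B (R₁+R₂)/(R₁-R₂)`, and `R₁ - R₂ ≥ δ R₁ ≥ δ R₂`, so `|f w| ≤ (2 (V+B+1) + 2B)/δ ≤ (4B+2)(V+1)/δ`. -/
def S_LogWQ : Prop :=
  ∀ C : ℝ, 0 ≤ C → ∃ A : ℝ, 0 ≤ A ∧ ∀ (h σ₁ b r₀ R R' R₂ R₁ δ : ℝ), 0 < h →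
    Radii h σ₁ b r₀ R R' R₂ R₁ → Gap δ r₀ R R' R₂ R₁ →
    ∀ (c : ℕ → ℂ) (G : ℂ → ℂ) (t V : ℝ), Coefs c C → 0 ≤ V →
      DifferentiableOn ℂ G (win σ₁ h t) → (∀ s ∈ win σ₁ h t, G s ≠ 0) →
      (∀ s ∈ win σ₁ h t, ‖G s‖ ≤ Real.exp V) →
      (∀ s ∈ win σ₁ h t, 3 ≤ s.re → G s = Complex.exp (dir c s)) →
      ∃ f : ℂ → ℂ, DifferentiableOn ℂ f (ball 0 R₁) ∧
        (∀ w ∈ ball (0 : ℂ) r₀, f w = dir c (phi h w + t * Complex.I)) ∧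
        ∀ w ∈ ball (0 : ℂ) R₂, ‖f w‖ ≤ A / δ * (V + 1)

/-- **WinAQ** (from `S_Phi`, `S_Tc`, `S_GUp`, `S_LogWQ`): a window without zeros has small energies.

Proof.  As `S_WinA`: `|aS| ≤ (A (V+1)/δ + C M₀ + C') R₂^(-n)` for `n < n₀` with `C'` independent of `h`, and
`∑_n (R'/R₂)^(2n) ≤ 1/(1-(1-δ)²) ≤ 1/δ`; so `en ≤ (A (V+1)/δ + C M₀ + C')²/δ ≤ (A + C + C')² (V + M₀ + 1)²/δ³`. -/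
def S_WinAQ : Prop :=
  ∀ C : ℝ, 0 ≤ C → ∃ A : ℝ, 0 ≤ A ∧ ∀ (h σ₁ b r₀ R R' R₂ R₁ δ : ℝ), 0 < h →
    Radii h σ₁ b r₀ R R' R₂ R₁ → Gap δ r₀ R R' R₂ R₁ →
    ∀ (c : ℕ → ℂ) (G : ℂ → ℂ) (t V : ℝ), Coefs c C → 0 ≤ V →
      DifferentiableOn ℂ G (win σ₁ h t) → (∀ s ∈ win σ₁ h t, G s ≠ 0) →
      (∀ s ∈ win σ₁ h t, ‖G s‖ ≤ Real.exp V) →
      (∀ s ∈ win σ₁ h t, 3 ≤ s.re → G s = Complex.exp (dir c s)) →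
      ∀ M₀ M₁ n₀ : ℕ, 1 ≤ M₁ → (1 / r₀) ^ n₀ ≤ (M₁ : ℝ) →
        en h R' c (Finset.Ioc M₀ M₁) n₀ t ≤ A / δ ^ 3 * (V + M₀ + 1) ^ 2

/-- **StepQ** (from `S_GLowQ`): the next block.

Proof.  As `S_Step`.  `Y = (V + m₀ + 1)^(4/η + 2) ≥ V²`; `P`, `S` from `LowU`: `Y ≤ P ≤ Y^B`,
`∑_(m ∈ S) |c m|² m^(-2x) ≥ P^η ≥ (V + m₀ + 1)^4`, `x = ell h R > 1/2`.  `n₀ = ⌈log(2 P^k/δ)/δ⌉₊`, `m₁ = ⌈(1/r₀)^(n₀)⌉₊`.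
`log(1/r₀) ≥ 1 - r₀ ≥ δ`, so `m₁ ≥ (1/r₀)^(n₀) ≥ exp(δ n₀) ≥ 2 P^k/δ ≥ P^k ≥ P ≥ Y > m₀` (`k ≥ 1`: otherwise `S ⊆ {1}` and `c 1 = 0`).
`1/r₀ ≤ 2`, so `m₁ ≤ 2 · 2^(n₀) ≤ 4 (2 P^k/δ)^(1/δ)` (`n₀ ≤ log(2 P^k/δ)/δ + 1`, `log 2 ≤ 1`).  `P ≥ V² ≥ 2/δ` and `P ≥ 4` (`V ≥ 8/δ ≥ 16`), so
`m₁ ≤ 4 P^((k+1)/δ) ≤ P^((k+2)/δ)`; `P ≤ (V + m₀ + 1)^((4/η+2)B) ≤ V^(3κ₁(4/η+2)B)` (`V + V^κ₁ + 1 ≤ 3 V^κ₁ ≤ V^(3κ₁)`).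
So `D = 3 (4/η+2) B (k+2)`.  `vS ≥ ∑_(m ∈ S, m > m₀) |c m|² (δ/4) m^(-2x)` (`S_GLowQ` for `m ≤ P^k`; all terms of `vS` are `≥ 0`)
`≥ (δ/4) (P^η - ∑_(m ≤ m₀) C² m^(1-2x)) ≥ (δ/4) ((V+m₀+1)^4 - C² m₀) ≥ (δ/8) (V+m₀+1)^4 ≥ (V+m₀+1)^3` (`V ≥ V₀(C)`, `V ≥ 8/δ`). -/
def S_StepQ : Prop :=
  ∀ (C η B : ℝ) (k : ℕ), 0 ≤ C → 0 < η → 1 ≤ B → ∃ D V₀ : ℝ, 1 ≤ D ∧ 1 ≤ V₀ ∧
    ∀ (h σ₁ b r₀ R R' R₂ R₁ δ : ℝ), 0 < h → b ≤ 1 → Radii h σ₁ b r₀ R R' R₂ R₁ →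
      Gap δ r₀ R R' R₂ R₁ → ∀ V : ℝ, V₀ ≤ V → 8 / δ ≤ V → ∀ c : ℕ → ℂ, Coefs c C →
      LowU c k (ell h R) η B (V ^ 2) → ∀ (κ₁ : ℝ) (m₀ : ℕ), 1 ≤ κ₁ → (m₀ : ℝ) ≤ V ^ κ₁ →
        ∃ m₁ n₀ : ℕ, m₀ < m₁ ∧ (m₁ : ℝ) ≤ V ^ (D / δ * κ₁) ∧
          (1 / r₀) ^ n₀ ≤ (m₁ : ℝ) ∧ (V + m₀ + 1) ^ 3 ≤ vS h R' c (Finset.Ioc m₀ m₁) n₀

/-- **ScaleQ** (from `S_StepQ`): the blocks.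

Proof.  `D`, `V₀` from `S_StepQ`; induction on `I`, as `S_Scale`: `(D/δ)^I ≥ 1` and `D/δ · (D/δ)^I = (D/δ)^(I+1)`; `M 0 = 1 ≤ V`. -/
def S_ScaleQ : Prop :=
  ∀ (C η B : ℝ) (k : ℕ), 0 ≤ C → 0 < η → 1 ≤ B → ∃ D V₀ : ℝ, 1 ≤ D ∧ 1 ≤ V₀ ∧
    ∀ (h σ₁ b r₀ R R' R₂ R₁ δ : ℝ), 0 < h → b ≤ 1 → Radii h σ₁ b r₀ R R' R₂ R₁ →
      Gap δ r₀ R R' R₂ R₁ → ∀ V : ℝ, V₀ ≤ V → 8 / δ ≤ V → ∀ c : ℕ → ℂ, Coefs c C →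
      LowU c k (ell h R) η B (V ^ 2) → ∀ I : ℕ, ∃ M nn : ℕ → ℕ,
      M 0 = 1 ∧ (∀ i < I, M i < M (i + 1)) ∧ (M I : ℝ) ≤ V ^ ((D / δ) ^ I) ∧
      (∀ i < I, (1 / r₀) ^ nn i ≤ (M (i + 1) : ℝ)) ∧
      ∀ i < I, (V + M i + 1) ^ 3 ≤ vS h R' c (Finset.Ioc (M i) (M (i + 1))) (nn i)

/-- **WBQ** (from `S_GUp`): the weights are bounded.

Proof.  As `S_WB`: `∑_n (R'/R₂)^(2n) ≤ 1/(1-(1-δ)²) ≤ 1/δ`. -/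
def S_WBQ : Prop :=
  ∀ (h σ₁ b r₀ R R' R₂ R₁ C δ : ℝ), 0 < h → 0 ≤ C → Radii h σ₁ b r₀ R R' R₂ R₁ →
    Gap δ r₀ R R' R₂ R₁ → ∀ c : ℕ → ℂ, Coefs c C → ∀ n₀ m : ℕ, 1 ≤ m →
      wS h R' c n₀ m ≤ C ^ 2 / δ

/-- **NumCQ**: the numbers in `S_CoreR`.

Proof.  `8/δ ≤ 8 V^(1/4) ≤ V`; `2A/δ³ ≤ 2A V^(3/4) ≤ V`; `8T/I ≤ εT/2`; `Nat.log 2 M ≤ log M/log 2 ≤ 2 κ₁ log V ≤ 2 V^(1/4) √V`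
(`log V ≤ √V`), so `8T (A/δ)/V³ (Nat.log 2 M)² ≤ 32 A T V^(1/4 - 3 + 1/2 + 1) ≤ εT/8`; `24 M⁴ ≤ 24 V^(4κ₁) ≤ 24 T/V ≤ εT/8`;
`2h ≤ 2 ≤ εT/8` (`T ≥ V`). -/
def S_NumCQ : Prop :=
  ∀ (ε A : ℝ) (I : ℕ), 0 < ε → 0 ≤ A → 16 / ε ≤ I → ∃ V₀ : ℝ, 1 ≤ V₀ ∧
    ∀ (V T κ₁ δ h : ℝ) (M : ℕ), V₀ ≤ V → 0 < δ → 1 / δ ≤ V ^ (1 / 4 : ℝ) → 1 ≤ κ₁ →
      κ₁ ≤ V ^ (1 / 4 : ℝ) → V ^ (5 * κ₁ + 1) ≤ T → 1 ≤ M → (M : ℝ) ≤ V ^ κ₁ → h ≤ 1 →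
      8 / δ ≤ V ∧ 2 * (A / δ ^ 3) ≤ V ∧
      4 * ((1 / I + A / δ / V ^ 3 * (Nat.log 2 M : ℝ) ^ 2) * (2 * T) + 6 * (M : ℝ) ^ 4) + 2 * h ≤
        ε * T

/-- **CoreR** (from `S_RadQ`, `S_WBQ`, `S_WinAQ`, `S_ScaleQ`, `S_Blocks`, `S_NumCQ`): one zero in almost every window.

Proof.  `x = (σ₁+4b)/5`.  `D₁` from `S_RadQ`, `A₁` from `S_WinAQ`, `A = max A₁ (C²)`, `I = ⌈16/ε⌉₊ + 1`, `D₂`, `V₁` from `S_ScaleQ`.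
For `0 < h ≤ 1`: `δ = exp(-D₁/h)`, radii from `S_RadQ`, `κ₁ = (D₂/δ)^I = exp(I (log D₂ + D₁/h)) ≤ exp(I (log D₂ + D₁)/h)`.
`D = 4 I (log D₂ + D₁) + 6`: `exp(D/h) ≥ κ₁⁴ e⁶ ≥ 5 κ₁ + 1`, so `V^(5κ₁+1) ≤ T`, and `κ₁ ≤ exp(D/h)^(1/4) ≤ V^(1/4)`;
`1/δ ≤ D₂/δ ≤ κ₁`.  `S_NumCQ`: `8/δ ≤ V`, `2A/δ³ ≤ V`.  `M`, `nn` from `S_ScaleQ`; `v_i ≥ (V + M_i + 1)³ ≥ 2 (A/δ³) (V + M_i + 1)²`.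
`τ = (A/δ)/V³`: `wS ≤ C²/δ ≤ A/δ` and `v_i ≥ V³`.  Let `t` be in the set of the statement with `|t - t₀| < T - h`: then `win σ₁ h t` is
contained in the box and `G` has no zero there, so by `S_WinAQ` `en_i(t) ≤ v_i/2` for all `i < I`.  So the measure of these `t` is, by
`S_Blocks` on `[t₀ - T, t₀ + T]`, at most `4 ((1/I + τ (log₂ M_I)²) 2T + 6 M_I⁴)`.  The other `t` (`T - h ≤ |t - t₀| < T`) have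
measure at most `2h`.  `S_NumCQ`. -/
def S_CoreR : Prop :=
  ∀ (C b : ℝ) (k : ℕ), 0 ≤ C → b ≤ 1 →
    ∀ σ₁ ε : ℝ, 1 / 2 ≤ σ₁ → σ₁ < b → 0 < ε → ∃ x : ℝ, 1 / 2 < x ∧ x < b ∧
      ∀ η B : ℝ, 0 < η → 1 ≤ B → ∃ D V₀ : ℝ, 1 ≤ D ∧ 1 ≤ V₀ ∧
      ∀ V T t₀ h : ℝ, V₀ ≤ V → 0 < h → h ≤ 1 → Real.exp (D / h) ≤ V → V ^ Real.exp (D / h) ≤ T →
      ∀ c : ℕ → ℂ, Coefs c C → LowU c k x η B (V ^ 2) →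
      ∀ G : ℂ → ℂ, DifferentiableOn ℂ G (win σ₁ T t₀) →
        (∀ s ∈ win σ₁ T t₀, ‖G s‖ ≤ Real.exp V) →
        (∀ s ∈ win σ₁ T t₀, 3 ≤ s.re → G s = Complex.exp (dir c s)) →
        volume {t : ℝ | |t - t₀| < T ∧ ∀ ρ ∈ win σ₁ h t, ρ ∈ win σ₁ T t₀ → G ρ ≠ 0} ≤
          ENNReal.ofReal (ε * T)

/-- **CoreQ** (`theorem tCoreQ : S_CoreQ`, from `S_CoreR`).  (This `def` is only a place for the proof.)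

Proof.  `x` from `S_CoreR`, `D`, `V₀` from `S_CoreR`; `A = D`, `κ₀ = 1`, the new `V₀` is `max V₀ 2`.  `V > 1`, `T ≥ V > 1`, so `log V > 0`,
`log T > 0`.  `D ≤ h rate V T` gives `D/h ≤ log(log T/log V)` and `D/h ≤ log V`, so `exp(D/h) ≤ log T/log V` and
`exp(D/h) ≤ V`, and `V^(exp(D/h)) ≤ V^(log T/log V) = T`. -/
def S_CoreQ' : Prop := S_CoreR → S_CoreQ

end MP7ed9c3.Aw
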