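import Pool.Agent.Lib.MP_7ed9c3_nt.Aw.SpecR

/-!
# MP_7ed9c3_nt, part Aw: exponentially small exceptional sets (statements)

With `L = rate V T` the set of the `t`, `|t - t₀| < T`, whose window of half height `h` contains no zero has
measure `≤ A exp(-c₁ h L) T`, and the set of the `t` with fewer than `N` zeros in a window of fixed height has measure
`≤ C exp(-c L/N) T`.

Idea: in the block `i` we keep only the prime powers whose prime is larger than `M i`.  Then the blocks have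
coprime supports, their energies `X_i` (mean value `1`, mean square at most `2.1`) are independent for the diagonal
mean value, and the mean value of `∏ (4/25) (3 - X_i)²` is at most `(9/10)^I`; the product is `≥ 0`, and `≥ 1` where
all `X_i ≤ 1/2`.

Module `Aw/Name.lean` with `theorem tName : S_Name` (the statements after the word from are hypotheses, in this
order), importing only this file (and Mathlib); the complete proof is in the docstring.  The code of the versions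
in `Aw/` without `X` may be copied.
-/

set_option autoImplicit false

namespace MP7ed9c3.Aw

open NumberField IsDedekindDomain Filter Topology MeasureTheory Metric

/-- The `m` between `M₀` and `M₁` whose least prime factor is larger than `M₀`. -/
def blk (M₀ M₁ : ℕ) : Finset ℕ := (Finset.Ioc M₀ M₁).filter (fun m => M₀ < m.minFac)

/-- **PM** (from `S_Osc`): the mean value of a product of sums with coprime supports.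

Proof.  `Finset.prod_univ_sum`: the product is the sum over `p : ∀ i, J i` of `(∏ al i (p i)) N^(-it) N'^(it)`, `N = ∏ N i (p i)`,
`N' = ∏ N' i (p i)` (`Complex.natCast_mul_natCast_cpow`, induction).  By coprimality `N = N'` iff `N i (p i) = N' i (p i)` for all `i`:
`N i` divides `∏ N' i'` and is prime to `N' i'`, `i' ≠ i`, so it divides `N' i`, and conversely.  The terms with `N = N'` give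
`(b - a) ∏ ∑ …` (`Finset.prod_univ_sum` again; `N^(-it) N^(it) = 1`), each of the others is at most
`∏ ‖al i (p i)‖ · 2 ∏ Q i` by `S_Osc` (`X = ∏ Q i`), and `∑_p ∏ ‖al i (p i)‖ = ∏ ∑ ‖al i j‖`. -/
def S_PM : Prop :=
  ∀ (I : ℕ) (J : Fin I → Type) [∀ i, Fintype (J i)] (al : ∀ i, J i → ℂ) (N N' : ∀ i, J i → ℕ)
    (Q : Fin I → ℕ) (a b : ℝ), a ≤ b →
    (∀ i j, 1 ≤ N i j ∧ N i j ≤ Q i ∧ 1 ≤ N' i j ∧ N' i j ≤ Q i) →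
    (∀ i i' : Fin I, i ≠ i' → ∀ (j : J i) (j' : J i'),
      (N i j * N' i j).Coprime (N i' j' * N' i' j')) →
    ‖(∫ t in a..b, ∏ i, ∑ j, al i j *
        ((N i j : ℂ) ^ (-(t * Complex.I)) * (N' i j : ℂ) ^ (t * Complex.I))) -
      ((b - a : ℝ) : ℂ) * ∏ i, ∑ j, (if N i j = N' i j then al i j else 0)‖ ≤
      2 * (∏ i, (Q i : ℝ)) * ∏ i, ∑ j, ‖al i j‖

/-- **EX**: the expansion of `(3 - dE)²`.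

Proof.  `dE S v t = ∑_(m, n ∈ S) ⟨v m, v n⟩ m^(-it) n^(it)`, `⟨v m, v n⟩ = ∑_i v m i conj(v n i)` (see `Aw/MeanA.lean`, `Aw/MeanB.lean`).
`J = Unit ⊕ (S × S) ⊕ (S × S × S × S)`; `al = 9`, `N = N' = 1`; `al (m,n) = -6 ⟨v m, v n⟩`, `N = m`, `N' = n`;
`al (m₁,n₁,m₂,n₂) = ⟨v m₁, v n₁⟩ ⟨v m₂, v n₂⟩`, `N = m₁ m₂`, `N' = n₁ n₂`.  `∑ ‖al‖ = (3 + s)²`, `s = ∑_(m,n) |⟨v m, v n⟩| ≤ (∑_m √(uu m))² ≤ |S| ≤ M`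
(Cauchy-Schwarz twice).  The sum over `N = N'` is `9 - 6 ∑ uu + z = 3 + z`, `|z| ≤ quad S v` (`sp = |⟨ , ⟩|`). -/
def S_EX : Prop :=
  ∀ (ι : Type) [Fintype ι] (S : Finset ℕ) (v : ℕ → ι → ℂ) (M : ℕ),
    1 ≤ M → (∀ m ∈ S, 1 ≤ m ∧ m ≤ M) → ∑ m ∈ S, uu v m = 1 →
    ∃ (J : Type) (_ : Fintype J) (al : J → ℂ) (N N' : J → ℕ),
      (∀ j, 1 ≤ N j ∧ N j ≤ M ^ 2 ∧ 1 ≤ N' j ∧ N' j ≤ M ^ 2) ∧
      (∀ (j : J) (p : ℕ), p.Prime → p ∣ N j * N' j → ∃ m ∈ S, p ∣ m) ∧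
      (∀ t : ℝ, (((3 - dE S v t) ^ 2 : ℝ) : ℂ) =
        ∑ j, al j * ((N j : ℂ) ^ (-(t * Complex.I)) * (N' j : ℂ) ^ (t * Complex.I))) ∧
      ∑ j, ‖al j‖ ≤ (3 + (M : ℝ)) ^ 2 ∧
      ‖∑ j, (if N j = N' j then al j else 0)‖ ≤ 3 + quad S v

/-- **ProdX** (from `S_PM`, `S_EX`): the mean value of the product.

Proof.  `J i`, `al i`, `N i`, `N' i` from `S_EX` for `i < I` (choice, `i : Fin I`); `Q i = M²`; coprimality: a common prime factor `p` of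
`N i j * N' i j` and `N i' j' * N' i' j'` divides some `m ∈ S i` and some `m' ∈ S i'`, which are coprime (`Nat.Coprime` from
`Nat.coprime_of_dvd`).  `S_PM`: the integral (a real number, at most its absolute value; `intervalIntegral.integral_ofReal`) is at most
`(b-a) ∏ ‖…‖ + 2 M^(2I) (3+M)^(2I) ≤ (b-a)(3+q)^I + 2 (4M)^(4I)` (`3 + M ≤ 4M`, `M ≤ 4M`). -/
def S_ProdX : Prop :=
  ∀ (I : ℕ) (nn : ℕ → ℕ) (S : ℕ → Finset ℕ) (v : ∀ i : ℕ, ℕ → Fin (nn i) → ℂ) (M : ℕ) (q a b : ℝ),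
    a ≤ b → 1 ≤ M → 0 ≤ q →
    (∀ i < I, ∀ m ∈ S i, 1 ≤ m ∧ m ≤ M) →
    (∀ i < I, ∀ i' < I, i ≠ i' → ∀ m ∈ S i, ∀ m' ∈ S i', m.Coprime m') →
    (∀ i < I, ∑ m ∈ S i, uu (v i) m = 1) → (∀ i < I, quad (S i) (v i) ≤ q) →
    ∫ t in a..b, ∏ i ∈ Finset.range I, (3 - dE (S i) (v i) t) ^ 2 ≤
      (b - a) * (3 + q) ^ I + 2 * (4 * (M : ℝ)) ^ (4 * I)

/-- **BlocksX** (from `S_Quads`, `S_ProdX`): all energies are small only on a small set.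

Proof.  As `S_Blocks` (`Aw/Blocks.lean`), for each block separately.  `S i` = the prime powers in `blk (M i) (M (i+1))`; `v_i = vS … (nn i) > 0`;
`v i m n = c m · gT h n m · R'^n/√v_i`.  `uu (v i) m = wS h R' c (nn i) m/v_i ≤ τ`, `∑ uu = 1` (`c m = 0` if `m` is not a prime power),
`dE (S i) (v i) t = en_i(t)/v_i`.  `S_Quads` with constant `blk`, `δ = 1`: `quad ≤ 2 + τ (log₂ M_I)² ≤ 21/10 = q`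
(`M (i+1) ≤ M I`, `Nat.log` monotone).  Coprime: for `m ∈ S i` (a power of the prime `m.minFac`) `M i < m.minFac ≤ m ≤ M (i+1)`, so the primes
of different blocks are different.  `S_ProdX` with `M = M I`.  On the set of the statement `X_i = en_i/v_i ≤ 1/2`, so
`(4/25)(3 - X_i)² ≥ (4/25)(5/2)² = 1`; everywhere it is `≥ 0`.  Markov: the measure is at most
`∫ ∏ (4/25)(3 - X_i)² ≤ (4/25)^I ((b-a)(51/10)^I + 2 (4 M_I)^(4I)) ≤ (9/10)^I (b-a) + 2 (4 M_I)^(4I)` (`(4/25)(51/10) = 0.816`). -/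
def S_BlocksX : Prop :=
  ∀ (h R' C τ a b : ℝ) (c : ℕ → ℂ) (I : ℕ) (M nn : ℕ → ℕ), 0 < R' → Coefs c C → 0 ≤ τ →
    a ≤ b → 1 ≤ M 0 → (∀ i < I, M i < M (i + 1)) →
    (∀ i < I, 0 < vS h R' c (blk (M i) (M (i + 1))) (nn i)) →
    (∀ i < I, ∀ m ∈ blk (M i) (M (i + 1)),
      wS h R' c (nn i) m ≤ τ * vS h R' c (blk (M i) (M (i + 1))) (nn i)) →
    τ * (Nat.log 2 (M I) : ℝ) ^ 2 ≤ 1 / 10 →
    volume {t : ℝ | t ∈ Set.Icc a b ∧ ∀ i < I, en h R' c (blk (M i) (M (i + 1))) (nn i) t ≤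
        vS h R' c (blk (M i) (M (i + 1))) (nn i) / 2} ≤
      ENNReal.ofReal ((9 / 10) ^ I * (b - a) + 2 * (4 * (M I : ℝ)) ^ (4 * I))

/-- **WinAX** (from `S_GUp`, `S_WinAQ`): a window without zeros has small energies.

Proof.  `A₀` from `S_WinAQ`.  For `1 ≤ M₀` (for `M₀ = 0`: `blk 0 M₁ = Ioc 0 M₁`) let `D = Ioc M₀ M₁ \ blk M₀ M₁`: the `m` in it with `c m ≠ 0` are powers
`p^j ≤ M₁`, `p ≤ M₀`, `1 ≤ j ≤ Nat.log 2 M₁`, at most `M₀ (Nat.log 2 M₁)` numbers (injection `m ↦ (m.minFac, j)`), and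
`‖c m gT h n m m^(-it)‖ ≤ C √m m^(-ell h R₂) R₂^(-n) ≤ C R₂^(-n)` (`S_GUp`, `ell h R₂ ≥ 1/2`).  So `aS (blk) = aS (Ioc) - aS D`,
`|aS D| ≤ C M₀ (log₂ M₁) R₂^(-n)`, `en (blk) ≤ 2 en (Ioc) + 2 ∑_n R'^(2n) (C M₀ log₂ M₁)² R₂^(-2n) ≤
2 A₀/δ³ (V+M₀+1)² + 2 C² (M₀ log₂ M₁)²/δ` (`∑ (R'/R₂)^(2n) ≤ 1/(1-(1-δ)²) ≤ 1/δ`); `A = 2 A₀ + 2 C²`. -/
def S_WinAX : Prop :=
  ∀ C : ℝ, 0 ≤ C → ∃ A : ℝ, 0 ≤ A ∧ ∀ (h σ₁ b r₀ R R' R₂ R₁ δ : ℝ), 0 < h →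
    Radii h σ₁ b r₀ R R' R₂ R₁ → Gap δ r₀ R R' R₂ R₁ →
    ∀ (c : ℕ → ℂ) (G : ℂ → ℂ) (t V : ℝ), Coefs c C → 0 ≤ V →
      DifferentiableOn ℂ G (win σ₁ h t) → (∀ s ∈ win σ₁ h t, G s ≠ 0) →
      (∀ s ∈ win σ₁ h t, ‖G s‖ ≤ Real.exp V) →
      (∀ s ∈ win σ₁ h t, 3 ≤ s.re → G s = Complex.exp (dir c s)) →
      ∀ M₀ M₁ n₀ : ℕ, 1 ≤ M₁ → (1 / r₀) ^ n₀ ≤ (M₁ : ℝ) →
        en h R' c (blk M₀ M₁) n₀ t ≤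
          A / δ ^ 3 * (V + M₀ * (1 + (Nat.log 2 M₁ : ℝ)) + 1) ^ 2

/-- **StepX** (from `S_GLowQ`): the next block.

Proof.  As `S_StepQ`, with `Y = (V + m₀ + 1)^(6/η + 2) ≥ V²`; `P`, `S` from `LowU`: `Y ≤ P ≤ Y^B`,
`∑_(m ∈ S) |c m|² m^(-2x) ≥ P^η ≥ (V + m₀ + 1)^6`, `x = ell h R > 1/2`.  `n₀ = ⌈log(2 P^k/δ)/δ⌉₊`, `m₁ = ⌈(1/r₀)^(n₀)⌉₊`,
`m₁ ≥ P^k ≥ P ≥ Y > m₀` and `m₁ ≤ P^((k+2)/δ) ≤ V^(D κ₁/δ)`, `D = 3 (6/η+2) B (k+2)`, as there.  The `m ∈ S`, `c m ≠ 0`, which are not in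
`blk m₀ m₁` have `m.minFac ≤ m₀` (`m ≤ P^k ≤ m₁`; `m ≤ m₀` implies `m.minFac ≤ m₀`); they are powers `p^j ≤ P^k`, `p ≤ m₀`: at most
`m₀ Nat.log 2 (P^k)` numbers, for each `|c m|² m^(-2x) ≤ C² m^(1-2x) ≤ C²`.  `Nat.log 2 (P^k) ≤ 2 k log P ≤ 2 k (6/η+2) B log(V+m₀+1) ≤
V + m₀ + 1` (`V ≥ V₀`).  All terms of `vS` are `≥ 0`, and `S_GLowQ` for `m ≤ P^k`: `vS (blk) ≥ (δ/4) ((V+m₀+1)^6 - C² (V+m₀+1)²) ≥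
(δ/8) (V+m₀+1)^6 ≥ (V+m₀+1)^4` (`V ≥ V₀(C)`, `V ≥ 8/δ`). -/
def S_StepX : Prop :=
  ∀ (C η B : ℝ) (k : ℕ), 0 ≤ C → 0 < η → 1 ≤ B → ∃ D V₀ : ℝ, 1 ≤ D ∧ 1 ≤ V₀ ∧
    ∀ (h σ₁ b r₀ R R' R₂ R₁ δ : ℝ), 0 < h → b ≤ 1 → Radii h σ₁ b r₀ R R' R₂ R₁ →
      Gap δ r₀ R R' R₂ R₁ → ∀ V : ℝ, V₀ ≤ V → 8 / δ ≤ V → ∀ c : ℕ → ℂ, Coefs c C →
      LowU c k (ell h R) η B (V ^ 2) → ∀ (κ₁ : ℝ) (m₀ : ℕ), 1 ≤ κ₁ → 1 ≤ m₀ →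
        (m₀ : ℝ) ≤ V ^ κ₁ →
        ∃ m₁ n₀ : ℕ, m₀ < m₁ ∧ (m₁ : ℝ) ≤ V ^ (D / δ * κ₁) ∧
          (1 / r₀) ^ n₀ ≤ (m₁ : ℝ) ∧ (V + m₀ + 1) ^ 4 ≤ vS h R' c (blk m₀ m₁) n₀

/-- **ScaleX** (from `S_StepX`): the blocks.

Proof.  As `S_ScaleQ` (`1 ≤ M i` since `M 0 = 1` and `M` increases). -/
def S_ScaleX : Prop :=
  ∀ (C η B : ℝ) (k : ℕ), 0 ≤ C → 0 < η → 1 ≤ B → ∃ D V₀ : ℝ, 1 ≤ D ∧ 1 ≤ V₀ ∧
    ∀ (h σ₁ b r₀ R R' R₂ R₁ δ : ℝ), 0 < h → b ≤ 1 → Radii h σ₁ b r₀ R R' R₂ R₁ →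
      Gap δ r₀ R R' R₂ R₁ → ∀ V : ℝ, V₀ ≤ V → 8 / δ ≤ V → ∀ c : ℕ → ℂ, Coefs c C →
      LowU c k (ell h R) η B (V ^ 2) → ∀ I : ℕ, ∃ M nn : ℕ → ℕ,
      M 0 = 1 ∧ (∀ i < I, M i < M (i + 1)) ∧ (M I : ℝ) ≤ V ^ ((D / δ) ^ I) ∧
      (∀ i < I, (1 / r₀) ^ nn i ≤ (M (i + 1) : ℝ)) ∧
      ∀ i < I, (V + M i + 1) ^ 4 ≤ vS h R' c (blk (M i) (M (i + 1))) (nn i)

/-- **NumCX**: the numbers in `S_CoreX`.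

Proof.  `1/δ ≤ κ₁ ≤ V^(1/8)`, so `8/δ ≤ 8 V^(1/8) ≤ V`.  `Nat.log 2 M ≤ log M/log 2 ≤ 2 κ₁ log V ≤ 2 V^(1/8) log V ≤ V^(1/4)` (`V` large), so
`1 + Nat.log 2 M ≤ 2 V^(1/4)`, `V + m (1 + Nat.log 2 M) + 1 ≤ 2 V^(1/4) (V + m + 1)`, and
`2 (A/δ³) · 4 V^(1/2) (V+m+1)² ≤ 8 A V^(3/8 + 1/2) (V+m+1)² ≤ (V+m+1)^4` as `V² ≥ 8 A V^(7/8)`.
`(A/δ)/V^4 (Nat.log 2 M)² ≤ A V^(1/8 + 1/2 - 4) ≤ 1/10`.  `2 (4M)^(4I) = 2 · 256^I M^(4I) ≤ 2 V V^(4Iκ₁) ≤ 2 T/V²`, `(9/10)^I ≥ 256^(-I) ≥ 1/V`, so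
this is at most `(9/10)^I T` (`V ≥ 2`), and `2h ≤ 2 ≤ T/V ≤ (9/10)^I T` (`T ≥ V³`). -/
def S_NumCX : Prop :=
  ∀ A : ℝ, 0 ≤ A → ∃ V₀ : ℝ, 1 ≤ V₀ ∧
    ∀ (V T κ₁ δ h : ℝ) (I M : ℕ), V₀ ≤ V → 0 < δ → δ ≤ 1 → 1 / δ ≤ κ₁ → (256 : ℝ) ^ I ≤ V →
      κ₁ ^ 8 ≤ V → V ^ (4 * I * κ₁ + 3) ≤ T → 1 ≤ M → (M : ℝ) ≤ V ^ κ₁ → h ≤ 1 →
      8 / δ ≤ V ∧
      (∀ m : ℕ, 2 * (A / δ ^ 3 * (V + m * (1 + (Nat.log 2 M : ℝ)) + 1) ^ 2) ≤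
        (V + m + 1) ^ 4) ∧
      A / δ / V ^ 4 * (Nat.log 2 M : ℝ) ^ 2 ≤ 1 / 10 ∧
      (9 / 10) ^ I * (2 * T) + 2 * (4 * (M : ℝ)) ^ (4 * I) + 2 * h ≤ 4 * (9 / 10) ^ I * T

/-- **CoreX** (from `S_RadQ`, `S_WBQ`, `S_WinAX`, `S_ScaleX`, `S_BlocksX`, `S_NumCX`): one zero in almost every window.

Proof.  As `S_CoreR` (`Aw/CoreR.lean`), with `I` given.  `x = (σ₁+4b)/5`.  `D₁` from `S_RadQ`, `A₁` from `S_WinAX`, `A = max A₁ (C²)`, `D₂`, `V₁` from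
`S_ScaleX`, `D = 8 (log D₂ + D₁) + 8`.  `δ = exp(-D₁/h)`, radii from `S_RadQ`, `κ₁ = (D₂/δ)^I = exp(I (log D₂ + D₁/h)) ≤
exp(I (log D₂ + D₁)/h)`, so `exp(I D/h) ≥ κ₁^8 e^(8I)`: `κ₁^8 ≤ V`, `256^I ≤ e^(8I) ≤ V`, `4 I κ₁ + 3 ≤ 7 I κ₁ ≤ exp(I D/h)`, so
`V^(4Iκ₁+3) ≤ T`; `1/δ ≤ D₂/δ ≤ κ₁` (`I ≥ 1`).  `M`, `nn` from `S_ScaleX`, `v_i ≥ (V + M_i + 1)^4`; `S_NumCX` with `M = M I`
(`Nat.log 2 (M (i+1)) ≤ Nat.log 2 (M I)`).  `τ = (A/δ)/V^4`: `wS ≤ C²/δ ≤ A/δ` and `v_i ≥ V^4`.  If `|t - t₀| < T - h` and `t` is in the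
set of the statement then `G` has no zero in `win σ₁ h t`, which is contained in the box, so by `S_WinAX`
`en_i(t) ≤ A/δ³ (V + M_i (1 + log₂ M_(i+1)) + 1)² ≤ v_i/2` for all `i < I`.  `S_BlocksX` on `[t₀ - T, t₀ + T]`; the other `t` have measure at
most `2h`. -/
def S_CoreX : Prop :=
  ∀ (C b : ℝ) (k : ℕ), 0 ≤ C → b ≤ 1 →
    ∀ σ₁ : ℝ, 1 / 2 ≤ σ₁ → σ₁ < b → ∃ x : ℝ, 1 / 2 < x ∧ x < b ∧
      ∀ η B : ℝ, 0 < η → 1 ≤ B → ∃ D V₀ : ℝ, 1 ≤ D ∧ 1 ≤ V₀ ∧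
      ∀ (V T t₀ h : ℝ) (I : ℕ), V₀ ≤ V → 0 < h → h ≤ 1 → 1 ≤ I →
      Real.exp (I * D / h) ≤ V → V ^ Real.exp (I * D / h) ≤ T →
      ∀ c : ℕ → ℂ, Coefs c C → LowU c k x η B (V ^ 2) →
      ∀ G : ℂ → ℂ, DifferentiableOn ℂ G (win σ₁ T t₀) →
        (∀ s ∈ win σ₁ T t₀, ‖G s‖ ≤ Real.exp V) →
        (∀ s ∈ win σ₁ T t₀, 3 ≤ s.re → G s = Complex.exp (dir c s)) →
        volume {t : ℝ | |t - t₀| < T ∧ ∀ ρ ∈ win σ₁ h t, ρ ∈ win σ₁ T t₀ → G ρ ≠ 0} ≤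
          ENNReal.ofReal (4 * (9 / 10) ^ I * T)

/-- **CoreXQ** (from `S_CoreX`): the same in terms of `rate V T`.

Proof.  `x`, `D`, `V₀` from `S_CoreX`; `A = 5`, `c₁ = log(10/9)/D`, the new `V₀` is `max V₀ 2`.  `L = rate V T ≥ 0` (`T ≥ V ≥ 2`, so
`log T/log V ≥ 1`).  `I = ⌊h L/D⌋₊`.  If `I ≥ 1`: `I D/h ≤ L`, so `exp(I D/h) ≤ V` and `exp(I D/h) ≤ log T/log V`, `V^(exp(I D/h)) ≤ T`;
`I ≥ h L/D - 1`, `(9/10)^I ≤ (10/9) exp(-c₁ h L)`, and `4 · 10/9 ≤ 5`.  If `I = 0`: `h L < D`, `exp(-c₁ h L) ≥ 9/10`, and the measure is at most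
`2T ≤ 5 · (9/10) T`. -/
def S_CoreXQ : Prop :=
  ∀ (C b : ℝ) (k : ℕ), 0 ≤ C → b ≤ 1 →
    ∀ σ₁ : ℝ, 1 / 2 ≤ σ₁ → σ₁ < b → ∃ x : ℝ, 1 / 2 < x ∧ x < b ∧
      ∀ η B : ℝ, 0 < η → 1 ≤ B → ∃ A c₁ V₀ : ℝ, 1 ≤ A ∧ 0 < c₁ ∧ c₁ ≤ 1 ∧
      ∀ V T t₀ h : ℝ, V₀ ≤ V → V ≤ T → 0 < h → h ≤ 1 →
      ∀ c : ℕ → ℂ, Coefs c C → LowU c k x η B (V ^ 2) →
      ∀ G : ℂ → ℂ, DifferentiableOn ℂ G (win σ₁ T t₀) →
        (∀ s ∈ win σ₁ T t₀, ‖G s‖ ≤ Real.exp V) →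
        (∀ s ∈ win σ₁ T t₀, 3 ≤ s.re → G s = Complex.exp (dir c s)) →
        volume {t : ℝ | |t - t₀| < T ∧ ∀ ρ ∈ win σ₁ h t, ρ ∈ win σ₁ T t₀ → G ρ ≠ 0} ≤
          ENNReal.ofReal (A * Real.exp (-(c₁ * h * rate V T)) * T)

/-- **NumX**: the numbers in `S_RedX`.

Proof.  `h' = min h 1`, `c = c₁ h'/(2 (1 + N₀)) ≤ 1/2`, `C' = 4 A + 4`, `r = rate V H ≥ 0` (`H ≥ V ≥ 2`), `r ≤ log V`.  If `H < 2V`: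
`log H/log V ≤ log(2V)/log V ≤ 2`, `r ≤ log 2`, `exp(-c r/N) ≥ 1/2`, `C'/2 ≥ 2`.  If `2V ≤ H`: `log(2V) ≤ 2 log V`, so
`rate (2V) H ≥ r - 1` (see `S_NumQ`); `N + N₀ ≤ N (1 + N₀)`, so `c₁ (h'/(2(N+N₀))) (r - 1) ≥ c r/N - 1/2`, and
`exp(1/2) ≤ 2`: the first term is at most `4 A exp(-c r/N) H`.  `exp(-c r/N) H ≥ V^(-1/2) V ≥ 2h` for `V ≥ 4h²`. -/
def S_NumX : Prop :=
  ∀ (A c₁ h : ℝ) (N₀ : ℕ), 1 ≤ A → 0 < c₁ → c₁ ≤ 1 → 0 < h → ∃ C' c V₀ : ℝ, 0 < c ∧ 2 ≤ V₀ ∧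
    ∀ (V H : ℝ) (N : ℕ), V₀ ≤ V → V ≤ H → 1 ≤ N →
      (H < 2 * V → 2 ≤ C' * Real.exp (-(c * rate V H / N))) ∧
      (2 * V ≤ H → 2 * (A * Real.exp (-(c₁ * (min h 1 / (2 * ((N + N₀ : ℕ) : ℝ))) *
        rate (2 * V) H))) * H + 2 * h ≤ C' * Real.exp (-(c * rate V H / N)) * H)

/-- The conclusion. -/
def WindowsX (K : Type) [Field K] [NumberField K]
    (𝓔 : ℝ → (HeightOneSpectrum (𝓞 K) → WeierstrassCurve (𝓞 K)) → Prop) (b : ℝ) : Prop :=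
  ∀ σ₁ h : ℝ, σ₁ < b → 0 < h → ∃ C c V₀ : ℝ, 0 < c ∧ ∀ V H t₀ : ℝ, V₀ ≤ V → V ≤ H →
      ∀ M : HeightOneSpectrum (𝓞 K) → WeierstrassCurve (𝓞 K), 𝓔 V M →
      ∀ F : ℂ → ℂ, DifferentiableOn ℂ F {s : ℂ | σ₁ < s.re ∧ |s.im - t₀| < H} →
        (∀ s : ℂ, σ₁ < s.re → |s.im - t₀| < H → ‖F s‖ ≤ Real.exp V) →
        (∀ s : ℂ, 3 / 2 < s.re → |s.im - t₀| < H →
          F s = ∏' v : HeightOneSpectrum (𝓞 K), (locDen (M v) v s)⁻¹) →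
        ∀ N : ℕ, 1 ≤ N →
        volume {t : ℝ | |t - t₀| < H ∧ ¬ ∃ Y : Finset ℂ, Y.card = N ∧ ∀ ρ ∈ Y,
            σ₁ < ρ.re ∧ |ρ.im - t| < h ∧ |ρ.im - t₀| < H ∧ F ρ = 0} ≤
          ENNReal.ofReal (C * Real.exp (-(c * rate V H / N)) * H)

/-- **RedX** (from `S_CoreXQ`, `S_Mark`, `S_NumX`).

Proof.  As `S_RedQ` (`Aw/RedQ.lean`).  `σ = max σ₁ (1/2) < b` (smaller windows).  `C`, `k`, `N₀` from `DataG`; `S_CoreXQ` for `C`, `b`, `k`, `σ` gives `x`; `η`, `B`, `V₁` from `DataG`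
for `x`; `A`, `c₁`, `V₀` from `S_CoreXQ`; `C'`, `c`, `V₂` from `S_NumX` for `A`, `c₁`, `h`, `N₀ h`; `C' ≥ 0`.  For large `V` (`V ≥ h` too) and `H < 2V`: the measure is at most `2H`.
For `2V ≤ H`: `P`, `c'` from `DataG` for `V`; `G = F P` on `win σ H t₀`: differentiable, `‖G‖ ≤ e^(2V)`, `G = exp(dir c')` for `Re s ≥ 3`;
`LowU … (V^2)` implies `LowU … ((2V)^2)`.  `S_CoreXQ` with `2V`, `T = H` and `h₁ = min h 1/(2(N+N₀)) ≤ 1`, `ε₁ = A exp(-(c₁ h₁ rate (2V) H))`; `S_Mark` with `Z` =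
the zeros of `G`, `n = 2(N+N₀)`, `N + N₀` in place of `N`: outside a set of measure at most `2 ε₁ H + 2h` there is a set `Y` of `N + N₀` zeros of `G` in
the window; at most `N₀ h` of them are zeros of `P` (`Re ρ > σ ≥ 1/2`), the others are zeros of `F`: filter `Y` and choose a subset with
`N` elements (`Finset.exists_subset_card_eq`). -/
def S_RedX : Prop :=
  ∀ (K : Type) [Field K] [NumberField K]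
    (𝓔 : ℝ → (HeightOneSpectrum (𝓞 K) → WeierstrassCurve (𝓞 K)) → Prop) (b : ℝ),
    1 / 2 < b → b ≤ 1 → DataG K 𝓔 b → WindowsX K 𝓔 b

end MP7ed9c3.Aw
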