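import Pool.Agent.Lib.MP_7ed9c3_nt.Aw.Spec

/-!
# MP_7ed9c3_nt, part Aw, module Step: the next block of coefficients
-/

set_option autoImplicit false

namespace MP7ed9c3.Aw

open NumberField IsDedekindDomain Filter Topology MeasureTheory Metric

/-- the upper bound for `(1/r₀)^(n₀)` -/
private theorem Step_pow (r₀ L : ℝ) (Q : ℕ) (hr : 1 < 1 / r₀) (hL : 0 ≤ L) (hQ : 1 ≤ Q) :
    (1 / r₀) ^ (⌈L * (1 + Real.log Q)⌉₊ + ⌈Real.log Q / Real.log (1 / r₀)⌉₊) ≤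
      Real.exp (Real.log (1 / r₀) * (L + 2)) * (Q : ℝ) ^ (Real.log (1 / r₀) * L + 1) ∧
    (Q : ℝ) ≤ (1 / r₀) ^ (⌈L * (1 + Real.log Q)⌉₊ + ⌈Real.log Q / Real.log (1 / r₀)⌉₊) := by
  obtain ⟨D, hD⟩ : ∃ D, D = Real.log (1 / r₀) := ⟨_, rfl⟩
  have hD0 : 0 < D := by
    rw [hD]
    exact Real.log_pos hr
  have hexp : 1 / r₀ = Real.exp D := by rw [hD, Real.exp_log (by linarith)]
  have hQ1 : (1 : ℝ) ≤ Q := by exact_mod_cast hQ
  have hlQ : 0 ≤ Real.log Q := Real.log_nonneg hQ1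
  rw [← hD, hexp, ← Real.exp_nat_mul, Real.rpow_def_of_pos (by linarith)]
  push_cast
  have h1 : (⌈L * (1 + Real.log Q)⌉₊ : ℝ) < L * (1 + Real.log Q) + 1 :=
    Nat.ceil_lt_add_one (by positivity)
  have h2 : (⌈Real.log Q / D⌉₊ : ℝ) < Real.log Q / D + 1 :=
    Nat.ceil_lt_add_one (by positivity)
  have h3 : Real.log Q / D ≤ ⌈Real.log Q / D⌉₊ := Nat.le_ceil _
  have h4 : Real.log Q / D * D = Real.log Q := div_mul_cancel₀ _ hD0.ne'
  constructor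
  · rw [← Real.exp_add, Real.exp_le_exp]
    have h5 : ((⌈L * (1 + Real.log Q)⌉₊ : ℝ) + ⌈Real.log Q / D⌉₊) * D ≤
        (L * (1 + Real.log Q) + 1 + (Real.log Q / D + 1)) * D :=
      mul_le_mul_of_nonneg_right (by linarith) hD0.le
    have h6 : (L * (1 + Real.log Q) + 1 + (Real.log Q / D + 1)) * D =
        L * (1 + Real.log Q) * D + 2 * D + Real.log Q / D * D := by ring
    rw [h6, h4] at h5
    linarith
  · calc (Q : ℝ) = Real.exp (Real.log Q) := (Real.exp_log (by linarith)).symm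
      _ ≤ Real.exp (((⌈L * (1 + Real.log Q)⌉₊ : ℝ) + ⌈Real.log Q / D⌉₊) * D) := by
          rw [Real.exp_le_exp]
          have h7 : (0 : ℝ) ≤ ⌈L * (1 + Real.log Q)⌉₊ := Nat.cast_nonneg _
          have h8 : Real.log Q / D * D ≤
              ((⌈L * (1 + Real.log Q)⌉₊ : ℝ) + ⌈Real.log Q / D⌉₊) * D :=
            mul_le_mul_of_nonneg_right (by linarith) hD0.le
          rw [h4] at h8
          exact h8

/-- the last inequality -/
private theorem Step_num (c₀ C W : ℝ) (hc₀ : 0 < c₀) (hW1 : 1 ≤ W) (h1 : 2 / c₀ ≤ W)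
    (h2 : 2 * C ^ 2 ≤ W) : W ^ 3 ≤ c₀ * (W ^ 4 - C ^ 2 * W) := by
  have h3 : 2 ≤ c₀ * W := by
    rw [div_le_iff₀ hc₀] at h1
    linarith
  have h4 : W ≤ W ^ 3 := by
    calc W = W ^ 1 := (pow_one W).symm
      _ ≤ W ^ 3 := pow_le_pow_right₀ hW1 (by norm_num)
  have h5 : 2 * W ^ 3 ≤ c₀ * W ^ 4 := by
    calc 2 * W ^ 3 ≤ c₀ * W * W ^ 3 := mul_le_mul_of_nonneg_right h3 (by positivity)
      _ = c₀ * W ^ 4 := by ring
  have h6 : 2 * (c₀ * (C ^ 2 * W)) ≤ c₀ * W ^ 4 := by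
    calc 2 * (c₀ * (C ^ 2 * W)) = c₀ * (2 * C ^ 2 * W) := by ring
      _ ≤ c₀ * (W ^ 3 * W) := by
          refine mul_le_mul_of_nonneg_left ?_ hc₀.le
          exact mul_le_mul_of_nonneg_right (h2.trans h4) (by linarith)
      _ = c₀ * W ^ 4 := by ring
  have h7 : c₀ * (W ^ 4 - C ^ 2 * W) = c₀ * W ^ 4 - c₀ * (C ^ 2 * W) := by ring
  rw [h7]
  linarith

/-- the lower bound for the mean energy -/
private theorem Step_low (h R' C x c₀ : ℝ) (c : ℕ → ℂ) (S : Finset ℕ) (m₀ m₁ n₀ : ℕ) (A : ℝ)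
    (hc : Coefs c C) (hC : 0 ≤ C) (hx : 1 / 2 < x) (hc₀ : 0 ≤ c₀)
    (hS : ∀ m ∈ S, 1 ≤ m ∧ m ≤ m₁)
    (hG : ∀ m ∈ S, c₀ * (m : ℝ) ^ (-(2 * x)) ≤
      ∑ n ∈ Finset.range n₀, R' ^ (2 * n) * ‖gT h n m‖ ^ 2)
    (hA : A ≤ ∑ m ∈ S, ‖c m‖ ^ 2 * (m : ℝ) ^ (-(2 * x))) :
    c₀ * (A - C ^ 2 * m₀) ≤ vS h R' c (Finset.Ioc m₀ m₁) n₀ := by
  have hw : ∀ m, 0 ≤ wS h R' c n₀ m := by
    intro m
    unfold wS
    refine mul_nonneg (by positivity) (Finset.sum_nonneg fun n _ => ?_)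
    have : 0 ≤ R' ^ (2 * n) := by
      rw [pow_mul]
      positivity
    positivity
  -- the small elements
  have hsmall : ∑ m ∈ S.filter (fun m => ¬ m₀ < m), ‖c m‖ ^ 2 * (m : ℝ) ^ (-(2 * x)) ≤
      C ^ 2 * m₀ := by
    calc ∑ m ∈ S.filter (fun m => ¬ m₀ < m), ‖c m‖ ^ 2 * (m : ℝ) ^ (-(2 * x))
        ≤ ∑ _m ∈ S.filter (fun m => ¬ m₀ < m), C ^ 2 := by
          refine Finset.sum_le_sum fun m hm => ?_
          have hm1 : 1 ≤ m := (hS m (Finset.mem_filter.1 hm).1).1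
          have hm1' : (1 : ℝ) ≤ m := by exact_mod_cast hm1
          have h1 : ‖c m‖ ^ 2 ≤ C ^ 2 * m := by
            calc ‖c m‖ ^ 2 ≤ (C * √m) ^ 2 := pow_le_pow_left₀ (norm_nonneg _) (hc.2 m) 2
              _ = C ^ 2 * m := by rw [mul_pow, Real.sq_sqrt (by linarith)]
          have h2 : (m : ℝ) * (m : ℝ) ^ (-(2 * x)) ≤ 1 := by
            have h3 : (m : ℝ) * (m : ℝ) ^ (-(2 * x)) = (m : ℝ) ^ (1 + -(2 * x)) := by
              rw [Real.rpow_add (by linarith), Real.rpow_one]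
            rw [h3]
            exact Real.rpow_le_one_of_one_le_of_nonpos hm1' (by linarith)
          calc ‖c m‖ ^ 2 * (m : ℝ) ^ (-(2 * x)) ≤ C ^ 2 * m * (m : ℝ) ^ (-(2 * x)) :=
                mul_le_mul_of_nonneg_right h1 (Real.rpow_nonneg (by linarith) _)
            _ = C ^ 2 * (m * (m : ℝ) ^ (-(2 * x))) := by ring
            _ ≤ C ^ 2 * 1 := mul_le_mul_of_nonneg_left h2 (by positivity)
            _ = C ^ 2 := mul_one _
      _ = ((S.filter (fun m => ¬ m₀ < m)).card : ℝ) * C ^ 2 := by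
          rw [Finset.sum_const, nsmul_eq_mul]
      _ ≤ (m₀ : ℝ) * C ^ 2 := by
          refine mul_le_mul_of_nonneg_right ?_ (by positivity)
          have h1 : (S.filter (fun m => ¬ m₀ < m)) ⊆ Finset.Icc 1 m₀ := by
            intro m hm
            rw [Finset.mem_filter] at hm
            exact Finset.mem_Icc.2 ⟨(hS m hm.1).1, not_lt.1 hm.2⟩
          have h2 := Finset.card_le_card h1
          rw [Nat.card_Icc, Nat.add_sub_cancel] at h2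
          exact_mod_cast h2
      _ = C ^ 2 * m₀ := mul_comm _ _
  have hsplit := Finset.sum_filter_add_sum_filter_not S (fun m => m₀ < m)
    (fun m => ‖c m‖ ^ 2 * (m : ℝ) ^ (-(2 * x)))
  have hbig : c₀ * ∑ m ∈ S.filter (fun m => m₀ < m), ‖c m‖ ^ 2 * (m : ℝ) ^ (-(2 * x)) ≤
      vS h R' c (Finset.Ioc m₀ m₁) n₀ := by
    rw [Finset.mul_sum]
    calc ∑ m ∈ S.filter (fun m => m₀ < m), c₀ * (‖c m‖ ^ 2 * (m : ℝ) ^ (-(2 * x)))
        ≤ ∑ m ∈ S.filter (fun m => m₀ < m), wS h R' c n₀ m := by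
          refine Finset.sum_le_sum fun m hm => ?_
          unfold wS
          calc c₀ * (‖c m‖ ^ 2 * (m : ℝ) ^ (-(2 * x))) =
                ‖c m‖ ^ 2 * (c₀ * (m : ℝ) ^ (-(2 * x))) := by ring
            _ ≤ _ := mul_le_mul_of_nonneg_left (hG m (Finset.mem_filter.1 hm).1) (by positivity)
      _ ≤ vS h R' c (Finset.Ioc m₀ m₁) n₀ := by
          unfold vS
          refine Finset.sum_le_sum_of_subset_of_nonneg ?_ fun m _ _ => hw m
          intro m hm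
          rw [Finset.mem_filter] at hm
          exact Finset.mem_Ioc.2 ⟨hm.2, (hS m hm.1).2⟩
  refine le_trans (mul_le_mul_of_nonneg_left ?_ hc₀) hbig
  linarith

theorem tStep (h1 : S_GLow) : S_Step := by
  intro h σ₁ b r₀ R R' R₂ R₁ C η B k hh hC hη hB hR κ₁ hκ₁
  obtain ⟨c₀, L, hc₀, hL, hG⟩ := h1 h R R' R₂ hh (hR.r₀pos.trans hR.lt1) hR.lt2 hR.lt3
    (hR.lt4.trans hR.lt5) (by linarith [hR.e3])
  have hx : 1 / 2 < ell h R := hR.e4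
  have hr01 : r₀ < 1 := by linarith [hR.lt1, hR.lt2, hR.lt3, hR.lt4, hR.lt5]
  have hr1 : 1 < 1 / r₀ := one_lt_one_div hR.r₀pos hr01
  obtain ⟨D, hD⟩ : ∃ D, D = Real.log (1 / r₀) := ⟨_, rfl⟩
  have hD0 : 0 < D := by
    rw [hD]
    exact Real.log_pos hr1
  obtain ⟨al, hal⟩ : ∃ al, al = 4 / η + 2 := ⟨_, rfl⟩
  have hη4 : 0 < 4 / η := by positivity
  have hal2 : 2 ≤ al := by rw [hal]; linarith
  have halη : 4 ≤ al * η := by
    rw [hal, add_mul, div_mul_cancel₀ _ hη.ne']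
    linarith
  obtain ⟨E, hE⟩ : ∃ E, E = al * B * k * (D * L + 1) := ⟨_, rfl⟩
  have hk0 : (0 : ℝ) ≤ k := Nat.cast_nonneg k
  have hDL : 0 ≤ D * L := mul_nonneg hD0.le hL
  have halB : 0 ≤ al * B := mul_nonneg (by linarith) (by linarith)
  have hE0 : 0 ≤ E := by
    rw [hE]
    exact mul_nonneg (mul_nonneg halB hk0) (by linarith)
  obtain ⟨C4, hC4⟩ : ∃ C4, C4 = 2 * Real.exp (D * (L + 2)) * (3 : ℝ) ^ E := ⟨_, rfl⟩
  have hC40 : 0 ≤ C4 := by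
    rw [hC4]
    positivity
  have h2c : 0 < 2 / c₀ := by positivity
  have hC2 : 0 ≤ 2 * C ^ 2 := by positivity
  refine ⟨κ₁ * E + 1 + κ₁, 1 + 2 / c₀ + (2 * C ^ 2 + 1) + C4, ?_, ?_, ?_⟩
  · have : 0 ≤ κ₁ * E := mul_nonneg (by linarith) hE0
    linarith
  · linarith
  intro V hV c hc hlow m₀ hm₀
  have hV1 : 1 ≤ V := by linarith
  have hVc : 2 / c₀ ≤ V := by linarith
  have hVC : 2 * C ^ 2 ≤ V := by linarith
  have hV4 : C4 ≤ V := by linarith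
  have hm₀0 : (0 : ℝ) ≤ m₀ := Nat.cast_nonneg m₀
  obtain ⟨W, hW⟩ : ∃ W : ℝ, W = V + m₀ + 1 := ⟨_, rfl⟩
  have hW1 : 1 ≤ W := by linarith
  have hVW : V ≤ W := by linarith
  have hVκ : V ≤ V ^ κ₁ := by
    calc V = V ^ (1 : ℝ) := (Real.rpow_one V).symm
      _ ≤ V ^ κ₁ := Real.rpow_le_rpow_of_exponent_le hV1 hκ₁
  have hW3 : W ≤ 3 * V ^ κ₁ := by linarith
  -- the number Y
  have hWY : W ≤ W ^ al := by
    calc W = W ^ (1 : ℝ) := (Real.rpow_one W).symm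
      _ ≤ W ^ al := Real.rpow_le_rpow_of_exponent_le hW1 (by linarith)
  have hVY : V ^ 2 ≤ W ^ al := by
    calc V ^ 2 ≤ W ^ 2 := pow_le_pow_left₀ (by linarith) hVW 2
      _ = W ^ (2 : ℝ) := (Real.rpow_two W).symm
      _ ≤ W ^ al := Real.rpow_le_rpow_of_exponent_le hW1 hal2
  obtain ⟨P, S, hYP, hPY, hSP, hsum⟩ := hlow (W ^ al) hVY
  have hP1 : (1 : ℝ) ≤ P := by linarith
  have hP1' : 1 ≤ P := by exact_mod_cast hP1
  have hPη : W ^ 4 ≤ (P : ℝ) ^ η := by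
    calc W ^ 4 = W ^ (4 : ℝ) := by
          rw [← Real.rpow_natCast]
          norm_num
      _ ≤ W ^ (al * η) := Real.rpow_le_rpow_of_exponent_le hW1 halη
      _ = (W ^ al) ^ η := Real.rpow_mul (by linarith) _ _
      _ ≤ (P : ℝ) ^ η := Real.rpow_le_rpow (by linarith) hYP hη.le
  -- k is positive
  have hk : 1 ≤ k := by
    by_contra hk
    have hk' : k = 0 := by omega
    have h2 : ∑ m ∈ S, ‖c m‖ ^ 2 * (m : ℝ) ^ (-(2 * ell h R)) = 0 := by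
      refine Finset.sum_eq_zero fun m hm => ?_
      obtain ⟨h3, h4⟩ := hSP m hm
      rw [hk', pow_zero] at h4
      have h5 : m = 1 := by omega
      rw [h5, hc.1 1 not_isPrimePow_one]
      simp
    rw [h2] at hsum
    have h3 : 1 ≤ W ^ 4 := one_le_pow₀ hW1
    linarith
  have hPQ : P ≤ P ^ k := by
    calc P = P ^ 1 := (pow_one P).symm
      _ ≤ P ^ k := Nat.pow_le_pow_right hP1' hk
  have hQ1 : 1 ≤ P ^ k := hP1'.trans hPQ
  obtain ⟨hup, hlo⟩ := Step_pow r₀ L (P ^ k) hr1 hL hQ1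
  obtain ⟨n₀, hn₀⟩ : ∃ n₀ : ℕ, n₀ = ⌈L * (1 + Real.log ((P ^ k : ℕ) : ℝ))⌉₊ +
    ⌈Real.log ((P ^ k : ℕ) : ℝ) / Real.log (1 / r₀)⌉₊ := ⟨_, rfl⟩
  rw [← hn₀, ← hD] at hup
  rw [← hn₀] at hlo
  have hPQ' : (P : ℝ) ≤ ((P ^ k : ℕ) : ℝ) := by exact_mod_cast hPQ
  have hceil : (1 / r₀) ^ n₀ ≤ (⌈(1 / r₀) ^ n₀⌉₊ : ℝ) := Nat.le_ceil _
  have hQm : P ^ k ≤ ⌈(1 / r₀) ^ n₀⌉₊ := by
    exact_mod_cast hlo.trans hceil
  refine ⟨⌈(1 / r₀) ^ n₀⌉₊, n₀, ?_, ?_, hceil, ?_⟩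
  · have h2 : (m₀ : ℝ) < (⌈(1 / r₀) ^ n₀⌉₊ : ℝ) := by linarith
    exact_mod_cast h2
  · -- the upper bound
    have hpow1 : 1 ≤ (1 / r₀) ^ n₀ := one_le_pow₀ hr1.le
    have h2 : (⌈(1 / r₀) ^ n₀⌉₊ : ℝ) < (1 / r₀) ^ n₀ + 1 := Nat.ceil_lt_add_one (by linarith)
    have hQW : ((P ^ k : ℕ) : ℝ) ≤ W ^ (al * B * k) := by
      calc ((P ^ k : ℕ) : ℝ) = (P : ℝ) ^ k := by push_cast; ring
        _ ≤ ((W ^ al) ^ B) ^ k := pow_le_pow_left₀ (by linarith) hPY k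
        _ = W ^ (al * B * k) := by
            rw [← Real.rpow_natCast, ← Real.rpow_mul (by linarith), ← Real.rpow_mul (by positivity),
              mul_assoc al B (k : ℝ)]
    have hQ0 : (0 : ℝ) ≤ ((P ^ k : ℕ) : ℝ) := Nat.cast_nonneg _
    have h3 : ((P ^ k : ℕ) : ℝ) ^ (D * L + 1) ≤ (3 : ℝ) ^ E * V ^ (κ₁ * E) := by
      calc ((P ^ k : ℕ) : ℝ) ^ (D * L + 1) ≤ (W ^ (al * B * k)) ^ (D * L + 1) :=
            Real.rpow_le_rpow hQ0 hQW (by linarith)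
        _ = W ^ E := by rw [← Real.rpow_mul (by linarith), hE]
        _ ≤ (3 * V ^ κ₁) ^ E := Real.rpow_le_rpow (by linarith) hW3 hE0
        _ = (3 : ℝ) ^ E * V ^ (κ₁ * E) := by
            rw [Real.mul_rpow (by norm_num) (by positivity), ← Real.rpow_mul (by linarith)]
    have hexp0 : 0 ≤ Real.exp (D * (L + 2)) := (Real.exp_pos _).le
    have h4 : (1 / r₀) ^ n₀ ≤ Real.exp (D * (L + 2)) * ((3 : ℝ) ^ E * V ^ (κ₁ * E)) :=
      hup.trans (mul_le_mul_of_nonneg_left h3 hexp0)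
    have hV0 : (0 : ℝ) < V := by linarith
    calc (⌈(1 / r₀) ^ n₀⌉₊ : ℝ) ≤ 2 * (1 / r₀) ^ n₀ := by linarith
      _ ≤ 2 * (Real.exp (D * (L + 2)) * ((3 : ℝ) ^ E * V ^ (κ₁ * E))) := by linarith
      _ = C4 * V ^ (κ₁ * E) := by rw [hC4]; ring
      _ ≤ V * V ^ (κ₁ * E) := mul_le_mul_of_nonneg_right hV4 (by positivity)
      _ = V ^ (κ₁ * E + 1) := by rw [Real.rpow_add hV0, Real.rpow_one, mul_comm]
      _ ≤ V ^ (κ₁ * E + 1 + κ₁) := Real.rpow_le_rpow_of_exponent_le hV1 (by linarith)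
  · -- the lower bound
    have hlow' := Step_low h R' C (ell h R) c₀ c S m₀ ⌈(1 / r₀) ^ n₀⌉₊ n₀ (W ^ 4) hc hC hx hc₀.le
      (fun m hm => ⟨(hSP m hm).1, (hSP m hm).2.trans hQm⟩)
      (fun m hm => by
        obtain ⟨hm1, hm2⟩ := hSP m hm
        refine hG n₀ m hm1 ?_
        have h2 : Real.log m ≤ Real.log ((P ^ k : ℕ) : ℝ) := by
          refine Real.log_le_log ?_ ?_
          · exact_mod_cast hm1
          · exact_mod_cast hm2
        have h3 : L * (1 + Real.log m) ≤ L * (1 + Real.log ((P ^ k : ℕ) : ℝ)) :=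
          mul_le_mul_of_nonneg_left (by linarith) hL
        have h4 : L * (1 + Real.log ((P ^ k : ℕ) : ℝ)) ≤
            (⌈L * (1 + Real.log ((P ^ k : ℕ) : ℝ))⌉₊ : ℝ) := Nat.le_ceil _
        have h5 : (⌈L * (1 + Real.log ((P ^ k : ℕ) : ℝ))⌉₊ : ℝ) ≤ n₀ := by
          rw [hn₀]
          exact_mod_cast Nat.le_add_right _ _
        linarith)
      (hPη.trans hsum)
    have hnum := Step_num c₀ C W hc₀ hW1 (hVc.trans hVW) (hVC.trans hVW)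
    have h5 : c₀ * (W ^ 4 - C ^ 2 * W) ≤ c₀ * (W ^ 4 - C ^ 2 * m₀) := by
      refine mul_le_mul_of_nonneg_left ?_ hc₀.le
      have h6 : C ^ 2 * (m₀ : ℝ) ≤ C ^ 2 * W :=
        mul_le_mul_of_nonneg_left (by linarith) (by positivity)
      linarith
    rw [← hW]
    exact hnum.trans (h5.trans hlow')

end MP7ed9c3.Aw
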