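import Pool.Agent.Lib.MP_7ed9c3_nt.Aw.Spec

/-!
# MP_7ed9c3_nt, part Aw: the weights are bounded
-/

set_option autoImplicit false

namespace MP7ed9c3.Aw

open NumberField IsDedekindDomain Filter Topology MeasureTheory Metric

private theorem WB_g (h1 : S_GUp) (h R₂ : ℝ) (hh : 0 < h) (hR2 : 0 < R₂) (hR21 : R₂ < 1)
    (he : 1 / 2 < ell h R₂) (n m : ℕ) (hm : 1 ≤ m) :
    ‖gT h n m‖ ^ 2 ≤ (m : ℝ)⁻¹ * (R₂ ^ (2 * n))⁻¹ := by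
  have hm0 : (1 : ℝ) ≤ m := by exact_mod_cast hm
  have hmp : (0 : ℝ) < m := by linarith
  have h2 := h1 h R₂ n m hh hR2 hR21 hm
  have h3 : (m : ℝ) ^ (-ell h R₂) ≤ (m : ℝ) ^ (-(1 / 2 : ℝ)) :=
    Real.rpow_le_rpow_of_exponent_le hm0 (by linarith)
  have hp : (0 : ℝ) < R₂ ^ n := pow_pos hR2 n
  have h4 : ‖gT h n m‖ ≤ (m : ℝ) ^ (-(1 / 2 : ℝ)) / R₂ ^ n :=
    h2.trans (div_le_div_of_nonneg_right h3 hp.le)
  have h5 : ‖gT h n m‖ ^ 2 ≤ ((m : ℝ) ^ (-(1 / 2 : ℝ)) / R₂ ^ n) ^ 2 :=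
    pow_le_pow_left₀ (norm_nonneg _) h4 2
  have h6 : ((m : ℝ) ^ (-(1 / 2 : ℝ))) ^ 2 = (m : ℝ)⁻¹ := by
    rw [← Real.rpow_natCast, ← Real.rpow_mul hmp.le, ← Real.rpow_neg_one]
    norm_num
  rw [div_pow, h6, ← pow_mul, mul_comm n 2] at h5
  rw [div_eq_mul_inv] at h5
  exact h5

theorem tWB (h1 : S_GUp) : S_WB := by
  intro h σ₁ b r₀ R R' R₂ R₁ C hh hC hr
  have hR' : 0 < R' := by linarith [hr.r₀pos, hr.lt1, hr.lt2]
  have hR2 : 0 < R₂ := by linarith [hr.lt3]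
  have hR21 : R₂ < 1 := by linarith [hr.lt4, hr.lt5]
  have h0 : 0 ≤ R' / R₂ := by positivity
  have hlt : R' / R₂ < 1 := by
    rw [div_lt_one hR2]
    exact hr.lt3
  obtain ⟨q, hq⟩ : ∃ q : ℝ, q = (R' / R₂) ^ 2 := ⟨_, rfl⟩
  have hq0 : 0 ≤ q := by
    rw [hq]
    positivity
  have hq1 : q < 1 := by
    rw [hq]
    nlinarith
  have hq2 : 0 < 1 - q := by linarith
  refine ⟨C ^ 2 * (1 - q)⁻¹, by positivity, ?_⟩
  intro c hc n₀ m hm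
  have hm0 : (1 : ℝ) ≤ m := by exact_mod_cast hm
  have hmp : (0 : ℝ) < m := by linarith
  have hgeo : ∑ n ∈ Finset.range n₀, q ^ n ≤ (1 - q)⁻¹ := by
    have := (summable_geometric_of_lt_one hq0 hq1).sum_le_tsum (Finset.range n₀)
      (fun n _ => pow_nonneg hq0 n)
    rwa [tsum_geometric_of_lt_one hq0 hq1] at this
  have hsum : ∑ n ∈ Finset.range n₀, R' ^ (2 * n) * ‖gT h n m‖ ^ 2 ≤ (m : ℝ)⁻¹ * (1 - q)⁻¹ := by
    calc ∑ n ∈ Finset.range n₀, R' ^ (2 * n) * ‖gT h n m‖ ^ 2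
        ≤ ∑ n ∈ Finset.range n₀, (m : ℝ)⁻¹ * q ^ n := by
          apply Finset.sum_le_sum
          intro n _
          have := mul_le_mul_of_nonneg_left (WB_g h1 h R₂ hh hR2 hR21 hr.e3 n m hm)
            (pow_nonneg hR'.le (2 * n))
          refine this.trans (le_of_eq ?_)
          rw [hq, ← pow_mul, div_pow]
          ring
      _ = (m : ℝ)⁻¹ * ∑ n ∈ Finset.range n₀, q ^ n := by rw [Finset.mul_sum]
      _ ≤ (m : ℝ)⁻¹ * (1 - q)⁻¹ := mul_le_mul_of_nonneg_left hgeo (by positivity)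
  have hcm : ‖c m‖ ^ 2 ≤ C ^ 2 * m := by
    have h7 := pow_le_pow_left₀ (norm_nonneg _) (hc.2 m) 2
    rwa [mul_pow, Real.sq_sqrt hmp.le] at h7
  have hs0 : 0 ≤ ∑ n ∈ Finset.range n₀, R' ^ (2 * n) * ‖gT h n m‖ ^ 2 :=
    Finset.sum_nonneg (fun n _ => mul_nonneg (pow_nonneg hR'.le _) (by positivity))
  calc wS h R' c n₀ m
      = ‖c m‖ ^ 2 * ∑ n ∈ Finset.range n₀, R' ^ (2 * n) * ‖gT h n m‖ ^ 2 := rfl
    _ ≤ (C ^ 2 * m) * ((m : ℝ)⁻¹ * (1 - q)⁻¹) := mul_le_mul hcm hsum hs0 (by positivity)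
    _ = C ^ 2 * (1 - q)⁻¹ := by
        field_simp

end MP7ed9c3.Aw
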