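import Pool.Agent.Lib.MP_7ed9c3_nt.Aw.Spec

/-!
# MP_7ed9c3_nt, part Aw, module WinA: a window without zeros has small energies
-/

set_option autoImplicit false

namespace MP7ed9c3.Aw

open NumberField IsDedekindDomain Filter Topology MeasureTheory Metric

/-- Linearity of the Taylor coefficient for finite sums. -/
private lemma WinA_sum (h2 : S_Tc) (n : ℕ) (r : ℝ) (hr : 0 < r) (a : ℕ → ℂ) (F : ℕ → ℂ → ℂ)
    (S : Finset ℕ) (hF : ∀ m ∈ S, DifferentiableOn ℂ (F m) (ball 0 r)) :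
    tc n (fun w => ∑ m ∈ S, a m * F m w) = ∑ m ∈ S, a m * tc n (F m) := by
  classical
  obtain ⟨hadd, hmul, -, -, -⟩ := h2
  induction S using Finset.induction_on with
  | empty =>
    have h0 := hmul n r 0 (fun _ => (0 : ℂ)) hr (differentiableOn_const 0)
    simp only [zero_mul] at h0
    simpa using h0
  | insert m S hm ih =>
    have hS : ∀ k ∈ S, DifferentiableOn ℂ (F k) (ball 0 r) := fun k hk =>
      hF k (Finset.mem_insert_of_mem hk)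
    have hFm : DifferentiableOn ℂ (F m) (ball 0 r) := hF m (Finset.mem_insert_self m S)
    have hd : DifferentiableOn ℂ (fun w => ∑ k ∈ S, a k * F k w) (ball 0 r) :=
      DifferentiableOn.fun_sum fun k hk => (hS k hk).const_mul (a k)
    have h1 := hadd n r (fun w => a m * F m w) (fun w => ∑ k ∈ S, a k * F k w) hr
      (hFm.const_mul (a m)) hd
    simp only [Finset.sum_insert hm]
    rw [h1, ih hS, hmul n r (a m) (F m) hr hFm]

/-- The size of one term. -/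
private lemma WinA_term (c : ℕ → ℂ) (C : ℝ) (hC : 0 ≤ C) (hc : Coefs c C) (s : ℂ) (hs : 3 ≤ s.re)
    (m : ℕ) : ‖c m * (m : ℂ) ^ (-s)‖ ≤ C * ((m : ℝ) ^ (-1 : ℝ) * (m : ℝ) ^ (-(3 / 2 : ℝ))) := by
  rcases Nat.eq_zero_or_pos m with h0 | h0
  · subst h0
    rw [hc.1 0 not_isPrimePow_zero, zero_mul, norm_zero]
    positivity
  · have hm : (0 : ℝ) < m := by exact_mod_cast h0
    have hm1 : (1 : ℝ) ≤ m := by exact_mod_cast h0
    rw [norm_mul, Complex.norm_natCast_cpow_of_pos h0, Complex.neg_re]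
    have e1 : (m : ℝ) ^ (-s.re) ≤ (m : ℝ) ^ (-(3 : ℝ)) :=
      Real.rpow_le_rpow_of_exponent_le hm1 (by linarith)
    have e2 : √(m : ℝ) * (m : ℝ) ^ (-(3 : ℝ)) = (m : ℝ) ^ (-1 : ℝ) * (m : ℝ) ^ (-(3 / 2 : ℝ)) := by
      rw [Real.sqrt_eq_rpow, ← Real.rpow_add hm, ← Real.rpow_add hm]
      norm_num
    calc ‖c m‖ * (m : ℝ) ^ (-s.re) ≤ (C * √m) * (m : ℝ) ^ (-(3 : ℝ)) :=
          mul_le_mul (hc.2 m) e1 (by positivity) (by positivity)
      _ = C * (√(m : ℝ) * (m : ℝ) ^ (-(3 : ℝ))) := by ring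
      _ = _ := by rw [e2]

/-- The series is summable. -/
private lemma WinA_summable (c : ℕ → ℂ) (C : ℝ) (hC : 0 ≤ C) (hc : Coefs c C) (s : ℂ)
    (hs : 3 ≤ s.re) : Summable fun m : ℕ => c m * (m : ℂ) ^ (-s) := by
  have h1 : Summable fun m : ℕ => C * (m : ℝ) ^ (-(3 / 2 : ℝ)) :=
    (Real.summable_nat_rpow.2 (by norm_num)).mul_left C
  refine Summable.of_norm_bounded h1 fun m => ?_
  refine (WinA_term c C hC hc s hs m).trans ?_
  rcases Nat.eq_zero_or_pos m with h0 | h0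
  · subst h0
    have : ((0 : ℕ) : ℝ) ^ (-1 : ℝ) = 0 := by
      rw [Nat.cast_zero]; exact Real.zero_rpow (by norm_num)
    rw [this, zero_mul, mul_zero]
    positivity
  · have hm1 : (1 : ℝ) ≤ m := by exact_mod_cast h0
    have e1 : (m : ℝ) ^ (-1 : ℝ) ≤ 1 := Real.rpow_le_one_of_one_le_of_nonpos hm1 (by norm_num)
    have e2 : (0 : ℝ) ≤ (m : ℝ) ^ (-(3 / 2 : ℝ)) := by positivity
    exact mul_le_mul_of_nonneg_left (by nlinarith) hC

/-- The tail of the series. -/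
private lemma WinA_tail (c : ℕ → ℂ) (C : ℝ) (hC : 0 ≤ C) (hc : Coefs c C) (s : ℂ) (hs : 3 ≤ s.re)
    (M : ℕ) (hM : 1 ≤ M) :
    ‖dir c s - ∑ m ∈ Finset.Ioc 0 M, c m * (m : ℂ) ^ (-s)‖ ≤
      C * (∑' m : ℕ, (m : ℝ) ^ (-(3 / 2 : ℝ))) / M := by
  have hMp : (0 : ℝ) < M := by exact_mod_cast hM
  have hsum := WinA_summable c C hC hc s hs
  have hS : Summable fun m : ℕ => (m : ℝ) ^ (-(3 / 2 : ℝ)) := Real.summable_nat_rpow.2 (by norm_num)
  have e1 := hsum.sum_add_tsum_nat_add (M + 1)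
  have e0 : ∑ m ∈ Finset.Ioc 0 M, c m * (m : ℂ) ^ (-s) =
      ∑ m ∈ Finset.range (M + 1), c m * (m : ℂ) ^ (-s) := by
    refine Finset.sum_subset ?_ ?_
    · intro m hm
      rw [Finset.mem_Ioc] at hm
      rw [Finset.mem_range]
      omega
    · intro m hm hm'
      rw [Finset.mem_range] at hm
      rw [Finset.mem_Ioc] at hm'
      have : m = 0 := by omega
      subst this
      rw [hc.1 0 not_isPrimePow_zero, zero_mul]
  have e2 : dir c s - ∑ m ∈ Finset.Ioc 0 M, c m * (m : ℂ) ^ (-s) =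
      ∑' i : ℕ, c (i + (M + 1)) * ((i + (M + 1) : ℕ) : ℂ) ^ (-s) := by
    rw [e0, dir, ← e1]
    ring
  rw [e2]
  have hS' : Summable fun i : ℕ => ((i + (M + 1) : ℕ) : ℝ) ^ (-(3 / 2 : ℝ)) :=
    (summable_nat_add_iff (f := fun m : ℕ => (m : ℝ) ^ (-(3 / 2 : ℝ))) (M + 1)).2 hS
  have hle : ∑' i : ℕ, ((i + (M + 1) : ℕ) : ℝ) ^ (-(3 / 2 : ℝ)) ≤
      ∑' m : ℕ, (m : ℝ) ^ (-(3 / 2 : ℝ)) := by
    rw [← hS.sum_add_tsum_nat_add (M + 1)]
    have : (0 : ℝ) ≤ ∑ i ∈ Finset.range (M + 1), (i : ℝ) ^ (-(3 / 2 : ℝ)) :=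
      Finset.sum_nonneg fun i _ => by positivity
    linarith
  have hb : ∀ i : ℕ, ‖c (i + (M + 1)) * ((i + (M + 1) : ℕ) : ℂ) ^ (-s)‖ ≤
      C / M * ((i + (M + 1) : ℕ) : ℝ) ^ (-(3 / 2 : ℝ)) := by
    intro i
    refine (WinA_term c C hC hc s hs (i + (M + 1))).trans ?_
    have hx : (M : ℝ) ≤ ((i + (M + 1) : ℕ) : ℝ) := by
      exact_mod_cast (by omega : M ≤ i + (M + 1))
    have hy : ((i + (M + 1) : ℕ) : ℝ) ^ (-1 : ℝ) ≤ 1 / M := by
      rw [Real.rpow_neg_one, one_div]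
      exact inv_anti₀ hMp hx
    have hz : (0 : ℝ) ≤ ((i + (M + 1) : ℕ) : ℝ) ^ (-(3 / 2 : ℝ)) := by positivity
    calc C * (((i + (M + 1) : ℕ) : ℝ) ^ (-1 : ℝ) * ((i + (M + 1) : ℕ) : ℝ) ^ (-(3 / 2 : ℝ)))
        ≤ C * (1 / M * ((i + (M + 1) : ℕ) : ℝ) ^ (-(3 / 2 : ℝ))) :=
          mul_le_mul_of_nonneg_left (mul_le_mul_of_nonneg_right hy hz) hC
      _ = _ := by ring
  have hfin := tsum_of_norm_bounded ((hS'.mul_left (C / M)).hasSum) hb
  refine hfin.trans ?_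
  rw [tsum_mul_left]
  calc C / M * ∑' i : ℕ, ((i + (M + 1) : ℕ) : ℝ) ^ (-(3 / 2 : ℝ))
      ≤ C / M * ∑' m : ℕ, (m : ℝ) ^ (-(3 / 2 : ℝ)) :=
        mul_le_mul_of_nonneg_left hle (by positivity)
    _ = _ := by ring

/-- The Taylor coefficients of the head. -/
private lemma WinA_head (h1 : S_Phi) (h2 : S_Tc) (h : ℝ) (hh : 0 < h) (c : ℕ → ℂ) (t : ℝ)
    (n M : ℕ) (r : ℝ) (hr : 0 < r) (hr1 : r ≤ 1) :
    DifferentiableOn ℂ (fun w => ∑ m ∈ Finset.Ioc 0 M,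
      c m * (m : ℂ) ^ (-(phi h w + t * Complex.I))) (ball 0 r) ∧
    tc n (fun w => ∑ m ∈ Finset.Ioc 0 M, c m * (m : ℂ) ^ (-(phi h w + t * Complex.I))) =
      aS h c (Finset.Ioc 0 M) n t := by
  have hphi : DifferentiableOn ℂ (phi h) (ball 0 r) :=
    (h1 h hh).1.mono (ball_subset_ball hr1)
  have hF : ∀ m ∈ Finset.Ioc 0 M,
      DifferentiableOn ℂ (fun w => (m : ℂ) ^ (-phi h w)) (ball 0 r) := by
    intro m hm
    rw [Finset.mem_Ioc] at hm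
    refine DifferentiableOn.const_cpow hphi.neg (Or.inl ?_)
    exact_mod_cast (by omega : m ≠ 0)
  have hfun : (fun w => ∑ m ∈ Finset.Ioc 0 M, c m * (m : ℂ) ^ (-(phi h w + t * Complex.I))) =
      fun w => ∑ m ∈ Finset.Ioc 0 M,
        (c m * (m : ℂ) ^ (-(t * Complex.I))) * (m : ℂ) ^ (-phi h w) := by
    funext w
    refine Finset.sum_congr rfl fun m hm => ?_
    rw [Finset.mem_Ioc] at hm
    have hm0 : (m : ℂ) ≠ 0 := by exact_mod_cast (by omega : m ≠ 0)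
    rw [neg_add, Complex.cpow_add _ _ hm0]
    ring
  rw [hfun]
  constructor
  · exact DifferentiableOn.fun_sum fun m hm => (hF m hm).const_mul _
  · rw [WinA_sum h2 n r hr (fun m => c m * (m : ℂ) ^ (-(t * Complex.I)))
      (fun m w => (m : ℂ) ^ (-phi h w)) (Finset.Ioc 0 M) hF, aS]
    refine Finset.sum_congr rfl fun m _ => ?_
    rw [gT]
    ring

/-- The first terms. -/
private lemma WinA_first (h3 : S_GUp) (h : ℝ) (hh : 0 < h) (R₂ : ℝ) (hR0 : 0 < R₂) (hR1 : R₂ < 1)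
    (hell : 1 / 2 < ell h R₂) (c : ℕ → ℂ) (C : ℝ) (hC : 0 ≤ C) (hc : Coefs c C) (t : ℝ)
    (n M : ℕ) : ‖aS h c (Finset.Ioc 0 M) n t‖ ≤ C * M / R₂ ^ n := by
  have hb : ∀ m ∈ Finset.Ioc 0 M, ‖c m * gT h n m * (m : ℂ) ^ (-(t * Complex.I))‖ ≤
      C / R₂ ^ n := by
    intro m hm
    rw [Finset.mem_Ioc] at hm
    have hm0 : 0 < m := hm.1
    have hmp : (0 : ℝ) < m := by exact_mod_cast hm0
    have hm1 : (1 : ℝ) ≤ m := by exact_mod_cast hm0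
    have e0 : ‖(m : ℂ) ^ (-(t * Complex.I))‖ = 1 := by
      rw [Complex.norm_natCast_cpow_of_pos hm0]
      simp
    have e1 : √(m : ℝ) * (m : ℝ) ^ (-ell h R₂) ≤ 1 := by
      rw [Real.sqrt_eq_rpow, ← Real.rpow_add hmp]
      exact Real.rpow_le_one_of_one_le_of_nonpos hm1 (by linarith)
    have e2 := h3 h R₂ n m hh hR0 hR1 hm0
    have hRn : 0 < R₂ ^ n := pow_pos hR0 n
    rw [norm_mul, norm_mul, e0, mul_one]
    calc ‖c m‖ * ‖gT h n m‖ ≤ (C * √m) * ((m : ℝ) ^ (-ell h R₂) / R₂ ^ n) :=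
          mul_le_mul (hc.2 m) e2 (norm_nonneg _) (by positivity)
      _ = (C / R₂ ^ n) * (√(m : ℝ) * (m : ℝ) ^ (-ell h R₂)) := by ring
      _ ≤ (C / R₂ ^ n) * 1 := mul_le_mul_of_nonneg_left e1 (by positivity)
      _ = C / R₂ ^ n := mul_one _
  rw [aS]
  refine (norm_sum_le_of_le _ hb).trans (le_of_eq ?_)
  rw [Finset.sum_const, Nat.card_Ioc, nsmul_eq_mul, Nat.sub_zero]
  ring

/-- The sum over the block. -/
private lemma WinA_block (h1 : S_Phi) (h2 : S_Tc) (h3 : S_GUp) (h : ℝ) (hh : 0 < h)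
    (r₀ R₂ : ℝ) (hr0 : 0 < r₀) (hr1 : r₀ < R₂) (hR1 : R₂ < 1) (hell0 : 3 ≤ ell h r₀)
    (hell : 1 / 2 < ell h R₂) (c : ℕ → ℂ) (C : ℝ) (hC : 0 ≤ C) (hc : Coefs c C) (t B : ℝ)
    (f : ℂ → ℂ) (hfd : DifferentiableOn ℂ f (ball 0 R₂))
    (hf0 : ∀ w ∈ ball (0 : ℂ) r₀, f w = dir c (phi h w + t * Complex.I))
    (hfB : ∀ w ∈ ball (0 : ℂ) R₂, ‖f w‖ ≤ B)
    (M₀ M₁ n₀ n : ℕ) (hM₁ : 1 ≤ M₁) (hM : M₀ ≤ M₁) (hn₀ : (1 / r₀) ^ n₀ ≤ (M₁ : ℝ)) (hn : n ≤ n₀) :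
    ‖aS h c (Finset.Ioc M₀ M₁) n t‖ ≤
      (B + C * M₀ + C * ∑' m : ℕ, (m : ℝ) ^ (-(3 / 2 : ℝ))) / R₂ ^ n := by
  have hR0 : 0 < R₂ := hr0.trans hr1
  have hMp : (0 : ℝ) < M₁ := by exact_mod_cast hM₁
  have hRn : 0 < R₂ ^ n := pow_pos hR0 n
  have hrn : 0 < r₀ ^ n := pow_pos hr0 n
  set K : ℝ := ∑' m : ℕ, (m : ℝ) ^ (-(3 / 2 : ℝ)) with hK
  have hK0 : 0 ≤ K := tsum_nonneg fun m => by positivity
  obtain ⟨hadd, -, hcau, -, hcongr⟩ := id h2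
  obtain ⟨hhd, hhead⟩ := WinA_head h1 h2 h hh c t n M₁ r₀ hr0 (by linarith)
  set head : ℂ → ℂ := fun w => ∑ m ∈ Finset.Ioc 0 M₁,
    c m * (m : ℂ) ^ (-(phi h w + t * Complex.I)) with hheaddef
  have hfd0 : DifferentiableOn ℂ f (ball 0 r₀) := hfd.mono (ball_subset_ball hr1.le)
  have hed : DifferentiableOn ℂ (fun w => f w - head w) (ball 0 r₀) := hfd0.sub hhd
  have hsplit : tc n f = tc n head + tc n (fun w => f w - head w) := by
    rw [← hadd n r₀ head (fun w => f w - head w) hr0 hhd hed]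
    refine hcongr n r₀ f _ hr0 fun w _ => ?_
    ring
  have heB : ∀ w ∈ ball (0 : ℂ) r₀, ‖f w - head w‖ ≤ C * K / M₁ := by
    intro w hw
    have hwn : ‖w‖ ≤ r₀ := by
      rw [mem_ball_zero_iff] at hw
      exact hw.le
    have hre : 3 ≤ (phi h w + t * Complex.I).re := by
      have := (h1 h hh).2.2.1 r₀ w hr0.le (by linarith) hwn
      simp only [Complex.add_re, Complex.mul_re, Complex.ofReal_re, Complex.I_re, mul_zero,
        Complex.ofReal_im, Complex.I_im, zero_mul, sub_zero, add_zero]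
      linarith
    rw [hf0 w hw]
    exact WinA_tail c C hC hc _ hre M₁ hM₁
  have b1 : ‖tc n f‖ ≤ B / R₂ ^ n := hcau n R₂ B f hR0 hfd hfB
  have b2 : ‖tc n (fun w => f w - head w)‖ ≤ C * K / R₂ ^ n := by
    have e1 := hcau n r₀ (C * K / M₁) _ hr0 hed heB
    have e2 : 1 / r₀ ^ n ≤ (M₁ : ℝ) := by
      have e3 : (1 / r₀) ^ n ≤ (1 / r₀) ^ n₀ := by
        refine pow_le_pow_right₀ ?_ hn
        rw [le_div_iff₀ hr0]
        linarith
      have e4 : 1 / r₀ ^ n = (1 / r₀) ^ n := by rw [one_div_pow]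
      rw [e4]
      exact e3.trans hn₀
    have hCK : 0 ≤ C * K := mul_nonneg hC hK0
    calc ‖tc n (fun w => f w - head w)‖ ≤ C * K / M₁ / r₀ ^ n := e1
      _ = C * K / M₁ * (1 / r₀ ^ n) := by ring
      _ ≤ C * K / M₁ * M₁ := mul_le_mul_of_nonneg_left e2 (by positivity)
      _ = C * K := by field_simp
      _ ≤ C * K / R₂ ^ n := by
          rw [le_div_iff₀ hRn]
          have : R₂ ^ n ≤ 1 := pow_le_one₀ hR0.le hR1.le
          nlinarith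
  have b3 := WinA_first h3 h hh R₂ hR0 hR1 hell c C hC hc t n M₀
  have hcons : aS h c (Finset.Ioc 0 M₀) n t + aS h c (Finset.Ioc M₀ M₁) n t =
      aS h c (Finset.Ioc 0 M₁) n t := by
    simp only [aS]
    exact Finset.sum_Ioc_consecutive _ (Nat.zero_le _) hM
  have hmain : aS h c (Finset.Ioc M₀ M₁) n t =
      tc n f - tc n (fun w => f w - head w) - aS h c (Finset.Ioc 0 M₀) n t := by
    rw [hsplit, hhead, ← hcons]
    ring
  rw [hmain]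
  calc ‖tc n f - tc n (fun w => f w - head w) - aS h c (Finset.Ioc 0 M₀) n t‖
      ≤ ‖tc n f‖ + ‖tc n (fun w => f w - head w)‖ + ‖aS h c (Finset.Ioc 0 M₀) n t‖ :=
        (norm_sub_le _ _).trans (add_le_add (norm_sub_le _ _) le_rfl)
    _ ≤ B / R₂ ^ n + C * K / R₂ ^ n + C * M₀ / R₂ ^ n := add_le_add (add_le_add b1 b2) b3
    _ = _ := by ring

/-- The geometric sum. -/
private lemma WinA_geom (h R' R₂ : ℝ) (h0 : 0 < R') (h1 : R' < R₂) (c : ℕ → ℂ) (S : Finset ℕ)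
    (n₀ : ℕ) (t D : ℝ) (hD : ∀ n < n₀, ‖aS h c S n t‖ ≤ D / R₂ ^ n) :
    en h R' c S n₀ t ≤ D ^ 2 * (1 - (R' / R₂) ^ 2)⁻¹ := by
  have hR0 : 0 < R₂ := h0.trans h1
  set q : ℝ := (R' / R₂) ^ 2 with hq
  have hq0 : 0 ≤ q := by positivity
  have hq1 : q < 1 := by
    have e1 : R' / R₂ < 1 := by rw [div_lt_one hR0]; exact h1
    have e2 : 0 ≤ R' / R₂ := by positivity
    exact pow_lt_one₀ e2 e1 (by norm_num)
  have e1 : en h R' c S n₀ t ≤ ∑ n ∈ Finset.range n₀, D ^ 2 * q ^ n := by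
    rw [en]
    refine Finset.sum_le_sum fun n hn => ?_
    rw [Finset.mem_range] at hn
    have hRn : 0 < R₂ ^ n := pow_pos hR0 n
    have e3 : ‖aS h c S n t‖ ^ 2 ≤ (D / R₂ ^ n) ^ 2 :=
      pow_le_pow_left₀ (norm_nonneg _) (hD n hn) 2
    calc R' ^ (2 * n) * ‖aS h c S n t‖ ^ 2 ≤ R' ^ (2 * n) * (D / R₂ ^ n) ^ 2 :=
          mul_le_mul_of_nonneg_left e3 (by positivity)
      _ = D ^ 2 * q ^ n := by
          rw [hq, div_pow, div_pow, div_pow, ← pow_mul, ← pow_mul, ← pow_mul, mul_comm n 2]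
          ring
  refine e1.trans ?_
  rw [← Finset.mul_sum]
  refine mul_le_mul_of_nonneg_left ?_ (by positivity)
  rw [← tsum_geometric_of_lt_one hq0 hq1]
  exact (summable_geometric_of_lt_one hq0 hq1).sum_le_tsum _ fun n _ => by positivity

theorem tWinA (h1 : S_Phi) (h2 : S_Tc) (h3 : S_GUp) (h4 : S_LogW) : S_WinA := by
  intro h σ₁ b r₀ R R' R₂ R₁ C hh hC rad
  obtain ⟨A₀, hA₀, hlog⟩ := h4 h σ₁ b r₀ R R' R₂ R₁ C hh hC rad
  set K : ℝ := ∑' m : ℕ, (m : ℝ) ^ (-(3 / 2 : ℝ)) with hK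
  have hK0 : 0 ≤ K := tsum_nonneg fun m => by positivity
  have hR'0 : 0 < R' := by linarith [rad.r₀pos, rad.lt1, rad.lt2]
  have hR20 : 0 < R₂ := by linarith [rad.lt3]
  have hq : 0 ≤ (1 - (R' / R₂) ^ 2)⁻¹ := by
    have e1 : R' / R₂ < 1 := by rw [div_lt_one hR20]; exact rad.lt3
    have e2 : 0 ≤ R' / R₂ := by positivity
    have e3 : (R' / R₂) ^ 2 < 1 := pow_lt_one₀ e2 e1 (by norm_num)
    exact inv_nonneg.2 (by linarith)
  refine ⟨(A₀ + C + C * K) ^ 2 * (1 - (R' / R₂) ^ 2)⁻¹, by positivity, ?_⟩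
  intro c G t V hc hV hGd hG0 hGV hGe M₀ M₁ n₀ hM₁ hn₀
  obtain ⟨f, hfd, hf0, hfB⟩ := hlog c G t V hc hV hGd hG0 hGV hGe
  have hM0 : (0 : ℝ) ≤ M₀ := Nat.cast_nonneg _
  have hCK : 0 ≤ C * K := mul_nonneg hC hK0
  have key : ∀ n < n₀, ‖aS h c (Finset.Ioc M₀ M₁) n t‖ ≤
      ((A₀ + C + C * K) * (V + M₀ + 1)) / R₂ ^ n := by
    intro n hn
    have hRn : 0 < R₂ ^ n := pow_pos hR20 n
    rcases le_or_gt M₀ M₁ with hM | hM
    · refine (WinA_block h1 h2 h3 h hh r₀ R₂ rad.r₀pos (by linarith [rad.lt1, rad.lt2, rad.lt3])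
        (by linarith [rad.lt4, rad.lt5]) rad.e0 rad.e3 c C hC hc t (A₀ * (V + 1)) f
        (hfd.mono (ball_subset_ball rad.lt4.le)) hf0 hfB M₀ M₁ n₀ n hM₁ hM hn₀ hn.le).trans ?_
      refine div_le_div_of_nonneg_right ?_ hRn.le
      have e1 : 0 ≤ A₀ * M₀ := mul_nonneg hA₀ hM0
      have e2 : 0 ≤ C * (V + 1) := mul_nonneg hC (by linarith)
      have e3 : 0 ≤ (C * K) * (V + M₀) := mul_nonneg hCK (by linarith)
      nlinarith
    · rw [Finset.Ioc_eq_empty (by omega), aS, Finset.sum_empty, norm_zero]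
      positivity
  refine (WinA_geom h R' R₂ hR'0 rad.lt3 c (Finset.Ioc M₀ M₁) n₀ t _ key).trans (le_of_eq ?_)
  ring

end MP7ed9c3.Aw
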